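import Pool.Agent.AC5.Defs

set_option autoImplicit false

/-!
# AC5/Acyc: acyclicity from linear independence (MP_289c47_co, helper88)

PROOF. Suppose that `G.induce W`, `W = {v | c v = a ∨ c v = b}`, is not acyclic: it has a closed walk which is a cycle;
map it to `G` (`SimpleGraph.Embedding.induce`, `SimpleGraph.Walk.isCycle_map_iff_of_injective`): a cycle `p` of `G` with
all vertices in `W`. Let `H = p.toSubgraph`. For `v ∈ p.support` the set `H.neighborSet v` has exactly two elements
(`SimpleGraph.Walk.IsCycle.ncard_neighborSet_toSubgraph_eq_two`), for other `v` it is empty. Let `κ = s(a, b)`.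
For an edge `u v` of `H`, `c u, c v ∈ {a, b}` and `c u ≠ c v`, so `s(c u, c v) = s(a, b) = κ`.
(1) Let `s ∈ S ∩ p.support`, `H.neighborSet s = {u, v}`, `u ≠ v`. `c u, c v` are both in `{a, b}` and different from
`c s ∈ {a, b}`, so `c u = c v`; by `hM` `s ∈ M` and `N s = s(u, v)`; `col s = c u` (`hcol`), so
`s(col s, c s) = κ`.
(2) Relation: `∑_{e ∈ H.edgeSet} vec e = 0`: the value at `v` is the number of edges of `H` at `v` modulo two, the
cardinality of `H.neighborSet v`, `0` or `2`. The edges of `H` with no end in `S` are edges `e` of `KGr G S` with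
`e.map c = κ`. The other edges have exactly one end in `S` (`hS`), and those at `s ∈ S ∩ p.support` are `s(s, u)`,
`s(s, v)` with the notation of (1), `vec s(s, u) + vec s(s, v) = vec s(u, v) = vec (N s)`. So
`∑_{s ∈ S ∩ support} vec (N s) + ∑_{e ∈ H.edgeSet, no end in S} vec e = 0`.
This is a relation between the vectors of the independent family `hind κ`, with coefficients `1` at the indices
`s ∈ S ∩ support` (different `s` give different indices) and at the edges without end in `S`, `0` otherwise. So there is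
no `s ∈ S ∩ support` and no edge of `H` without end in `S`: but `H` has an edge; one of its ends is in `S` (and in the
support) or none. A contradiction.
(Instead of `(2)` one may argue with functions: for every `w : V` the value at `w` of the relation is
`∑_{s} [w ∈ N s] + ∑_{e} [w ∈ e]`, which is for `w ∉ S` the number of edges of `H` at `w`, and `0` for `w ∈ S`.)
-/

namespace Pool.Agent.AC5

private lemma Acyc_pv {V : Type} {u v : V} (h : u ≠ v) (w : V) [Decidable (w = u ∨ w = v)] :
    vec s(u, v) w = if w = u ∨ w = v then (1 : F) else 0 := by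
  rw [vec_mk]
  unfold pv
  by_cases h1 : w = u
  · subst h1
    simp [h]
  · by_cases h2 : w = v
    · subst h2
      simp [h1]
    · simp [h1, h2]

theorem acyc {V : Type} [Fintype V] {G : SimpleGraph V} {S : Set V}
    (hS : ∀ s ∈ S, ∀ t ∈ S, ¬ G.Adj s t) {c : V → ℕ} (hc : ∀ u v, G.Adj u v → c u ≠ c v)
    (M : Set V) (N : V → Sym2 V) (col : V → ℕ)
    (hM : ∀ s ∈ S, ∀ u v, u ≠ v → G.Adj s u → G.Adj s v → c u = c v → s ∈ M ∧ N s = s(u, v))
    (hcol : ∀ s ∈ M, ∀ x ∈ N s, c x = col s)
    (hind : ∀ κ : Sym2 ℕ, LinearIndependent F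
      (Sum.elim (fun i : {i : M // s(col i, c i) = κ} => vec (N i))
        (fun e : {e : (KGr G S).edgeSet // (e : Sym2 V).map c = κ} => vec (e : Sym2 V))))
    (a b : ℕ) : (G.induce {v | c v = a ∨ c v = b}).IsAcyclic := by
  classical
  intro v₀ p hp
  obtain ⟨f, hf⟩ : ∃ f : (G.induce {v | c v = a ∨ c v = b}) ↪g G,
      ∀ x, f x = (x : V) := ⟨SimpleGraph.Embedding.induce _, fun x => rfl⟩
  set q := p.map f.toHom with hq
  have hqc : q.IsCycle := (SimpleGraph.Walk.isCycle_map_iff_of_injective f.injective).2 hp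
  have hsup : ∀ x ∈ q.support, c x = a ∨ c x = b := by
    intro x hx
    rw [hq, SimpleGraph.Walk.support_map, List.mem_map] at hx
    obtain ⟨y, -, rfl⟩ := hx
    have h1 : f.toHom y = (y : V) := hf y
    rw [h1]
    exact y.2
  set H := q.toSubgraph with hH
  have hadjs : ∀ {x y}, H.Adj x y → x ∈ q.support := fun {x y} h =>
    (SimpleGraph.Walk.mem_verts_toSubgraph q).1 (H.edge_vert h)
  have hcard : ∀ x ∈ q.support, (H.neighborSet x).ncard = 2 := fun x hx =>
    hqc.ncard_neighborSet_toSubgraph_eq_two hx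
  have hκ : ∀ {x y}, H.Adj x y → s(c x, c y) = s(a, b) := by
    intro x y h
    have h1 := hsup x (hadjs h)
    have h2 := hsup y (hadjs h.symm)
    have h3 := hc x y h.adj_sub
    rcases h1 with h1 | h1 <;> rcases h2 with h2 | h2
    · exact absurd (h1.trans h2.symm) h3
    · rw [h1, h2]
    · rw [h1, h2]
      exact Sym2.eq_swap
    · exact absurd (h1.trans h2.symm) h3
  -- the vertices of `S` on the cycle
  have hSs : ∀ s ∈ S, s ∈ q.support → ∃ u v, u ≠ v ∧ H.neighborSet s = {u, v} ∧ s ∈ M ∧
      N s = s(u, v) ∧ s(col s, c s) = s(a, b) := by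
    intro s hs hss
    obtain ⟨u, v, huv, hn⟩ := Set.ncard_eq_two.1 (hcard s hss)
    have hu : H.Adj s u := by
      have : u ∈ H.neighborSet s := by rw [hn]; exact Or.inl rfl
      exact this
    have hv : H.Adj s v := by
      have : v ∈ H.neighborSet s := by rw [hn]; exact Or.inr rfl
      exact this
    have h1 := hκ hu
    have h2 := hκ hv
    have h3 : c u = c v := by
      rw [← h2] at h1
      exact Sym2.congr_right.1 h1
    obtain ⟨h4, h5⟩ := hM s hs u v huv hu.adj_sub hv.adj_sub h3
    refine ⟨u, v, huv, hn, h4, h5, ?_⟩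
    have h6 : c u = col s := hcol s h4 u (by rw [h5]; exact Sym2.mem_mk_left u v)
    rw [← h6, Sym2.eq_swap]
    exact h1
  -- the relation
  have hli := Fintype.linearIndependent_iff.1 (hind s(a, b))
    (Sum.elim (fun i : {i : M // s(col i, c i) = s(a, b)} =>
        if (i.1.1 : V) ∈ S ∧ (i.1.1 : V) ∈ q.support then (1 : F) else 0)
      (fun e : {e : (KGr G S).edgeSet // (e : Sym2 V).map c = s(a, b)} =>
        if (e.1.1 : Sym2 V) ∈ H.edgeSet then (1 : F) else 0)) (by
    rw [Fintype.sum_sum_type]
    simp only [Sum.elim_inl, Sum.elim_inr]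
    funext w
    rw [Pi.add_apply, Finset.sum_apply, Finset.sum_apply, Pi.zero_apply]
    have hA : ∑ i : {i : M // s(col i, c i) = s(a, b)},
        ((if (i.1.1 : V) ∈ S ∧ (i.1.1 : V) ∈ q.support then (1 : F) else 0) • vec (N i)) w =
        ∑ x : V, if H.Adj w x ∧ x ∈ S then (1 : F) else 0 := by
      refine Fintype.sum_of_injective (fun i => (i.1.1 : V))
        (fun i j hij => Subtype.ext (Subtype.ext hij)) _ _ ?_ ?_
      · intro x hx
        rw [if_neg]
        rintro ⟨h1, h2⟩
        obtain ⟨u, v, -, -, h3, -, h4⟩ := hSs x h2 (hadjs h1.symm)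
        exact hx ⟨⟨⟨x, h3⟩, h4⟩, rfl⟩
      · intro i
        show ((if (i.1.1 : V) ∈ S ∧ (i.1.1 : V) ∈ q.support then (1 : F) else 0) • vec (N i)) w =
          if H.Adj w i.1.1 ∧ i.1.1 ∈ S then (1 : F) else 0
        rw [Pi.smul_apply, smul_eq_mul]
        by_cases h1 : (i.1.1 : V) ∈ S ∧ (i.1.1 : V) ∈ q.support
        · rw [if_pos h1, one_mul]
          obtain ⟨u, v, huv, hn, -, h5, -⟩ := hSs i.1.1 h1.1 h1.2
          rw [h5, Acyc_pv huv]
          congr 1
          rw [eq_iff_iff]
          constructor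
          · intro h6
            refine ⟨?_, h1.1⟩
            have h7 : w ∈ H.neighborSet i.1.1 := by rw [hn]; exact h6
            exact SimpleGraph.Subgraph.Adj.symm h7
          · intro h6
            have h7 : w ∈ H.neighborSet i.1.1 := SimpleGraph.Subgraph.Adj.symm h6.1
            rw [hn] at h7
            exact h7
        · rw [if_neg h1, zero_mul, if_neg]
          rintro ⟨h2, h3⟩
          exact h1 ⟨h3, hadjs h2.symm⟩
    have hB : ∑ e : {e : (KGr G S).edgeSet // (e : Sym2 V).map c = s(a, b)},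
        ((if (e.1.1 : Sym2 V) ∈ H.edgeSet then (1 : F) else 0) • vec (e : Sym2 V)) w =
        ∑ x : V, if H.Adj w x ∧ w ∉ S ∧ x ∉ S then (1 : F) else 0 := by
      have h1 : ∑ e : {e : (KGr G S).edgeSet // (e : Sym2 V).map c = s(a, b)},
          ((if (e.1.1 : Sym2 V) ∈ H.edgeSet then (1 : F) else 0) • vec (e : Sym2 V)) w =
          ∑ e : Sym2 V, if e ∈ H.edgeSet ∧ e ∈ (KGr G S).edgeSet then vec e w else 0 := by
        refine Fintype.sum_of_injective (fun i => (i.1.1 : Sym2 V))
          (fun i j hij => Subtype.ext (Subtype.ext hij)) _ _ ?_ ?_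
        · intro e he
          rw [if_neg]
          rintro ⟨h1, h2⟩
          refine he ⟨⟨⟨e, h2⟩, ?_⟩, rfl⟩
          induction e using Sym2.ind with
          | _ x y => exact hκ h1
        · intro e
          show ((if (e.1.1 : Sym2 V) ∈ H.edgeSet then (1 : F) else 0) • vec (e : Sym2 V)) w =
            if e.1.1 ∈ H.edgeSet ∧ e.1.1 ∈ (KGr G S).edgeSet then vec e.1.1 w else 0
          rw [Pi.smul_apply, smul_eq_mul]
          by_cases h1 : (e.1.1 : Sym2 V) ∈ H.edgeSet
          · rw [if_pos h1, if_pos ⟨h1, e.1.2⟩, one_mul]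
          · rw [if_neg h1, if_neg (fun h => h1 h.1), zero_mul]
      rw [h1]
      symm
      refine Fintype.sum_of_injective (fun x => s(w, x)) (fun x y hxy => Sym2.congr_right.1 hxy)
        _ _ ?_ ?_
      · intro e he
        by_cases h2 : e ∈ H.edgeSet ∧ e ∈ (KGr G S).edgeSet
        · rw [if_pos h2]
          obtain ⟨h2, -⟩ := h2
          induction e using Sym2.ind with
          | _ x y =>
            have hxy : x ≠ y := (show H.Adj x y from h2).ne
            rw [Acyc_pv hxy, if_neg]
            rintro (rfl | rfl)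
            · exact he ⟨y, rfl⟩
            · exact he ⟨x, Sym2.eq_swap⟩
        · rw [if_neg h2]
      · intro x
        show (if H.Adj w x ∧ w ∉ S ∧ x ∉ S then (1 : F) else 0) =
          if s(w, x) ∈ H.edgeSet ∧ s(w, x) ∈ (KGr G S).edgeSet then vec s(w, x) w else 0
        by_cases h2 : H.Adj w x ∧ w ∉ S ∧ x ∉ S
        · rw [if_pos h2, if_pos ⟨h2.1, ⟨h2.1.adj_sub, h2.2⟩⟩, Acyc_pv h2.1.ne, if_pos (Or.inl rfl)]
        · rw [if_neg h2, if_neg]
          rintro ⟨h3, h4⟩
          exact h2 ⟨h3, h4.2⟩
    rw [hA, hB, ← Finset.sum_add_distrib]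
    have hsum : ∀ x : V, (if H.Adj w x ∧ x ∈ S then (1 : F) else 0) +
        (if H.Adj w x ∧ w ∉ S ∧ x ∉ S then (1 : F) else 0) =
        if H.Adj w x ∧ w ∉ S then (1 : F) else 0 := by
      intro x
      by_cases h1 : H.Adj w x
      · by_cases h2 : w ∈ S
        · have h3 : x ∉ S := fun h => hS w h2 x h h1.adj_sub
          simp [h1, h2, h3]
        · by_cases h3 : x ∈ S
          · simp [h1, h2, h3]
          · simp [h1, h2, h3]
      · simp [h1]
    rw [Finset.sum_congr rfl fun x _ => hsum x]
    by_cases hw : w ∈ S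
    · simp [hw]
    · simp only [hw, not_false_eq_true, and_true]
      rw [Finset.sum_boole]
      by_cases hws : w ∈ q.support
      · have h1 := hcard w hws
        have h2 : ((Finset.univ.filter fun x => H.Adj w x) : Finset V).card = 2 := by
          rw [← h1, ← Set.ncard_coe_finset]
          congr 1
          ext x
          simp [SimpleGraph.Subgraph.mem_neighborSet]
        rw [h2]
        rfl
      · have h2 : (Finset.univ.filter fun x => H.Adj w x : Finset V) = ∅ := by
          rw [Finset.filter_eq_empty_iff]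
          intro x _ hx
          exact hws (hadjs hx)
        rw [h2]
        simp)
  have hin : ∀ s ∈ S, s ∉ q.support := by
    intro s hs hss
    obtain ⟨u, v, -, -, h3, -, h4⟩ := hSs s hs hss
    have h5 := hli (Sum.inl ⟨⟨s, h3⟩, h4⟩)
    simp only [Sum.elim_inl] at h5
    rw [if_pos ⟨hs, hss⟩] at h5
    exact one_ne_zero h5
  -- an edge of the cycle
  have hst : f.toHom v₀ ∈ q.support := SimpleGraph.Walk.start_mem_support q
  obtain ⟨u, v, huv, hn⟩ := Set.ncard_eq_two.1 (hcard _ hst)
  have hu : H.Adj (f.toHom v₀) u := by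
    have : u ∈ H.neighborSet (f.toHom v₀) := by rw [hn]; exact Or.inl rfl
    exact this
  have n1 : f.toHom v₀ ∉ S := fun h => hin _ h hst
  have n2 : u ∉ S := fun h => hin _ h (hadjs hu.symm)
  have h5 := hli (Sum.inr ⟨⟨s(f.toHom v₀, u), ⟨hu.adj_sub, n1, n2⟩⟩, hκ hu⟩)
  simp only [Sum.elim_inr] at h5
  rw [if_pos (show s(f.toHom v₀, u) ∈ H.edgeSet from hu)] at h5
  exact one_ne_zero h5

end Pool.Agent.AC5
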