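import Pool.Agent.AC5.Defs

set_option autoImplicit false

/-!
# AC5/CB: connected sets and components (MP_289c47_co, helper88)

PROOF. `Conn.singleton`: a nonempty subset of `{x}` is `{x}`.
`Conn.union`: let `D ⊆ A ∪ A'` be nonempty and closed. `D ∩ A` is closed inside `A`, `D ∩ A'` inside `A'`; so each is
empty or everything (`hA.2`, `hA'.2`). One of them is nonempty, say `D ∩ A = A`; the edge of `h` from `a ∈ A` to
`b ∈ A'` gives `b ∈ D`, so `D ∩ A' = A'`.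
`comp_sub`, `mem_comp_self`: definition (`ha : a ∈ W`). `comp_closed`: if `x ∈ comp`, `y ∈ W`, `x ~ y`, then for every
closed `D ⊆ W` with `a ∈ D`: `x ∈ D`, so `y ∈ D`.
`comp_conn`: let `D ⊆ comp Γ W a` be nonempty and closed inside `comp Γ W a`. If `a ∈ D`: `D` is closed in `W` (if
`x ∈ D`, `y ∈ W`, `x ~ y` then `y ∈ comp` by `comp_closed`, so `y ∈ D`), so `comp ⊆ D` by definition. If `a ∉ D`:
`D' = comp Γ W a \ D` contains `a` and is closed in `W` (if `x ∈ D'`, `y ∈ W`, `x ~ y`, then `y ∈ comp`, and `y ∈ D` would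
give `x ∈ D`), so `comp ⊆ D'` and `D` is empty, a contradiction.
`comp_eq_of_conn`: `comp Γ W a` is a nonempty subset of `W` closed in `W`.
`not_conn_split`: if `W` is nonempty and not `Conn`, there is a nonempty closed `D ⊆ W` with `D ≠ W`; its complement
in `W` is closed too (symmetry of adjacency).
`conn_sub_comp`: `A ∩ comp Γ W a` is closed inside `A` and nonempty, so it is `A`.
`exists_nb_of_ne`: if `Conn Γ U`, `D ⊆ U \ Y` nonempty, closed in `U \ Y`, and `Y ∩ U` nonempty, then some element of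
`D` is adjacent to some element of `Y ∩ U`: otherwise `D` is closed in `U`, so `D = U`, contradicting `Y ∩ U ≠ ∅`.
`comp_ne`: two components either are equal or disjoint and without edges between them; stated as: if `b ∈ W`,
`b ∉ comp Γ W a`, then `comp Γ W a` and `comp Γ W b` are disjoint. Proof: `comp Γ W a` is closed in `W`, so its
complement `W \ comp Γ W a` is closed in `W` and contains `b`, so it contains `comp Γ W b`.
-/

namespace Pool.Agent.AC5

variable {B : Type} {Γ : SimpleGraph B}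

lemma Conn.singleton (x : B) : Conn Γ {x} := by
  refine ⟨Set.singleton_nonempty x, fun D hD h0 _ => ?_⟩
  exact (Set.subset_singleton_iff_eq.1 hD).resolve_left h0.ne_empty

/-- a closed set which meets a connected set contains it -/
private lemma CB_closed {A D : Set B} (hA : Conn Γ A) (h0 : (D ∩ A).Nonempty)
    (hcl : ∀ x ∈ D, ∀ y ∈ A, Γ.Adj x y → y ∈ D) : A ⊆ D := by
  have h := hA.2 (D ∩ A) Set.inter_subset_right h0
    (fun x hx y hy hxy => ⟨hcl x hx.1 y hy hxy, hy⟩)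
  rw [← h]
  exact Set.inter_subset_left

lemma Conn.union {A A' : Set B} (hA : Conn Γ A) (hA' : Conn Γ A') (h : Tch Γ A A') :
    Conn Γ (A ∪ A') := by
  obtain ⟨a, ha, b, hb, hab⟩ := h
  refine ⟨⟨a, Or.inl ha⟩, fun D hD h0 hcl => ?_⟩
  obtain ⟨x, hx⟩ := h0
  have c1 : ∀ x ∈ D, ∀ y ∈ A, Γ.Adj x y → y ∈ D := fun x hx y hy => hcl x hx y (Or.inl hy)
  have c2 : ∀ x ∈ D, ∀ y ∈ A', Γ.Adj x y → y ∈ D := fun x hx y hy => hcl x hx y (Or.inr hy)
  refine Set.Subset.antisymm hD ?_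
  rcases hD hx with hxA | hxA
  · have h1 := CB_closed hA ⟨x, hx, hxA⟩ c1
    have h2 := CB_closed hA' ⟨b, c2 a (h1 ha) b hb hab, hb⟩ c2
    exact Set.union_subset h1 h2
  · have h2 := CB_closed hA' ⟨x, hx, hxA⟩ c2
    have h1 := CB_closed hA ⟨a, c1 b (h2 hb) a ha hab.symm, ha⟩ c1
    exact Set.union_subset h1 h2

lemma Tch.symm {A A' : Set B} (h : Tch Γ A A') : Tch Γ A' A := by
  obtain ⟨a, ha, b, hb, h⟩ := h
  exact ⟨b, hb, a, ha, h.symm⟩

lemma comp_sub (W : Set B) (a : B) : comp Γ W a ⊆ W := fun _ h => h.1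

lemma mem_comp_self {W : Set B} {a : B} (ha : a ∈ W) : a ∈ comp Γ W a :=
  ⟨ha, fun _ _ h _ => h⟩

lemma comp_closed {W : Set B} {a x y : B} (hx : x ∈ comp Γ W a) (hy : y ∈ W) (h : Γ.Adj x y) :
    y ∈ comp Γ W a :=
  ⟨hy, fun D hD ha hcl => hcl x (hx.2 D hD ha hcl) y hy h⟩

lemma comp_conn {W : Set B} {a : B} (ha : a ∈ W) : Conn Γ (comp Γ W a) := by
  refine ⟨⟨a, mem_comp_self ha⟩, fun D hD h0 hcl => ?_⟩
  refine Set.Subset.antisymm hD ?_
  by_cases haD : a ∈ D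
  · intro x hx
    exact hx.2 D (hD.trans (comp_sub W a)) haD
      (fun u hu v hv huv => hcl u hu v (comp_closed (hD hu) hv huv) huv)
  · exfalso
    obtain ⟨d, hd⟩ := h0
    have h1 := (hD hd).2 (comp Γ W a \ D) (fun x hx => hx.1.1) ⟨mem_comp_self ha, haD⟩
      (fun u hu v hv huv => by
        refine ⟨comp_closed hu.1 hv huv, fun hvD => hu.2 ?_⟩
        exact hcl v hvD u hu.1 huv.symm)
    exact h1.2 hd

lemma comp_eq_of_conn {W : Set B} {a : B} (hW : Conn Γ W) (ha : a ∈ W) : comp Γ W a = W :=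
  hW.2 (comp Γ W a) (comp_sub W a) ⟨a, mem_comp_self ha⟩
    (fun _ hx _ hy hxy => comp_closed hx hy hxy)

lemma not_conn_split {W : Set B} (h0 : W.Nonempty) (h : ¬ Conn Γ W) :
    ∃ D ⊆ W, D.Nonempty ∧ D ≠ W ∧ (∀ x ∈ D, ∀ y ∈ W, Γ.Adj x y → y ∈ D) ∧
      ∀ x ∈ W, x ∉ D → ∀ y ∈ W, Γ.Adj x y → y ∉ D := by
  unfold Conn at h
  push Not at h
  obtain ⟨D, hD, hD0, hcl, hne⟩ := h h0
  refine ⟨D, hD, hD0, hne, hcl, fun x hx hxD y _ hxy hyD => hxD ?_⟩
  exact hcl y hyD x hx hxy.symm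

lemma conn_sub_comp {W A : Set B} {a x : B} (hA : Conn Γ A) (hAW : A ⊆ W) (hx : x ∈ A)
    (hx' : x ∈ comp Γ W a) : A ⊆ comp Γ W a :=
  CB_closed hA ⟨x, hx', hx⟩ (fun _ hu _ hv huv => comp_closed hu (hAW hv) huv)

lemma exists_nb_of_closed {U Y D : Set B} (hU : Conn Γ U) (hD : D ⊆ U \ Y) (h0 : D.Nonempty)
    (hcl : ∀ x ∈ D, ∀ y ∈ U \ Y, Γ.Adj x y → y ∈ D) (hY : (Y ∩ U).Nonempty) :
    ∃ x ∈ D, ∃ y ∈ Y ∩ U, Γ.Adj x y := by
  by_contra hcon
  push Not at hcon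
  have h := hU.2 D (fun x hx => (hD hx).1) h0 (fun x hx y hy hxy => by
    by_cases hyY : y ∈ Y
    · exact absurd hxy (hcon x hx y ⟨hyY, hy⟩)
    · exact hcl x hx y ⟨hy, hyY⟩ hxy)
  obtain ⟨y, hyY, hyU⟩ := hY
  rw [← h] at hyU
  exact (hD hyU).2 hyY

lemma comp_disj {W : Set B} {a b : B} (hb : b ∈ W) (h : b ∉ comp Γ W a) :
    Disjoint (comp Γ W a) (comp Γ W b) := by
  rw [Set.disjoint_left]
  intro x hxa hxb
  have h1 := hxb.2 (W \ comp Γ W a) Set.sdiff_subset ⟨hb, h⟩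
    (fun u hu v hv huv => ⟨hv, fun hva => hu.2 (comp_closed hva hu.1 huv.symm)⟩)
  exact h1.2 hxa

end Pool.Agent.AC5
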