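import Pool.Agent.AC5.RC2

set_option autoImplicit false

/-!
# AC5/RC3: the dimension bound (MP_289c47_co, helper88)

PROOF. `outer`: the functions supported on `C` are in `Uq R Qo` (the neighbours of `s ∈ Qo` and their opposites are not
in `C`), their space `sup C` has dimension `C.ncard` (`finrank_sup`), and `(Uq R Qo ⊓ sup Cᶜ) ⊓ sup C = ⊥`; both are
contained in `Uq R Qo`, so the dimensions add up to at most `finrank (Uq R Qo)`
(`Submodule.finrank_sup_add_finrank_inf_eq`).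
`Uq_dim`: strong induction on `Q.ncard` (generalizing `Q`). If `Q = ∅`: `finrank ≤ finrank (V → F) = Nat.card V`.
Otherwise take `s0 ∈ Q`; it has a neighbour `b0` (degree four); let `C` be the set of `exists_QC`. `s0 ∈ Q1 G Q C`, so
`(Q \ Q1 G Q C).ncard < Q.ncard` and the induction hypothesis applies to `Qo = Q \ Q1 G Q C`. Write `q = (Qs).ncard`,
`m = (Q1 \ Qs).ncard`, so `Q.ncard = Qo.ncard + q + m`.
`Cyc_dim` for `A = Th G (Q1 G Q C) C`, `W = C ∪ Q1 G Q C`:
`4 q + 2 m + 1 ≤ finrank (Cyc A) + C.ncard + q + m` (`Th_ncard_m`; `W.ncard ≤ C.ncard + q + m`).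
`rank_ineq`, `Cyc_self` (`finrank ≤ 2 q`), `outer` and the induction hypothesis
`finrank (Uq R Qo) + Qo.ncard ≤ Nat.card V`. Then `omega`:
`finrank (Uq R Q) ≤ 2 q + 1 + (|V| - |Qo| - |C|) - (4 q + 2 m + 1 - |C| - q - m) = |V| - |Qo| - q - m`.
-/

namespace Pool.Agent.AC5

open Pool.Agent.H18Thick (Rotation)

variable {V : Type} [Fintype V] {G : SimpleGraph V}

lemma outer {R : Rotation G} {Q C : Set V} (h : QC R Q C) :
    Module.finrank F (Uq R (Q \ Q1 G Q C) ⊓ sup Cᶜ : Submodule F (V → F)) + C.ncard ≤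
      Module.finrank F (Uq R (Q \ Q1 G Q C)) := by
  have hC : sup C ≤ Uq R (Q \ Q1 G Q C) := by
    intro f hf
    rw [mem_Uq]
    intro s hs b hb
    rw [mem_sup] at hf
    rw [hf b (fun hbC => hs.2 ⟨hs.1, b, hb, hbC⟩),
      hf (opp R s b) (fun hbC => hs.2 ⟨hs.1, _, opp_adj R hb, hbC⟩)]
  have hbot : (Uq R (Q \ Q1 G Q C) ⊓ sup Cᶜ) ⊓ sup C = ⊥ := by
    rw [eq_bot_iff]
    rintro f ⟨⟨_, h2⟩, h3⟩
    rw [Submodule.mem_bot]
    funext v
    have h2' := (mem_sup.1 h2) v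
    have h3' := (mem_sup.1 h3) v
    by_cases hv : v ∈ C
    · exact h2' (fun hc => hc hv)
    · exact h3' hv
  have h4 := Submodule.finrank_sup_add_finrank_inf_eq (Uq R (Q \ Q1 G Q C) ⊓ sup Cᶜ) (sup C)
  rw [hbot, finrank_bot, add_zero, finrank_sup] at h4
  rw [← h4]
  exact Submodule.finrank_mono (sup_le inf_le_left hC)

theorem Uq_dim (hc : G.Connected) (R : Rotation G)
    (he : Nat.card V + R.faces.ncard = G.edgeSet.ncard + 2) {Q : Set V}
    (h1 : ∀ s ∈ Q, ∀ t ∈ Q, ¬ G.Adj s t) (h2 : ∀ s ∈ Q, (G.neighborSet s).ncard = 4) :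
    Module.finrank F (Uq R Q) + Q.ncard ≤ Nat.card V := by
  induction hn : Q.ncard using Nat.strong_induction_on generalizing Q with
  | _ n ih =>
    rcases Q.eq_empty_or_nonempty with rfl | ⟨s0, hs0⟩
    · rw [Set.ncard_empty] at hn
      subst hn
      rw [add_zero]
      refine (Submodule.finrank_le _).trans ?_
      rw [Module.finrank_fintype_fun_eq_card, Nat.card_eq_fintype_card]
    · have hne : (G.neighborSet s0).Nonempty := by
        rw [← Set.ncard_pos (Set.toFinite _), h2 s0 hs0]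
        norm_num
      obtain ⟨b0, hb0⟩ := hne
      obtain ⟨C, hQC, hbC, hC⟩ := exists_QC R h1 h2 hs0 hb0
      have hsub : Q1 G Q C ⊆ Q := fun s hs => hs.1
      have hsub2 : Qs G Q C ⊆ Q1 G Q C := fun s hs => hs.1
      have e1 := Set.ncard_sdiff_add_ncard_of_subset hsub (Set.toFinite _)
      have e2 := Set.ncard_sdiff_add_ncard_of_subset hsub2 (Set.toFinite _)
      have hs0' : s0 ∈ Q1 G Q C := ⟨hs0, b0, hb0, hbC⟩
      have hpos : 0 < (Q1 G Q C).ncard := (Set.ncard_pos (Set.toFinite _)).2 ⟨s0, hs0'⟩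
      have i1 := ih (Q \ Q1 G Q C).ncard (by omega) (Q := Q \ Q1 G Q C)
        (fun s hs t ht => h1 s hs.1 t ht.1) (fun s hs => h2 s hs.1) rfl
      have i2 := Cyc_dim (A := Th G (Q1 G Q C) C) (W := C ∪ Q1 G Q C) ⟨b0, Or.inl hbC⟩ (by
        rintro v w ⟨s, hs, b, hb, _, h3⟩
        rcases Sym2.eq_iff.1 h3 with ⟨rfl, _⟩ | ⟨rfl, _⟩
        · exact Or.inr hs
        · exact Or.inl hb) (by
        rintro v ⟨s, hs, b, hb, ha, h3⟩
        rcases Sym2.eq_iff.1 h3 with ⟨rfl, rfl⟩ | ⟨rfl, rfl⟩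
        · exact ha.ne rfl
        · exact ha.ne rfl)
      have i3 := Set.ncard_union_le C (Q1 G Q C)
      have i4 := rank_ineq hc R he hQC hbC hC
      have i5 := Cyc_self hc R he hQC
      have i6 := outer hQC
      have i7 := Th_ncard_m hQC
      omega

end Pool.Agent.AC5
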