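import Pool.Agent.AC5.Rado
import Pool.Agent.AC5.RC3

set_option autoImplicit false

/-!
# AC5/ChooseN: independent opposite pairs (MP_289c47_co, helper88)

PROOF. `ann_dim`: the map `V → F` to the dual of `span X`, `f ↦ (x ↦ ∑ v, f v * x v)`, has kernel the space on the
left and is surjective (a functional on a subspace extends to `V → F`, and every functional on `V → F` is of the form
`x ↦ ∑ v, f v * x v`). (Or `LinearMap.BilinForm.finrank_orthogonal`, `Matrix.rank_transpose`, etc. Only
`Nat.card V ≤ _ + _` is needed.)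
`choose_pairs`: let `ι = S4 G S` (a subtype, finite), and for `s ∈ S4` let `A s` be the finite set of the vectors
`pv b (opp s b)`, `b` a neighbour of `s`. Condition of `rado`: let `T : Finset ι`, `Q` the image of `T` in `V`
(`Q.ncard = T.card`), `X = ⋃ s ∈ T, A s`. The functions `f` orthogonal to `X` are the elements of `Uq R Q`:
`∑ v, f v * pv b b' v = f b + f b'`, which is `0` iff `f b = f b'`. So by `ann_dim` and `Uq_dim`:
`Nat.card V ≤ finrank (Uq R Q) + finrank (span X) ≤ Nat.card V - T.card + finrank (span X)`. `rado` gives `x`, and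
`x s ∈ A s` gives the neighbour `p s`; `x s = pv (p s) (opp s (p s))`. For `s ∈ S \ S4` take for `p s` any neighbour
(`hne`), for `s ∉ S` anything.
-/

namespace Pool.Agent.AC5

open Pool.Agent.H18Thick (Rotation)

variable {V : Type} [Fintype V] {G : SimpleGraph V}

lemma ann_dim (X : Set (V → F)) (U : Submodule F (V → F))
    (hU : ∀ f, (∀ x ∈ X, ∑ v, f v * x v = 0) → f ∈ U) :
    Nat.card V ≤ Module.finrank F U + Module.finrank F (Submodule.span F X) := by
  let S := Submodule.span F X
  let φ : (V → F) →ₗ[F] Module.Dual F S :=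
    LinearMap.mk₂ F (fun f (x : S) => ∑ v, f v * (x : V → F) v)
      (by intro a b x; simp [add_mul, Finset.sum_add_distrib])
      (by intro c a x; simp [Finset.mul_sum, mul_assoc])
      (by intro a x y; simp [mul_add, Finset.sum_add_distrib])
      (by intro c a x; simp [Finset.mul_sum, mul_left_comm])
  have hker : LinearMap.ker φ ≤ U := by
    intro f hf
    apply hU
    intro x hx
    have h1 : φ f ⟨x, Submodule.subset_span hx⟩ = 0 := by
      rw [LinearMap.mem_ker.1 hf]
      rfl
    exact h1
  have h1 := LinearMap.finrank_range_add_finrank_ker φ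
  have h2 : Module.finrank F (LinearMap.range φ) ≤ Module.finrank F (Module.Dual F S) :=
    Submodule.finrank_le _
  have h3 : Module.finrank F (Module.Dual F S) = Module.finrank F S := Subspace.dual_finrank_eq
  have h4 : Module.finrank F (LinearMap.ker φ) ≤ Module.finrank F U :=
    Submodule.finrank_mono hker
  have h5 : Module.finrank F (V → F) = Nat.card V := by
    rw [Module.finrank_fintype_fun_eq_card, Nat.card_eq_fintype_card]
  have h6 : Module.finrank F (Submodule.span F X) = Module.finrank F S := rfl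
  omega

theorem choose_pairs (hc : G.Connected) (R : Rotation G)
    (he : Nat.card V + R.faces.ncard = G.edgeSet.ncard + 2) {S : Set V}
    (hS : ∀ s ∈ S, ∀ t ∈ S, ¬ G.Adj s t) (hne : ∀ s, ∃ b, G.Adj s b) :
    ∃ p : V → V, (∀ s ∈ S, G.Adj s (p s)) ∧
      LinearIndependent F (fun s : S4 G S => (pv (p s) (opp R s (p s)) : V → F)) := by
  classical
  let A : {s // s ∈ S4 G S} → Finset (V → F) := fun s =>
    (Finset.univ.filter fun b => G.Adj s.1 b).image fun b => pv b (opp R s.1 b)
  have hA : ∀ (s : {s // s ∈ S4 G S}) (x : V → F), x ∈ A s ↔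
      ∃ b, G.Adj s.1 b ∧ pv b (opp R s.1 b) = x := by
    intro s x
    simp [A]
  obtain ⟨x, hx, hli⟩ := rado A (by
    intro T
    let Q : Set V := (fun s : {s // s ∈ S4 G S} => s.1) '' (T : Set {s // s ∈ S4 G S})
    have hQc : Q.ncard = T.card := by
      rw [Set.ncard_image_of_injective _ Subtype.val_injective, Set.ncard_coe_finset]
    have hQ4 : ∀ s ∈ Q, s ∈ S4 G S := by
      rintro _ ⟨s, _, rfl⟩
      exact s.2
    have h1 := ann_dim (⋃ i ∈ T, (A i : Set (V → F))) (Uq R Q) (by
      intro f hf s hs b hb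
      obtain ⟨i, hi, rfl⟩ := hs
      have h2 : pv b (opp R i.1 b) ∈ ⋃ i ∈ T, (A i : Set (V → F)) := by
        rw [Set.mem_iUnion₂]
        exact ⟨i, hi, Finset.mem_coe.2 ((hA i _).2 ⟨b, hb, rfl⟩)⟩
      have h3 := hf _ h2
      have h4 : f b + f (opp R i.1 b) = 0 := by
        simpa [pv, mul_add, Finset.sum_add_distrib] using h3
      exact CharTwo.add_eq_zero.1 h4)
    have h2 := Uq_dim hc R he (Q := Q) (fun s hs t ht => hS s (hQ4 s hs).1 t (hQ4 t ht).1)
      (fun s hs => (hQ4 s hs).2)
    omega)
  have hx' : ∀ s : {s // s ∈ S4 G S}, ∃ b, G.Adj s.1 b ∧ pv b (opp R s.1 b) = x s :=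
    fun s => (hA s _).1 (hx s)
  choose q hq1 hq2 using hx'
  choose b hb using hne
  refine ⟨fun s => if h : s ∈ S4 G S then q ⟨s, h⟩ else b s, ?_, ?_⟩
  · intro s _
    by_cases h : s ∈ S4 G S
    · simp only [h, dif_pos]
      exact hq1 ⟨s, h⟩
    · simp only [h, dif_neg, not_false_iff]
      exact hb s
  · have e : (fun s : {s // s ∈ S4 G S} =>
        (pv ((fun s : V => if h : s ∈ S4 G S then q ⟨s, h⟩ else b s) s.1)
          (opp R s.1 ((fun s : V => if h : s ∈ S4 G S then q ⟨s, h⟩ else b s) s.1)) : V → F)) =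
        x := by
      funext s
      have h1 : (s.1 ∈ S4 G S) := s.2
      simp only [h1, dif_pos]
      exact hq2 s
    exact e ▸ hli

end Pool.Agent.AC5
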