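import Pool.Agent.AC5.Defs

set_option autoImplicit false

/-!
# AC5/CycDim: lower bound for the dimension of the cycle space (MP_289c47_co, helper88)

PROOF. Consider the linear map `∂ : sup A → (V → F)`, `∂ z v = ∑ w, z s(v, w)`. Its kernel is (isomorphic to) `Cyc A`
(`Cyc A = sup A ⊓ ker`), and `finrank (sup A) = A.ncard` (`sup A` is isomorphic to the functions on the subtype `A`;
the type `Sym2 V` is finite). The range is contained in
`M = {g | (∀ v, v ∉ W → g v = 0) ∧ ∑ v, g v = 0}`: if `v ∉ W` then no element of `A` contains `v`, so all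
`z s(v, w)` vanish; and `∑ v, ∑ w, z s(v, w) = 0` because the pairs `(v, w)` and `(w, v)` have the same value and the
diagonal pairs have value `0` (no loop is in `A`; characteristic two; e.g. `Finset.sum_involution` on
`Finset.univ ×ˢ Finset.univ`). `finrank M + 1 ≤ W.ncard`: `M` is the kernel of the nonzero functional
`g ↦ ∑ v, g v` on `sup W` (nonzero at `Pi.single v 1`, `v ∈ W`), so it is a proper subspace of `sup W`, which has
dimension `W.ncard` (`Submodule.finrank_lt_finrank_of_lt`). Rank-nullity:
`A.ncard = finrank (Cyc A) + finrank (range ∂) ≤ finrank (Cyc A) + W.ncard - 1`.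
-/

namespace Pool.Agent.AC5

open Classical in
private noncomputable def supEquiv {E : Type} (A : Set E) : sup A ≃ₗ[F] (A → F) where
  toFun z := fun a => z.1 a.1
  map_add' _ _ := rfl
  map_smul' _ _ := rfl
  invFun g := ⟨fun e => if h : e ∈ A then g ⟨e, h⟩ else 0, fun e he => dif_neg he⟩
  left_inv z := by
    apply Subtype.ext
    funext e
    by_cases he : e ∈ A
    · simp [he]
    · simp [he, z.2 e he]
  right_inv g := by
    funext a
    simp

lemma finrank_sup {E : Type} [Finite E] (A : Set E) : Module.finrank F (sup A) = A.ncard := by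
  have := Fintype.ofFinite A
  rw [(supEquiv A).finrank_eq, Module.finrank_fintype_fun_eq_card, ← Nat.card_eq_fintype_card]
  rfl

/-- the boundary map -/
private noncomputable def bd (V : Type) [Fintype V] : (Sym2 V → F) →ₗ[F] (V → F) where
  toFun z := fun v => ∑ w, z s(v, w)
  map_add' x y := by
    funext v
    simp [Finset.sum_add_distrib]
  map_smul' c x := by
    funext v
    simp [Finset.mul_sum]

/-- the sum of the coordinates -/
private noncomputable def tot (V : Type) [Fintype V] : (V → F) →ₗ[F] F where
  toFun g := ∑ v, g v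
  map_add' x y := by simp [Finset.sum_add_distrib]
  map_smul' c x := by simp [Finset.mul_sum]

theorem Cyc_dim {V : Type} [Fintype V] {A : Set (Sym2 V)} {W : Set V} (hW : W.Nonempty)
    (h1 : ∀ v w, s(v, w) ∈ A → v ∈ W) (h2 : ∀ v, s(v, v) ∉ A) :
    A.ncard + 1 ≤ Module.finrank F (Cyc A) + W.ncard := by
  classical
  set f : sup A →ₗ[F] (V → F) := (bd V).domRestrict (sup A) with hf
  have hrk := LinearMap.finrank_range_add_finrank_ker f
  rw [finrank_sup] at hrk
  have hker : Module.finrank F (LinearMap.ker f) = Module.finrank F (Cyc A) := by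
    have hmap : Submodule.map (sup A).subtype (LinearMap.ker f) = Cyc A := by
      ext z
      simp only [Submodule.mem_map, LinearMap.mem_ker, Submodule.subtype_apply, Subtype.exists,
        exists_and_right, exists_eq_right, mem_Cyc]
      constructor
      · rintro ⟨hz, hz2⟩
        exact ⟨hz, fun v => congrFun hz2 v⟩
      · rintro ⟨hz, hz2⟩
        exact ⟨hz, funext fun v => hz2 v⟩
    rw [← Submodule.finrank_map_subtype_eq, hmap]
  have hran : LinearMap.range f ≤ sup W ⊓ LinearMap.ker (tot V) := by
    rintro g ⟨z, rfl⟩
    refine ⟨fun v hv => ?_, ?_⟩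
    · change ∑ w, z.1 s(v, w) = 0
      refine Finset.sum_eq_zero fun w _ => z.2 _ fun hmem => hv (h1 v w hmem)
    · change ∑ v, ∑ w, z.1 s(v, w) = 0
      rw [← Finset.sum_product']
      refine Finset.sum_involution (fun p _ => p.swap) ?_ ?_ ?_ ?_
      · rintro ⟨v, w⟩ _
        change z.1 s(v, w) + z.1 s(w, v) = 0
        rw [Sym2.eq_swap]
        exact CharTwo.add_self_eq_zero _
      · rintro ⟨v, w⟩ _ hne heq
        apply hne
        have : w = v := congrArg Prod.fst heq
        subst this
        exact z.2 _ (h2 w)
      · intro p _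
        simp
      · intro p _
        exact Prod.swap_swap p
  have hlt : sup W ⊓ LinearMap.ker (tot V) < sup W := by
    refine lt_of_le_of_ne inf_le_left fun heq => ?_
    obtain ⟨v, hv⟩ := hW
    have hmem : (Pi.single v 1 : V → F) ∈ sup W := by
      intro e he
      have hev : e ≠ v := by
        rintro rfl
        exact he hv
      exact Pi.single_eq_of_ne hev _
    rw [← heq] at hmem
    have h3 : ∑ x, (Pi.single v 1 : V → F) x = 0 := hmem.2
    rw [Finset.sum_pi_single'] at h3
    simp at h3
  have h3 := Submodule.finrank_lt_finrank_of_lt hlt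
  have h4 := Submodule.finrank_mono hran
  rw [finrank_sup] at h3
  rw [hker] at hrk
  omega

end Pool.Agent.AC5
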