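import Pool.Agent.AC5.PickB
import Pool.Agent.AC5.CycDim

set_option autoImplicit false

/-!
# AC5/PickC: the part outside `T` (MP_289c47_co, helper88)

PROOF. `pivot`: a subspace `W` of `ι → F` has a set `J` of coordinates with `J.card = finrank W` such that an element of
`W` vanishing on `J` is `0`. (The coordinate functionals restricted to `W` span the dual of `W`: choose a basis among
them, e.g. `exists_linearIndependent`; or induction on `finrank W`: if `W ≠ ⊥` there is a coordinate `i` which is not
identically zero on `W`, and `W ⊓ {a | a i = 0}` has dimension one less. Only `J.card ≤ finrank W` is needed.)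
`pickC`: let `φ = Fintype.linearCombination F n`, `n i = vec (N i)`, `q = res T ∘ₗ φ`, `W = sup X ⊓ ker q`, `J` from
`pivot`, `D κ0 = Mk _ _ _ _ X κ0 ⊓ ker q`. For a colour `α` and `κ0` put
`X κ0 α = {i ∈ X | col i = α, ∃ b, k i b = κ0}`.
(1) If `α ∈ kp κ0`, then `finrank (D κ0) ≤ (J ∩ X κ0 α).card`: the restriction of coordinates
`D κ0 → (J ∩ X κ0 α → F)` is injective. Let `a ∈ D κ0` vanish on `J ∩ X κ0 α`. Let `a' i = a i` if `col i = α`, `0`
otherwise. `φ a' v = φ a v` if `c v = α` and `0` otherwise, because `n i` is supported on vertices of colour `col i`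
(`cN`; `vec (N i) v ≠ 0` implies `v ∈ N i`). So `q a' = 0` (`q a = 0` and `q a' v` is `q a v` or `0`) and
`a' ∈ sup X`: `a' ∈ W`. `a'` vanishes on `J`: let `i ∈ J`; if `col i ≠ α`: clear; if `col i = α` and
`i ∈ X κ0 α`: by assumption; if `col i = α` and `i ∉ X κ0 α`, then `a i = 0` because `a ∈ Mk`. So `a' = 0`, hence
`φ a v = 0` for all `v` with `c v = α`; and `φ a` vanishes on `T` (`q a = 0`) and is in the span of the `vec e` with
`κ e = κ0`. By `zero_of_class` `φ a = 0`, so `a = 0` (`iN`).
(2) `2 * finrank (D κ0) ≤ (J.filter (fun i => i ∈ X ∧ ∃ b, k i b = κ0)).card`: write `kp κ0 = s(α, β)`. If `α ≠ β`: (1)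
for `α` and `β`, and `X κ0 α`, `X κ0 β` are disjoint. If `α = β`: no `i` has `κ0` as an option
(`s(col i, op i b) = s(α, α)` contradicts `ne`), so `D κ0 = ⊥`.
(3) Sum over `κ0`: `2 * ∑ finrank (D κ0) ≤ ∑_{i ∈ J} #{κ0 | ∃ b, k i b = κ0} ≤ 2 * J.card = 2 * finrank W`.
-/

namespace Pool.Agent.AC5

theorem pivot {ι : Type} [Fintype ι] (W : Submodule F (ι → F)) :
    ∃ J : Finset ι, J.card ≤ Module.finrank F W ∧ ∀ a ∈ W, (∀ i ∈ J, a i = 0) → a = 0 := by
  classical
  have key : ∀ (n : ℕ) (W : Submodule F (ι → F)), Module.finrank F W ≤ n →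
      ∃ J : Finset ι, J.card ≤ n ∧ ∀ a ∈ W, (∀ i ∈ J, a i = 0) → a = 0 := by
    intro n
    induction n with
    | zero =>
      intro W hW
      have h0 : W = ⊥ := Submodule.finrank_eq_zero.1 (Nat.le_zero.1 hW)
      exact ⟨∅, le_rfl, fun a ha _ => by simpa [h0] using ha⟩
    | succ n ih =>
      intro W hW
      by_cases hb : W = ⊥
      · exact ⟨∅, Nat.zero_le _, fun a ha _ => by simpa [hb] using ha⟩
      · obtain ⟨a, ha, ha0⟩ := Submodule.exists_mem_ne_zero_of_ne_bot hb
        obtain ⟨i, hi⟩ : ∃ i, a i ≠ 0 := by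
          by_contra hc
          push Not at hc
          exact ha0 (funext hc)
        set W' : Submodule F (ι → F) := W ⊓ LinearMap.ker (LinearMap.proj i : (ι → F) →ₗ[F] F)
          with hW'
        have hlt : W' < W := by
          refine lt_of_le_of_ne inf_le_left fun h => ?_
          have h1 : a ∈ W' := h ▸ ha
          exact hi (by simpa using h1.2)
        have h2 : Module.finrank F W' ≤ n := by
          have := Submodule.finrank_lt_finrank_of_lt hlt
          omega
        obtain ⟨J, hJ, hJ2⟩ := ih W' h2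
        refine ⟨insert i J, (Finset.card_insert_le _ _).trans (by omega), fun b hb hb2 => ?_⟩
        refine hJ2 b ⟨hb, ?_⟩ fun j hj => hb2 j (Finset.mem_insert_of_mem hj)
        simpa using hb2 i (Finset.mem_insert_self _ _)
  exact key _ W le_rfl

lemma vec_ne {V : Type} {e : Sym2 V} {v : V} (h : vec e v ≠ 0) : v ∈ e := by
  induction e using Sym2.ind with
  | _ u w =>
    rw [Sym2.mem_iff]
    by_contra hc
    push Not at hc
    exact h (by simp [pv, hc.1, hc.2])

section

variable {V ι Kap : Type} [Fintype V] [Fintype ι] [Fintype Kap] {K : SimpleGraph V}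
    {c : V → ℕ} {T : Set V} {N : ι → Sym2 V} {col : ι → ℕ} {op : ι → Bool → ℕ} {kp : Kap → Sym2 ℕ}
    {k : ι → Bool → Kap} {κ : K.edgeSet → Kap}

open Classical in
/-- the colour `α` part of a coefficient vector -/
lemma comb_part (h : Pick K c T N col op kp k κ) (a : ι → F) (α : ℕ) (v : V) :
    Fintype.linearCombination F (fun i => vec (N i)) (fun i => if col i = α then a i else 0) v =
      if c v = α then Fintype.linearCombination F (fun i => vec (N i)) a v else 0 := by
  simp only [Fintype.linearCombination_apply, Finset.sum_apply, Pi.smul_apply, smul_eq_mul]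
  by_cases hv : c v = α
  · rw [if_pos hv]
    refine Finset.sum_congr rfl fun i _ => ?_
    by_cases hi : col i = α
    · rw [if_pos hi]
    · have h0 : vec (N i) v = 0 := by
        by_contra hc
        exact hi ((h.cN i v (vec_ne hc)).symm.trans hv)
      rw [h0, mul_zero, mul_zero]
  · rw [if_neg hv]
    refine Finset.sum_eq_zero fun i _ => ?_
    by_cases hi : col i = α
    · have h0 : vec (N i) v = 0 := by
        by_contra hc
        exact hv ((h.cN i v (vec_ne hc)).trans hi)
      rw [h0, mul_zero]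
    · rw [if_neg hi, zero_mul]

omit [Fintype V] in
lemma mem_ker_q {a : ι → F} :
    a ∈ LinearMap.ker (res T ∘ₗ Fintype.linearCombination F (fun i => vec (N i))) ↔
      ∀ v ∈ T, Fintype.linearCombination F (fun i => vec (N i)) a v = 0 := by
  rw [LinearMap.mem_ker, LinearMap.comp_apply]
  constructor
  · intro h v hv
    have := congrFun h v
    simpa [res, hv] using this
  · intro h
    funext v
    by_cases hv : v ∈ T
    · simpa [res, hv] using h v hv
    · simp [res, hv]

open Classical in
lemma pickC_one (h : Pick K c T N col op kp k κ) (X : Finset ι) (J : Finset ι)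
    (hJ : ∀ a ∈ (sup (X : Set ι) ⊓
        LinearMap.ker (res T ∘ₗ Fintype.linearCombination F (fun i => vec (N i))) :
          Submodule F (ι → F)), (∀ i ∈ J, a i = 0) → a = 0) (κ0 : Kap) {α : ℕ} (hα : α ∈ kp κ0) :
    Module.finrank F (Mk (fun i => vec (N i)) k (fun e : K.edgeSet => vec (e : Sym2 V)) κ X κ0 ⊓
        LinearMap.ker (res T ∘ₗ Fintype.linearCombination F (fun i => vec (N i))) :
          Submodule F (ι → F)) ≤
      (J.filter fun i => (i ∈ X ∧ ∃ b, k i b = κ0) ∧ col i = α).card := by
  set J' := J.filter fun i => (i ∈ X ∧ ∃ b, k i b = κ0) ∧ col i = α with hJ'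
  set D := (Mk (fun i => vec (N i)) k (fun e : K.edgeSet => vec (e : Sym2 V)) κ X κ0 ⊓
        LinearMap.ker (res T ∘ₗ Fintype.linearCombination F (fun i => vec (N i))) :
          Submodule F (ι → F)) with hD
  have hinj : Function.Injective ((LinearMap.funLeft F F (Subtype.val : {i // i ∈ J'} → ι)).domRestrict
      D) := by
    rw [← LinearMap.ker_eq_bot, LinearMap.ker_eq_bot']
    rintro ⟨a, ha⟩ ha0
    have hav : ∀ i ∈ J', a i = 0 := by
      intro i hi
      have := congrFun ha0 ⟨i, hi⟩
      simpa [LinearMap.funLeft] using this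
    obtain ⟨⟨hsup, hspan⟩, hq⟩ := ha
    rw [SetLike.mem_coe, mem_ker_q] at hq
    have hsup' : ∀ i, ¬ (i ∈ X ∧ ∃ b, k i b = κ0) → a i = 0 := hsup
    have ha' : (fun i => if col i = α then a i else 0) = 0 := by
      refine hJ _ ⟨?_, ?_⟩ ?_
      · rw [SetLike.mem_coe, mem_sup]
        intro i hi
        have : a i = 0 := hsup' i fun hc => hi hc.1
        simp [this]
      · rw [SetLike.mem_coe, mem_ker_q]
        intro v hv
        rw [comb_part h]
        split_ifs
        · exact hq v hv
        · rfl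
      · intro i hi
        by_cases hc : col i = α
        · rw [if_pos hc]
          by_cases hX : i ∈ X ∧ ∃ b, k i b = κ0
          · exact hav i (Finset.mem_filter.2 ⟨hi, hX, hc⟩)
          · exact hsup' i hX
        · rw [if_neg hc]
    have hz : ∀ v, c v = α → Fintype.linearCombination F (fun i => vec (N i)) a v = 0 := by
      intro v hv
      have h1 := comb_part h a α v
      rw [ha', if_pos hv] at h1
      rw [← h1]
      simp
    have hz2 := zero_of_class h hα hspan hq hz
    have hl := Fintype.linearIndependent_iff.1 h.iN a (by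
      simpa [Fintype.linearCombination_apply] using hz2)
    exact Subtype.ext (funext hl)
  have := LinearMap.finrank_le_finrank_of_injective hinj
  simpa using this

open Classical in
lemma pickC_two (h : Pick K c T N col op kp k κ) (X : Finset ι) (J : Finset ι)
    (hJ : ∀ a ∈ (sup (X : Set ι) ⊓
        LinearMap.ker (res T ∘ₗ Fintype.linearCombination F (fun i => vec (N i))) :
          Submodule F (ι → F)), (∀ i ∈ J, a i = 0) → a = 0) (κ0 : Kap) :
    2 * Module.finrank F (Mk (fun i => vec (N i)) k (fun e : K.edgeSet => vec (e : Sym2 V)) κ X κ0 ⊓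
        LinearMap.ker (res T ∘ₗ Fintype.linearCombination F (fun i => vec (N i))) :
          Submodule F (ι → F)) ≤
      (J.filter fun i => i ∈ X ∧ ∃ b, k i b = κ0).card := by
  obtain ⟨α, β, hαβ⟩ : ∃ α β, kp κ0 = s(α, β) := by
    induction hh : kp κ0 using Sym2.ind with
    | _ u w => exact ⟨u, w, rfl⟩
  by_cases hne : α = β
  · subst hne
    have hbot : (Mk (fun i => vec (N i)) k (fun e : K.edgeSet => vec (e : Sym2 V)) κ X κ0 ⊓
        LinearMap.ker (res T ∘ₗ Fintype.linearCombination F (fun i => vec (N i))) :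
          Submodule F (ι → F)) = ⊥ := by
      rw [eq_bot_iff]
      rintro a ⟨⟨hsup, -⟩, -⟩
      have hsup' : ∀ i, ¬ (i ∈ X ∧ ∃ b, k i b = κ0) → a i = 0 := hsup
      rw [Submodule.mem_bot]
      funext i
      refine hsup' i ?_
      rintro ⟨-, b, hb⟩
      have h1 := h.hk i b
      rw [hb, hαβ, Sym2.eq_iff] at h1
      apply h.ne i b
      rcases h1 with ⟨h1, h2⟩ | ⟨h1, h2⟩
      · rw [← h1, ← h2]
      · rw [← h1, ← h2]
    rw [hbot, finrank_bot, mul_zero]
    exact Nat.zero_le _
  · have h1 := pickC_one h X J hJ κ0 (α := α) (by rw [hαβ]; exact Sym2.mem_mk_left _ _)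
    have h2 := pickC_one h X J hJ κ0 (α := β) (by rw [hαβ]; exact Sym2.mem_mk_right _ _)
    have hdis : Disjoint (J.filter fun i => (i ∈ X ∧ ∃ b, k i b = κ0) ∧ col i = α)
        (J.filter fun i => (i ∈ X ∧ ∃ b, k i b = κ0) ∧ col i = β) := by
      rw [Finset.disjoint_left]
      intro i hi hi2
      exact hne ((Finset.mem_filter.1 hi).2.2.symm.trans (Finset.mem_filter.1 hi2).2.2)
    have hle : (J.filter fun i => (i ∈ X ∧ ∃ b, k i b = κ0) ∧ col i = α).card +
        (J.filter fun i => (i ∈ X ∧ ∃ b, k i b = κ0) ∧ col i = β).card ≤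
        (J.filter fun i => i ∈ X ∧ ∃ b, k i b = κ0).card := by
      rw [← Finset.card_union_of_disjoint hdis]
      refine Finset.card_le_card ?_
      intro i hi
      rcases Finset.mem_union.1 hi with hi | hi
      · exact Finset.mem_filter.2 ⟨(Finset.mem_filter.1 hi).1, (Finset.mem_filter.1 hi).2.1⟩
      · exact Finset.mem_filter.2 ⟨(Finset.mem_filter.1 hi).1, (Finset.mem_filter.1 hi).2.1⟩
    omega

end

theorem pickC {V ι Kap : Type} [Fintype V] [Fintype ι] [Fintype Kap] {K : SimpleGraph V}
    {c : V → ℕ} {T : Set V} {N : ι → Sym2 V} {col : ι → ℕ} {op : ι → Bool → ℕ} {kp : Kap → Sym2 ℕ}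
    {k : ι → Bool → Kap} {κ : K.edgeSet → Kap} (h : Pick K c T N col op kp k κ) (X : Finset ι) :
    ∑ κ0, Module.finrank F (Mk (fun i => vec (N i)) k (fun e : K.edgeSet => vec (e : Sym2 V)) κ X κ0 ⊓
        LinearMap.ker (res T ∘ₗ Fintype.linearCombination F (fun i => vec (N i))) :
          Submodule F (ι → F)) ≤
      Module.finrank F (sup (X : Set ι) ⊓
        LinearMap.ker (res T ∘ₗ Fintype.linearCombination F (fun i => vec (N i))) :
          Submodule F (ι → F)) := by
  classical
  obtain ⟨J, hJ1, hJ2⟩ := pivot (sup (X : Set ι) ⊓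
        LinearMap.ker (res T ∘ₗ Fintype.linearCombination F (fun i => vec (N i))) :
          Submodule F (ι → F))
  have h1 : ∑ κ0, 2 * Module.finrank F (Mk (fun i => vec (N i)) k
      (fun e : K.edgeSet => vec (e : Sym2 V)) κ X κ0 ⊓
        LinearMap.ker (res T ∘ₗ Fintype.linearCombination F (fun i => vec (N i))) :
          Submodule F (ι → F)) ≤
      ∑ κ0, (J.filter fun i => i ∈ X ∧ ∃ b, k i b = κ0).card :=
    Finset.sum_le_sum fun κ0 _ => pickC_two h X J hJ2 κ0
  have h2 : ∑ κ0, (J.filter fun i => i ∈ X ∧ ∃ b, k i b = κ0).card ≤ 2 * J.card := by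
    simp only [Finset.card_filter]
    rw [Finset.sum_comm, mul_comm, ← smul_eq_mul, ← Finset.sum_const]
    refine Finset.sum_le_sum fun i _ => ?_
    rw [← Finset.card_filter]
    refine (Finset.card_le_card (t := {k i true, k i false}) ?_).trans Finset.card_le_two
    intro κ0 hκ0
    obtain ⟨-, b, hb⟩ := (Finset.mem_filter.1 hκ0).2
    cases b
    · simp [hb]
    · simp [hb]
  rw [← Finset.mul_sum] at h1
  omega

end Pool.Agent.AC5
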