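import Pool.Agent.AC5.PickB

set_option autoImplicit false

/-!
# AC5/PickT: the part in `T` (MP_289c47_co, helper88)

PROOF. `sum_le_of_indep`: general fact: if `M i ≤ M0` are submodules of a finite-dimensional space which are independent
(`iSupIndep M`), then `∑ i, finrank (M i) ≤ finrank M0`
(`iSupIndep.linearIndependent...`, or: the dimension of the supremum of an independent family is the sum of the
dimensions, `Submodule.finrank_iSup_eq...`; or the linear map `(Π i, M i) → M0`, `(x i) ↦ ∑ i, x i` is injective).
`pickT`: let `KT κ0` be the span of the `vec e`, `e` an edge inside `T` with `κ e = κ0`. The family `KT` is independent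
because the vectors of the edges inside `T` are linearly independent (`iT`) (`LinearIndependent.disjoint_span_image`
or the injectivity above: a relation `∑ κ0, x κ0 = 0` with `x κ0 ∈ KT κ0` is a relation between the vectors of the edges
inside `T`). For `a ∈ Mk _ _ _ _ X κ0`: `f = linearCombination n a` is in the span of the `vec e`, `κ e = κ0`, and
`res T (vec e)` is `vec e` if `e` is inside `T` and `0` otherwise (no edges between `T` and the complement, `KT`). So
`res T f ∈ KT κ0`; it is also in the image of `sup X`. Hence the image of `Mk` under `res T ∘ linearCombination` is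
contained in `M κ0 = KT κ0 ⊓ (image of sup X)`; the `M κ0` are independent and contained in the image of `sup X`.
-/

namespace Pool.Agent.AC5

theorem sum_le_of_indep {I W : Type} [Fintype I] [AddCommGroup W] [Module F W]
    [FiniteDimensional F W] (M : I → Submodule F W) (M0 : Submodule F W) (h : ∀ i, M i ≤ M0)
    (hi : ∀ x : I → W, (∀ i, x i ∈ M i) → ∑ i, x i = 0 → ∀ i, x i = 0) :
    ∑ i, Module.finrank F (M i) ≤ Module.finrank F M0 := by
  obtain ⟨Φ, hΦ⟩ : ∃ Φ : (∀ i, M i) →ₗ[F] W, ∀ x, Φ x = ∑ i, (x i : W) :=
    ⟨∑ i, (M i).subtype ∘ₗ LinearMap.proj i, fun x => by simp [LinearMap.sum_apply]⟩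
  have hmem : ∀ x, Φ x ∈ M0 := by
    intro x
    rw [hΦ]
    exact Submodule.sum_mem _ fun i _ => h i (x i).2
  have hinj : Function.Injective (Φ.codRestrict M0 hmem) := by
    rw [← LinearMap.ker_eq_bot, LinearMap.ker_eq_bot']
    intro x hx
    have h1 : Φ x = 0 := congrArg Subtype.val hx
    rw [hΦ] at h1
    have h2 := hi (fun i => (x i : W)) (fun i => (x i).2) h1
    funext i
    exact Subtype.ext (h2 i)
  have h3 := LinearMap.finrank_le_finrank_of_injective hinj
  rw [Module.finrank_pi_fintype] at h3
  exact h3

theorem pickT {V ι Kap : Type} [Fintype V] [Fintype ι] [Fintype Kap] {K : SimpleGraph V}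
    {c : V → ℕ} {T : Set V} {N : ι → Sym2 V} {col : ι → ℕ} {op : ι → Bool → ℕ} {kp : Kap → Sym2 ℕ}
    {k : ι → Bool → Kap} {κ : K.edgeSet → Kap} (h : Pick K c T N col op kp k κ) (X : Finset ι) :
    ∑ κ0, Module.finrank F ((Mk (fun i => vec (N i)) k (fun e : K.edgeSet => vec (e : Sym2 V)) κ X
        κ0).map (res T ∘ₗ Fintype.linearCombination F (fun i => vec (N i)))) ≤
      Module.finrank F ((sup (X : Set ι)).map
        (res T ∘ₗ Fintype.linearCombination F (fun i => vec (N i)))) := by
  classical
  refine sum_le_of_indep _ _ (fun κ0 => Submodule.map_mono ?_) ?_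
  · intro a ha
    have h1 : a ∈ sup {i | i ∈ X ∧ ∃ b, k i b = κ0} := ha.1
    rw [mem_sup] at h1 ⊢
    intro i hi
    exact h1 i fun h2 => hi h2.1
  · -- the span of the vectors of the edges inside `T` of one kind
    have key : ∀ κ0, ∀ x ∈ (Mk (fun i => vec (N i)) k (fun e : K.edgeSet => vec (e : Sym2 V)) κ X
        κ0).map (res T ∘ₗ Fintype.linearCombination F (fun i => vec (N i))),
        x ∈ Submodule.span F ((fun e : {e : K.edgeSet // ∀ x ∈ (e : Sym2 V), x ∈ T} =>
          vec (e : Sym2 V)) '' {e | κ e.1 = κ0}) := by
      rintro κ0 x ⟨a, ha, rfl⟩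
      have h2 : Fintype.linearCombination F (fun i => vec (N i)) a ∈
          Submodule.span F ((fun e : K.edgeSet => vec (e : Sym2 V)) '' {e | κ e = κ0}) := ha.2
      have h3 : (Submodule.span F ((fun e : K.edgeSet => vec (e : Sym2 V)) '' {e | κ e = κ0})).map
          (res T) ≤ Submodule.span F ((fun e : {e : K.edgeSet // ∀ x ∈ (e : Sym2 V), x ∈ T} =>
          vec (e : Sym2 V)) '' {e | κ e.1 = κ0}) := by
        rw [Submodule.map_span, Submodule.span_le]
        rintro _ ⟨_, ⟨⟨e, he⟩, hκ0, rfl⟩, rfl⟩
        induction e using Sym2.ind with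
        | _ u v =>
          have hadj : K.Adj u v := he
          by_cases hu : u ∈ T
          · have hv : v ∈ T := (h.KT u v hadj).1 hu
            have hin : ∀ x ∈ s(u, v), x ∈ T := by
              intro x hx
              rcases Sym2.mem_iff.1 hx with rfl | rfl
              · exact hu
              · exact hv
            have h4 : res T (vec s(u, v)) = vec s(u, v) := by
              funext x
              show (if x ∈ T then vec s(u, v) x else 0) = vec s(u, v) x
              by_cases hx : x ∈ T
              · rw [if_pos hx]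
              · rw [if_neg hx, vec_mk]
                have h5 : x ≠ u := fun h6 => hx (h6 ▸ hu)
                have h7 : x ≠ v := fun h6 => hx (h6 ▸ hv)
                simp [pv, h5, h7]
            refine Submodule.subset_span ⟨⟨⟨s(u, v), he⟩, hin⟩, hκ0, ?_⟩
            exact h4.symm
          · have hv : v ∉ T := fun h5 => hu ((h.KT u v hadj).2 h5)
            have h4 : res T (vec s(u, v)) = 0 := by
              funext x
              show (if x ∈ T then vec s(u, v) x else 0) = 0
              by_cases hx : x ∈ T
              · rw [if_pos hx, vec_mk]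
                have h5 : x ≠ u := fun h6 => hu (h6 ▸ hx)
                have h7 : x ≠ v := fun h6 => hv (h6 ▸ hx)
                simp [pv, h5, h7]
              · rw [if_neg hx]
            have h5 : res T (vec (((⟨s(u, v), he⟩ : K.edgeSet) : Sym2 V))) = 0 := h4
            rw [SetLike.mem_coe]
            simp only [h5]
            exact Submodule.zero_mem _
      exact h3 ⟨_, h2, rfl⟩
    intro x hx hsum
    have hl : ∀ κ0, ∃ l ∈ Finsupp.supported F F
        {e : {e : K.edgeSet // ∀ x ∈ (e : Sym2 V), x ∈ T} | κ e.1 = κ0},
        Finsupp.linearCombination F (fun e : {e : K.edgeSet // ∀ x ∈ (e : Sym2 V), x ∈ T} =>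
          vec (e : Sym2 V)) l = x κ0 := fun κ0 =>
      (Finsupp.mem_span_image_iff_linearCombination F).1 (key κ0 _ (hx κ0))
    choose l hls hlx using hl
    have h1 : Finsupp.linearCombination F (fun e : {e : K.edgeSet // ∀ x ∈ (e : Sym2 V), x ∈ T} =>
          vec (e : Sym2 V)) (∑ κ0, l κ0) = 0 := by
      rw [map_sum]
      simp only [hlx]
      exact hsum
    have h2 := linearIndependent_iff.1 h.iT _ h1
    have h3 : ∀ κ0, l κ0 = 0 := by
      intro κ0
      ext e
      by_cases he : κ e.1 = κ0
      · have h4 := DFunLike.congr_fun h2 e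
        rw [Finsupp.finsetSum_apply, Finset.sum_eq_single κ0] at h4
        · exact h4
        · intro κ1 _ hne
          have h5 : e ∉ {e : {e : K.edgeSet // ∀ x ∈ (e : Sym2 V), x ∈ T} | κ e.1 = κ1} := by
            intro h6
            exact hne (h6.symm.trans he)
          exact (Finsupp.mem_supported' F (l κ1)).1 (hls κ1) e h5
        · intro h5
          exact absurd (Finset.mem_univ _) h5
      · exact (Finsupp.mem_supported' F (l κ0)).1 (hls κ0) e he
    intro κ0
    rw [← hlx κ0, h3 κ0, map_zero]

end Pool.Agent.AC5
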