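import Pool.Agent.AC5.RPick
import Pool.Agent.AC5.PickT
import Pool.Agent.AC5.PickC

set_option autoImplicit false

/-!
# AC5/PickM: choice of the colours of the vertices with an equally coloured pair (MP_289c47_co, helper88)

PROOF. `rk_split`: rank-nullity for the restriction of `q` to `M`: `finrank M = finrank (M.map q) + finrank (M ⊓ ker q)`
(`LinearMap.finrank_range_add_finrank_ker` for `q.domRestrict M`; the kernel of `q.domRestrict M` is
`Submodule.comap M.subtype (ker q)`, isomorphic to `M ⊓ ker q`: `Submodule.comap_subtype_equiv...`,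
`Submodule.finrank_comap_subtype...`).
`pick_ineq`: by `rk_split` for each `Mk` and for `sup X`, with `pickT` and `pickC`; `finrank (sup X) = X.card`
(`finrank_sup`, `Set.ncard_coe_finset`).
`pick`: for every `i` choose two different elements `op i true`, `op i false` of `Op i` (`Finset.one_lt_card`). Let
`KS` be the finite set of all `s(col i, op i b)` and all `(e : Sym2 V).map c`, `e` an edge of `K`; `Kap` the subtype
`{x // x ∈ KS}`, `kp` the coercion. `Pick` holds; `rado_pick` applies (`hk`: `k i true ≠ k i false` because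
`s(col i, op i true) = s(col i, op i false)` would give `op i true = op i false`; `hg` is `indep_class`). Let
`f' : ι → Bool` be its result and `f i = op i (f' i)`. Let `κ : Sym2 ℕ`. If `κ ∉ KS` both index types are empty. If
`κ ∈ KS`, let `κ0` be the corresponding element of `Kap`; the family in the claim, composed with the injective linear
map `Pi.single κ0`, is the restriction of the independent family of `rado_pick` to the indices `inl i` with
`k i (f' i) = κ0` and `inr e` with `κ e = κ0` (`LinearIndependent.comp`, `LinearIndependent.of_comp`).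
-/

namespace Pool.Agent.AC5

lemma rk_split {ι W : Type} [Fintype ι] [AddCommGroup W] [Module F W] (M : Submodule F (ι → F))
    (q : (ι → F) →ₗ[F] W) : Module.finrank F M =
      Module.finrank F (M.map q) + Module.finrank F (M ⊓ LinearMap.ker q : Submodule F (ι → F)) := by
  have h1 := LinearMap.finrank_range_add_finrank_ker (q.domRestrict M)
  rw [LinearMap.range_domRestrict] at h1
  have h2 : (LinearMap.ker (q.domRestrict M)).map M.subtype = M ⊓ LinearMap.ker q := by
    rw [LinearMap.ker_domRestrict, Submodule.map_comap_subtype]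
  rw [← h1, ← h2, Submodule.finrank_map_subtype_eq]

theorem pick_ineq {V ι Kap : Type} [Fintype V] [Fintype ι] [Fintype Kap] {K : SimpleGraph V}
    {c : V → ℕ} {T : Set V} {N : ι → Sym2 V} {col : ι → ℕ} {op : ι → Bool → ℕ} {kp : Kap → Sym2 ℕ}
    {k : ι → Bool → Kap} {κ : K.edgeSet → Kap} (h : Pick K c T N col op kp k κ) (X : Finset ι) :
    ∑ κ0, Module.finrank F (Mk (fun i => vec (N i)) k (fun e : K.edgeSet => vec (e : Sym2 V)) κ X κ0)
      ≤ X.card := by
  have h1 := pickT h X
  have h2 := pickC h X
  have h3 := rk_split (sup (X : Set ι))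
    (res T ∘ₗ Fintype.linearCombination F (fun i => vec (N i)))
  rw [finrank_sup, Set.ncard_coe_finset] at h3
  rw [h3]
  calc ∑ κ0, Module.finrank F
        (Mk (fun i => vec (N i)) k (fun e : K.edgeSet => vec (e : Sym2 V)) κ X κ0)
      = ∑ κ0, (Module.finrank F ((Mk (fun i => vec (N i)) k
          (fun e : K.edgeSet => vec (e : Sym2 V)) κ X κ0).map
            (res T ∘ₗ Fintype.linearCombination F (fun i => vec (N i)))) +
          Module.finrank F (Mk (fun i => vec (N i)) k
            (fun e : K.edgeSet => vec (e : Sym2 V)) κ X κ0 ⊓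
              LinearMap.ker (res T ∘ₗ Fintype.linearCombination F (fun i => vec (N i))) :
                Submodule F (ι → F))) := Finset.sum_congr rfl fun κ0 _ => rk_split _ _
    _ ≤ _ := by
        rw [Finset.sum_add_distrib]
        exact add_le_add h1 h2

theorem pick {V ι : Type} [Fintype V] [Fintype ι] (K : SimpleGraph V) (c : V → ℕ) (T : Set V)
    (cK : ∀ u v, K.Adj u v → c u ≠ c v) (KT : ∀ u v, K.Adj u v → (u ∈ T ↔ v ∈ T))
    (iT : LinearIndependent F
      (fun e : {e : K.edgeSet // ∀ x ∈ (e : Sym2 V), x ∈ T} => vec (e : Sym2 V)))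
    (tC : ∀ u v w, u ∉ T → K.Adj u v → K.Adj v w → u ≠ w → K.Adj u w)
    (N : ι → Sym2 V) (iN : LinearIndependent F (fun i => vec (N i))) (col : ι → ℕ)
    (cN : ∀ i, ∀ x ∈ N i, c x = col i) (Op : ι → Finset ℕ) (h2 : ∀ i, 2 ≤ (Op i).card)
    (hne : ∀ i, col i ∉ Op i) :
    ∃ f : ι → ℕ, (∀ i, f i ∈ Op i) ∧ ∀ κ : Sym2 ℕ, LinearIndependent F
      (Sum.elim (fun i : {i : ι // s(col i, f i) = κ} => vec (N i))
        (fun e : {e : K.edgeSet // (e : Sym2 V).map c = κ} => vec (e : Sym2 V))) := by
  classical
  have hex : ∀ i, ∃ a b, a ∈ Op i ∧ b ∈ Op i ∧ a ≠ b := by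
    intro i
    obtain ⟨a, ha, b, hb, hab⟩ := Finset.one_lt_card.1 (h2 i)
    exact ⟨a, b, ha, hb, hab⟩
  choose a b ha hb hab using hex
  let op : ι → Bool → ℕ := fun i t => if t then a i else b i
  have hop : ∀ i t, op i t ∈ Op i := by
    intro i t
    cases t
    · exact hb i
    · exact ha i
  let KS : Set (Sym2 ℕ) := Set.range (fun p : ι × Bool => s(col p.1, op p.1 p.2)) ∪
    Set.range (fun e : K.edgeSet => (e : Sym2 V).map c)
  have hKS : KS.Finite := (Set.finite_range _).union (Set.finite_range _)
  let Kap : Type := {x : Sym2 ℕ // x ∈ KS}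
  have : Fintype Kap := hKS.fintype
  have : Fintype K.edgeSet := Fintype.ofFinite _
  let kp : Kap → Sym2 ℕ := Subtype.val
  let k : ι → Bool → Kap := fun i t => ⟨s(col i, op i t), Or.inl ⟨(i, t), rfl⟩⟩
  let κ : K.edgeSet → Kap := fun e => ⟨(e : Sym2 V).map c, Or.inr ⟨e, rfl⟩⟩
  have hP : Pick K c T N col op kp k κ :=
    { cK := cK
      KT := KT
      iT := iT
      tC := tC
      iN := iN
      cN := cN
      ne := fun i t h => hne i (h ▸ hop i t)
      ne2 := fun i => hab i
      inj := Subtype.val_injective
      hk := fun _ _ => rfl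
      hκ := fun _ => rfl }
  obtain ⟨f', hf'⟩ := rado_pick (fun i => vec (N i)) iN k
    (by
      intro i h
      have h1 : s(col i, op i true) = s(col i, op i false) := congrArg Subtype.val h
      exact hab i (Sym2.congr_right.1 h1))
    (fun e : K.edgeSet => vec (e : Sym2 V)) κ (fun κ0 => indep_class hP κ0)
    (fun X => pick_ineq hP X)
  refine ⟨fun i => op i (f' i), fun i => hop i (f' i), fun κ1 => ?_⟩
  by_cases hκ1 : κ1 ∈ KS
  · let κ0 : Kap := ⟨κ1, hκ1⟩
    apply LinearIndependent.of_comp (LinearMap.single F (fun _ : Kap => V → F) κ0)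
    have hinj : Function.Injective (Sum.map (Subtype.val : {i : ι // s(col i, op i (f' i)) = κ1} → ι)
        (Subtype.val : {e : K.edgeSet // (e : Sym2 V).map c = κ1} → K.edgeSet)) :=
      Function.Injective.sumMap Subtype.val_injective Subtype.val_injective
    have h3 := hf'.comp _ hinj
    convert h3 using 1
    · funext x
      rcases x with i | e
      · have h4 : k i (f' i) = κ0 := Subtype.ext i.2
        simp only [Function.comp_apply, Sum.elim_inl, Sum.map_inl, LinearMap.coe_single]
        rw [h4]
      · have h4 : κ e = κ0 := Subtype.ext e.2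
        simp only [Function.comp_apply, Sum.elim_inr, Sum.map_inr, LinearMap.coe_single]
        rw [h4]
    · rfl
  · have e1 : IsEmpty {i : ι // s(col i, op i (f' i)) = κ1} :=
      ⟨fun i => hκ1 (Or.inl ⟨(i.1, f' i.1), i.2⟩)⟩
    have e2 : IsEmpty {e : K.edgeSet // (e : Sym2 V).map c = κ1} :=
      ⟨fun e => hκ1 (Or.inr ⟨e.1, e.2⟩)⟩
    exact linearIndependent_empty_type

end Pool.Agent.AC5
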