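import Pool.Agent.AC5.DualH

set_option autoImplicit false

/-!
# AC5/SphH: the auxiliary graph is on the sphere (MP_289c47_co, helper88)

PROOF. Take classical instances. For every edge `e` of `G` choose `o e = (b, v)` with `s(b, v) = e` and `b ∉ S`
(possible since not both ends are in `S`). Edge type `E = G.edgeSet ⊕ (S ⊕ S4 G S)` (subtypes), face type
`Φ = R.faces ⊕ (S ⊕ S4 G S)`. Write `q s = R.nxt s (p s)`, `q' s = R.nxt s (opp R s (p s))`, and for `s ∈ S`
`φin s b : Φ := if s ∈ S4 ∧ (b = p s ∨ b = q' s) then inr (inr s) else inr (inl s)`.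
For `e : G.edgeSet`, `o e = (b, v)`: `s = b`; `l = inl (face of (b, v))`; if `v ∈ S`: `t = R.nxt v b`, `r = φin v b`;
if `v ∉ S`: `t = v`, `r = inl (face of (v, b))`.
For `inr (inl s)` (pendant edge): `s = s`, `t = p s`, `l = r = inr (inl s)`.
For `inr (inr s)` (diagonal): `s = q s`, `t = q' s`, `l = inr (inl s)`, `r = inr (inr s)`.
`even`: for `g : Φ → F` put `y u v = g (inl (face of (u, v)))` for darts, `0` otherwise, `g1 s = g (inr (inl s))` for
`s ∈ S`, `g2 s = g (inr (inr s))` for `s ∈ S4`, `0` otherwise. Then `g (φin s b) = inn R S p g1 g2 s b` and the sum over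
`E` (`Fintype.sum_sum_type`) is the left side of `evenH` (the pendant edges contribute
`(g1 s + g1 s) * _ = 0`; a sum over a subtype is the sum over `V` of the `if`). `y u v = y v (R.nxt v u)` by
`Rotation.face_step`.
`conn`: `connH`: for adjacent `u, v ∉ S` the edge `s(u, v)` has ends `u, v`; for `s ∈ S`, `b ~ s` the edge `s(s, b)`
has `o e = (b, s)` (as `(o e).1 ∉ S`) and ends `b`, `R.nxt s b`; pendant edges.
`dual`: `dualH` with `y, g1, g2` as in `even`; every element of `Φ` is the face of a dart, an `s ∈ S`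
(value `g1 s = c`) or an `s ∈ S4` (value `g2 s = g1 s = c`).
`euler`: `|V| + (|faces| + |S| + |S4|) = (|edges| + |S| + |S4|) + 2` from `he`.
Edges of `HGr G S N` with `N s = s(p s, opp R s (p s))`: let `u, v` be adjacent in it. If `G.Adj u v`: the edge
`s(u, v)` of `G` (both ends not in `S`). Otherwise there is `s ∈ S` with `u, v ~ s`, `u ≠ v`, and
`s(u, v) ≠ s(p s, opp R s (p s))` if `s ∈ S4`. If `v = R.nxt s u` take the edge `s(s, u)`, if `u = R.nxt s v` the edge
`s(s, v)`. Claim: one of these holds, unless `s ∈ S4` and `{u, v} = {q s, q' s}` (then take the diagonal). Indeed, let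
`k` be the minimal period: the neighbours of `s` are `u, nxt u, nxt (nxt u), ...`. By `hdeg` there are at most four.
If there are at most three and `v ≠ u`, `v ≠ nxt u`, then `v = nxt (nxt u)` and `nxt v = u` (three neighbours,
`nxt` injective). If there are four, `s ∈ S4`, and `deg4` for `b = p s` gives the neighbours `p, q, p', q'`; the pairs
of different neighbours are the four consecutive pairs, `{p, p'}` (excluded) and `{q, q'}`.
-/

namespace Pool.Agent.AC5

open Pool.Agent.H18Thick (Rotation)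

section

variable {V : Type} {G : SimpleGraph V} (R : Rotation G) (S : Set V) (p : V → V)

/-- the first end -/
private def eS (o : G.edgeSet → V × V) : G.edgeSet ⊕ (S ⊕ S4 G S) → V
  | Sum.inl e => (o e).1
  | Sum.inr (Sum.inl s) => s
  | Sum.inr (Sum.inr s) => R.nxt s (p s)

open Classical in
/-- the second end -/
private noncomputable def eT (o : G.edgeSet → V × V) : G.edgeSet ⊕ (S ⊕ S4 G S) → V
  | Sum.inl e => if (o e).2 ∈ S then R.nxt (o e).2 (o e).1 else (o e).2
  | Sum.inr (Sum.inl s) => p s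
  | Sum.inr (Sum.inr s) => R.nxt s (opp R s (p s))

private def fc {u v : V} (h : G.Adj u v) : R.faces := ⟨R.face (u, v), u, v, h, rfl⟩

open Classical in
private noncomputable def fin (s b : V) (hs : s ∈ S) : R.faces ⊕ (S ⊕ S4 G S) :=
  if h : s ∈ S4 G S ∧ (b = p s ∨ b = R.nxt s (opp R s (p s))) then Sum.inr (Sum.inr ⟨s, h.1⟩)
  else Sum.inr (Sum.inl ⟨s, hs⟩)

private def eL (o : G.edgeSet → V × V) (ho : ∀ e, G.Adj (o e).1 (o e).2) :
    G.edgeSet ⊕ (S ⊕ S4 G S) → R.faces ⊕ (S ⊕ S4 G S)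
  | Sum.inl e => Sum.inl (fc R (ho e))
  | Sum.inr (Sum.inl s) => Sum.inr (Sum.inl s)
  | Sum.inr (Sum.inr s) => Sum.inr (Sum.inl ⟨s, s.2.1⟩)

open Classical in
private noncomputable def eR (o : G.edgeSet → V × V) (ho : ∀ e, G.Adj (o e).1 (o e).2) :
    G.edgeSet ⊕ (S ⊕ S4 G S) → R.faces ⊕ (S ⊕ S4 G S)
  | Sum.inl e => if h : (o e).2 ∈ S then fin R S p (o e).2 (o e).1 h
      else Sum.inl (fc R (ho e).symm)
  | Sum.inr (Sum.inl s) => Sum.inr (Sum.inl s)
  | Sum.inr (Sum.inr s) => Sum.inr (Sum.inr s)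

open Classical in
private noncomputable def yy (g : R.faces ⊕ (S ⊕ S4 G S) → F) (u v : V) : F :=
  if h : G.Adj u v then g (Sum.inl (fc R h)) else 0

open Classical in
private noncomputable def gg1 (g : R.faces ⊕ (S ⊕ S4 G S) → F) (s : V) : F :=
  if h : s ∈ S then g (Sum.inr (Sum.inl ⟨s, h⟩)) else 0

open Classical in
private noncomputable def gg2 (g : R.faces ⊕ (S ⊕ S4 G S) → F) (s : V) : F :=
  if h : s ∈ S4 G S then g (Sum.inr (Sum.inr ⟨s, h⟩)) else 0

variable {R S p}

private lemma yy_adj (g : R.faces ⊕ (S ⊕ S4 G S) → F) {u v : V} (h : G.Adj u v) :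
    yy R S g u v = g (Sum.inl (fc R h)) := dif_pos h

private lemma gg1_mem (g : R.faces ⊕ (S ⊕ S4 G S) → F) {s : V} (h : s ∈ S) :
    gg1 R S g s = g (Sum.inr (Sum.inl ⟨s, h⟩)) := dif_pos h

private lemma gg2_mem (g : R.faces ⊕ (S ⊕ S4 G S) → F) {s : V} (h : s ∈ S4 G S) :
    gg2 R S g s = g (Sum.inr (Sum.inr ⟨s, h⟩)) := dif_pos h

private lemma g_fin (g : R.faces ⊕ (S ⊕ S4 G S) → F) {s b : V} (hs : s ∈ S) :
    g (fin R S p s b hs) = inn R S p (gg1 R S g) (gg2 R S g) s b := by
  unfold fin inn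
  split_ifs with h
  · rw [gg2_mem g h.1]
  · rw [gg1_mem g hs]

private lemma yy_step [Finite V] (g : R.faces ⊕ (S ⊕ S4 G S) → F) {u v : V} (h : G.Adj u v) :
    yy R S g u v = yy R S g v (R.nxt v u) := by
  have h' : G.Adj v (R.nxt v u) := R.adj_nxt _ _ h.symm
  rw [yy_adj g h, yy_adj g h']
  congr 2
  unfold fc
  apply Subtype.ext
  exact (R.face_step (d := (u, v)) h).symm

/-- the edge `s(u, v)` with `u ∈ S` -/
private lemma o_eq {o : G.edgeSet → V × V} (ho : ∀ e, s((o e).1, (o e).2) = (e : Sym2 V))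
    (ho1 : ∀ e, (o e).1 ∉ S) {s b : V} (hs : s ∈ S) (h : G.Adj s b) :
    (o ⟨s(s, b), h⟩).1 = b ∧ (o ⟨s(s, b), h⟩).2 = s := by
  have h1 := ho ⟨s(s, b), h⟩
  have h2 := ho1 ⟨s(s, b), h⟩
  rw [Sym2.eq_iff] at h1
  rcases h1 with h1 | h1
  · rw [h1.1] at h2
    exact absurd hs h2
  · exact h1

private lemma card_four [Finite V] {s u v : V} (hu : G.Adj s u) (hv : G.Adj s v) (huv : u ≠ v)
    (h1 : v ≠ R.nxt s u) (h2 : u ≠ R.nxt s v) : 4 ≤ (G.neighborSet s).ncard := by
  classical
  have hfix : ∀ x y : V, G.Adj s x → G.Adj s y → R.nxt s x = x → y = x := by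
    intro x y hx hy hxx
    obtain ⟨k, hk⟩ := R.cyclic s x y hx hy
    rw [Function.iterate_fixed hxx] at hk
    exact hk.symm
  have h3 : R.nxt s u ≠ u := fun h => huv (hfix u v hu hv h).symm
  have h4 : R.nxt s v ≠ v := fun h => huv (hfix v u hv hu h)
  have h5 : R.nxt s u ≠ R.nxt s v := fun h => huv (R.nxt_inj hu hv h)
  have hc : (({u, R.nxt s u, v, R.nxt s v} : Finset V)).card = 4 := by
    rw [Finset.card_insert_of_notMem, Finset.card_insert_of_notMem, Finset.card_insert_of_notMem,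
      Finset.card_singleton]
    · simpa using h4.symm
    · simp only [Finset.mem_insert, Finset.mem_singleton, not_or]
      exact ⟨h1.symm, h5⟩
    · simp only [Finset.mem_insert, Finset.mem_singleton, not_or]
      exact ⟨h3.symm, huv, h2⟩
  rw [← hc, ← Set.ncard_coe_finset]
  apply Set.ncard_le_ncard _ (Set.toFinite _)
  intro x hx
  simp only [Finset.coe_insert, Finset.coe_singleton, Set.mem_insert_iff,
    Set.mem_singleton_iff] at hx
  rcases hx with rfl | rfl | rfl | rfl
  · exact hu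
  · exact R.adj_nxt _ _ hu
  · exact hv
  · exact R.adj_nxt _ _ hv

private lemma diag [Fintype V] {s u v : V} (hp : G.Adj s (p s)) (h4 : (G.neighborSet s).ncard = 4)
    (hu : G.Adj s u) (hv : G.Adj s v) (huv : u ≠ v)
    (h1 : v ≠ R.nxt s u) (h2 : u ≠ R.nxt s v) (hN : s(u, v) ≠ s(p s, opp R s (p s))) :
    (R.nxt s (p s) = u ∧ R.nxt s (opp R s (p s)) = v) ∨
      (R.nxt s (p s) = v ∧ R.nxt s (opp R s (p s)) = u) := by
  obtain ⟨hall, n1, n2, n3, n4, n5, n6, hret⟩ := deg4 R h4 hp
  have hopp : R.nxt s (R.nxt s (p s)) = opp R s (p s) := rfl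
  rcases (hall u).1 hu with hu' | hu' | hu' | hu' <;> rcases (hall v).1 hv with hv' | hv' | hv' | hv'
  · exact absurd (hu'.trans hv'.symm) huv
  · exact absurd (by rw [hu', hv']) h1
  · exact absurd (by rw [hu', hv']) hN
  · exact absurd (by rw [hu', hv', hret]) h2
  · exact absurd (by rw [hu', hv']) h2
  · exact absurd (hu'.trans hv'.symm) huv
  · exact absurd (by rw [hu', hv', hopp]) h1
  · exact Or.inl ⟨hu'.symm, hv'.symm⟩
  · exact absurd (by rw [hu', hv', Sym2.eq_swap]) hN
  · exact absurd (by rw [hu', hv', hopp]) h2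
  · exact absurd (hu'.trans hv'.symm) huv
  · exact absurd (by rw [hu', hv']) h1
  · exact absurd (by rw [hu', hv', hret]) h1
  · exact Or.inr ⟨hv'.symm, hu'.symm⟩
  · exact absurd (by rw [hu', hv']) h2
  · exact absurd (hu'.trans hv'.symm) huv

end

theorem exists_sphH {V : Type} [Fintype V] {G : SimpleGraph V} (hc : G.Connected) (R : Rotation G)
    (he : Nat.card V + R.faces.ncard = G.edgeSet.ncard + 2) {S : Set V}
    (hS : ∀ s ∈ S, ∀ t ∈ S, ¬ G.Adj s t) (hdeg : ∀ s ∈ S, (G.neighborSet s).ncard ≤ 4)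
    {p : V → V} (hp : ∀ s ∈ S, G.Adj s (p s)) :
    ∃ (E Φ : Type) (_ : Fintype E) (_ : Fintype Φ) (X : Sph V E Φ),
      ∀ u v, (HGr G S (fun s => s(p s, opp R s (p s)))).Adj u v →
        ∃ e, (X.s e = u ∧ X.t e = v) ∨ (X.s e = v ∧ X.t e = u) := by
  classical
  have hor : ∀ e : G.edgeSet, ∃ d : V × V, s(d.1, d.2) = (e : Sym2 V) ∧ d.1 ∉ S := by
    rintro ⟨e, he⟩
    induction e using Sym2.ind with
    | _ u v =>
      have hadj : G.Adj u v := he
      by_cases hu : u ∈ S
      · exact ⟨(v, u), Sym2.eq_swap, fun hv => hS u hu v hv hadj⟩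
      · exact ⟨(u, v), rfl, hu⟩
  choose o ho ho1 using hor
  have hoadj : ∀ e, G.Adj (o e).1 (o e).2 := by
    intro e
    have h := e.2
    rw [← ho e] at h
    exact h
  let _ : Fintype G.edgeSet := Fintype.ofFinite _
  let _ : Fintype R.faces := Fintype.ofFinite _
  let _ : Fintype S := Fintype.ofFinite _
  let _ : Fintype (S4 G S) := Fintype.ofFinite _
  -- evaluation at the edges of `G`
  have hadjS : ∀ u v (h : G.Adj u v), u ∉ S → v ∉ S →
      ((o ⟨s(u, v), h⟩).1 = u ∧ (o ⟨s(u, v), h⟩).2 = v) ∨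
      ((o ⟨s(u, v), h⟩).1 = v ∧ (o ⟨s(u, v), h⟩).2 = u) := by
    intro u v h _ _
    exact Sym2.eq_iff.1 (ho ⟨s(u, v), h⟩)
  refine ⟨G.edgeSet ⊕ (S ⊕ S4 G S), R.faces ⊕ (S ⊕ S4 G S), inferInstance, inferInstance,
    ⟨eS R S p o, eT R S p o, eL R S o hoadj, eR R S p o hoadj, ?_, ?_, ?_, ?_⟩, ?_⟩
  · -- even
    intro g f
    rw [Fintype.sum_sum_type, Fintype.sum_sum_type]
    have hev := evenH R hS hp (y := yy R S g) (fun u v h => yy_step g h) (gg1 R S g)
      (gg2 R S g) f o ho ho1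
    have e1 : ∑ e : G.edgeSet, (g (eL R S o hoadj (Sum.inl e)) + g (eR R S p o hoadj (Sum.inl e))) *
        (f (eS R S p o (Sum.inl e)) + f (eT R S p o (Sum.inl e))) =
        ∑ e, if (o e).2 ∈ S then
        (yy R S g (o e).1 (o e).2 + inn R S p (gg1 R S g) (gg2 R S g) (o e).2 (o e).1) *
          (f (o e).1 + f (R.nxt (o e).2 (o e).1))
      else (yy R S g (o e).1 (o e).2 + yy R S g (o e).2 (o e).1) * (f (o e).1 + f (o e).2) := by
      refine Finset.sum_congr rfl fun e _ => ?_
      unfold eL eR eS eT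
      dsimp only
      rw [yy_adj g (hoadj e), yy_adj g (hoadj e).symm]
      by_cases h : (o e).2 ∈ S
      · rw [dif_pos h, if_pos h, if_pos h, g_fin g h]
      · rw [dif_neg h, if_neg h, if_neg h]
    have e2 : ∑ s : S, (g (eL R S o hoadj (Sum.inr (Sum.inl s))) +
        g (eR R S p o hoadj (Sum.inr (Sum.inl s)))) *
        (f (eS R S p o (Sum.inr (Sum.inl s))) + f (eT R S p o (Sum.inr (Sum.inl s)))) = 0 := by
      refine Finset.sum_eq_zero fun s _ => ?_
      unfold eL eR
      dsimp only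
      rw [CharTwo.add_self_eq_zero, zero_mul]
    have e3 : ∑ s : S4 G S, (g (eL R S o hoadj (Sum.inr (Sum.inr s))) +
        g (eR R S p o hoadj (Sum.inr (Sum.inr s)))) *
        (f (eS R S p o (Sum.inr (Sum.inr s))) + f (eT R S p o (Sum.inr (Sum.inr s)))) =
        ∑ s, if s ∈ S4 G S then
        (gg1 R S g s + gg2 R S g s) * (f (R.nxt s (p s)) + f (R.nxt s (opp R s (p s)))) else 0 := by
      rw [← Finset.sum_filter, Finset.sum_subtype (Finset.univ.filter (· ∈ S4 G S))
        (p := fun s => s ∈ S4 G S) (by simp)]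
      refine Finset.sum_congr rfl fun s _ => ?_
      unfold eL eR eS eT
      dsimp only
      rw [gg1_mem g s.2.1, gg2_mem g s.2]
    rw [e1, e2, e3, zero_add]
    exact hev
  · -- conn
    intro f hf
    refine connH hc R hS hp ?_ ?_ ?_
    · intro u v hu hv h
      have h1 := hf (Sum.inl ⟨s(u, v), h⟩)
      unfold eS eT at h1
      dsimp only at h1
      rcases hadjS u v h hu hv with h2 | h2
      · rw [h2.1, h2.2, if_neg hv] at h1
        exact h1
      · rw [h2.1, h2.2, if_neg hu] at h1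
        exact h1.symm
    · intro s hs b h
      have h1 := hf (Sum.inl ⟨s(s, b), h⟩)
      unfold eS eT at h1
      dsimp only at h1
      obtain ⟨h2, h3⟩ := o_eq ho ho1 hs h
      rw [h2, h3, if_pos hs] at h1
      exact h1
    · intro s hs
      exact hf (Sum.inr (Sum.inl ⟨s, hs⟩))
  · -- dual
    intro g hg
    obtain ⟨c, hc1, hc2⟩ := dualH hc R hS hp (y := yy R S g) (fun u v h => yy_step g h)
      (g1 := gg1 R S g) (g2 := gg2 R S g) (by
        intro u v hu hv h
        have h1 := hg (Sum.inl ⟨s(u, v), h⟩)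
        unfold eL eR at h1
        dsimp only at h1
        rw [← yy_adj g] at h1
        have hvS : (o ⟨s(u, v), h⟩).2 ∉ S := by
          rcases hadjS u v h hu hv with h2 | h2
          · rw [h2.2]; exact hv
          · rw [h2.2]; exact hu
        rw [dif_neg hvS, ← yy_adj g] at h1
        rcases hadjS u v h hu hv with h2 | h2
        · rw [h2.1, h2.2] at h1
          exact h1
        · rw [h2.1, h2.2] at h1
          exact h1.symm) (by
        intro s hs b h
        have h1 := hg (Sum.inl ⟨s(s, b), h⟩)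
        unfold eL eR at h1
        dsimp only at h1
        obtain ⟨h2, h3⟩ := o_eq ho ho1 hs h
        have hvS : (o ⟨s(s, b), h⟩).2 ∈ S := by rw [h3]; exact hs
        rw [← yy_adj g, dif_pos hvS, g_fin g hvS, h2, h3] at h1
        exact h1) (by
        intro s hs
        have h1 := hg (Sum.inr (Sum.inr ⟨s, hs⟩))
        unfold eL eR at h1
        dsimp only at h1
        rw [gg1_mem g hs.1, gg2_mem g hs]
        exact h1)
    have key : ∀ x, g x = c := by
      rintro (⟨F, u, v, h, rfl⟩ | ⟨s, hs⟩ | ⟨s, hs⟩)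
      · rw [← hc1 u v h, yy_adj g h]
        rfl
      · rw [← hc2 s hs, gg1_mem g hs]
      · rw [← hc2 s hs.1, gg1_mem g hs.1]
        exact (hg (Sum.inr (Sum.inr ⟨s, hs⟩))).symm
    intro x y
    rw [key x, key y]
  · -- euler
    rw [Fintype.card_sum, Fintype.card_sum, Fintype.card_sum, Fintype.card_sum]
    rw [← Nat.card_coe_set_eq, ← Nat.card_coe_set_eq, Nat.card_eq_fintype_card,
      Nat.card_eq_fintype_card, Nat.card_eq_fintype_card] at he
    omega
  · -- edges
    intro u v huv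
    obtain ⟨hne, hu, hv, h | ⟨s, hs, hsu, hsv, hN⟩⟩ := huv
    · refine ⟨Sum.inl ⟨s(u, v), h⟩, ?_⟩
      unfold eS eT
      dsimp only
      rcases hadjS u v h hu hv with h2 | h2
      · left
        rw [h2.1, h2.2, if_neg hv]
        exact ⟨rfl, rfl⟩
      · right
        rw [h2.1, h2.2, if_neg hu]
        exact ⟨rfl, rfl⟩
    · by_cases h1 : v = R.nxt s u
      · refine ⟨Sum.inl ⟨s(s, u), hsu⟩, Or.inl ?_⟩
        unfold eS eT
        dsimp only
        obtain ⟨h2, h3⟩ := o_eq ho ho1 hs hsu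
        rw [h2, h3, if_pos hs]
        exact ⟨rfl, h1.symm⟩
      by_cases h1' : u = R.nxt s v
      · refine ⟨Sum.inl ⟨s(s, v), hsv⟩, Or.inr ?_⟩
        unfold eS eT
        dsimp only
        obtain ⟨h2, h3⟩ := o_eq ho ho1 hs hsv
        rw [h2, h3, if_pos hs]
        exact ⟨rfl, h1'.symm⟩
      have h4 : (G.neighborSet s).ncard = 4 :=
        le_antisymm (hdeg s hs) (card_four (R := R) hsu hsv hne h1 h1')
      have hs4 : s ∈ S4 G S := ⟨hs, h4⟩
      exact ⟨Sum.inr (Sum.inr ⟨s, hs4⟩), diag (hp s hs) h4 hsu hsv hne h1 h1' (hN hs4)⟩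

end Pool.Agent.AC5
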