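import Pool.Agent.AC5.Defs

set_option autoImplicit false

/-!
# AC5/ModX: models from explicit sets (MP_289c47_co, helper88)

PROOF. `hasK5_of`: `A = ![A0, A1, A2, A3, A4]`; the three conditions by cases over `Fin 5` (`Tch` is symmetric,
`Disjoint` is symmetric). `hasK33_of`: `A (p, i) = if p = 0 then ![A0, A1, A2] i else ![B0, B1, B2] i`.
-/

namespace Pool.Agent.AC5

variable {B : Type} {Γ : SimpleGraph B}

private lemma tch_symm {A A' : Set B} (h : Tch Γ A A') : Tch Γ A' A := by
  obtain ⟨a, ha, b, hb, hab⟩ := h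
  exact ⟨b, hb, a, ha, hab.symm⟩

lemma hasK5_of {A0 A1 A2 A3 A4 : Set B} (c0 : Conn Γ A0) (c1 : Conn Γ A1) (c2 : Conn Γ A2)
    (c3 : Conn Γ A3) (c4 : Conn Γ A4) (d01 : Disjoint A0 A1) (d02 : Disjoint A0 A2)
    (d03 : Disjoint A0 A3) (d04 : Disjoint A0 A4) (d12 : Disjoint A1 A2) (d13 : Disjoint A1 A3)
    (d14 : Disjoint A1 A4) (d23 : Disjoint A2 A3) (d24 : Disjoint A2 A4) (d34 : Disjoint A3 A4)
    (t01 : Tch Γ A0 A1) (t02 : Tch Γ A0 A2) (t03 : Tch Γ A0 A3) (t04 : Tch Γ A0 A4)
    (t12 : Tch Γ A1 A2) (t13 : Tch Γ A1 A3) (t14 : Tch Γ A1 A4) (t23 : Tch Γ A2 A3)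
    (t24 : Tch Γ A2 A4) (t34 : Tch Γ A3 A4) : HasK5 Γ := by
  refine ⟨![A0, A1, A2, A3, A4], ?_, ?_, ?_⟩
  · intro i
    fin_cases i
    · exact c0
    · exact c1
    · exact c2
    · exact c3
    · exact c4
  · have key : ∀ i j : Fin 5, i < j →
        Disjoint ((![A0, A1, A2, A3, A4] : Fin 5 → Set B) i)
          ((![A0, A1, A2, A3, A4] : Fin 5 → Set B) j) := by
      intro i j hij
      fin_cases i <;> fin_cases j <;> first
        | exact absurd hij (by decide)
        | assumption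
    intro i j hij
    rcases lt_or_gt_of_ne hij with h | h
    · exact key i j h
    · exact (key j i h).symm
  · have key : ∀ i j : Fin 5, i < j →
        Tch Γ ((![A0, A1, A2, A3, A4] : Fin 5 → Set B) i)
          ((![A0, A1, A2, A3, A4] : Fin 5 → Set B) j) := by
      intro i j hij
      fin_cases i <;> fin_cases j <;> first
        | exact absurd hij (by decide)
        | assumption
    intro i j hij
    rcases lt_or_gt_of_ne hij with h | h
    · exact key i j h
    · exact tch_symm (key j i h)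

lemma hasK33_of {A0 A1 A2 B0 B1 B2 : Set B} (c0 : Conn Γ A0) (c1 : Conn Γ A1) (c2 : Conn Γ A2)
    (e0 : Conn Γ B0) (e1 : Conn Γ B1) (e2 : Conn Γ B2) (d01 : Disjoint A0 A1)
    (d02 : Disjoint A0 A2) (d12 : Disjoint A1 A2) (f01 : Disjoint B0 B1) (f02 : Disjoint B0 B2)
    (f12 : Disjoint B1 B2) (m00 : Disjoint A0 B0) (m01 : Disjoint A0 B1) (m02 : Disjoint A0 B2)
    (m10 : Disjoint A1 B0) (m11 : Disjoint A1 B1) (m12 : Disjoint A1 B2) (m20 : Disjoint A2 B0)
    (m21 : Disjoint A2 B1) (m22 : Disjoint A2 B2) (t00 : Tch Γ A0 B0) (t01 : Tch Γ A0 B1)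
    (t02 : Tch Γ A0 B2) (t10 : Tch Γ A1 B0) (t11 : Tch Γ A1 B1) (t12 : Tch Γ A1 B2)
    (t20 : Tch Γ A2 B0) (t21 : Tch Γ A2 B1) (t22 : Tch Γ A2 B2) : HasK33 Γ := by
  have hd : ∀ i j : Fin 3, i < j → Disjoint ((![A0, A1, A2] : Fin 3 → Set B) i)
      ((![A0, A1, A2] : Fin 3 → Set B) j) := by
    intro i j hij
    fin_cases i <;> fin_cases j <;> first
      | exact absurd hij (by decide)
      | assumption
  have he : ∀ i j : Fin 3, i < j → Disjoint ((![B0, B1, B2] : Fin 3 → Set B) i)
      ((![B0, B1, B2] : Fin 3 → Set B) j) := by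
    intro i j hij
    fin_cases i <;> fin_cases j <;> first
      | exact absurd hij (by decide)
      | assumption
  have hm : ∀ i j : Fin 3, Disjoint ((![A0, A1, A2] : Fin 3 → Set B) i)
      ((![B0, B1, B2] : Fin 3 → Set B) j) := by
    intro i j
    fin_cases i <;> fin_cases j <;> assumption
  have ht : ∀ i j : Fin 3, Tch Γ ((![A0, A1, A2] : Fin 3 → Set B) i)
      ((![B0, B1, B2] : Fin 3 → Set B) j) := by
    intro i j
    fin_cases i <;> fin_cases j <;> assumption
  have hd' : ∀ i j : Fin 3, i ≠ j → Disjoint ((![A0, A1, A2] : Fin 3 → Set B) i)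
      ((![A0, A1, A2] : Fin 3 → Set B) j) := by
    intro i j hij
    rcases lt_or_gt_of_ne hij with h | h
    · exact hd i j h
    · exact (hd j i h).symm
  have he' : ∀ i j : Fin 3, i ≠ j → Disjoint ((![B0, B1, B2] : Fin 3 → Set B) i)
      ((![B0, B1, B2] : Fin 3 → Set B) j) := by
    intro i j hij
    rcases lt_or_gt_of_ne hij with h | h
    · exact he i j h
    · exact (he j i h).symm
  refine ⟨fun p => if p.1 = 0 then (![A0, A1, A2] : Fin 3 → Set B) p.2
    else (![B0, B1, B2] : Fin 3 → Set B) p.2, ?_, ?_, ?_⟩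
  · rintro ⟨p, i⟩
    by_cases hp : p = 0
    · simp only [hp, if_true]
      fin_cases i <;> assumption
    · simp only [hp, if_false]
      fin_cases i <;> assumption
  · rintro ⟨p, i⟩ ⟨q, j⟩ hij
    by_cases hp : p = 0 <;> by_cases hq : q = 0
    · simp only [hp, hq, if_true]
      apply hd'
      rintro rfl
      exact hij (by rw [hp, hq])
    · simp only [hp, hq, if_true, if_false]
      exact hm i j
    · simp only [hp, hq, if_true, if_false]
      exact (hm j i).symm
    · simp only [hp, hq, if_false]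
      apply he'
      rintro rfl
      apply hij
      have : p = q := by omega
      rw [this]
  · intro i j
    simpa using ht i j

end Pool.Agent.AC5
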