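import Pool.Agent.AC5.TwoReg
import Pool.Agent.AC5.ModX

set_option autoImplicit false

/-!
# AC5/DStar: a removable boundary vertex (MP_289c47_co, helper88)

PROOF. Write `X = {x ∈ U | nb Γ Z x}`. Suppose that there is no such `x`. Then every `x ∈ X \ P` is not adjacent to an
element of `P` and has at least two, so by `h2` exactly two, neighbours in `X`; none of them is in `P`. Let `x0 ∈ X \ P`
(`hX`) and `C = comp Γ (X \ P) x0`; it is connected, and every `x ∈ C` has exactly two neighbours in `C` (its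
neighbours in `X` are in `X \ P`, so in `C` by `comp_closed`). So `C` has at least three elements (`x` and its two
neighbours). Let `p ∈ P` (`hP`); `p ∉ C`. Let `D = comp Γ (U \ C) p`. It is disjoint from `C`.
(1) `D` has a neighbour in `C`: `exists_nb_of_closed` (`hU : Conn Γ U`, `Y = C`, `D` closed in `U \ C`). Let
`Y = {y ∈ C | nb Γ D y}`, nonempty.
(2) `Y` is not a single vertex `{y}`: otherwise `D` is closed in `U \ {y}`: if `x ∈ D`, `w ∈ U \ {y}`, `x ~ w`, then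
`w ∈ D` or `w ∈ C` (by `comp_closed`), in the latter case `w ∈ Y`, `w = y`, a contradiction. So `D = U \ {y}`, since
`U \ {y}` is connected (`hcut`; it is nonempty), but `C` has an element different from `y` and `D ∩ C = ∅`.
(3) If `Y ⊆ {y, y'}` with `y, y' ∈ C` adjacent: in the same way `D` is closed in `U \ {y, y'}`, which is connected by
`hsep`, so `D = U \ {y, y'}`; but `C` has an element different from `y`, `y'`. A contradiction.
(4) So there are `y ≠ y'` in `Y` (by (1), (2)). If some two different elements `y, y'` of `Y` are not adjacent: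
`two_arcs` gives `A1`, `A2`; `hasK33_of` with `Z, {y}, {y'}` against `A1, A2, D`: `Z` touches `A1`, `A2` (nonempty
subsets of `C ⊆ X`) and `D` (`p`, `hPZ`), `y`, `y'` touch `A1, A2` and `D` (`Y`). A contradiction to `h33`.
(5) Otherwise all elements of `Y` are pairwise adjacent; `y ≠ y'` in `Y`; by (3) there is a third element `y''` of `Y`
(else `Y ⊆ {y, y'}`). `hasK5_of` with `Z, D, {y}, {y'}, {y''}`. A contradiction to `h5`.
-/

namespace Pool.Agent.AC5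

private lemma DStar_nb_tch {B : Type} {Γ : SimpleGraph B} {A : Set B} {y : B} (h : nb Γ A y) :
    Tch Γ {y} A := by
  obtain ⟨a, ha, h⟩ := h
  exact ⟨y, rfl, a, ha, h.symm⟩

private lemma DStar_tch_nb {B : Type} {Γ : SimpleGraph B} {A A' : Set B} {y : B} (h : nb Γ A y)
    (hy : y ∈ A') : Tch Γ A A' := by
  obtain ⟨a, ha, h⟩ := h
  exact ⟨a, ha, y, hy, h⟩

private lemma DStar_tch_adj {B : Type} {Γ : SimpleGraph B} {x y : B} (h : Γ.Adj x y) :
    Tch Γ {x} {y} := ⟨x, rfl, y, rfl, h⟩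

theorem dstar {B : Type} [Finite B] {Γ : SimpleGraph B} (h5 : ¬ HasK5 Γ) (h33 : ¬ HasK33 Γ)
    {Z U P : Set B} (hZ : Conn Γ Z) (hd : Disjoint Z U) (hU : Conn Γ U) (hPU : P ⊆ U)
    (hPZ : ∀ p ∈ P, nb Γ Z p) (hP : P.Nonempty)
    (hcut : ∀ u ∈ U, (U \ {u}).Nonempty → Conn Γ (U \ {u}))
    (hsep : ∀ u ∈ U, ∀ w ∈ U, nb Γ Z u → nb Γ Z w → Γ.Adj u w → (U \ {u, w}).Nonempty →
      Conn Γ (U \ {u, w}))
    (h2 : ∀ v ∈ U, nb Γ Z v → {x | x ∈ U ∧ nb Γ Z x ∧ Γ.Adj v x}.ncard ≤ 2)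
    (hX : ∃ x ∈ U, nb Γ Z x ∧ x ∉ P) :
    ∃ x ∈ U, nb Γ Z x ∧ x ∉ P ∧
      ((∃ p ∈ P, Γ.Adj p x) ∨ {w | w ∈ U ∧ nb Γ Z w ∧ Γ.Adj x w}.ncard ≤ 1) := by
  classical
  by_contra hcon
  have hN : ∀ x ∈ U, nb Γ Z x → x ∉ P → (∀ p ∈ P, ¬ Γ.Adj p x) ∧
      {w | w ∈ U ∧ nb Γ Z w ∧ Γ.Adj x w}.ncard = 2 := by
    intro x hx hxZ hxP
    refine ⟨fun p hp hadj => hcon ⟨x, hx, hxZ, hxP, Or.inl ⟨p, hp, hadj⟩⟩, ?_⟩
    have h3 := h2 x hx hxZ
    have h4 : ¬ {w | w ∈ U ∧ nb Γ Z w ∧ Γ.Adj x w}.ncard ≤ 1 :=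
      fun h => hcon ⟨x, hx, hxZ, hxP, Or.inr h⟩
    omega
  obtain ⟨x0, hx0U, hx0Z, hx0P⟩ := hX
  obtain ⟨p, hp⟩ := hP
  set W : Set B := {x | x ∈ U ∧ nb Γ Z x ∧ x ∉ P} with hW
  set C : Set B := comp Γ W x0 with hCdef
  have hx0W : x0 ∈ W := ⟨hx0U, hx0Z, hx0P⟩
  have hCc : Conn Γ C := comp_conn hx0W
  have hCW : C ⊆ W := comp_sub W x0
  have hCU : C ⊆ U := fun x hx => (hCW hx).1
  have hCZ : ∀ x ∈ C, nb Γ Z x := fun x hx => (hCW hx).2.1
  -- every vertex of `C` has exactly two neighbours in `C`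
  have h2C : ∀ x ∈ C, {w | w ∈ C ∧ Γ.Adj x w}.ncard = 2 := by
    intro x hx
    have hxW := hCW hx
    have h3 := hN x hxW.1 hxW.2.1 hxW.2.2
    have h4 : {w | w ∈ C ∧ Γ.Adj x w} = {w | w ∈ U ∧ nb Γ Z w ∧ Γ.Adj x w} := by
      ext w
      constructor
      · rintro ⟨hw, hadj⟩
        exact ⟨hCU hw, hCZ w hw, hadj⟩
      · rintro ⟨hwU, hwZ, hadj⟩
        have hwP : w ∉ P := fun hwP => h3.1 w hwP hadj.symm
        exact ⟨comp_closed hx (show w ∈ W from ⟨hwU, hwZ, hwP⟩) hadj, hadj⟩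
    rw [h4]
    exact h3.2
  -- the component of `p`
  have hpC : p ∉ C := fun h => (hCW h).2.2 hp
  have hpUC : p ∈ U \ C := ⟨hPU hp, hpC⟩
  set D : Set B := comp Γ (U \ C) p with hDdef
  have hDsub : D ⊆ U \ C := comp_sub (U \ C) p
  have hpD : p ∈ D := mem_comp_self hpUC
  have hDc : Conn Γ D := comp_conn hpUC
  have hDU : D ⊆ U := fun x hx => (hDsub hx).1
  have hDC : Disjoint D C := Set.disjoint_left.2 fun x hx => (hDsub hx).2
  have hDcl : ∀ x ∈ D, ∀ w ∈ U \ C, Γ.Adj x w → w ∈ D := fun x hx w hw h => comp_closed hx hw h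
  obtain ⟨d1, hd1, y, ⟨hyC, -⟩, hdy⟩ := exists_nb_of_closed (Y := C) hU hDsub ⟨p, hpD⟩ hDcl
    ⟨x0, mem_comp_self hx0W, hx0U⟩
  have hyD : nb Γ D y := ⟨d1, hd1, hdy⟩
  -- the key closure argument
  have key : ∀ T : Set B, (∀ y ∈ C, nb Γ D y → y ∈ T) → T ⊆ C →
      ((U \ T).Nonempty → Conn Γ (U \ T)) → ∀ w ∈ C, w ∉ T → False := by
    intro T hT hTC hconn w hw hwT
    have hDT : D ⊆ U \ T := fun x hx => ⟨hDU hx, fun h => (hDsub hx).2 (hTC h)⟩
    have hDeq : D = U \ T := by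
      refine (hconn ⟨p, hDT hpD⟩).2 D hDT ⟨p, hpD⟩ ?_
      intro x hx z hz hadj
      by_cases hzC : z ∈ C
      · exact absurd (hT z hzC ⟨x, hx, hadj⟩) hz.2
      · exact hDcl x hx z ⟨hz.1, hzC⟩ hadj
    have : w ∈ D := by
      rw [hDeq]
      exact ⟨hCU hw, hwT⟩
    exact Set.disjoint_left.1 hDC this hw
  -- two different neighbours of `y` in `C`
  have hnbr : ∀ u ∈ C, ∀ v, ∃ w ∈ C, w ≠ u ∧ w ≠ v := by
    intro u hu v
    have hc := h2C u hu
    obtain ⟨a, b, hab, hs⟩ := Set.ncard_eq_two.1 hc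
    have ha : a ∈ {w | w ∈ C ∧ Γ.Adj u w} := by rw [hs]; exact Set.mem_insert _ _
    have hb : b ∈ {w | w ∈ C ∧ Γ.Adj u w} := by rw [hs]; exact Or.inr rfl
    by_cases hav : a = v
    · exact ⟨b, hb.1, hb.2.ne', fun h => hab (hav.trans h.symm)⟩
    · exact ⟨a, ha.1, ha.2.ne', hav⟩
  have hstep2 : ∃ y' ∈ C, nb Γ D y' ∧ y' ≠ y := by
    by_contra hno
    push Not at hno
    obtain ⟨w, hw, hwy, -⟩ := hnbr y hyC y
    exact key {y} (fun z hz hzD => hno z hz hzD) (Set.singleton_subset_iff.2 hyC)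
      (hcut y (hCU hyC)) w hw hwy
  obtain ⟨y', hy'C, hy'D, hyy'⟩ := hstep2
  have hZC : ∀ x ∈ C, x ∉ Z := fun x hx hxZ => Set.disjoint_left.1 hd hxZ (hCU hx)
  have hZD : Disjoint Z D := hd.mono_right hDU
  -- all elements of `Y` are pairwise adjacent
  have hadj : ∀ u ∈ C, ∀ v ∈ C, nb Γ D u → nb Γ D v → u ≠ v → Γ.Adj u v := by
    intro u hu v hv huD hvD huv
    by_contra hna
    obtain ⟨A1, A2, hA1, hA2, c1, c2, d12, n1, n1', n2, n2'⟩ := two_arcs hCc h2C hu hv huv hna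
    have hA1C : A1 ⊆ C := fun x hx => (hA1 hx).1
    have hA2C : A2 ⊆ C := fun x hx => (hA2 hx).1
    obtain ⟨a1, ha1⟩ := c1.1
    obtain ⟨a2, ha2⟩ := c2.1
    refine h33 (hasK33_of (A0 := Z) (A1 := {u}) (A2 := {v}) (B0 := A1) (B1 := A2) (B2 := D)
      hZ (Conn.singleton u) (Conn.singleton v) c1 c2 hDc ?_ ?_ ?_ d12 ?_ ?_ ?_ ?_ hZD ?_ ?_ ?_ ?_
      ?_ ?_ ?_ ?_ ?_ (DStar_nb_tch n1) (DStar_nb_tch n2) (DStar_nb_tch huD) (DStar_nb_tch n1')
      (DStar_nb_tch n2') (DStar_nb_tch hvD))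
    · exact Set.disjoint_singleton_right.2 (hZC u hu)
    · exact Set.disjoint_singleton_right.2 (hZC v hv)
    · exact Set.disjoint_singleton.2 huv
    · exact (hDC.mono_right hA1C).symm
    · exact (hDC.mono_right hA2C).symm
    · exact Set.disjoint_right.2 fun x hx => hZC x (hA1C hx)
    · exact Set.disjoint_right.2 fun x hx => hZC x (hA2C hx)
    · exact Set.disjoint_singleton_left.2 fun h => (hA1 h).2 (Or.inl rfl)
    · exact Set.disjoint_singleton_left.2 fun h => (hA2 h).2 (Or.inl rfl)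
    · exact Set.disjoint_singleton_left.2 fun h => (hDsub h).2 hu
    · exact Set.disjoint_singleton_left.2 fun h => (hA1 h).2 (Or.inr rfl)
    · exact Set.disjoint_singleton_left.2 fun h => (hA2 h).2 (Or.inr rfl)
    · exact Set.disjoint_singleton_left.2 fun h => (hDsub h).2 hv
    · exact DStar_tch_nb (hCZ a1 (hA1C ha1)) ha1
    · exact DStar_tch_nb (hCZ a2 (hA2C ha2)) ha2
    · exact DStar_tch_nb (hPZ p hp) hpD
  have hay : Γ.Adj y y' := hadj y hyC y' hy'C hyD hy'D hyy'.symm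
  -- a third element
  have hstep3 : ∃ z ∈ C, nb Γ D z ∧ z ≠ y ∧ z ≠ y' := by
    by_contra hno
    push Not at hno
    obtain ⟨w, hw, hwy, hwy'⟩ := hnbr y hyC y'
    refine key {y, y'} (fun z hz hzD => ?_) ?_
      (hsep y (hCU hyC) y' (hCU hy'C) (hCZ y hyC) (hCZ y' hy'C) hay) w hw ?_
    · by_cases hzy : z = y
      · exact Or.inl hzy
      · exact Or.inr (hno z hz hzD hzy)
    · rintro z (rfl | rfl)
      · exact hyC
      · exact hy'C
    · rintro (h | h)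
      · exact hwy h
      · exact hwy' h
  obtain ⟨z, hzC, hzD, hzy, hzy'⟩ := hstep3
  refine h5 (hasK5_of (A0 := Z) (A1 := D) (A2 := {y}) (A3 := {y'}) (A4 := {z}) hZ hDc
    (Conn.singleton y) (Conn.singleton y') (Conn.singleton z) hZD ?_ ?_ ?_ ?_ ?_ ?_ ?_ ?_ ?_
    (DStar_tch_nb (hPZ p hp) hpD) (DStar_tch_nb (hCZ y hyC) rfl)
    (DStar_tch_nb (hCZ y' hy'C) rfl) (DStar_tch_nb (hCZ z hzC) rfl) (DStar_tch_nb hyD rfl)
    (DStar_tch_nb hy'D rfl) (DStar_tch_nb hzD rfl) (DStar_tch_adj hay)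
    (DStar_tch_adj (hadj y hyC z hzC hyD hzD hzy.symm))
    (DStar_tch_adj (hadj y' hy'C z hzC hy'D hzD hzy'.symm)))
  · exact Set.disjoint_singleton_right.2 (hZC y hyC)
  · exact Set.disjoint_singleton_right.2 (hZC y' hy'C)
  · exact Set.disjoint_singleton_right.2 (hZC z hzC)
  · exact Set.disjoint_singleton_right.2 fun h => (hDsub h).2 hyC
  · exact Set.disjoint_singleton_right.2 fun h => (hDsub h).2 hy'C
  · exact Set.disjoint_singleton_right.2 fun h => (hDsub h).2 hzC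
  · exact Set.disjoint_singleton.2 hyy'.symm
  · exact Set.disjoint_singleton.2 hzy.symm
  · exact Set.disjoint_singleton.2 hzy'.symm

end Pool.Agent.AC5
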