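import Pool.Agent.AC5.CB

set_option autoImplicit false

/-!
# AC5/St3: steps of the induction: removing a vertex (MP_289c47_co, helper88)

PROOF. `step_P` (all vertices of `U` adjacent to `Z` are in `P`; `P` nonempty): let `p ∈ P`, `α = c0 p`. Instance
`Z' = {p}`, `U' = U \ {p}`, `P' = P \ {p}` (adjacent to `p` since `P` is a clique), `L' v = (L v).erase α` for `v ~ p`,
`L v` otherwise, precolouring `c0`. For `v ∈ U' \ P'`: `v ∉ P`, so `v` is not adjacent to `Z` and its list has at least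
five elements; four after erasing `α` (then it is adjacent to `p`). For `l5`: `v ∈ U'` not adjacent to `p`: `v ∉ P'`,
the list is unchanged. `IH` gives `c`; take `Function.update c p α`. Proper: for `v ∈ U'` adjacent to `p`: if `v ∈ P'`,
`c v = c0 v ≠ c0 p` (`pro`), otherwise `c v ∈ (L v).erase α`.
`step_x`: choose `R ⊆ L x` such that no `c0 p`, `p ∈ P` adjacent to `x`, is in `R`, `R.card ≤ 2` and
`m < R.card`, where `m` is the number of `w ∈ U \ P` with `nb Γ Z w`, `w ~ x`. This is possible: let `k` be the number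
of `p ∈ P` adjacent to `x`; `k + m ≤ 2` by `h2` (elements of `P` are in `U` and adjacent to `Z`), and
`(L x).card ≥ 3` (`l3`), so `L x` minus the `≤ k` colours of these `p` has at least `3 - k` elements. If `k = 0`, then by
`hx` `m ≤ 1`: take `R` of size two. If `k = 1`, `m ≤ 1`: `R` of size two. If `k = 2`, `m = 0`: `R` of size one.
(`Finset.exists_subset_card_eq`.) Instance: `Z' = Z ∪ {x}` (connected: `Conn.union`, `Conn.singleton`), `U' = U \ {x}`,
`P' = P`, `L' v = L v \ R` if `v ~ x` and `¬ nb Γ Z v`, `L v` otherwise. `l3`: for `v ∈ U' \ P`: unchanged or at least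
`5 - 2`. `l5`: `v` not adjacent to `Z'`: not adjacent to `x`, unchanged, at least five. `IH` gives `c1`. Choose
`β ∈ R` different from `c1 w` for the `≤ m` vertices `w ∈ U \ P` adjacent to `x` with `nb Γ Z w`; take
`Function.update c1 x β`. Proper at `x`: for `v ∈ U'` adjacent to `x`: if `v ∈ P`, `c1 v = c0 v ∉ R`; if `v ∉ P` and
`nb Γ Z v`: by the choice of `β`; if `¬ nb Γ Z v`: `c1 v ∈ L v \ R`.
-/

namespace Pool.Agent.AC5

variable {B : Type} [Finite B] {Γ : SimpleGraph B} {Z U P : Set B} {L : B → Finset ℕ} {c0 : B → ℕ}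

theorem step_P (ih : IH Γ U) (h : Inst Γ Z U P L c0) (h0 : P.Nonempty)
    (hX : ∀ v ∈ U, nb Γ Z v → v ∈ P) : Ext Γ U P L c0 := by
  classical
  obtain ⟨p, hp⟩ := h0
  have hpU : p ∈ U := h.PU hp
  obtain ⟨L', hL'⟩ : ∃ L' : B → Finset ℕ, ∀ v, L' v = if Γ.Adj p v then (L v).erase (c0 p)
      else L v := ⟨_, fun _ => rfl⟩
  have hsub : ∀ v, L' v ⊆ L v := by
    intro v
    rw [hL']
    split_ifs
    · exact Finset.erase_subset _ _
    · exact Finset.Subset.refl _
  have hinst : Inst Γ {p} (U \ {p}) (P \ {p}) L' c0 := by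
    refine ⟨Conn.singleton p, ?_, ?_, ?_, ?_, ?_, ?_, ?_, ?_⟩
    · exact Set.disjoint_sdiff_right
    · intro q hq
      exact ⟨h.PU hq.1, hq.2⟩
    · intro q hq
      exact ⟨p, rfl, h.clq p hp q hq.1 (fun e => hq.2 e.symm)⟩
    · exact (Set.ncard_le_ncard Set.sdiff_subset (Set.toFinite _)).trans h.Pc
    · intro q hq q' hq' hne
      exact h.clq q hq.1 q' hq'.1 hne
    · intro q hq q' hq' hne
      exact h.pro q hq.1 q' hq'.1 hne
    · intro v hv hvP
      have hvP' : v ∉ P := fun hv' => hvP ⟨hv', hv.2⟩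
      have h5 : 5 ≤ (L v).card := h.l5 v hv.1 (fun hn => hvP' (hX v hv.1 hn))
      rw [hL']
      split_ifs
      · have := Finset.pred_card_le_card_erase (a := c0 p) (s := L v)
        omega
      · omega
    · intro v hv hnb
      have hadj : ¬ Γ.Adj p v := fun ha => hnb ⟨p, rfl, ha⟩
      have hvP' : v ∉ P := fun hv' => hadj (h.clq p hp v hv' (fun e => hv.2 e.symm))
      have h5 : 5 ≤ (L v).card := h.l5 v hv.1 (fun hn => hvP' (hX v hv.1 hn))
      rw [hL', if_neg hadj]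
      exact h5
  obtain ⟨c, hc1, hc2, hc3⟩ := ih {p} (U \ {p}) (P \ {p}) L' c0
    (Set.ncard_sdiff_singleton_lt_of_mem hpU (Set.toFinite _)) hinst
  have hpv : ∀ v ∈ U, v ≠ p → Γ.Adj p v → c v ≠ c0 p := by
    intro v hv hne hadj
    by_cases hvP : v ∈ P
    · rw [hc1 v ⟨hvP, hne⟩]
      exact h.pro v hvP p hp hne
    · have h1 := hc2 v ⟨hv, hne⟩ (fun hv' => hvP hv'.1)
      rw [hL', if_pos hadj] at h1
      exact (Finset.mem_erase.1 h1).1
  refine ⟨Function.update c p (c0 p), ?_, ?_, ?_⟩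
  · intro q hq
    by_cases hqp : q = p
    · subst hqp; rw [Function.update_self]
    · rw [Function.update_of_ne hqp]
      exact hc1 q ⟨hq, hqp⟩
  · intro v hv hvP
    have hvp : v ≠ p := fun e => hvP (e ▸ hp)
    rw [Function.update_of_ne hvp]
    exact hsub v (hc2 v ⟨hv, hvp⟩ (fun hv' => hvP hv'.1))
  · intro u hu v hv hadj
    by_cases hup : u = p
    · subst hup
      have hvu : v ≠ u := hadj.ne'
      rw [Function.update_self, Function.update_of_ne hvu]
      exact (hpv v hv hvu hadj).symm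
    · by_cases hvp : v = p
      · subst hvp
        rw [Function.update_self, Function.update_of_ne hup]
        exact hpv u hu hup hadj.symm
      · rw [Function.update_of_ne hup, Function.update_of_ne hvp]
        exact hc3 u ⟨hu, hup⟩ v ⟨hv, hvp⟩ hadj

theorem step_x (ih : IH Γ U) (h : Inst Γ Z U P L c0) {x : B} (hxU : x ∈ U) (hxZ : nb Γ Z x)
    (hxP : x ∉ P) (h2 : {w | w ∈ U ∧ nb Γ Z w ∧ Γ.Adj x w}.ncard ≤ 2)
    (hx : (∃ p ∈ P, Γ.Adj p x) ∨ {w | w ∈ U ∧ nb Γ Z w ∧ Γ.Adj x w}.ncard ≤ 1) :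
    Ext Γ U P L c0 := by
  classical
  have := Fintype.ofFinite B
  obtain ⟨Pk, hPk⟩ : ∃ Pk : Finset B, ∀ v, v ∈ Pk ↔ v ∈ P ∧ Γ.Adj x v :=
    ⟨Finset.univ.filter fun v => v ∈ P ∧ Γ.Adj x v, fun v => by simp⟩
  obtain ⟨M, hM⟩ : ∃ M : Finset B, ∀ v, v ∈ M ↔ v ∈ U ∧ nb Γ Z v ∧ Γ.Adj x v ∧ v ∉ P :=
    ⟨Finset.univ.filter fun v => v ∈ U ∧ nb Γ Z v ∧ Γ.Adj x v ∧ v ∉ P, fun v => by simp⟩
  have hkm : Pk.card + M.card ≤ {w | w ∈ U ∧ nb Γ Z w ∧ Γ.Adj x w}.ncard := by
    have hd : Disjoint Pk M := by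
      rw [Finset.disjoint_left]
      intro v h1 h3
      exact ((hM v).1 h3).2.2.2 ((hPk v).1 h1).1
    rw [← Finset.card_union_of_disjoint hd, ← Set.ncard_coe_finset]
    apply Set.ncard_le_ncard _ (Set.toFinite _)
    intro v hv
    rw [Finset.mem_coe, Finset.mem_union] at hv
    rcases hv with hv | hv
    · have h1 := (hPk v).1 hv
      exact ⟨h.PU h1.1, h.PX v h1.1, h1.2⟩
    · have h1 := (hM v).1 hv
      exact ⟨h1.1, h1.2.1, h1.2.2.1⟩
  have hx' : 1 ≤ Pk.card ∨ M.card ≤ 1 := by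
    rcases hx with ⟨p, hp, hadj⟩ | hx
    · left
      exact Finset.card_pos.2 ⟨p, (hPk p).2 ⟨hp, hadj.symm⟩⟩
    · right
      omega
  obtain ⟨R, hRL, hRP, hR2, hRM⟩ : ∃ R ⊆ L x, (∀ p ∈ Pk, c0 p ∉ R) ∧ R.card ≤ 2 ∧
      M.card < R.card := by
    have h3 : 3 ≤ (L x).card := h.l3 x hxU hxP
    have h4 : (L x).card - (Pk.image c0).card ≤ (L x \ Pk.image c0).card :=
      Finset.le_card_sdiff _ _
    have h5 : (Pk.image c0).card ≤ Pk.card := Finset.card_image_le
    have h6 : min 2 (3 - Pk.card) ≤ (L x \ Pk.image c0).card := by omega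
    obtain ⟨R, hR, hRc⟩ := Finset.exists_subset_card_eq h6
    refine ⟨R, hR.trans Finset.sdiff_subset, ?_, by omega, by omega⟩
    intro p hp hmem
    exact (Finset.mem_sdiff.1 (hR hmem)).2 (Finset.mem_image_of_mem c0 hp)
  obtain ⟨L', hL'⟩ : ∃ L' : B → Finset ℕ, ∀ v, L' v = if Γ.Adj x v ∧ ¬ nb Γ Z v then L v \ R
      else L v := ⟨_, fun _ => rfl⟩
  have hsub : ∀ v, L' v ⊆ L v := by
    intro v
    rw [hL']
    split_ifs
    · exact Finset.sdiff_subset
    · exact Finset.Subset.refl _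
  have hinst : Inst Γ (Z ∪ {x}) (U \ {x}) P L' c0 := by
    refine ⟨?_, ?_, ?_, ?_, h.Pc, h.clq, h.pro, ?_, ?_⟩
    · apply Conn.union h.cZ (Conn.singleton x)
      obtain ⟨a, ha, hadj⟩ := hxZ
      exact ⟨a, ha, x, rfl, hadj⟩
    · rw [Set.disjoint_left]
      intro v hv hv'
      rcases hv with hv | hv
      · exact Set.disjoint_left.1 h.dis hv hv'.1
      · exact hv'.2 hv
    · intro p hp
      exact ⟨h.PU hp, fun e => hxP (e ▸ hp)⟩
    · intro p hp
      obtain ⟨a, ha, hadj⟩ := h.PX p hp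
      exact ⟨a, Or.inl ha, hadj⟩
    · intro v hv hvP
      rw [hL']
      split_ifs with hc
      · have h5 := h.l5 v hv.1 hc.2
        have h6 : (L v).card - R.card ≤ (L v \ R).card := Finset.le_card_sdiff _ _
        omega
      · exact h.l3 v hv.1 hvP
    · intro v hv hnb
      have h1 : ¬ Γ.Adj x v := fun ha => hnb ⟨x, Or.inr rfl, ha⟩
      have h3 : ¬ nb Γ Z v := fun ⟨a, ha, hadj⟩ => hnb ⟨a, Or.inl ha, hadj⟩
      rw [hL', if_neg (fun hc => h1 hc.1)]
      exact h.l5 v hv.1 h3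
  obtain ⟨c, hc1, hc2, hc3⟩ := ih (Z ∪ {x}) (U \ {x}) P L' c0
    (Set.ncard_sdiff_singleton_lt_of_mem hxU (Set.toFinite _)) hinst
  have hlt : (M.image c).card < R.card := lt_of_le_of_lt Finset.card_image_le hRM
  obtain ⟨β, hβR, hβM⟩ := Finset.exists_mem_notMem_of_card_lt_card hlt
  have hpv : ∀ v ∈ U, v ≠ x → Γ.Adj x v → c v ≠ β := by
    intro v hv hne hadj he
    by_cases hvP : v ∈ P
    · rw [hc1 v hvP] at he
      exact hRP v ((hPk v).2 ⟨hvP, hadj⟩) (he ▸ hβR)
    · by_cases hnb : nb Γ Z v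
      · exact hβM (he ▸ Finset.mem_image_of_mem c ((hM v).2 ⟨hv, hnb, hadj, hvP⟩))
      · have h1 := hc2 v ⟨hv, hne⟩ hvP
        rw [hL', if_pos ⟨hadj, hnb⟩] at h1
        exact (Finset.mem_sdiff.1 h1).2 (he ▸ hβR)
  refine ⟨Function.update c x β, ?_, ?_, ?_⟩
  · intro q hq
    have hqx : q ≠ x := fun e => hxP (e ▸ hq)
    rw [Function.update_of_ne hqx]
    exact hc1 q hq
  · intro v hv hvP
    by_cases hvx : v = x
    · subst hvx
      rw [Function.update_self]
      exact hRL hβR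
    · rw [Function.update_of_ne hvx]
      exact hsub v (hc2 v ⟨hv, hvx⟩ hvP)
  · intro u hu v hv hadj
    by_cases hux : u = x
    · subst hux
      have hvu : v ≠ u := hadj.ne'
      rw [Function.update_self, Function.update_of_ne hvu]
      exact (hpv v hv hvu hadj).symm
    · by_cases hvx : v = x
      · subst hvx
        rw [Function.update_self, Function.update_of_ne hux]
        exact hpv u hu hux hadj.symm
      · rw [Function.update_of_ne hux, Function.update_of_ne hvx]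
        exact hc3 u ⟨hu, hux⟩ v ⟨hv, hvx⟩ hadj

end Pool.Agent.AC5
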