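import Pool.Agent.AC5.LemR
import Pool.Agent.AC5.ModX

set_option autoImplicit false

/-!
# AC5/Star: at most two neighbours on the boundary (MP_289c47_co, helper88)

PROOF. Suppose that there are at least three: distinct `x1, x2, x3 ∈ U`, adjacent to `v`, with `nb Γ Z xi`
(`Set.two_lt_ncard`). Let `T = U \ {v}`. `T \ {x_i} = U \ {v, x_i}` is connected by `hsep` (`v ~ x_i`, both adjacent to
`Z`). Apply `lemR`. First alternative: `D ⊆ T \ {x1, x2, x3}`; `hasK33_of` with `Z`, `{v}`, `D` against `{x1}`, `{x2}`,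
`{x3}`. Second alternative: `hasK5_of` with `Z`, `{v}`, `Y1`, `Y2`, `Y3` (`Z` touches `{v}` because `nb Γ Z v`, and `Yi`
because of `xi`; `{v}` touches `Yi` because of `xi`). All the sets other than `Z` are contained in `U`, disjoint from
`Z`; `v ∉ T`. Connectedness: `Conn.singleton`.
-/

namespace Pool.Agent.AC5

theorem star {B : Type} [Finite B] {Γ : SimpleGraph B} (h5 : ¬ HasK5 Γ) (h33 : ¬ HasK33 Γ)
    {Z U : Set B} (hZ : Conn Γ Z) (hd : Disjoint Z U)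
    (hsep : ∀ u ∈ U, ∀ w ∈ U, nb Γ Z u → nb Γ Z w → Γ.Adj u w → (U \ {u, w}).Nonempty →
      Conn Γ (U \ {u, w})) {v : B} (hv : v ∈ U) (hvZ : nb Γ Z v) :
    {x | x ∈ U ∧ nb Γ Z x ∧ Γ.Adj v x}.ncard ≤ 2 := by
  by_contra hcon
  push Not at hcon
  rw [Set.two_lt_ncard (Set.toFinite _)] at hcon
  obtain ⟨x1, ⟨hx1, hz1, ha1⟩, x2, ⟨hx2, hz2, ha2⟩, x3, ⟨hx3, hz3, ha3⟩, h12, h13, h23⟩ := hcon
  have m1 : x1 ∈ U \ {v} := ⟨hx1, ha1.ne'⟩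
  have m2 : x2 ∈ U \ {v} := ⟨hx2, ha2.ne'⟩
  have m3 : x3 ∈ U \ {v} := ⟨hx3, ha3.ne'⟩
  have hT : ∀ x, (U \ {v}) \ {x} = U \ {v, x} := by
    intro x
    ext y
    simp only [Set.mem_sdiff, Set.mem_singleton_iff, Set.mem_insert_iff]
    tauto
  have hc : ∀ x ∈ U, nb Γ Z x → Γ.Adj v x → ((U \ {v}) \ {x}).Nonempty →
      Conn Γ ((U \ {v}) \ {x}) := by
    intro x hx hzx hax hne
    rw [hT] at hne ⊢
    exact hsep v hv x hx hvZ hzx hax hne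
  have c1 := hc x1 hx1 hz1 ha1 ⟨x2, m2, h12.symm⟩
  have c2 := hc x2 hx2 hz2 ha2 ⟨x1, m1, h12⟩
  have c3 := hc x3 hx3 hz3 ha3 ⟨x1, m1, h13⟩
  have dU : ∀ Y : Set B, Y ⊆ U → Disjoint Z Y := fun Y hY => hd.mono_right hY
  have dv : ∀ Y : Set B, Y ⊆ U \ {v} → Disjoint ({v} : Set B) Y := by
    intro Y hY
    rw [Set.disjoint_singleton_left]
    exact fun h => (hY h).2 rfl
  have ds : ∀ x ∈ U, Disjoint Z {x} := fun x hx => dU _ (Set.singleton_subset_iff.2 hx)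
  have tZ : ∀ x, nb Γ Z x → ∀ Y : Set B, x ∈ Y → Tch Γ Z Y := by
    rintro x ⟨a, ha, hax⟩ Y hY
    exact ⟨a, ha, x, hY, hax⟩
  have tv : ∀ x, Γ.Adj v x → ∀ Y : Set B, x ∈ Y → Tch Γ {v} Y := by
    intro x hax Y hY
    exact ⟨v, rfl, x, hY, hax⟩
  have dss : ∀ x y : B, x ≠ y → Disjoint ({x} : Set B) {y} := fun x y hxy =>
    Set.disjoint_singleton.2 hxy
  rcases lemR m1 m2 m3 h12 h13 h23 c1 c2 c3 with ⟨D, hD, hDc, n1, n2, n3⟩ |
    ⟨Y1, Y2, Y3, s1, s2, s3, i1, i2, i3, k1, k2, k3, d12, d13, d23, t12, t13, t23⟩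
  · apply h33
    have hDT : D ⊆ U \ {v} := fun y hy => (hD hy).1
    have hDU : D ⊆ U := fun y hy => (hDT hy).1
    have dD : ∀ x, x = x1 ∨ x = x2 ∨ x = x3 → Disjoint D ({x} : Set B) := by
      intro x hx
      rw [Set.disjoint_singleton_right]
      intro h
      exact (hD h).2 (by simpa using hx)
    have tD : ∀ x, nb Γ D x → Tch Γ D {x} := by
      rintro x ⟨a, ha, hax⟩
      exact ⟨a, ha, x, rfl, hax⟩
    exact hasK33_of hZ (Conn.singleton v) hDc (Conn.singleton x1) (Conn.singleton x2)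
      (Conn.singleton x3) (ds v hv) (dU D hDU) (dv D hDT) (dss _ _ h12) (dss _ _ h13)
      (dss _ _ h23) (ds x1 hx1) (ds x2 hx2) (ds x3 hx3) (dss _ _ ha1.ne) (dss _ _ ha2.ne)
      (dss _ _ ha3.ne) (dD x1 (Or.inl rfl)) (dD x2 (Or.inr (Or.inl rfl)))
      (dD x3 (Or.inr (Or.inr rfl))) (tZ x1 hz1 _ rfl) (tZ x2 hz2 _ rfl) (tZ x3 hz3 _ rfl)
      (tv x1 ha1 _ rfl) (tv x2 ha2 _ rfl) (tv x3 ha3 _ rfl) (tD x1 n1) (tD x2 n2) (tD x3 n3)
  · apply h5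
    have u1 : Y1 ⊆ U := fun y hy => (s1 hy).1
    have u2 : Y2 ⊆ U := fun y hy => (s2 hy).1
    have u3 : Y3 ⊆ U := fun y hy => (s3 hy).1
    exact hasK5_of hZ (Conn.singleton v) k1 k2 k3 (ds v hv) (dU _ u1) (dU _ u2) (dU _ u3)
      (dv _ s1) (dv _ s2) (dv _ s3) d12 d13 d23 (tZ v hvZ _ rfl) (tZ x1 hz1 _ i1)
      (tZ x2 hz2 _ i2) (tZ x3 hz3 _ i3) (tv x1 ha1 _ i1) (tv x2 ha2 _ i2) (tv x3 ha3 _ i3)
      t12 t13 t23

end Pool.Agent.AC5
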