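import Pool.Agent.AC5.St2
import Pool.Agent.AC5.St3
import Pool.Agent.AC5.Star
import Pool.Agent.AC5.DStar

set_option autoImplicit false

/-!
# AC5/Thom: five-list-colouring without a model of `K5` or `K33` (MP_289c47_co, helper88)
-/

namespace Pool.Agent.AC5

variable {B : Type} [Finite B] {Γ : SimpleGraph B}

/-- The case of a nonempty `P`. -/
theorem thom_P (h5 : ¬ HasK5 Γ) (h33 : ¬ HasK33 Γ) {Z U P : Set B} {L : B → Finset ℕ} {c0 : B → ℕ}
    (ih : IH Γ U) (h : Inst Γ Z U P L c0) (hP : P.Nonempty) : Ext Γ U P L c0 := by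
  have hUne : U.Nonempty := hP.mono h.PU
  by_cases hU : Conn Γ U
  swap
  · exact step_disc ih h hUne hU
  by_cases hcut : ∀ u ∈ U, (U \ {u}).Nonempty → Conn Γ (U \ {u})
  swap
  · push Not at hcut
    obtain ⟨u, hu, h0, hc⟩ := hcut
    exact step_cut ih h hU hu h0 hc
  by_cases hsep : ∀ u ∈ U, ∀ w ∈ U, nb Γ Z u → nb Γ Z w → Γ.Adj u w → (U \ {u, w}).Nonempty →
      Conn Γ (U \ {u, w})
  swap
  · push Not at hsep
    obtain ⟨u, hu, w, hw, h1, h2, h3, h4, h6⟩ := hsep
    exact step_sep ih h hu hw h1 h2 h3 h4 h6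
  by_cases hX : ∀ v ∈ U, nb Γ Z v → v ∈ P
  · exact step_P ih h hP hX
  push Not at hX
  have hst : ∀ v ∈ U, nb Γ Z v → {x | x ∈ U ∧ nb Γ Z x ∧ Γ.Adj v x}.ncard ≤ 2 :=
    fun v hv hvZ => star h5 h33 h.cZ h.dis hsep hv hvZ
  obtain ⟨x, hx, hxZ, hxP, hg⟩ := dstar h5 h33 h.cZ h.dis hU h.PU h.PX hP hcut hsep hst hX
  exact step_x ih h hx hxZ hxP (hst x hx hxZ) hg

theorem thom (h5 : ¬ HasK5 Γ) (h33 : ¬ HasK33 Γ) : ∀ (n : ℕ) (Z U P : Set B) (L : B → Finset ℕ)
    (c0 : B → ℕ), U.ncard = n → Inst Γ Z U P L c0 → Ext Γ U P L c0 := by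
  intro n
  induction n using Nat.strong_induction_on with
  | _ n ihn =>
    intro Z U P L c0 hn h
    have ih : IH Γ U := fun Z' U' P' L' c' hlt h' => ihn _ (hn ▸ hlt) Z' U' P' L' c' rfl h'
    rcases P.eq_empty_or_nonempty with hP | hP
    swap
    · exact thom_P h5 h33 ih h hP
    subst hP
    by_cases hX : ∀ v ∈ U, ¬ nb Γ Z v
    · exact step_iso ih h hX
    push Not at hX
    obtain ⟨x, hx, hxZ⟩ := hX
    obtain ⟨α, hα⟩ : (L x).Nonempty := by
      rw [← Finset.card_pos]
      have := h.l3 x hx (Set.notMem_empty x)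
      omega
    have h' : Inst Γ Z U {x} L (fun _ => α) := by
      refine ⟨h.cZ, h.dis, Set.singleton_subset_iff.2 hx, ?_, ?_, ?_, ?_, ?_, h.l5⟩
      · rintro p rfl
        exact hxZ
      · rw [Set.ncard_singleton]
        exact one_le_two
      · rintro p rfl q rfl hne
        exact absurd rfl hne
      · rintro p rfl q rfl hne
        exact absurd rfl hne
      · exact fun v hv _ => h.l3 v hv (Set.notMem_empty v)
    obtain ⟨c, h1, h2, h3⟩ := thom_P h5 h33 ih h' (Set.singleton_nonempty x)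
    refine ⟨c, fun p hp => absurd hp (Set.notMem_empty p), fun v hv _ => ?_, h3⟩
    by_cases hvx : v = x
    · subst hvx
      rw [h1 v rfl]
      exact hα
    · exact h2 v hv hvx

/-- A finite graph without a model of `K5` or of `K33` is 5-choosable. -/
theorem five_choosable (h5 : ¬ HasK5 Γ) (h33 : ¬ HasK33 Γ) (L : B → Finset ℕ)
    (hL : ∀ v, 5 ≤ (L v).card) : ∃ c : B → ℕ, (∀ v, c v ∈ L v) ∧ ∀ u v, Γ.Adj u v → c u ≠ c v := by
  classical
  rcases isEmpty_or_nonempty B with hB | ⟨⟨z⟩⟩
  · exact ⟨fun _ => 0, fun v => (hB.false v).elim, fun u => (hB.false u).elim⟩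
  obtain ⟨α, hα⟩ : (L z).Nonempty := by
    rw [← Finset.card_pos]
    have := hL z
    omega
  have h : Inst Γ {z} {z}ᶜ ∅ (fun v => if Γ.Adj z v then (L v).erase α else L v) (fun _ => 0) := by
    refine ⟨Conn.singleton z, disjoint_compl_right, Set.empty_subset _,
      fun p hp => absurd hp (Set.notMem_empty p), by simp,
      fun p hp => absurd hp (Set.notMem_empty p), fun p hp => absurd hp (Set.notMem_empty p), ?_, ?_⟩
    · intro v _ _
      have h1 := hL v
      have h2 := Finset.pred_card_le_card_erase (s := L v) (a := α)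
      split_ifs <;> omega
    · intro v hv hn
      have h1 : ¬ Γ.Adj z v := fun h => hn ⟨z, rfl, h⟩
      rw [if_neg h1]
      exact hL v
  obtain ⟨c, _, h2, h3⟩ := thom h5 h33 _ _ _ _ _ _ rfl h
  refine ⟨Function.update c z α, fun v => ?_, fun u v huv => ?_⟩
  · by_cases hv : v = z
    · subst hv
      simpa using hα
    · rw [Function.update_of_ne hv]
      have h4 := h2 v hv (Set.notMem_empty v)
      dsimp only at h4
      split_ifs at h4
      · exact Finset.mem_of_mem_erase h4
      · exact h4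
  · have key : ∀ w, Γ.Adj z w → c w ≠ α := by
      intro w hw
      have h4 := h2 w hw.ne' (Set.notMem_empty w)
      dsimp only at h4
      rw [if_pos hw] at h4
      exact Finset.ne_of_mem_erase h4
    by_cases hu : u = z
    · subst hu
      rw [Function.update_self, Function.update_of_ne huv.ne']
      exact (key v huv).symm
    · by_cases hv : v = z
      · subst hv
        rw [Function.update_self, Function.update_of_ne hu]
        exact key u huv.symm
      · rw [Function.update_of_ne hu, Function.update_of_ne hv]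
        exact h3 u hu v hv huv

end Pool.Agent.AC5
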