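import Pool.Agent.AC5.NoMod
import Pool.Agent.AC5.SphH
import Pool.Agent.AC5.ChooseN
import Pool.Agent.AC5.Thom
import Pool.Agent.AC5.PickM
import Pool.Agent.AC5.Acyc

set_option autoImplicit false

/-!
# AC5/ConnCase: the connected case (MP_289c47_co, helper88)
-/

namespace Pool.Agent.AC5

open Pool.Agent.H18Thick (Rotation)

/-- The auxiliary graph is 5-choosable, for suitable omitted pairs with independent vectors. -/
theorem colH {V : Type} [Fintype V] {G : SimpleGraph V} (hc : G.Connected) (R : Rotation G)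
    (he : Nat.card V + R.faces.ncard = G.edgeSet.ncard + 2) (hne : ∀ s, ∃ b, G.Adj s b) {S : Set V}
    (hS : ∀ s ∈ S, ∀ t ∈ S, ¬ G.Adj s t) (hdeg : ∀ s ∈ S, (G.neighborSet s).ncard ≤ 4)
    (L : V → Finset ℕ) (hL : ∀ v, 5 ≤ (L v).card) :
    ∃ N : V → Sym2 V, (∀ s ∈ S, ∀ x ∈ N s, G.Adj s x) ∧
      LinearIndependent F (fun s : S4 G S => (vec (N s) : V → F)) ∧
      ∃ c : V → ℕ, (∀ v, c v ∈ L v) ∧ ∀ u v, (HGr G S N).Adj u v → c u ≠ c v := by
  obtain ⟨p, hp, hi⟩ := choose_pairs hc R he hS hne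
  refine ⟨fun s => s(p s, opp R s (p s)), ?_, hi, ?_⟩
  · intro s hs x hx
    rcases Sym2.mem_iff.1 hx with rfl | rfl
    · exact hp s hs
    · exact opp_adj R (hp s hs)
  · obtain ⟨E, Φ, _, _, X, hX⟩ := exists_sphH hc R he hS hdeg hp
    exact five_choosable (X.noK5 hX) (X.noK33 hX) L hL

/-- Two differently coloured... : in the auxiliary colouring two neighbours `u ≠ v` of `s ∈ S` with the same
colour form the omitted pair, and `s` has degree four. -/
lemma eq_pair {V : Type} {G : SimpleGraph V} {S : Set V} (hS : ∀ s ∈ S, ∀ t ∈ S, ¬ G.Adj s t)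
    {N : V → Sym2 V} {c : V → ℕ} (hH : ∀ u v, (HGr G S N).Adj u v → c u ≠ c v) {s u v : V}
    (hs : s ∈ S) (hu : G.Adj s u) (hv : G.Adj s v) (huv : u ≠ v) (hcc : c u = c v) :
    s ∈ S4 G S ∧ N s = s(u, v) := by
  have huS : u ∉ S := fun h => hS s hs u h hu
  have hvS : v ∉ S := fun h => hS s hs v h hv
  by_contra hcon
  refine hH u v ⟨huv, huS, hvS, Or.inr ⟨s, hs, hu, hv, fun h4 h5 => hcon ⟨h4, h5.symm⟩⟩⟩ hcc

/-- Two pairs of neighbours with equal colours coincide, so at most... : the number of colours on the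
neighbours of `s`. -/
lemma card_free {V : Type} [Fintype V] {G : SimpleGraph V} {S : Set V}
    (hdeg : ∀ s ∈ S, (G.neighborSet s).ncard ≤ 4) {c : V → ℕ} (L : V → Finset ℕ)
    (hL : ∀ v, 5 ≤ (L v).card) {s : V} (hs : s ∈ S) :
    ∃ Q : Finset ℕ, Q ⊆ L s ∧ 1 ≤ Q.card ∧ (∀ u, G.Adj s u → c u ∉ Q) ∧
      ((∃ u v, u ≠ v ∧ G.Adj s u ∧ G.Adj s v ∧ c u = c v) → 2 ≤ Q.card) := by
  classical
  have hfin : (G.neighborSet s).Finite := Set.toFinite _
  have hcard : (hfin.toFinset.image c).card ≤ 4 := by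
    refine Finset.card_image_le.trans ?_
    rw [← Set.ncard_eq_toFinset_card _ hfin]
    exact hdeg s hs
  refine ⟨L s \ hfin.toFinset.image c, Finset.sdiff_subset, ?_, ?_, ?_⟩
  · have := Finset.le_card_sdiff (hfin.toFinset.image c) (L s)
    have := hL s
    omega
  · intro u hu hu'
    rw [Finset.mem_sdiff] at hu'
    exact hu'.2 (Finset.mem_image.2 ⟨u, by simpa using hu, rfl⟩)
  · rintro ⟨u, v, huv, hu, hv, hcc⟩
    have h3 : (hfin.toFinset.image c).card < hfin.toFinset.card := by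
      refine lt_of_le_of_ne Finset.card_image_le fun h => ?_
      rw [Finset.card_image_iff] at h
      exact huv (h (by simpa using hu) (by simpa using hv) hcc)
    have h4 : hfin.toFinset.card ≤ 4 := by
      rw [← Set.ncard_eq_toFinset_card _ hfin]
      exact hdeg s hs
    have := Finset.le_card_sdiff (hfin.toFinset.image c) (L s)
    have := hL s
    omega

theorem conn_case {V : Type} [Fintype V] {G : SimpleGraph V} (hc : G.Connected)
    (hs : Spherical G) {S T : Set V} (hS : ∀ s ∈ S, ∀ t ∈ S, ¬ G.Adj s t)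
    (hdeg : ∀ s ∈ S, (G.neighborSet s).ncard ≤ 4)
    (hTC : ∀ u v, u ∉ S → v ∉ S → G.Adj u v → (u ∈ T ↔ v ∈ T))
    (hT : LinearIndependent F
      (fun e : {e : (KGr G S).edgeSet // ∀ x ∈ (e : Sym2 V), x ∈ T} => vec (e : Sym2 V)))
    (hC : ∀ u v w, u ∉ S → v ∉ S → w ∉ S → u ∉ T → G.Adj u v → G.Adj v w → u ≠ w → G.Adj u w)
    (L : V → Finset ℕ) (hL : ∀ v, 5 ≤ (L v).card) :
    ∃ c : V → ℕ, (∀ v, c v ∈ L v) ∧ (∀ u v, G.Adj u v → c u ≠ c v) ∧
      ∀ a b : ℕ, (G.induce {v | c v = a ∨ c v = b}).IsAcyclic := by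
  classical
  obtain ⟨R, hR⟩ := hs
  by_cases hE : ∃ u v, G.Adj u v
  swap
  · push Not at hE
    have hLne : ∀ v, (L v).Nonempty := fun v => by
      rw [← Finset.card_pos]
      have := hL v
      omega
    choose c hc' using fun v => hLne v
    refine ⟨c, hc', fun u v h => absurd h (hE u v), fun a b => ?_⟩
    have : G.induce {v | c v = a ∨ c v = b} = ⊥ := by
      ext x y
      simp [hE]
    rw [this]
    exact SimpleGraph.isAcyclic_bot
  obtain ⟨u0, v0, h00⟩ := hE
  have he : Nat.card V + R.faces.ncard = G.edgeSet.ncard + 2 := by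
    have hfin : R.faces.Finite := Set.toFinite _
    have h1 : 0 < R.faces.ncard :=
      (Set.ncard_pos hfin).2 ⟨R.face (u0, v0), u0, v0, h00, rfl⟩
    rwa [max_eq_right (by omega)] at hR
  have hne : ∀ s, ∃ b, G.Adj s b := by
    intro s
    by_cases hsu : s = u0
    · exact ⟨v0, hsu ▸ h00⟩
    · haveI : Nontrivial V := ⟨⟨s, u0, hsu⟩⟩
      exact hc.preconnected.exists_adj_of_nontrivial s
  obtain ⟨N, hN, hNi, c0, hc0, hH⟩ := colH hc R he hne hS hdeg L hL
  -- the vertices with an equally coloured pair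
  let M : Set V := {s | s ∈ S ∧ ∃ u v, u ≠ v ∧ G.Adj s u ∧ G.Adj s v ∧ c0 u = c0 v}
  have hM4 : ∀ s ∈ M, s ∈ S4 G S := fun s hs => by
    obtain ⟨h1, u, v, huv, hu, hv, hcc⟩ := hs
    exact (eq_pair hS hH h1 hu hv huv hcc).1
  choose! Q hQL hQ1 hQn hQ2 using fun (s : V) (hs : s ∈ S) =>
    card_free (G := G) (S := S) hdeg (c := c0) L hL hs
  have hcol : ∀ s ∈ M, ∃ α, ∀ x ∈ N s, c0 x = α := by
    rintro s ⟨h1, u, v, huv, hu, hv, hcc⟩
    have h2 := (eq_pair hS hH h1 hu hv huv hcc).2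
    refine ⟨c0 u, fun x hx => ?_⟩
    rw [h2] at hx
    rcases Sym2.mem_iff.1 hx with rfl | rfl
    · rfl
    · exact hcc.symm
  choose! col hcol using hcol
  have hNS : ∀ s ∈ S, ∀ x ∈ N s, x ∉ S := fun s hs x hx hxS => hS s hs x hxS (hN s hs x hx)
  have hKH : ∀ u v, (KGr G S).Adj u v → c0 u ≠ c0 v := fun u v h =>
    hH u v ⟨h.1.ne, h.2.1, h.2.2, Or.inl h.1⟩
  obtain ⟨f, hf1, hf2⟩ := pick (ι := M) (KGr G S) c0 T hKH
    (fun u v h => hTC u v h.2.1 h.2.2 h.1) hT
    (fun u v w hu h1 h2 huw => ⟨hC u v w h1.2.1 h1.2.2 h2.2.2 hu h1.1 h2.1 huw, h1.2.1, h2.2.2⟩)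
    (fun s => N s)
    (hNi.comp (fun s : M => (⟨s, hM4 s s.2⟩ : S4 G S)) (fun a b h => by
      apply Subtype.ext
      simpa using h))
    (fun s => col s) (fun s => hcol s s.2) (fun s => Q s)
    (fun s => hQ2 s s.2.1 s.2.2) (fun s hmem => by
      obtain ⟨x, hx⟩ : ∃ x, x ∈ N (s : V) := ⟨(Quot.out (N (s : V))).1, Sym2.out_fst_mem _⟩
      have h1 := hcol s s.2 x hx
      rw [← h1] at hmem
      exact hQn s s.2.1 x (hN s s.2.1 x hx) hmem)
  have hg : ∀ s ∈ S, ∃ q, q ∈ Q s := fun s hs => by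
    have := hQ1 s hs
    exact Finset.card_pos.1 (by omega)
  choose! g hg using hg
  let c : V → ℕ := fun v => if h : v ∈ M then f ⟨v, h⟩ else if v ∈ S then g v else c0 v
  have hMS : ∀ v, v ∈ M → v ∈ S := fun v h => h.1
  have cM : ∀ (v : V) (h : v ∈ M), c v = f ⟨v, h⟩ := fun v h => by
    simp only [c, h, dif_pos]
  have cS : ∀ v ∈ S, c v ∈ Q v := fun v hv => by
    by_cases h : v ∈ M
    · rw [cM v h]
      exact hf1 ⟨v, h⟩
    · simp only [c, h, dif_neg, not_false_iff, hv, if_pos]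
      exact hg v hv
  have cB : ∀ v, v ∉ S → c v = c0 v := fun v hv => by
    have h : v ∉ M := fun h => hv h.1
    simp only [c, h, dif_neg, not_false_iff, hv, if_neg]
  have hcS : ∀ s ∈ S, ∀ u, G.Adj s u → c s ≠ c u := fun s hs u hu h => by
    have huS : u ∉ S := fun h => hS s hs u h hu
    rw [cB u huS] at h
    exact hQn s hs u hu (h ▸ cS s hs)
  have hproper : ∀ u v, G.Adj u v → c u ≠ c v := by
    intro u v huv
    by_cases hu : u ∈ S
    · exact hcS u hu v huv
    · by_cases hv : v ∈ S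
      · exact (hcS v hv u huv.symm).symm
      · rw [cB u hu, cB v hv]
        exact hKH u v ⟨huv, hu, hv⟩
  refine ⟨c, fun v => ?_, hproper, fun a b => ?_⟩
  · by_cases hv : v ∈ S
    · exact hQL v hv (cS v hv)
    · rw [cB v hv]
      exact hc0 v
  · refine acyc hS hproper M N col ?_ ?_ ?_ a b
    · intro s hs u v huv hu hv hcc
      have huS : u ∉ S := fun h => hS s hs u h hu
      have hvS : v ∉ S := fun h => hS s hs v h hv
      rw [cB u huS, cB v hvS] at hcc
      exact ⟨⟨hs, u, v, huv, hu, hv, hcc⟩, (eq_pair hS hH hs hu hv huv hcc).2⟩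
    · intro s hs x hx
      rw [cB x (hNS s hs.1 x hx)]
      exact hcol s hs x hx
    · intro κ
      have h1 := hf2 κ
      have e1 : ∀ e : (KGr G S).edgeSet, (e : Sym2 V).map c = (e : Sym2 V).map c0 := by
        rintro ⟨e, he⟩
        induction e using Sym2.ind with
        | _ x y =>
          have h2 : (KGr G S).Adj x y := he
          simp only [Sym2.map_mk, cB x h2.2.1, cB y h2.2.2]
      have e2 : ∀ i : M, c i = f i := fun i => cM i i.2
      have key : (Sum.elim (fun i : {i : M // s(col i, c i) = κ} => vec (N i))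
          (fun e : {e : (KGr G S).edgeSet // (e : Sym2 V).map c = κ} => vec (e : Sym2 V))) =
          (Sum.elim (fun i : {i : M // s(col i, f i) = κ} => vec (N i))
          (fun e : {e : (KGr G S).edgeSet // (e : Sym2 V).map c0 = κ} => vec (e : Sym2 V))) ∘
          (Sum.map (fun i => ⟨i.1, by rw [← e2]; exact i.2⟩) (fun e => ⟨e.1, by
            rw [← e1]; exact e.2⟩)) := by
        funext j
        rcases j with j | j <;> rfl
      rw [key]
      refine h1.comp _ ?_
      apply Function.Injective.sumMap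
      · intro i j h
        apply Subtype.ext
        simpa using h
      · intro i j h
        apply Subtype.ext
        simpa using h

end Pool.Agent.AC5
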