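import Pool.Agent.AC5.Defs

set_option autoImplicit false

/-!
# AC5/TS1: spaces with the property `TS` (MP_289c47_co, helper88)

PROOF. `TS_coord`: take `n, w` as in the definition. Let `J = {j | w j e0 ≠ 0}`, at most two elements. If `J` is
empty, all of `W` vanishes at `e0` and the same family works. If `J = {j1}`: the new family is `w` with `w j1`
replaced by `0` (`Function.update w j1 0`): an element `∑ c j • w j` of `W` vanishing at `e0` has `c j1 = 0`
(its value at `e0` is `c j1 * w j1 e0`, and `w j1 e0 = 1` in `ZMod 2`). If `J = {j1, j2}`, `j1 ≠ j2`: the new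
family is `w` with `w j1` replaced by `0` and `w j2` replaced by `w j1 + w j2`; an element `∑ c j • w j` vanishing
at `e0` has `c j1 + c j2 = 0`, so `c j1 = c j2` and it equals
`∑_{j ≠ j1, j2} c j • w j + c j2 • (w j1 + w j2)`. For a coordinate `e`: if `(w j1 + w j2) e ≠ 0` then `w j1 e ≠ 0`
or `w j2 e ≠ 0`, so the map sending `j2` to `j1` or `j2` accordingly (and `j ↦ j` otherwise) is injective from the
new set `{j | w' j e ≠ 0}` to the old one. Conversely all new vectors are in `W` and vanish at `e0`.
(`sup {e0}ᶜ` is the space of vectors vanishing at `e0`. Membership in the span of a range: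
`Submodule.mem_span_range_iff_exists_fun` for a finite index type.)
`TS_sup`: induction over the finite set `Aᶜ` (`Set.Finite.induction_on` or induction on `Aᶜ.toFinset`):
`sup A = ⨅_{e ∉ A} sup {e}ᶜ`, precisely `W ⊓ sup (D ∪ {e})ᶜ = (W ⊓ sup Dᶜ) ⊓ sup {e}ᶜ`; for `D = ∅`,
`sup ∅ᶜ = ⊤`.
`TS_map`: the family `fun j => L (w j)`; `Submodule.map_span`, `Set.range_comp`; for `e'` with the first
alternative `{j | L (w j) e' ≠ 0} ⊆ {j | w j e ≠ 0}` (`Set.ncard_le_ncard`, finite since `Fin n` is), with the
second alternative the set is empty.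
-/

namespace Pool.Agent.AC5

private lemma one_of_ne {x : F} (h : x ≠ 0) : x = 1 := by
  revert x
  decide

private lemma eq_of_add {x y : F} (h : x + y = 0) : x = y := by
  revert x y
  decide

private lemma mem_supc {E : Type} {e0 : E} {z : E → F} : z ∈ sup ({e0}ᶜ : Set E) ↔ z e0 = 0 := by
  rw [mem_sup]
  constructor
  · intro h
    exact h e0 (fun h' => h' rfl)
  · intro h e he
    have : e = e0 := by
      by_contra hc
      exact he hc
    rw [this]
    exact h

private lemma TS_of {E : Type} {W' : Submodule F (E → F)} {n : ℕ} (w' : Fin n → E → F)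
    (h1 : ∀ j, w' j ∈ W') (h2 : ∀ z ∈ W', ∃ c : Fin n → F, ∑ j, c j • w' j = z)
    (h3 : ∀ e, {j | w' j e ≠ 0}.ncard ≤ 2) : TS W' := by
  refine ⟨n, w', ?_, h3⟩
  apply le_antisymm
  · rw [Submodule.span_le]
    rintro _ ⟨j, rfl⟩
    exact h1 j
  · intro z hz
    exact (Submodule.mem_span_range_iff_exists_fun F).2 (h2 z hz)

lemma TS_coord {E : Type} {W : Submodule F (E → F)} (h : TS W) (e0 : E) :
    TS (W ⊓ sup {e0}ᶜ) := by
  classical
  obtain ⟨n, w, hspan, hw⟩ := h
  have hmem : ∀ j, w j ∈ W := fun j => by
    rw [← hspan]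
    exact Submodule.subset_span ⟨j, rfl⟩
  have hex : ∀ z ∈ W, ∃ c : Fin n → F, ∑ j, c j • w j = z := fun z hz => by
    rw [← hspan] at hz
    exact (Submodule.mem_span_range_iff_exists_fun F).1 hz
  have hval : ∀ c : Fin n → F, (∑ j, c j • w j) e0 = ∑ j, c j * w j e0 := fun c => by
    rw [Finset.sum_apply]
    rfl
  have hJ := hw e0
  have hcases : {j | w j e0 ≠ 0}.ncard = 0 ∨ {j | w j e0 ≠ 0}.ncard = 1 ∨
      {j | w j e0 ≠ 0}.ncard = 2 := by omega
  rcases hcases with h0 | h1 | h2
  · rw [Set.ncard_eq_zero (Set.toFinite _)] at h0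
    have hz : ∀ j, w j e0 = 0 := fun j => by
      by_contra hc
      have : j ∈ {j | w j e0 ≠ 0} := hc
      rw [h0] at this
      exact this
    refine TS_of w (fun j => ⟨hmem j, mem_supc.2 (hz j)⟩) (fun z hz => hex z hz.1) hw
  · obtain ⟨j1, hj⟩ := Set.ncard_eq_one.1 h1
    have hj1 : w j1 e0 = 1 := one_of_ne (by
      have : j1 ∈ {j | w j e0 ≠ 0} := by rw [hj]; rfl
      exact this)
    have hne : ∀ j, j ≠ j1 → w j e0 = 0 := fun j hjne => by
      by_contra hc
      have : j ∈ {j | w j e0 ≠ 0} := hc
      rw [hj] at this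
      exact hjne this
    refine TS_of (Function.update w j1 0) ?_ ?_ ?_
    · intro j
      by_cases hjj : j = j1
      · subst hjj
        rw [Function.update_self]
        exact Submodule.zero_mem _
      · rw [Function.update_of_ne hjj]
        exact ⟨hmem j, mem_supc.2 (hne j hjj)⟩
    · rintro z ⟨hzW, hz0⟩
      obtain ⟨c, rfl⟩ := hex z hzW
      have h3 := mem_supc.1 hz0
      rw [hval, Fintype.sum_eq_single j1 (fun j hjne => by rw [hne j hjne, mul_zero]), hj1,
        mul_one] at h3
      refine ⟨c, Finset.sum_congr rfl fun j _ => ?_⟩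
      by_cases hjj : j = j1
      · subst hjj
        rw [h3, zero_smul, zero_smul]
      · rw [Function.update_of_ne hjj]
    · intro e
      refine (Set.ncard_le_ncard ?_ (Set.toFinite _)).trans (hw e)
      intro j hj'
      have hj'' : Function.update w j1 0 j e ≠ 0 := hj'
      by_cases hjj : j = j1
      · subst hjj
        rw [Function.update_self] at hj''
        exact absurd rfl hj''
      · rw [Function.update_of_ne hjj] at hj''
        exact hj''
  · obtain ⟨j1, j2, h12, hj⟩ := Set.ncard_eq_two.1 h2
    have hj1 : w j1 e0 = 1 := one_of_ne (by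
      have : j1 ∈ {j | w j e0 ≠ 0} := by rw [hj]; exact Or.inl rfl
      exact this)
    have hj2 : w j2 e0 = 1 := one_of_ne (by
      have : j2 ∈ {j | w j e0 ≠ 0} := by rw [hj]; exact Or.inr rfl
      exact this)
    have hne : ∀ j, j ≠ j1 → j ≠ j2 → w j e0 = 0 := fun j hn1 hn2 => by
      by_contra hc
      have : j ∈ {j | w j e0 ≠ 0} := hc
      rw [hj] at this
      rcases this with h | h
      · exact hn1 h
      · exact hn2 h
    let w' : Fin n → E → F := fun j => if j = j1 then 0 else if j = j2 then w j1 + w j2 else w j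
    have e1 : w' j1 = 0 := if_pos rfl
    have e2 : w' j2 = w j1 + w j2 := by
      show (if j2 = j1 then 0 else if j2 = j2 then w j1 + w j2 else w j2) = _
      rw [if_neg h12.symm, if_pos rfl]
    have e3 : ∀ j, j ≠ j1 → j ≠ j2 → w' j = w j := fun j hn1 hn2 => by
      show (if j = j1 then 0 else if j = j2 then w j1 + w j2 else w j) = _
      rw [if_neg hn1, if_neg hn2]
    refine TS_of w' ?_ ?_ ?_
    · intro j
      by_cases hn1 : j = j1
      · rw [hn1, e1]
        exact Submodule.zero_mem _
      · by_cases hn2 : j = j2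
        · rw [hn2, e2]
          refine ⟨W.add_mem (hmem j1) (hmem j2), mem_supc.2 ?_⟩
          rw [Pi.add_apply, hj1, hj2]
          decide
        · rw [e3 j hn1 hn2]
          exact ⟨hmem j, mem_supc.2 (hne j hn1 hn2)⟩
    · rintro z ⟨hzW, hz0⟩
      obtain ⟨c, rfl⟩ := hex z hzW
      have h3 := mem_supc.1 hz0
      rw [hval, Fintype.sum_eq_add j1 j2 h12 (fun j hjne => by
        rw [hne j hjne.1 hjne.2, mul_zero]), hj1, hj2, mul_one, mul_one] at h3
      have h4 : c j1 = c j2 := eq_of_add h3
      refine ⟨c, ?_⟩
      rw [← sub_eq_zero, ← Finset.sum_sub_distrib,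
        Fintype.sum_eq_add j1 j2 h12 (fun j hjne => by
          rw [e3 j hjne.1 hjne.2, sub_self]), e1, e2, h4]
      rw [smul_zero, smul_add]
      abel
    · intro e
      refine (Set.ncard_le_ncard_of_injOn
        (fun j => if j = j2 then (if w j1 e ≠ 0 then j1 else j2) else j) ?_ ?_
        (Set.toFinite _)).trans (hw e)
      · intro j hj'
        have hj'' : w' j e ≠ 0 := hj'
        show w (if j = j2 then (if w j1 e ≠ 0 then j1 else j2) else j) e ≠ 0
        by_cases hn2 : j = j2
        · rw [if_pos hn2]
          rw [hn2, e2, Pi.add_apply] at hj''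
          by_cases hw1 : w j1 e ≠ 0
          · rw [if_pos hw1]
            exact hw1
          · rw [if_neg hw1]
            rw [not_not] at hw1
            rw [hw1, zero_add] at hj''
            exact hj''
        · rw [if_neg hn2]
          by_cases hn1 : j = j1
          · rw [hn1, e1] at hj''
            exact absurd rfl hj''
          · rw [e3 j hn1 hn2] at hj''
            exact hj''
      · intro j hj' k hk' hjk
        have hj1' : j ≠ j1 := fun hc => by
          have hj'' : w' j e ≠ 0 := hj'
          rw [hc, e1] at hj''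
          exact hj'' rfl
        have hk1' : k ≠ j1 := fun hc => by
          have hk'' : w' k e ≠ 0 := hk'
          rw [hc, e1] at hk''
          exact hk'' rfl
        have hjk' : (if j = j2 then (if w j1 e ≠ 0 then j1 else j2) else j) =
          (if k = j2 then (if w j1 e ≠ 0 then j1 else j2) else k) := hjk
        by_cases hjj : j = j2
        · by_cases hkk : k = j2
          · rw [hjj, hkk]
          · rw [if_pos hjj, if_neg hkk] at hjk'
            split_ifs at hjk' with hs
            · exact absurd hjk'.symm hk1'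
            · exact absurd hjk'.symm hkk
        · by_cases hkk : k = j2
          · rw [if_neg hjj, if_pos hkk] at hjk'
            split_ifs at hjk' with hs
            · exact absurd hjk' hj1'
            · exact absurd hjk' hjj
          · rw [if_neg hjj, if_neg hkk] at hjk'
            exact hjk'

theorem TS_sup {E : Type} [Finite E] {W : Submodule F (E → F)} (h : TS W) (A : Set E) :
    TS (W ⊓ sup A) := by
  have key : ∀ D : Set E, D.Finite → TS (W ⊓ sup Dᶜ) := by
    intro D hD
    induction D, hD using Set.Finite.induction_on with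
    | empty =>
      have : W ⊓ sup (∅ᶜ : Set E) = W := by
        refine inf_eq_left.2 fun z _ => ?_
        rw [mem_sup]
        intro e he
        exact absurd (fun h => h) he
      rw [this]
      exact h
    | insert _ _ ih =>
      rename_i a D' _ _
      have : W ⊓ sup ((insert a D')ᶜ : Set E) = (W ⊓ sup D'ᶜ) ⊓ sup {a}ᶜ := by
        ext z
        rw [Submodule.mem_inf, Submodule.mem_inf, Submodule.mem_inf, mem_supc, mem_sup, mem_sup]
        constructor
        · rintro ⟨h1, h2⟩
          refine ⟨⟨h1, fun e he => h2 e fun he' => he fun he'' => he' (Or.inr he'')⟩,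
            h2 a fun he' => he' (Or.inl rfl)⟩
        · rintro ⟨⟨h1, h2⟩, h3⟩
          refine ⟨h1, fun e he => ?_⟩
          rw [Set.notMem_compl_iff] at he
          rcases he with he | he
          · rw [he]
            exact h3
          · exact h2 e (fun he' => he' he)
      rw [this]
      exact TS_coord ih a
  have h1 := key Aᶜ (Set.toFinite _)
  rwa [compl_compl] at h1

theorem TS_map {E E' : Type} {W : Submodule F (E → F)} (h : TS W) (L : (E → F) →ₗ[F] (E' → F))
    (hL : ∀ e' : E', (∃ e : E, ∀ z : E → F, z e = 0 → L z e' = 0) ∨ ∀ z : E → F, L z e' = 0) :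
    TS (W.map L) := by
  obtain ⟨n, w, hspan, hw⟩ := h
  refine ⟨n, fun j => L (w j), ?_, ?_⟩
  · rw [← hspan, Submodule.map_span, ← Set.range_comp]
    rfl
  · intro e'
    rcases hL e' with ⟨e, he⟩ | h0
    · refine (Set.ncard_le_ncard ?_ (Set.toFinite _)).trans (hw e)
      intro j hj hj0
      exact hj (he (w j) hj0)
    · have : {j | L (w j) e' ≠ 0} = ∅ := by
        rw [Set.eq_empty_iff_forall_notMem]
        intro j hj
        exact hj (h0 (w j))
      rw [this, Set.ncard_empty]
      exact Nat.zero_le _

end Pool.Agent.AC5
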