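import Pool.Agent.AC5.SphG
import Pool.Agent.AC5.TS1

set_option autoImplicit false

/-!
# AC5/CycG: cycles of a connected spherical graph (MP_289c47_co, helper88)

PROOF. Take classical instances, `o e = Quot.out e.1` (so `s((o e).1, (o e).2) = e`, `Quot.out_eq`), and the structure
`S` of `sphG`.
(a) If `z ∈ Cyc G.edgeSet` then the restriction `z' e = z e.1` is in `cyc S.s S.t`: for `f : V → F`,
`∑ e, z e * (f (o e).1 + f (o e).2) = ∑_{darts (u, v)} z s(u, v) * f u` (`sum_darts_edge` with
`φ u v = z s(u, v) * f u`, `Sym2.eq_swap`) `= ∑ u, f u * ∑ v, z s(u, v) = 0` (for non-adjacent `u, v` we have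
`z s(u, v) = 0`, `SimpleGraph.mem_edgeSet`). Conversely, if `z' ∈ cyc S.s S.t` then its extension by zero is in
`Cyc G.edgeSet` (the same computation with `f` the indicator function of a vertex).
`cb`: `S.cb` for `z'` gives `g : R.faces → F`; put `y u v = g ⟨R.face (u, v), _⟩` for darts (`dite`), `0` otherwise.
`y u v = y v (R.nxt v u)`: `Rotation.face_step` with `R.faceStep (u, v) = (v, R.nxt v u)`. For `u ~ v`, with `e` the
edge `s(u, v)`: `(o e)` is `(u, v)` or `(v, u)`, in both cases `z s(u, v) = g (l e) + g (r e) = y u v + y v u`.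
`TS_Cyc`: `Cyc A = Cyc G.edgeSet ⊓ sup A` for `A ⊆ G.edgeSet` (clear from the definitions), so by `TS_sup` it
suffices to treat `A = G.edgeSet`. By (a) `Cyc G.edgeSet` is the image of `cyc S.s S.t` under the extension by zero
`L : (G.edgeSet → F) →ₗ (Sym2 V → F)`, and `TS_map` applies to `S.ts` (for `e' ∈ G.edgeSet` the first alternative,
otherwise the second).
-/

namespace Pool.Agent.AC5

open Pool.Agent.H18Thick (Rotation)

variable {V : Type} [Fintype V] {G : SimpleGraph V}

/-- the sum over the edges as a sum over the vertices -/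
private lemma CycG_sum [Fintype G.edgeSet] (o : G.edgeSet → V × V)
    (ho : ∀ e, s((o e).1, (o e).2) = (e : Sym2 V)) (z : Sym2 V → F)
    (hz : ∀ e, e ∉ G.edgeSet → z e = 0) (f : V → F) :
    ∑ e : G.edgeSet, z e * (f (o e).1 + f (o e).2) = ∑ u, f u * ∑ v, z s(u, v) := by
  classical
  have h := sum_darts_edge o ho (fun u v => z s(u, v) * f u)
  have e1 : ∑ e : G.edgeSet, z e * (f (o e).1 + f (o e).2) =
      ∑ e : G.edgeSet, (z s((o e).1, (o e).2) * f (o e).1 + z s((o e).2, (o e).1) * f (o e).2) := by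
    refine Finset.sum_congr rfl fun e _ => ?_
    rw [show s((o e).2, (o e).1) = s((o e).1, (o e).2) from Sym2.eq_swap, ho e]
    ring
  rw [e1, ← h]
  refine Finset.sum_congr rfl fun u _ => ?_
  rw [Finset.mul_sum]
  refine Finset.sum_congr rfl fun v _ => ?_
  by_cases hA : G.Adj u v
  · rw [if_pos hA]
    ring
  · rw [if_neg hA, hz s(u, v) (fun hc => hA ((G.mem_edgeSet).1 hc)), mul_zero]

omit [Fintype V] in
private lemma CycG_out : ∃ o : G.edgeSet → V × V, ∀ e, s((o e).1, (o e).2) = (e : Sym2 V) := by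
  refine ⟨fun e => Quot.out e.1, fun e => ?_⟩
  have h := Quot.out_eq (e : Sym2 V)
  exact h

private lemma CycG_mem [Fintype G.edgeSet] (o : G.edgeSet → V × V)
    (ho : ∀ e, s((o e).1, (o e).2) = (e : Sym2 V)) {s t : G.edgeSet → V}
    (hs : ∀ e, s e = (o e).1) (ht : ∀ e, t e = (o e).2) {z : Sym2 V → F}
    (hz : z ∈ Cyc G.edgeSet) : (fun e : G.edgeSet => z e) ∈ cyc s t := by
  rw [mem_cyc]
  intro f
  simp only [hs, ht]
  rw [CycG_sum o ho z hz.1 f]
  refine Finset.sum_eq_zero fun u _ => ?_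
  rw [hz.2 u, mul_zero]

theorem Cyc_cb (hc : G.Connected) (R : Rotation G)
    (he : Nat.card V + R.faces.ncard = G.edgeSet.ncard + 2) {z : Sym2 V → F}
    (hz : z ∈ Cyc G.edgeSet) : ∃ y : V → V → F, (∀ u v, G.Adj u v → y u v = y v (R.nxt v u)) ∧
      ∀ u v, G.Adj u v → z s(u, v) = y u v + y v u := by
  classical
  have i1 : Fintype G.edgeSet := Fintype.ofFinite _
  have i2 : Fintype R.faces := Fintype.ofFinite _
  obtain ⟨o, ho⟩ := CycG_out (G := G)
  obtain ⟨S, hs, ht, hl, hr⟩ := sphG hc R he o ho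
  obtain ⟨g, hg⟩ := S.cb (CycG_mem o ho hs ht hz)
  refine ⟨fun u v => if h : G.Adj u v then g ⟨R.face (u, v), ⟨u, v, h, rfl⟩⟩ else 0, ?_, ?_⟩
  · intro u v h
    have h' : G.Adj v (R.nxt v u) := R.adj_nxt v u h.symm
    simp only [dif_pos h, dif_pos h']
    congr 1
    apply Subtype.ext
    exact (R.face_step (d := (u, v)) h).symm
  · intro u v h
    have h' : G.Adj v u := h.symm
    simp only [dif_pos h, dif_pos h']
    have h1 := hg ⟨s(u, v), (G.mem_edgeSet).2 h⟩
    have h2 := ho ⟨s(u, v), (G.mem_edgeSet).2 h⟩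
    have hl' := hl ⟨s(u, v), (G.mem_edgeSet).2 h⟩
    have hr' := hr ⟨s(u, v), (G.mem_edgeSet).2 h⟩
    simp only at h1 h2
    rw [h1]
    rcases Sym2.eq_iff.1 h2 with ⟨a, b⟩ | ⟨a, b⟩
    · rw [a, b] at hl' hr'
      congr 1
      · congr 1
        exact Subtype.ext hl'
      · congr 1
        exact Subtype.ext hr'
    · rw [a, b] at hl' hr'
      rw [add_comm]
      congr 1
      · congr 1
        exact Subtype.ext hr'
      · congr 1
        exact Subtype.ext hl'

open Classical in
/-- extension by zero -/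
private noncomputable def CycG_L (G : SimpleGraph V) : (G.edgeSet → F) →ₗ[F] (Sym2 V → F) where
  toFun z e := if h : e ∈ G.edgeSet then z ⟨e, h⟩ else 0
  map_add' a b := by
    funext e
    by_cases h : e ∈ G.edgeSet
    · simp [h]
    · simp [h]
  map_smul' c a := by
    funext e
    by_cases h : e ∈ G.edgeSet
    · simp [h]
    · simp [h]

theorem TS_Cyc (hc : G.Connected) (R : Rotation G)
    (he : Nat.card V + R.faces.ncard = G.edgeSet.ncard + 2) {A : Set (Sym2 V)}
    (hA : A ⊆ G.edgeSet) : TS (Cyc A) := by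
  classical
  have i1 : Fintype G.edgeSet := Fintype.ofFinite _
  have i2 : Fintype R.faces := Fintype.ofFinite _
  obtain ⟨o, ho⟩ := CycG_out (G := G)
  obtain ⟨S, hs, ht, hl, hr⟩ := sphG hc R he o ho
  have hin : ∀ (z : G.edgeSet → F) (e : Sym2 V) (h : e ∈ G.edgeSet),
      CycG_L G z e = z ⟨e, h⟩ := fun z e h => dif_pos h
  have hout : ∀ (z : G.edgeSet → F) (e : Sym2 V), e ∉ G.edgeSet →
      CycG_L G z e = 0 := fun z e h => dif_neg h
  have h1 : (cyc S.s S.t).map (CycG_L G) = Cyc G.edgeSet := by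
    apply le_antisymm
    · rintro _ ⟨z, hz, rfl⟩
      refine ⟨fun e h => hout z e h, fun v => ?_⟩
      have h2 := CycG_sum o ho (CycG_L G z) (fun e h => hout z e h) (fun u => if u = v then 1 else 0)
      have h3 : ∑ u, (if u = v then (1 : F) else 0) * ∑ w, CycG_L G z s(u, w) =
          ∑ w, CycG_L G z s(v, w) := by
        rw [Finset.sum_eq_single v]
        · rw [if_pos rfl, one_mul]
        · intro u _ hu
          rw [if_neg hu, zero_mul]
        · intro h
          exact absurd (Finset.mem_univ v) h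
      rw [h3] at h2
      rw [← h2]
      have h4 := mem_cyc.1 hz (fun u => if u = v then 1 else 0)
      simp only [hs, ht] at h4
      refine Eq.trans ?_ h4
      refine Finset.sum_congr rfl fun e _ => ?_
      rw [hin z e e.2]
    · intro z hz
      refine ⟨fun e => z e, CycG_mem o ho hs ht hz, ?_⟩
      funext e
      by_cases h : e ∈ G.edgeSet
      · rw [hin _ e h]
      · rw [hout _ e h, hz.1 e h]
  have h2 : TS (Cyc G.edgeSet) := by
    rw [← h1]
    refine TS_map S.ts (CycG_L G) fun e' => ?_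
    by_cases h : e' ∈ G.edgeSet
    · refine Or.inl ⟨⟨e', h⟩, fun z hz => ?_⟩
      rw [hin _ e' h, hz]
    · exact Or.inr fun z => hout z e' h
  have h3 : Cyc A = Cyc G.edgeSet ⊓ sup A := by
    ext z
    rw [Submodule.mem_inf, mem_Cyc, mem_Cyc, mem_sup]
    constructor
    · rintro ⟨a, b⟩
      exact ⟨⟨fun e he => a e fun h => he (hA h), b⟩, a⟩
    · rintro ⟨⟨_, b⟩, a⟩
      exact ⟨a, b⟩
  rw [h3]
  exact TS_sup h2 A

end Pool.Agent.AC5
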