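import Pool.Agent.AC5.PlanarDef

set_option autoImplicit false

/-!
# AC5/Defs: definitions (MP_289c47_co, helper88)

Target (T5): a planar graph `G` having an independent set `S` of vertices of degree at most four such that
every component of `G - S` is a tree or a complete graph is acyclically 5-choosable.
-/

namespace Pool.Agent.AC5

open Pool.Agent.H18Thick (Rotation)

/-- The field with two elements. -/
abbrev F := ZMod 2

open Classical in
/-- The characteristic vector of a pair. -/
noncomputable def pv {V : Type} (u v : V) : V → F :=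
  fun x => (if x = u then 1 else 0) + (if x = v then 1 else 0)

lemma pv_comm {V : Type} (u v : V) : pv u v = pv v u := by
  funext x
  exact add_comm _ _

/-- The characteristic vector of an unordered pair. -/
noncomputable def vec {V : Type} (e : Sym2 V) : V → F := Sym2.lift ⟨pv, pv_comm⟩ e

@[simp] lemma vec_mk {V : Type} (u v : V) : vec s(u, v) = pv u v := rfl

/-! ### Spaces spanned by a family in which every coordinate occurs at most twice -/

/-- `W` is spanned by a finite family of vectors such that every coordinate is nonzero in at most two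
members of the family. -/
def TS {E : Type} (W : Submodule F (E → F)) : Prop :=
  ∃ (n : ℕ) (w : Fin n → E → F), Submodule.span F (Set.range w) = W ∧
    ∀ e, {j | w j e ≠ 0}.ncard ≤ 2

/-- The vectors supported on `A`. -/
def sup {E : Type} (A : Set E) : Submodule F (E → F) where
  carrier := {z | ∀ e, e ∉ A → z e = 0}
  add_mem' := fun {a b} ha hb e he => by simp [ha e he, hb e he]
  zero_mem' := fun _ _ => rfl
  smul_mem' := fun c x hx e he => by simp [hx e he]

lemma mem_sup {E : Type} {A : Set E} {z : E → F} : z ∈ sup A ↔ ∀ e, e ∉ A → z e = 0 := Iff.rfl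

/-- The cycle space of the multigraph with edge type `E` and ends `s e`, `t e`. -/
def cyc {B E : Type} [Fintype E] (s t : E → B) : Submodule F (E → F) where
  carrier := {z | ∀ f : B → F, ∑ e, z e * (f (s e) + f (t e)) = 0}
  add_mem' := fun {a b} ha hb f => by
    have h1 := ha f
    have h2 := hb f
    simp only [Pi.add_apply, add_mul, Finset.sum_add_distrib]
    rw [h1, h2, add_zero]
  zero_mem' := fun f => by simp
  smul_mem' := fun c x hx f => by
    have h := hx f
    simp only [Pi.smul_apply, smul_eq_mul, mul_assoc]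
    rw [← Finset.mul_sum, h, mul_zero]

lemma mem_cyc {B E : Type} [Fintype E] {s t : E → B} {z : E → F} :
    z ∈ cyc s t ↔ ∀ f : B → F, ∑ e, z e * (f (s e) + f (t e)) = 0 := Iff.rfl

/-- Abstract data of a multigraph on the sphere: ends `s e`, `t e` and sides `l e`, `r e` of the edges. -/
structure Sph (B E Φ : Type) [Fintype B] [Fintype E] [Fintype Φ] where
  s : E → B
  t : E → B
  l : E → Φ
  r : E → Φ
  even : ∀ (g : Φ → F) (f : B → F), ∑ e, (g (l e) + g (r e)) * (f (s e) + f (t e)) = 0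
  conn : ∀ f : B → F, (∀ e, f (s e) = f (t e)) → ∀ x y, f x = f y
  dual : ∀ g : Φ → F, (∀ e, g (l e) = g (r e)) → ∀ x y, g x = g y
  euler : Fintype.card B + Fintype.card Φ = Fintype.card E + 2

/-! ### Connected sets and models -/

/-- A connected set of vertices: nonempty, and every nonempty subset of `A` closed under adjacency inside
`A` is `A`. -/
def Conn {B : Type} (Γ : SimpleGraph B) (A : Set B) : Prop :=
  A.Nonempty ∧ ∀ D ⊆ A, D.Nonempty → (∀ x ∈ D, ∀ y ∈ A, Γ.Adj x y → y ∈ D) → D = A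

/-- `v` is adjacent to an element of `A`. -/
def nb {B : Type} (Γ : SimpleGraph B) (A : Set B) (v : B) : Prop := ∃ a ∈ A, Γ.Adj a v

/-- There is an edge between `A` and `A'`. -/
def Tch {B : Type} (Γ : SimpleGraph B) (A A' : Set B) : Prop := ∃ a ∈ A, ∃ b ∈ A', Γ.Adj a b

/-- A model of `K5`. -/
def HasK5 {B : Type} (Γ : SimpleGraph B) : Prop :=
  ∃ A : Fin 5 → Set B, (∀ i, Conn Γ (A i)) ∧ (∀ i j, i ≠ j → Disjoint (A i) (A j)) ∧
    ∀ i j, i ≠ j → Tch Γ (A i) (A j)

/-- A model of `K33`. -/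
def HasK33 {B : Type} (Γ : SimpleGraph B) : Prop :=
  ∃ A : Fin 2 × Fin 3 → Set B, (∀ i, Conn Γ (A i)) ∧ (∀ i j, i ≠ j → Disjoint (A i) (A j)) ∧
    ∀ i j, Tch Γ (A (0, i)) (A (1, j))

/-- The component of `a` in the set `W`: the smallest subset of `W` containing `a` and closed under adjacency
inside `W`. -/
def comp {B : Type} (Γ : SimpleGraph B) (W : Set B) (a : B) : Set B :=
  {b | b ∈ W ∧ ∀ D ⊆ W, a ∈ D → (∀ x ∈ D, ∀ y ∈ W, Γ.Adj x y → y ∈ D) → b ∈ D}

/-! ### Instances of the relative form of Thomassen's theorem -/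

/-- `Z` is a connected set, `U` is to be coloured, `P` is a clique of at most two precoloured vertices of `U`
adjacent to `Z`; vertices of `U` not in `P` have lists of size three, those not adjacent to `Z` of size five. -/
structure Inst {B : Type} (Γ : SimpleGraph B) (Z U P : Set B) (L : B → Finset ℕ) (c0 : B → ℕ) : Prop where
  cZ : Conn Γ Z
  dis : Disjoint Z U
  PU : P ⊆ U
  PX : ∀ p ∈ P, nb Γ Z p
  Pc : P.ncard ≤ 2
  clq : ∀ p ∈ P, ∀ q ∈ P, p ≠ q → Γ.Adj p q
  pro : ∀ p ∈ P, ∀ q ∈ P, p ≠ q → c0 p ≠ c0 q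
  l3 : ∀ v ∈ U, v ∉ P → 3 ≤ (L v).card
  l5 : ∀ v ∈ U, ¬ nb Γ Z v → 5 ≤ (L v).card

/-- The precolouring of `P` extends to a list colouring of `U`. -/
def Ext {B : Type} (Γ : SimpleGraph B) (U P : Set B) (L : B → Finset ℕ) (c0 : B → ℕ) : Prop :=
  ∃ c : B → ℕ, (∀ p ∈ P, c p = c0 p) ∧ (∀ v ∈ U, v ∉ P → c v ∈ L v) ∧
    ∀ u ∈ U, ∀ v ∈ U, Γ.Adj u v → c u ≠ c v

/-- The induction hypothesis. -/
def IH {B : Type} (Γ : SimpleGraph B) (U : Set B) : Prop :=
  ∀ (Z' U' P' : Set B) (L' : B → Finset ℕ) (c' : B → ℕ), U'.ncard < U.ncard →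
    Inst Γ Z' U' P' L' c' → Ext Γ U' P' L' c'

/-! ### The graph without `S`, the auxiliary graph, and the opposite neighbour -/

/-- The graph `G - S` (with the vertices of `S` isolated). -/
def KGr {V : Type} (G : SimpleGraph V) (S : Set V) : SimpleGraph V where
  Adj u v := G.Adj u v ∧ u ∉ S ∧ v ∉ S
  symm := ⟨fun _ _ h => ⟨h.1.symm, h.2.2, h.2.1⟩⟩
  loopless := ⟨fun _ h => h.1.ne rfl⟩

/-- The vertices of `S` of degree four. -/
def S4 {V : Type} (G : SimpleGraph V) (S : Set V) : Set V := {s | s ∈ S ∧ (G.neighborSet s).ncard = 4}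

/-- The auxiliary graph on the complement of `S`: two vertices are adjacent if they are adjacent in `G` or
have a common neighbour `s ∈ S`, and the pair is not the omitted pair `N s` (for `s` of degree four). -/
def HGr {V : Type} (G : SimpleGraph V) (S : Set V) (N : V → Sym2 V) : SimpleGraph V where
  Adj u v := u ≠ v ∧ u ∉ S ∧ v ∉ S ∧
    (G.Adj u v ∨ ∃ s ∈ S, G.Adj s u ∧ G.Adj s v ∧ (s ∈ S4 G S → s(u, v) ≠ N s))
  symm := ⟨fun u v h => ⟨h.1.symm, h.2.2.1, h.2.1, by
    rcases h.2.2.2 with h | ⟨s, hs, h1, h2, h3⟩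
    · exact Or.inl h.symm
    · exact Or.inr ⟨s, hs, h2, h1, fun h4 => by rw [Sym2.eq_swap]; exact h3 h4⟩⟩⟩
  loopless := ⟨fun _ h => h.1 rfl⟩

/-- The second next neighbour. -/
def opp {V : Type} {G : SimpleGraph V} (R : Rotation G) (s b : V) : V := R.nxt s (R.nxt s b)

/-- The functions with equal values at opposite neighbours of the vertices of `Q`. -/
def Uq {V : Type} {G : SimpleGraph V} (R : Rotation G) (Q : Set V) : Submodule F (V → F) where
  carrier := {f | ∀ s ∈ Q, ∀ b, G.Adj s b → f b = f (opp R s b)}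
  add_mem' := fun {a b} ha hb s hs x hx => by simp [ha s hs x hx, hb s hs x hx]
  zero_mem' := fun _ _ _ _ => rfl
  smul_mem' := fun c x hx s hs b hb => by simp [hx s hs b hb]

/-- The cycles of a set `A` of pairs. -/
def Cyc {V : Type} [Fintype V] (A : Set (Sym2 V)) : Submodule F (Sym2 V → F) where
  carrier := {z | (∀ e, e ∉ A → z e = 0) ∧ ∀ v : V, ∑ w, z s(v, w) = 0}
  add_mem' := fun {a b} ha hb => ⟨fun e he => by simp [ha.1 e he, hb.1 e he], fun v => by
    have h1 := ha.2 v
    have h2 := hb.2 v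
    simp only [Pi.add_apply, Finset.sum_add_distrib]
    rw [h1, h2, add_zero]⟩
  zero_mem' := ⟨fun _ _ => rfl, fun v => by simp⟩
  smul_mem' := fun c x hx => ⟨fun e he => by simp [hx.1 e he], fun v => by
    have h := hx.2 v
    simp only [Pi.smul_apply, smul_eq_mul]
    rw [← Finset.mul_sum, h, mul_zero]⟩

lemma mem_Cyc {V : Type} [Fintype V] {A : Set (Sym2 V)} {z : Sym2 V → F} :
    z ∈ Cyc A ↔ (∀ e, e ∉ A → z e = 0) ∧ ∀ v : V, ∑ w, z s(v, w) = 0 := Iff.rfl

lemma mem_Uq {V : Type} {G : SimpleGraph V} {R : Rotation G} {Q : Set V} {f : V → F} :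
    f ∈ Uq R Q ↔ ∀ s ∈ Q, ∀ b, G.Adj s b → f b = f (opp R s b) := Iff.rfl

end Pool.Agent.AC5
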