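import Pool.Agent.AC5.Defs

set_option autoImplicit false

/-!
# AC5/RDefs: definitions for the dimension count (MP_289c47_co, helper88)
-/

namespace Pool.Agent.AC5

open Pool.Agent.H18Thick (Rotation)

/-- The elements of `Q` having a neighbour in `C`. -/
def Q1 {V : Type} (G : SimpleGraph V) (Q C : Set V) : Set V := {s | s ∈ Q ∧ ∃ b, G.Adj s b ∧ b ∈ C}

/-- The elements of `Q` all of whose neighbours are in `C` (and having a neighbour). -/
def Qs {V : Type} (G : SimpleGraph V) (Q C : Set V) : Set V :=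
  {s | s ∈ Q1 G Q C ∧ ∀ b, G.Adj s b → b ∈ C}

/-- The edges between `X` and `C`. -/
def Th {V : Type} (G : SimpleGraph V) (X C : Set V) : Set (Sym2 V) :=
  {e | ∃ s ∈ X, ∃ b ∈ C, G.Adj s b ∧ e = s(s, b)}

/-- The situation of the dimension count: `Q` is an independent set of vertices of degree four and `C` is a set
disjoint from `Q` which contains with a neighbour of `s ∈ Q` also the opposite neighbour. -/
structure QC {V : Type} {G : SimpleGraph V} (R : Rotation G) (Q C : Set V) : Prop where
  ind : ∀ s ∈ Q, ∀ t ∈ Q, ¬ G.Adj s t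
  four : ∀ s ∈ Q, (G.neighborSet s).ncard = 4
  dis : ∀ s ∈ Q, s ∉ C
  opp : ∀ s ∈ Q, ∀ b, G.Adj s b → b ∈ C → opp R s b ∈ C

end Pool.Agent.AC5
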