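import Pool.Agent.AC5.Rot
import Pool.Agent.AC5.RDefs

set_option autoImplicit false

/-!
# AC5/EvenH: the boundaries of the faces of the auxiliary graph (MP_289c47_co, helper88)

Around a vertex `s ∈ S` the edges to its neighbours are replaced by the corners: the corner at the edge `s b` joins
`b` to `nxt s b`. For `s` of degree four with neighbours `p = p s`, `q = nxt p`, `p' = nxt q = opp p`, `q' = nxt p'`
the diagonal `q q'` is added; it separates the inner region into two faces, the second one (value `g2 s`) at the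
corners of `p` and `q'`, the first one (value `g1 s`) at the corners of `q` and `p'`.

PROOF. Let `T u v = if u ∈ S then f v else f u` and `φ u v = y u v * T u v`. By `sum_darts_step` (with `hy`):
`∑_{darts} φ u v = ∑_{darts} φ v (nxt v u) = ∑_{darts} y u v * T v (nxt v u)`, so
`∑_{darts} y u v * (T u v + T v (nxt v u)) = 0` (**). Rewrite the left side of (**) as a sum over the edges
(`sum_darts_edge`): for the edge `e` with `o e = (b, v)`, `b ∉ S`:
 if `v ∉ S`: the dart `(b, v)` gives `y b v * (f b + f v)`, the dart `(v, b)` gives `y v b * (f v + f b)`;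
 if `v ∈ S`: `(b, v)` gives `y b v * (f b + f (nxt v b))` (note `T v w = f w` for `v ∈ S`), and `(v, b)` gives
 `y v b * (T v b + T b (nxt b v)) = y v b * (f b + f b) = 0`.
So the sum over the edges in the statement equals (**) `= 0` plus `∑_{e, v = (o e).2 ∈ S} inn v b * (f b + f (nxt v b))`.
The latter sum is `∑_{s ∈ S} ∑_{b ~ s} inn s b * (f b + f (nxt s b))` (`sum_darts_edge` for the function
`ψ u v = if u ∈ S then inn u v * (f v + f (nxt u v)) else 0`: since `S` is independent, of the two darts of an edge at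
most one starts in `S`, and `(o e).1 ∉ S`). For `s ∈ S \ S4`: `inn s b = g1 s` and
`∑_{b ~ s} (f b + f (nxt s b)) = 0` by `sum_nxt`. For `s ∈ S4`, with the names above (`deg4`, `b = p s`):
`g2 (f p + f q) + g1 (f q + f p') + g1 (f p' + f q') + g2 (f q' + f p) + (g1 + g2) (f q + f q') = 0`
in characteristic two; the last summand is the term of `s` in the second sum of the statement.
-/

namespace Pool.Agent.AC5

open Pool.Agent.H18Thick (Rotation)

open Classical in
/-- The value on the inner face at the corner of `b`. -/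
noncomputable def inn {V : Type} {G : SimpleGraph V} (R : Rotation G) (S : Set V) (p : V → V)
    (g1 g2 : V → F) (s b : V) : F :=
  if s ∈ S4 G S ∧ (b = p s ∨ b = R.nxt s (opp R s (p s))) then g2 s else g1 s

open Classical in
lemma evenH_aux1 {V : Type} [Fintype V] {G : SimpleGraph V} [Fintype G.edgeSet] (R : Rotation G)
    {S : Set V} {y : V → V → F} (hy : ∀ u v, G.Adj u v → y u v = y v (R.nxt v u)) (f : V → F)
    (o : G.edgeSet → V × V) (ho : ∀ e, s((o e).1, (o e).2) = (e : Sym2 V))
    (ho1 : ∀ e, (o e).1 ∉ S) :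
    (∑ e, if (o e).2 ∈ S then y (o e).1 (o e).2 * (f (o e).1 + f (R.nxt (o e).2 (o e).1))
      else (y (o e).1 (o e).2 + y (o e).2 (o e).1) * (f (o e).1 + f (o e).2)) = 0 := by
  set T : V → V → F := fun u v => if u ∈ S then f v else f u with hT
  have key : (∑ u, ∑ v, if G.Adj u v then y u v * (T u v + T v (R.nxt v u)) else 0) = 0 := by
    have h1 := sum_darts_step R (fun u v => y u v * T u v)
    have h2 : (∑ u, ∑ v, if G.Adj u v then y u v * (T u v + T v (R.nxt v u)) else 0) =
        (∑ u, ∑ v, if G.Adj u v then y u v * T u v else 0) +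
        ∑ u, ∑ v, if G.Adj u v then y v (R.nxt v u) * T v (R.nxt v u) else 0 := by
      rw [← Finset.sum_add_distrib]
      refine Finset.sum_congr rfl fun u _ => ?_
      rw [← Finset.sum_add_distrib]
      refine Finset.sum_congr rfl fun v _ => ?_
      split_ifs with h
      · rw [← hy u v h]; ring
      · ring
    rw [h2, h1]
    exact CharTwo.add_self_eq_zero _
  rw [sum_darts_edge o ho (fun u v => y u v * (T u v + T v (R.nxt v u)))] at key
  rw [← key]
  refine Finset.sum_congr rfl fun e _ => ?_
  have hb := ho1 e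
  generalize (o e).1 = b at hb ⊢
  generalize (o e).2 = v
  have hTb : ∀ w, T b w = f b := fun w => by simp [hT, hb]
  by_cases hv : v ∈ S
  · have hTv : ∀ w, T v w = f w := fun w => by simp [hT, hv]
    simp only [hv, if_true]
    rw [hTb, hTv, hTv, hTb, CharTwo.add_self_eq_zero (f b)]
    ring
  · have hTv : ∀ w, T v w = f v := fun w => by simp [hT, hv]
    simp only [hv, if_false]
    rw [hTb, hTv, hTv, hTb]
    ring

open Classical in
lemma evenH_aux3 {V : Type} [Fintype V] {G : SimpleGraph V} (R : Rotation G)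
    {S : Set V} {p : V → V} (hp : ∀ s ∈ S, G.Adj s (p s)) (g1 g2 f : V → F) {s : V} (hs : s ∈ S) :
    (∑ v, if G.Adj s v then inn R S p g1 g2 s v * (f v + f (R.nxt s v)) else 0) =
      if s ∈ S4 G S then
        (g1 s + g2 s) * (f (R.nxt s (p s)) + f (R.nxt s (opp R s (p s)))) else 0 := by
  by_cases h4 : s ∈ S4 G S
  · rw [if_pos h4]
    obtain ⟨hn, h01, h02, h03, h12, h13, h23, hcyc⟩ := deg4 R h4.2 (hp s hs)
    have hopp : R.nxt s (R.nxt s (p s)) = opp R s (p s) := rfl
    have hset : (∑ v, if G.Adj s v then inn R S p g1 g2 s v * (f v + f (R.nxt s v)) else 0) =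
        ∑ v ∈ ({p s, R.nxt s (p s), opp R s (p s), R.nxt s (opp R s (p s))} : Finset V),
          inn R S p g1 g2 s v * (f v + f (R.nxt s v)) := by
      rw [← Finset.sum_filter]
      refine Finset.sum_congr ?_ fun _ _ => rfl
      ext w
      simp only [Finset.mem_filter, Finset.mem_univ, true_and, Finset.mem_insert,
        Finset.mem_singleton]
      exact hn w
    rw [hset]
    have n0 : p s ∉ ({R.nxt s (p s), opp R s (p s), R.nxt s (opp R s (p s))} : Finset V) := by
      simp only [Finset.mem_insert, Finset.mem_singleton, not_or]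
      exact ⟨h01, h02, h03⟩
    have n1 : R.nxt s (p s) ∉ ({opp R s (p s), R.nxt s (opp R s (p s))} : Finset V) := by
      simp only [Finset.mem_insert, Finset.mem_singleton, not_or]
      exact ⟨h12, h13⟩
    have n2 : opp R s (p s) ∉ ({R.nxt s (opp R s (p s))} : Finset V) := by
      simp only [Finset.mem_singleton]
      exact h23
    rw [Finset.sum_insert n0, Finset.sum_insert n1, Finset.sum_insert n2, Finset.sum_singleton,
      hcyc, hopp]
    have i0 : inn R S p g1 g2 s (p s) = g2 s := by
      unfold inn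
      rw [if_pos ⟨h4, Or.inl rfl⟩]
    have i1 : inn R S p g1 g2 s (R.nxt s (p s)) = g1 s := by
      unfold inn
      rw [if_neg]
      rintro ⟨-, h | h⟩
      · exact h01 h.symm
      · exact h13 h
    have i2 : inn R S p g1 g2 s (opp R s (p s)) = g1 s := by
      unfold inn
      rw [if_neg]
      rintro ⟨-, h | h⟩
      · exact h02 h.symm
      · exact h23 h
    have i3 : inn R S p g1 g2 s (R.nxt s (opp R s (p s))) = g2 s := by
      unfold inn
      rw [if_pos ⟨h4, Or.inr rfl⟩]
    rw [i0, i1, i2, i3]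
    generalize f (p s) = a
    generalize f (R.nxt s (p s)) = b
    generalize f (opp R s (p s)) = c
    generalize f (R.nxt s (opp R s (p s))) = d
    generalize g1 s = x
    generalize g2 s = z
    have h2 : ∀ t : F, t + t = 0 := fun t => CharTwo.add_self_eq_zero t
    linear_combination h2 (z * a) + h2 (x * c)
  · rw [if_neg h4]
    have hi : ∀ v, inn R S p g1 g2 s v = g1 s := fun v => by
      unfold inn
      rw [if_neg (fun h => h4 h.1)]
    have h1 := sum_nxt R s f
    have h2 : (∑ v, if G.Adj s v then inn R S p g1 g2 s v * (f v + f (R.nxt s v)) else 0) =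
        g1 s * ((∑ v, if G.Adj s v then f v else 0) +
          ∑ v, if G.Adj s v then f (R.nxt s v) else 0) := by
      rw [← Finset.sum_add_distrib, Finset.mul_sum]
      refine Finset.sum_congr rfl fun v _ => ?_
      rw [hi]
      split_ifs <;> ring
    rw [h2, h1, CharTwo.add_self_eq_zero, mul_zero]

open Classical in
lemma evenH_aux2 {V : Type} [Fintype V] {G : SimpleGraph V} [Fintype G.edgeSet] (R : Rotation G)
    {S : Set V} (_hS : ∀ s ∈ S, ∀ t ∈ S, ¬ G.Adj s t) {p : V → V} (hp : ∀ s ∈ S, G.Adj s (p s))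
    (g1 g2 f : V → F)
    (o : G.edgeSet → V × V) (ho : ∀ e, s((o e).1, (o e).2) = (e : Sym2 V))
    (ho1 : ∀ e, (o e).1 ∉ S) :
    (∑ e, if (o e).2 ∈ S then inn R S p g1 g2 (o e).2 (o e).1 *
          (f (o e).1 + f (R.nxt (o e).2 (o e).1)) else 0) =
    ∑ s, if s ∈ S4 G S then
        (g1 s + g2 s) * (f (R.nxt s (p s)) + f (R.nxt s (opp R s (p s)))) else 0 := by
  have h1 := sum_darts_edge o ho
    (fun u v => if u ∈ S then inn R S p g1 g2 u v * (f v + f (R.nxt u v)) else 0)
  have h2 : (∑ e, if (o e).2 ∈ S then inn R S p g1 g2 (o e).2 (o e).1 *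
          (f (o e).1 + f (R.nxt (o e).2 (o e).1)) else 0) =
      ∑ e, ((if (o e).1 ∈ S then inn R S p g1 g2 (o e).1 (o e).2 *
          (f (o e).2 + f (R.nxt (o e).1 (o e).2)) else 0) +
        (if (o e).2 ∈ S then inn R S p g1 g2 (o e).2 (o e).1 *
          (f (o e).1 + f (R.nxt (o e).2 (o e).1)) else 0)) := by
    refine Finset.sum_congr rfl fun e _ => ?_
    rw [if_neg (ho1 e), zero_add]
  rw [h2, ← h1]
  refine Finset.sum_congr rfl fun s _ => ?_
  by_cases hs : s ∈ S
  · rw [← evenH_aux3 R hp g1 g2 f hs]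
    refine Finset.sum_congr rfl fun v _ => ?_
    simp only [hs, if_true]
  · rw [if_neg (fun h : s ∈ S4 G S => hs h.1)]
    refine Finset.sum_eq_zero fun v _ => ?_
    simp only [hs, if_false, ite_self]

open Classical in
theorem evenH {V : Type} [Fintype V] {G : SimpleGraph V} [Fintype G.edgeSet] (R : Rotation G)
    {S : Set V} (hS : ∀ s ∈ S, ∀ t ∈ S, ¬ G.Adj s t) {p : V → V} (hp : ∀ s ∈ S, G.Adj s (p s))
    {y : V → V → F} (hy : ∀ u v, G.Adj u v → y u v = y v (R.nxt v u)) (g1 g2 f : V → F)
    (o : G.edgeSet → V × V) (ho : ∀ e, s((o e).1, (o e).2) = (e : Sym2 V))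
    (ho1 : ∀ e, (o e).1 ∉ S) :
    (∑ e, if (o e).2 ∈ S then
        (y (o e).1 (o e).2 + inn R S p g1 g2 (o e).2 (o e).1) *
          (f (o e).1 + f (R.nxt (o e).2 (o e).1))
      else (y (o e).1 (o e).2 + y (o e).2 (o e).1) * (f (o e).1 + f (o e).2)) +
    (∑ s, if s ∈ S4 G S then
        (g1 s + g2 s) * (f (R.nxt s (p s)) + f (R.nxt s (opp R s (p s)))) else 0) = 0 := by
  have h1 := evenH_aux1 R (S := S) hy f o ho ho1
  have h2 := evenH_aux2 R hS hp g1 g2 f o ho ho1
  have h3 : (∑ e, if (o e).2 ∈ S then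
        (y (o e).1 (o e).2 + inn R S p g1 g2 (o e).2 (o e).1) *
          (f (o e).1 + f (R.nxt (o e).2 (o e).1))
      else (y (o e).1 (o e).2 + y (o e).2 (o e).1) * (f (o e).1 + f (o e).2)) =
      (∑ e, if (o e).2 ∈ S then y (o e).1 (o e).2 * (f (o e).1 + f (R.nxt (o e).2 (o e).1))
      else (y (o e).1 (o e).2 + y (o e).2 (o e).1) * (f (o e).1 + f (o e).2)) +
      ∑ e, if (o e).2 ∈ S then inn R S p g1 g2 (o e).2 (o e).1 *
          (f (o e).1 + f (R.nxt (o e).2 (o e).1)) else 0 := by
    rw [← Finset.sum_add_distrib]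
    refine Finset.sum_congr rfl fun e _ => ?_
    split_ifs with h
    · ring
    · ring
  rw [h3, h1, h2, zero_add]
  exact CharTwo.add_self_eq_zero _

end Pool.Agent.AC5
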