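import Pool.Agent.AC5.SphG
import Pool.Agent.AC5.EvenH

set_option autoImplicit false

/-!
# AC5/DualH: connectivity of the auxiliary graph and of its dual (MP_289c47_co, helper88)

PROOF. `connH`: for `s ∈ S` all `f b`, `b ~ s`, are equal (`const_nxt` with `h2`) and equal to `f s = f (p s)`
(`h3`, `p s ~ s`). So `f u = f v` for all adjacent `u, v`: if both are not in `S` by `h1`; if one is in `S`, the other
is not (`hS`), and `f` agrees by the previous remark. Then `connF`.
`dualH`: for `s ∈ S` all the values `inn R S p g1 g2 s b` equal `g1 s` (if `s ∈ S4` then `g1 s = g2 s`). So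
`y b s = g1 s` for all `b ~ s`. For `b ~ s` let `b'` be the neighbour of `s` with `nxt s b' = b` (`nxt_bij`):
`y b' s = y s (nxt s b') = y s b`, so `y s b = g1 s = y b s`. Hence `y u v = y v u` for all adjacent `u, v` (`h2` if
both are not in `S`), and `dualF` applies: `y` has a constant value `c` on the darts (if there is no dart take `c`
arbitrary), and `g1 s = y (p s) s = c` for `s ∈ S`.
-/

namespace Pool.Agent.AC5

open Pool.Agent.H18Thick (Rotation)

variable {V : Type} [Fintype V] {G : SimpleGraph V}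

theorem connH (hc : G.Connected) (R : Rotation G) {S : Set V}
    (hS : ∀ s ∈ S, ∀ t ∈ S, ¬ G.Adj s t) {p : V → V} (hp : ∀ s ∈ S, G.Adj s (p s)) {f : V → F}
    (h1 : ∀ u v, u ∉ S → v ∉ S → G.Adj u v → f u = f v)
    (h2 : ∀ s ∈ S, ∀ b, G.Adj s b → f b = f (R.nxt s b)) (h3 : ∀ s ∈ S, f s = f (p s)) (x y : V) :
    f x = f y := by
  have hs : ∀ s ∈ S, ∀ b, G.Adj s b → f s = f b := by
    intro s hs b hb
    rw [h3 s hs]
    exact const_nxt R s f (fun b hb => (h2 s hs b hb).symm) (hp s hs) hb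
  refine connF hc f (fun u v huv => ?_) x y
  by_cases hu : u ∈ S
  · exact hs u hu v huv
  · by_cases hv : v ∈ S
    · exact (hs v hv u huv.symm).symm
    · exact h1 u v hu hv huv

theorem dualH (hc : G.Connected) (R : Rotation G) {S : Set V}
    (hS : ∀ s ∈ S, ∀ t ∈ S, ¬ G.Adj s t) {p : V → V} (hp : ∀ s ∈ S, G.Adj s (p s))
    {y : V → V → F} (h1 : ∀ u v, G.Adj u v → y u v = y v (R.nxt v u)) {g1 g2 : V → F}
    (h2 : ∀ u v, u ∉ S → v ∉ S → G.Adj u v → y u v = y v u)
    (h3 : ∀ s ∈ S, ∀ b, G.Adj s b → y b s = inn R S p g1 g2 s b) (h4 : ∀ s ∈ S4 G S, g1 s = g2 s) :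
    ∃ c : F, (∀ u v, G.Adj u v → y u v = c) ∧ (∀ s ∈ S, g1 s = c) := by
  have e1 : ∀ s ∈ S, ∀ b, G.Adj s b → y b s = g1 s := by
    intro s hs b hb
    rw [h3 s hs b hb]
    unfold inn
    split_ifs with h
    · exact (h4 s h.1).symm
    · rfl
  have e2 : ∀ s ∈ S, ∀ b, G.Adj s b → y s b = y b s := by
    intro s hs b hb
    obtain ⟨b', hb', hn⟩ := (nxt_bij R s).surjOn hb
    have hb'' : G.Adj s b' := hb'
    have h5 := h1 b' s hb''.symm
    rw [hn] at h5
    rw [← h5, e1 s hs b' hb'', e1 s hs b hb]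
  have e3 : ∀ u v, G.Adj u v → y u v = y v u := by
    intro u v huv
    by_cases hu : u ∈ S
    · exact e2 u hu v huv
    · by_cases hv : v ∈ S
      · exact (e2 v hv u huv.symm).symm
      · exact h2 u v hu hv huv
  by_cases hd : ∃ u v, G.Adj u v
  · obtain ⟨u0, v0, h0⟩ := hd
    have e4 : ∀ u v, G.Adj u v → y u v = y u0 v0 := fun u v huv => dualF hc R y h1 e3 huv h0
    refine ⟨y u0 v0, e4, fun s hs => ?_⟩
    rw [← e1 s hs (p s) (hp s hs)]
    exact e4 _ _ (hp s hs).symm
  · push Not at hd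
    exact ⟨0, fun u v huv => absurd huv (hd u v), fun s hs => absurd (hp s hs) (hd s (p s))⟩

end Pool.Agent.AC5
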