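import Pool.Agent.AC5.Defs

set_option autoImplicit false

/-!
# AC5/FDefs: the forest part (MP_289c47_co, helper88)
-/

namespace Pool.Agent.AC5

/-- The edges of `G - S` inside `T`. -/
def TGr {V : Type} (G : SimpleGraph V) (S T : Set V) : SimpleGraph V where
  Adj u v := G.Adj u v ∧ (u ∉ S ∧ v ∉ S) ∧ u ∈ T ∧ v ∈ T
  symm := ⟨fun _ _ h => ⟨h.1.symm, ⟨h.2.1.2, h.2.1.1⟩, h.2.2.2, h.2.2.1⟩⟩
  loopless := ⟨fun _ h => h.1.ne rfl⟩

/-- A list colouring, proper and acyclic. -/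
def Good {V : Type} (G : SimpleGraph V) (L : V → Finset ℕ) : Prop :=
  ∃ c : V → ℕ, (∀ v, c v ∈ L v) ∧ (∀ u v, G.Adj u v → c u ≠ c v) ∧
    ∀ a b : ℕ, (G.induce {v | c v = a ∨ c v = b}).IsAcyclic

end Pool.Agent.AC5
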