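import Pool.Agent.AC5.FDefs

set_option autoImplicit false

/-!
# AC5/FinA: trees and complete graphs (MP_289c47_co, helper88)

PROOF. Let `G' = G.induce Sᶜ` and
`T = {v | ∃ h : v ∉ S, (G'.induce (G'.connectedComponentMk ⟨v, h⟩).supp).IsAcyclic}`.
(a) for `u, v ∉ S` adjacent the components of `⟨u, _⟩` and `⟨v, _⟩` are equal
(`SimpleGraph.ConnectedComponent.sound`), so `u ∈ T ↔ v ∈ T`.
(b) `u, v, w ∉ S`, `u ∉ T`, `u ~ v ~ w`, `u ≠ w`: the component of `u` is not acyclic, so by `hK` any two different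
vertices of it are adjacent; `w` is in it.
(c) `TGr G S T` is acyclic: let `p` be a closed walk in it which is a cycle. All its vertices are outside `S` and in
`T` (every vertex of a cycle is on an edge), and all are in the same component `D` of `G'` as the base vertex (walk
induction). Map the walk to `G` (`Walk.mapLe` or `Walk.map`), then restrict it to `Sᶜ` (`SimpleGraph.Walk.induce`) and to
`D.supp` (`Walk.induce` again); these operations preserve cycles (`SimpleGraph.Walk.map_isCycle_iff_of_injective`,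
`SimpleGraph.Walk.map_induce`). But the component of a vertex of `T` is acyclic.
(Alternative for (c): `SimpleGraph.IsAcyclic` of `TGr` via `SimpleGraph.isAcyclic_iff_path_unique` or bridges.)
-/

namespace Pool.Agent.AC5

private lemma walk_reach {V : Type} {G : SimpleGraph V} {S T : Set V} {a b : V}
    (q : (TGr G S T).Walk a b) (ha : a ∉ S) :
    ∀ w ∈ q.support, ∃ hw : w ∉ S,
      (G.induce Sᶜ).Reachable ⟨a, ha⟩ ⟨w, hw⟩ := by
  induction q with
  | nil =>
    intro w hw
    rw [SimpleGraph.Walk.support_nil, List.mem_singleton] at hw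
    subst hw
    exact ⟨ha, SimpleGraph.Reachable.refl _⟩
  | @cons u v x h q ih =>
    intro w hw
    rw [SimpleGraph.Walk.support_cons, List.mem_cons] at hw
    rcases hw with rfl | hw
    · exact ⟨ha, SimpleGraph.Reachable.refl _⟩
    · have hv : v ∉ S := h.2.1.2
      obtain ⟨hw', hr⟩ := ih hv w hw
      have hadj : (G.induce Sᶜ).Adj ⟨u, ha⟩ ⟨v, hv⟩ := h.1
      exact ⟨hw', hadj.reachable.trans hr⟩

theorem exists_T {V : Type} {G : SimpleGraph V} {S : Set V}
    (hK : ∀ D : (G.induce Sᶜ).ConnectedComponent, ((G.induce Sᶜ).induce D.supp).IsAcyclic ∨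
      ∀ u ∈ D.supp, ∀ v ∈ D.supp, u ≠ v → (G.induce Sᶜ).Adj u v) :
    ∃ T : Set V, (∀ u v, u ∉ S → v ∉ S → G.Adj u v → (u ∈ T ↔ v ∈ T)) ∧
      (∀ u v w, u ∉ S → v ∉ S → w ∉ S → u ∉ T → G.Adj u v → G.Adj v w → u ≠ w → G.Adj u w) ∧
      (TGr G S T).IsAcyclic := by
  classical
  let P : (G.induce Sᶜ).ConnectedComponent → Prop := fun D =>
    ((G.induce Sᶜ).induce D.supp).IsAcyclic
  let T : Set V := {v | ∃ h : v ∉ S, P ((G.induce Sᶜ).connectedComponentMk ⟨v, h⟩)}
  have hadj : ∀ u v (hu : u ∉ S) (hv : v ∉ S), G.Adj u v →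
      (G.induce Sᶜ).connectedComponentMk ⟨u, hu⟩ = (G.induce Sᶜ).connectedComponentMk ⟨v, hv⟩ := by
    intro u v hu hv huv
    have h1 : (G.induce Sᶜ).Adj ⟨u, hu⟩ ⟨v, hv⟩ := huv
    exact SimpleGraph.ConnectedComponent.sound h1.reachable
  refine ⟨T, ?_, ?_, ?_⟩
  · intro u v hu hv huv
    constructor
    · rintro ⟨h, hP⟩
      exact ⟨hv, by rw [← hadj u v hu hv huv]; exact hP⟩
    · rintro ⟨h, hP⟩
      exact ⟨hu, by rw [hadj u v hu hv huv]; exact hP⟩
  · intro u v w hu hv hw huT huv hvw huw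
    have h1 : ¬ P ((G.induce Sᶜ).connectedComponentMk ⟨u, hu⟩) := fun h => huT ⟨hu, h⟩
    rcases hK ((G.induce Sᶜ).connectedComponentMk ⟨u, hu⟩) with h | h
    · exact absurd h h1
    · have h2 : (⟨u, hu⟩ : ↥Sᶜ) ∈ ((G.induce Sᶜ).connectedComponentMk ⟨u, hu⟩).supp :=
        SimpleGraph.ConnectedComponent.mem_supp_iff _ _ |>.2 rfl
      have h3 : (⟨w, hw⟩ : ↥Sᶜ) ∈ ((G.induce Sᶜ).connectedComponentMk ⟨u, hu⟩).supp := by
        rw [SimpleGraph.ConnectedComponent.mem_supp_iff, hadj u v hu hv huv, hadj v w hv hw hvw]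
      have h4 := h _ h2 _ h3 (fun he => huw (congrArg Subtype.val he))
      exact h4
  · intro v p hp
    have hv : v ∉ S ∧ v ∈ T := by
      cases p with
      | nil => exact absurd rfl hp.ne_nil
      | cons h q => exact ⟨h.2.1.1, h.2.2.1⟩
    obtain ⟨hvS, hvS', hvP⟩ := hv
    have hreach := walk_reach p hvS
    let s : Set V := {w | w ∈ p.support}
    have hq : (p.induce s (fun x hx => hx)).IsCycle := by
      have h1 : ((p.induce s (fun x hx => hx)).map
          (SimpleGraph.Embedding.induce _).toHom).IsCycle := by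
        rw [SimpleGraph.Walk.map_induce]
        exact hp
      exact h1.of_map
    have hmem : ∀ w (hw : w ∈ p.support), (⟨w, (hreach w hw).1⟩ : ↥Sᶜ) ∈
        ((G.induce Sᶜ).connectedComponentMk ⟨v, hvS⟩).supp := by
      intro w hw
      rw [SimpleGraph.ConnectedComponent.mem_supp_iff]
      exact (SimpleGraph.ConnectedComponent.sound (hreach w hw).2).symm
    let f : (TGr G S T).induce s →g ((G.induce Sᶜ).induce
        ((G.induce Sᶜ).connectedComponentMk ⟨v, hvS⟩).supp) :=
      { toFun := fun w => ⟨⟨w.1, (hreach w.1 w.2).1⟩, hmem w.1 w.2⟩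
        map_rel' := fun {a b} hab => by
          have h1 : (TGr G S T).Adj a.1 b.1 := hab
          exact h1.1 }
    have hinj : Function.Injective f := by
      intro a b hab
      have h1 : (f a).1.1 = (f b).1.1 := by rw [hab]
      exact Subtype.ext h1
    exact (SimpleGraph.IsAcyclic.comap f hinj hvP) _ hq

end Pool.Agent.AC5
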