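import Pool.Agent.AC5.Defs

set_option autoImplicit false

/-!
# AC5/Forest: the edges of a forest have independent vectors (MP_289c47_co, helper88)

PROOF. By `SimpleGraph.isAcyclic_iff_forall_edge_isBridge` every edge `e0 = s(u, v)` of `H` is a bridge, so `v` is not
reachable from `u` in `H' = H \ fromEdgeSet {s(u, v)}` (`SimpleGraph.isBridge_iff`). Let `f x = 1` if `x` is reachable
from `u` in `H'`, `0` otherwise, and let `ℓ w = ∑ x, f x * w x`, a linear functional on `V → F` (`V` finite).
`ℓ (pv x y) = f x + f y`. For an edge `s(x, y) ≠ e0` of `H`: `x, y` are adjacent in `H'`, so `f x = f y` and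
`ℓ (vec s(x, y)) = 0`; `ℓ (vec e0) = f u + f v = 1`. Apply `ℓ` to a relation `∑ x e • vec e = 0`
(`Fintype.linearIndependent_iff` or `linearIndependent_iff'`): `x e0 = 0`.
-/

namespace Pool.Agent.AC5

theorem forest_ind {V : Type} [Finite V] (H : SimpleGraph V) (hH : H.IsAcyclic) :
    LinearIndependent F (fun e : H.edgeSet => vec (e : Sym2 V)) := by
  classical
  have := Fintype.ofFinite V
  rw [linearIndependent_iff']
  intro s c hc e0 he0
  obtain ⟨e, he⟩ := e0
  induction e using Sym2.ind with
  | _ u v =>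
  have hb : H.IsBridge s(u, v) := SimpleGraph.isAcyclic_iff_forall_edge_isBridge.1 hH he
  rw [SimpleGraph.isBridge_iff] at hb
  let f : V → F := fun x => if (H.deleteEdges {s(u, v)}).Reachable u x then 1 else 0
  have hfu : f u = 1 := if_pos (SimpleGraph.Reachable.refl u)
  have hfv : f v = 0 := if_neg hb
  have hstep : ∀ x y, H.Adj x y → s(x, y) ≠ s(u, v) → f x = f y := by
    intro x y hxy hne
    have h1 : (H.deleteEdges {s(u, v)}).Adj x y := by
      rw [SimpleGraph.deleteEdges_adj]
      exact ⟨hxy, hne⟩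
    have h2 : (H.deleteEdges {s(u, v)}).Reachable u x ↔
        (H.deleteEdges {s(u, v)}).Reachable u y :=
      ⟨fun h => h.trans h1.reachable, fun h => h.trans h1.symm.reachable⟩
    show (if _ then (1 : F) else 0) = if _ then (1 : F) else 0
    rw [if_congr h2 rfl rfl]
  have hpv : ∀ x y, ∑ w, f w * pv x y w = f x + f y := by
    intro x y
    unfold pv
    simp only [mul_add, mul_ite, mul_one, mul_zero, Finset.sum_add_distrib, Finset.sum_ite_eq',
      Finset.sum_ite_eq, Finset.mem_univ, if_true]
  have h0 : ∑ w, f w * (∑ i ∈ s, c i • vec (i : Sym2 V)) w = 0 := by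
    rw [hc]
    simp
  have h1 : ∑ w, f w * (∑ i ∈ s, c i • vec (i : Sym2 V)) w =
      ∑ i ∈ s, c i * ∑ w, f w * vec (i : Sym2 V) w := by
    simp only [Finset.sum_apply, Pi.smul_apply, smul_eq_mul, Finset.mul_sum]
    rw [Finset.sum_comm]
    refine Finset.sum_congr rfl fun i _ => Finset.sum_congr rfl fun w _ => ?_
    ring
  rw [h1, Finset.sum_eq_single ⟨s(u, v), he⟩] at h0
  · have h2 : ∑ w, f w * vec s(u, v) w = 1 := by
      rw [vec_mk, hpv, hfu, hfv, add_zero]
    have h3 : c ⟨s(u, v), he⟩ * ∑ w, f w * vec s(u, v) w = 0 := h0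
    rwa [h2, mul_one] at h3
  · rintro ⟨e, he'⟩ _ hne
    induction e using Sym2.ind with
    | _ x y =>
    have h2 : ∑ w, f w * vec s(x, y) w = 0 := by
      rw [vec_mk, hpv, hstep x y he' (fun h => hne (Subtype.ext h))]
      exact CharTwo.add_self_eq_zero _
    show c _ * ∑ w, f w * vec s(x, y) w = 0
    rw [h2, mul_zero]
  · intro h
    exact absurd he0 h

end Pool.Agent.AC5
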