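import Pool.Agent.AC5.FDefs
import Pool.Agent.AC5.ConnCase
import Pool.Agent.AC5.Forest

set_option autoImplicit false

/-!
# AC5/FinB: one component (MP_289c47_co, helper88)

PROOF. Let `G' = G.induce D.supp` on the type `D.supp`, `S' = {v | (v : V) ∈ S}`, `T' = {v | (v : V) ∈ T}`. Apply
`conn_case` to `G'` (connected: `SimpleGraph.ConnectedComponent.connected_induce_supp`/`connected_toSimpleGraph`;
spherical: `hG D`), `S'`, `T'` and the lists `fun v => L v`. `hS`, `hTC`, `hC`: directly from the hypotheses (`G'.Adj u v`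
is `G.Adj (u : V) (v : V)`). `hdeg`: the map `Subtype.val` sends the neighbours of `v` in `G'` injectively to neighbours
of `v` in `G` (`Set.ncard_le_ncard_of_injOn` or `Set.ncard_image_of_injective`). `hT`: the graph
`H' = TGr G' S' T'` is acyclic by `SimpleGraph.IsAcyclic.comap` for the injective homomorphism
`Subtype.val : H' →g TGr G S T`; `forest_ind` gives the independence of the vectors of the edges of `H'`; the family in
`hT` is indexed by the edges of `KGr G' S'` with both ends in `T'`, which are edges of `H'`; it is the composition with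
an injective map of indices (`LinearIndependent.comp`).
-/

namespace Pool.Agent.AC5

theorem comp_case {V : Type} [Fintype V] {G : SimpleGraph V} (hG : Planar G) {S T : Set V}
    (hS : ∀ s ∈ S, ∀ t ∈ S, ¬ G.Adj s t) (hdeg : ∀ s ∈ S, (G.neighborSet s).ncard ≤ 4)
    (hTC : ∀ u v, u ∉ S → v ∉ S → G.Adj u v → (u ∈ T ↔ v ∈ T))
    (hC : ∀ u v w, u ∉ S → v ∉ S → w ∉ S → u ∉ T → G.Adj u v → G.Adj v w → u ≠ w → G.Adj u w)
    (hT : (TGr G S T).IsAcyclic) (L : V → Finset ℕ) (hL : ∀ v, 5 ≤ (L v).card)
    (D : G.ConnectedComponent) : Good (G.induce D.supp) (fun v => L v) := by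
  classical
  have hconn : (G.induce D.supp).Connected := D.connected_toSimpleGraph
  refine conn_case (S := {v : D.supp | (v : V) ∈ S}) (T := {v : D.supp | (v : V) ∈ T}) hconn (hG D)
    (fun s hs t ht h => hS s hs t ht h) ?_ (fun u v hu hv h => hTC u v hu hv h) ?_
    (fun u v w hu hv hw huT h1 h2 h3 => hC u v w hu hv hw huT h1 h2 (fun h => h3 (Subtype.ext h)))
    (fun v => L v) (fun v => hL v)
  · intro s hs
    refine le_trans ?_ (hdeg s hs)
    have h1 : (Subtype.val '' ((G.induce D.supp).neighborSet s)) ⊆ G.neighborSet (s : V) := by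
      rintro _ ⟨w, hw, rfl⟩
      exact hw
    rw [← Set.ncard_image_of_injective _ Subtype.val_injective]
    exact Set.ncard_le_ncard h1 (Set.toFinite _)
  · have hac : (TGr (G.induce D.supp) {v : D.supp | (v : V) ∈ S} {v : D.supp | (v : V) ∈ T}).IsAcyclic := by
      let φ : TGr (G.induce D.supp) {v : D.supp | (v : V) ∈ S} {v : D.supp | (v : V) ∈ T} →g
          TGr G S T := ⟨Subtype.val, fun {a b} h => h⟩
      exact hT.comap φ Subtype.val_injective
    have hi := forest_ind _ hac
    refine hi.comp (fun e : {e : (KGr (G.induce D.supp) {v : D.supp | (v : V) ∈ S}).edgeSet //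
      ∀ x ∈ (e : Sym2 D.supp), x ∈ {v : D.supp | (v : V) ∈ T}} => ⟨((e : (KGr (G.induce D.supp)
      {v : D.supp | (v : V) ∈ S}).edgeSet) : Sym2 D.supp), ?_⟩) ?_
    · obtain ⟨⟨e, he⟩, hT'⟩ := e
      induction e using Sym2.ind with
      | _ x y =>
        have he' : (KGr (G.induce D.supp) {v : D.supp | (v : V) ∈ S}).Adj x y := he
        exact ⟨he'.1, he'.2, hT' x (Sym2.mem_mk_left x y), hT' y (Sym2.mem_mk_right x y)⟩
    · intro e e' h
      apply Subtype.ext
      apply Subtype.ext
      simpa using h

end Pool.Agent.AC5
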