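import Pool.Agent.AC5.FDefs

set_option autoImplicit false

/-!
# AC5/FinC: combining the components (MP_289c47_co, helper88)

PROOF. Choose `cD` for every component `D` and put `c v = cD ⟨v, _⟩` for `D = G.connectedComponentMk v`. Lists: clear.
If `u ~ v`, they are in the same component (`SimpleGraph.ConnectedComponent.sound` with the adjacency), so
`c u = cD u ≠ cD v = c v`. Acyclicity: suppose that `G.induce W`, `W = {v | c v = a ∨ c v = b}`, contains a cycle `p` with
base vertex `v`. All its vertices are reachable from `v` in `G`, so they are in `D.supp`, `D` the component of `v`. Map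
it to `G` (`SimpleGraph.Embedding.induce`), restrict it to `D.supp` (`SimpleGraph.Walk.induce`), and then to
`{v | cD v = a ∨ cD v = b}` (`Walk.induce`): a cycle in `(G.induce D.supp).induce _`, which is acyclic.
`SimpleGraph.Walk.map_isCycle_iff_of_injective` and `SimpleGraph.Walk.map_induce` show that the operations preserve
cycles. (Alternative: `SimpleGraph.IsAcyclic` of `G.induce W` follows if every connected component of it is acyclic.)
-/

namespace Pool.Agent.AC5

private theorem FinC_ind {V : Type} {G : SimpleGraph V} {s : Set V} {v : V} {p : G.Walk v v}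
    (hp : p.IsCycle) (h : ∀ x ∈ p.support, x ∈ s) : (p.induce s h).IsCycle := by
  rw [← SimpleGraph.Walk.isCycle_map_iff_of_injective
    (f := (SimpleGraph.Embedding.induce (G := G) s).toHom)
    (SimpleGraph.Embedding.induce (G := G) s).injective,
    SimpleGraph.Walk.map_induce]
  exact hp

private theorem FinC_out {V : Type} {G : SimpleGraph V} {W : Set V} {w : W}
    {p : (G.induce W).Walk w w} (hp : p.IsCycle) :
    ∃ q : G.Walk (w : V) (w : V), q.IsCycle ∧ ∀ x ∈ q.support, x ∈ W := by
  refine ⟨p.map (SimpleGraph.Embedding.induce W).toHom,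
    hp.map (f := (SimpleGraph.Embedding.induce (G := G) W).toHom)
      (SimpleGraph.Embedding.induce (G := G) W).injective, ?_⟩
  intro x hx
  have hx' := hx
  erw [SimpleGraph.Walk.support_map, List.mem_map] at hx'
  obtain ⟨y, -, rfl⟩ := hx'
  exact y.2

theorem good_of_comps {V : Type} [Fintype V] {G : SimpleGraph V} {L : V → Finset ℕ}
    (h : ∀ D : G.ConnectedComponent, Good (G.induce D.supp) (fun v => L v)) : Good G L := by
  classical
  choose cD h1 h2 h3 using h
  have hm : ∀ v : V, v ∈ (G.connectedComponentMk v).supp := fun v =>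
    (SimpleGraph.ConnectedComponent.mem_supp_iff _ _).2 rfl
  have hc : ∀ (D : G.ConnectedComponent) (v : V) (hv : v ∈ D.supp),
      cD (G.connectedComponentMk v) ⟨v, hm v⟩ = cD D ⟨v, hv⟩ := by
    intro D v hv
    have h0 : G.connectedComponentMk v = D := (SimpleGraph.ConnectedComponent.mem_supp_iff _ _).1 hv
    subst h0
    rfl
  refine ⟨fun v => cD (G.connectedComponentMk v) ⟨v, hm v⟩, fun v => h1 _ _, ?_, ?_⟩
  · intro u v huv
    have hu : u ∈ (G.connectedComponentMk v).supp :=
      (SimpleGraph.ConnectedComponent.mem_supp_iff _ _).2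
        (SimpleGraph.ConnectedComponent.sound huv.reachable)
    show cD (G.connectedComponentMk u) ⟨u, hm u⟩ ≠ cD (G.connectedComponentMk v) ⟨v, hm v⟩
    rw [hc _ u hu]
    exact h2 (G.connectedComponentMk v) ⟨u, hu⟩ ⟨v, hm v⟩ huv
  · intro a b w p hp
    obtain ⟨q, hq, hsup⟩ := FinC_out hp
    have hreach : ∀ x ∈ q.support, x ∈ (G.connectedComponentMk (w : V)).supp := by
      intro x hx
      rw [SimpleGraph.ConnectedComponent.mem_supp_iff]
      exact (SimpleGraph.ConnectedComponent.sound (q.takeUntil x hx).reachable).symm
    have hq1 := FinC_ind hq hreach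
    have hsup1 : ∀ x ∈ (q.induce (G.connectedComponentMk (w : V)).supp hreach).support,
        x ∈ {v : (G.connectedComponentMk (w : V)).supp | cD (G.connectedComponentMk (w : V)) v = a ∨
          cD (G.connectedComponentMk (w : V)) v = b} := by
      intro x hx
      rw [SimpleGraph.Walk.support_induce] at hx
      have hx' : (x : V) ∈ q.support := by
        simpa using hx
      have h5 : cD (G.connectedComponentMk (x : V)) ⟨x, hm x⟩ = a ∨
        cD (G.connectedComponentMk (x : V)) ⟨x, hm x⟩ = b := hsup x hx'
      rw [hc (G.connectedComponentMk (w : V)) x x.2] at h5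
      exact h5
    exact h3 (G.connectedComponentMk (w : V)) a b _ (FinC_ind hq1 hsup1)

end Pool.Agent.AC5
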