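import Pool.Agent.AC5.FinA
import Pool.Agent.AC5.FinB
import Pool.Agent.AC5.FinC

set_option autoImplicit false

/-!
# AC5/Final: the theorem (MP_289c47_co, helper88)
-/

namespace Pool.Agent.AC5

theorem main {V : Type} [Fintype V] (G : SimpleGraph V) (hG : Planar G) (S : Set V)
    (hS : ∀ u ∈ S, ∀ v ∈ S, ¬ G.Adj u v) (hdeg : ∀ s ∈ S, (G.neighborSet s).ncard ≤ 4)
    (hK : ∀ D : (G.induce Sᶜ).ConnectedComponent, ((G.induce Sᶜ).induce D.supp).IsAcyclic ∨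
      ∀ u ∈ D.supp, ∀ v ∈ D.supp, u ≠ v → (G.induce Sᶜ).Adj u v)
    (L : V → Finset ℕ) (hL : ∀ v, 5 ≤ (L v).card) :
    ∃ c : V → ℕ, (∀ v, c v ∈ L v) ∧ (∀ u v, G.Adj u v → c u ≠ c v) ∧
      ∀ a b : ℕ, (G.induce {v | c v = a ∨ c v = b}).IsAcyclic := by
  obtain ⟨T, h1, h2, h3⟩ := exists_T hK
  exact good_of_comps fun D => comp_case hG hS hdeg h1 h2 h3 L hL D

end Pool.Agent.AC5
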