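import Pool.Agent.AC5.TS2

set_option autoImplicit false

/-!
# AC5/K33: the cycle space of `K33` does not have the property `TS` (MP_289c47_co, helper88)

PROOF. The edges are the nine pairs `(i, j)` in `Fin 3 × Fin 3`, with ends `(0, i)` and `(1, j)` in
`Fin 2 × Fin 3`. `x ∈ cyc` means (indicator functions of the vertices; the general `f` follows by linearity) that all
row sums and all column sums of the matrix `x i j` are zero.
(1) `4 ≤ finrank`: the restriction to the entries with `i, j ≤ 1` is surjective onto `F ^ 4`: given these entries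
define `x i 2 = x i 0 + x i 1` for `i ≤ 1` and `x 2 j = x 0 j + x 1 j` for all `j`. (Or exhibit the four 4-cycles on the
rows `{i, 2}` and columns `{j, 2}`.)
(2) a nonzero element has weight at least `4`: if `x i j ≠ 0` then some `x i j' ≠ 0`, `j' ≠ j` (row `i`), some
`x i' j ≠ 0`, `i' ≠ i` (column `j`) and some `x i'' j' ≠ 0`, `i'' ≠ i` (column `j'`); four distinct entries.
(Or decide over the `2 ^ 9` vectors.)
(3) `TS_strong` with `k = 4`: `4 * 5 ≤ 4 * (finrank + 1) ≤ 2 * 9`, a contradiction.
-/

namespace Pool.Agent.AC5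

/-- The matrix with all row and column sums zero with the given upper left corner. -/
private def k33mat (a b c d : F) : Fin 3 × Fin 3 → F := fun p =>
  (![![a, b, a + b], ![c, d, c + d], ![a + c, b + d, a + b + (c + d)]] : Fin 3 → Fin 3 → F) p.1 p.2

private lemma k33mat_wt : ∀ a b c d : F, ¬ (a = 0 ∧ b = 0 ∧ c = 0 ∧ d = 0) →
    4 ≤ (Finset.univ.filter fun e => k33mat a b c d e ≠ 0).card := by
  decide +kernel

private lemma k33_two : (2 : F) = 0 := by decide

private lemma k33_mem (a b c d : F) : k33mat a b c d ∈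
    cyc (fun p : Fin 3 × Fin 3 => ((0 : Fin 2), p.1)) (fun p : Fin 3 × Fin 3 => ((1 : Fin 2), p.2)) := by
  intro f
  rw [Fintype.sum_prod_type]
  simp only [Fin.sum_univ_three, k33mat, Matrix.cons_val_zero, Matrix.cons_val_one,
    Matrix.cons_val_two, Matrix.head_cons, Matrix.tail_cons]
  linear_combination (f (0, 0) * (a + b) + f (0, 1) * (c + d) + f (0, 2) * (a + b + c + d) +
    f (1, 0) * (a + c) + f (1, 1) * (b + d) + f (1, 2) * (a + b + c + d)) * k33_two

private lemma k33_eq {z : Fin 3 × Fin 3 → F} (hz : z ∈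
    cyc (fun p : Fin 3 × Fin 3 => ((0 : Fin 2), p.1)) (fun p : Fin 3 × Fin 3 => ((1 : Fin 2), p.2))) :
    z = k33mat (z (0, 0)) (z (0, 1)) (z (1, 0)) (z (1, 1)) := by
  have hrow : ∀ i : Fin 3, z (i, 0) + z (i, 1) + z (i, 2) = 0 := by
    intro i
    have h := hz (fun x => if x = (0, i) then 1 else 0)
    rw [Fintype.sum_prod_type] at h
    fin_cases i <;> simpa [Fin.sum_univ_three] using h
  have hcol : ∀ j : Fin 3, z (0, j) + z (1, j) + z (2, j) = 0 := by
    intro j
    have h := hz (fun x => if x = (1, j) then 1 else 0)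
    rw [Fintype.sum_prod_type] at h
    fin_cases j <;> simpa [Fin.sum_univ_three] using h
  have hneg : ∀ x y : F, x + y = 0 → y = x := by decide
  have h02 : z (0, 2) = z (0, 0) + z (0, 1) := hneg _ _ (hrow 0)
  have h12 : z (1, 2) = z (1, 0) + z (1, 1) := hneg _ _ (hrow 1)
  have h20 : z (2, 0) = z (0, 0) + z (1, 0) := hneg _ _ (hcol 0)
  have h21 : z (2, 1) = z (0, 1) + z (1, 1) := hneg _ _ (hcol 1)
  have h22 : z (2, 2) = z (0, 2) + z (1, 2) := hneg _ _ (hcol 2)
  funext p
  obtain ⟨i, j⟩ := p
  fin_cases i <;> fin_cases j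
  · rfl
  · rfl
  · exact h02
  · rfl
  · rfl
  · exact h12
  · exact h20
  · exact h21
  · rw [h02, h12] at h22
    exact h22

theorem not_TS_K33 : ¬ TS (cyc (fun p : Fin 3 × Fin 3 => ((0 : Fin 2), p.1))
    (fun p : Fin 3 × Fin 3 => ((1 : Fin 2), p.2))) := by
  intro h
  set W := cyc (fun p : Fin 3 × Fin 3 => ((0 : Fin 2), p.1))
    (fun p : Fin 3 × Fin 3 => ((1 : Fin 2), p.2)) with hW
  let φ : (Fin 4 → F) →ₗ[F] W := LinearMap.codRestrict W
    { toFun := fun v => k33mat (v 0) (v 1) (v 2) (v 3)
      map_add' := by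
        intro v w
        funext p
        obtain ⟨i, j⟩ := p
        fin_cases i <;> fin_cases j <;>
          simp [k33mat, Pi.add_apply] <;> ring
      map_smul' := by
        intro c v
        funext p
        obtain ⟨i, j⟩ := p
        fin_cases i <;> fin_cases j <;>
          simp [k33mat, Pi.smul_apply] <;> ring }
    (fun v => k33_mem _ _ _ _)
  have hφ : Function.Injective φ := by
    intro v w hvw
    have h1 : k33mat (v 0) (v 1) (v 2) (v 3) = k33mat (w 0) (w 1) (w 2) (w 3) :=
      congrArg Subtype.val hvw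
    funext i
    fin_cases i
    · exact congrFun h1 (0, 0)
    · exact congrFun h1 (0, 1)
    · exact congrFun h1 (1, 0)
    · exact congrFun h1 (1, 1)
  have h4 : 4 ≤ Module.finrank F W := by
    have := LinearMap.finrank_le_finrank_of_injective hφ
    rwa [Module.finrank_fin_fun] at this
  have hk : ∀ z ∈ W, z ≠ 0 → 4 ≤ {e | z e ≠ 0}.ncard := by
    intro z hz hz0
    have h1 := k33_eq hz
    have h2 := k33mat_wt (z (0, 0)) (z (0, 1)) (z (1, 0)) (z (1, 1)) (by
      rintro ⟨e1, e2, e3, e4⟩
      apply hz0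
      rw [h1, e1, e2, e3, e4]
      funext p
      obtain ⟨i, j⟩ := p
      fin_cases i <;> fin_cases j <;> simp [k33mat])
    rw [← h1] at h2
    rw [Set.ncard_eq_toFinset_card']
    refine h2.trans (le_of_eq ?_)
    congr 1
    ext e
    simp
  have h5 := TS_strong h hk (by omega)
  have h6 : Nat.card (Fin 3 × Fin 3) = 9 := by simp
  omega

end Pool.Agent.AC5
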