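import Pool.Agent.AC5.TS2

set_option autoImplicit false

/-!
# AC5/K5: the cycle space of `K5` does not have the property `TS` (MP_289c47_co, helper88)

PROOF. The edges are the ten pairs `i < j` in `Fin 5`. `x ∈ cyc` means (indicator functions of the vertices; the
general `f` follows by linearity) that for every `i` the sum of the `x p` over the pairs `p` containing `i` is zero.
(1) `6 ≤ finrank`: the linear map from `cyc` to the functions on the six pairs `i < j ≤ 3` (restriction) is
surjective: given values on these pairs define `x (i, 4) = ∑_{j ≤ 3, j ≠ i} x {i, j}`; the vertex condition holds at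
`i ≤ 3` by definition and at `4` because `∑_i ∑_{j ≠ i} x {i, j} = 0` (each pair twice). (Alternatively exhibit six
linearly independent elements: the triangles `{i, j, 4}`, `i < j ≤ 3`.)
(2) a nonzero element has weight at least `3`: if `x {i, j} ≠ 0` then by the condition at `i` there is `j' ≠ j` with
`x {i, j'} ≠ 0`, and by the condition at `j` there is `i' ≠ i` with `x {i', j} ≠ 0`; the pairs `{i, j}`, `{i, j'}`,
`{i', j}` are distinct (`{i, j'} = {i', j}` would force `i = j` or `i = i'`). (Or decide over the `2 ^ 10` vectors.)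
(3) `TS_strong` with `k = 3`: `3 * 7 ≤ 3 * (finrank + 1) ≤ 2 * 10`, a contradiction.
-/

namespace Pool.Agent.AC5

/-- the pairs -/
private abbrev Pr := {p : Fin 5 × Fin 5 // p.1 < p.2}

private def tri : Fin 6 → Pr :=
  ![⟨(0, 1), by decide⟩, ⟨(0, 2), by decide⟩, ⟨(0, 3), by decide⟩, ⟨(1, 2), by decide⟩,
    ⟨(1, 3), by decide⟩, ⟨(2, 3), by decide⟩]

private def tv (k : Fin 6) (e : Pr) : F :=
  if e.1 = (tri k).1 ∨ e.1 = ((tri k).1.1, 4) ∨ e.1 = ((tri k).1.2, 4) then 1 else 0

private lemma tv_tri : ∀ j k : Fin 6, tv j (tri k) = if j = k then 1 else 0 := by decide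

private lemma tv_cyc : ∀ k : Fin 6, ∀ f : Fin 5 → F,
    ∑ e : Pr, tv k e * (f e.1.1 + f e.1.2) = 0 := by decide +kernel

private lemma six_le : 6 ≤ Module.finrank F (cyc (fun p : Pr => p.1.1) (fun p : Pr => p.1.2)) := by
  let L : (Fin 6 → F) →ₗ[F] cyc (fun p : Pr => p.1.1) (fun p : Pr => p.1.2) :=
    { toFun := fun c => ⟨∑ k, c k • tv k, Submodule.sum_mem _ fun k _ =>
        Submodule.smul_mem _ _ (tv_cyc k)⟩
      map_add' := fun c d => by
        apply Subtype.ext
        simp [add_smul, Finset.sum_add_distrib]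
      map_smul' := fun a c => by
        apply Subtype.ext
        simp [Finset.smul_sum, mul_smul] }
  have hL : Function.Injective L := by
    intro c d hcd
    funext k
    have h1 : ∀ c : Fin 6 → F, (L c).1 (tri k) = c k := by
      intro c
      change (∑ j, c j • tv j) (tri k) = c k
      rw [Finset.sum_apply]
      simp only [Pi.smul_apply, smul_eq_mul, tv_tri, mul_ite, mul_one, mul_zero]
      simp
    rw [← h1 c, ← h1 d, hcd]
  have := LinearMap.finrank_le_finrank_of_injective hL
  simpa using this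

private lemma other {z : Pr → F} (hz : z ∈ cyc (fun p : Pr => p.1.1) (fun p : Pr => p.1.2))
    {e : Pr} (he : z e ≠ 0) {i : Fin 5} (hi : e.1.1 = i ∨ e.1.2 = i) :
    ∃ e' : Pr, e' ≠ e ∧ z e' ≠ 0 ∧ (e'.1.1 = i ∨ e'.1.2 = i) := by
  by_contra hcon
  push Not at hcon
  have h1 := hz (fun x => if x = i then 1 else 0)
  rw [Finset.sum_eq_single e] at h1
  · have h2 : (if e.1.1 = i then (1 : F) else 0) + (if e.1.2 = i then 1 else 0) = 1 := by
      have h3 : e.1.1 ≠ e.1.2 := ne_of_lt e.2
      rcases hi with hi | hi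
      · have : e.1.2 ≠ i := fun h => h3 (hi.trans h.symm)
        simp [hi, this]
      · have : e.1.1 ≠ i := fun h => h3 (h.trans hi.symm)
        simp [hi, this]
    rw [h2, mul_one] at h1
    exact he h1
  · intro e' _ hne
    by_cases hz' : z e' = 0
    · rw [hz', zero_mul]
    · obtain ⟨h2, h3⟩ := hcon e' hne hz'
      simp [h2, h3]
  · intro h
    exact absurd (Finset.mem_univ e) h

private lemma three_le {z : Pr → F} (hz : z ∈ cyc (fun p : Pr => p.1.1) (fun p : Pr => p.1.2))
    (hz0 : z ≠ 0) : 3 ≤ {e | z e ≠ 0}.ncard := by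
  obtain ⟨e, he⟩ := Function.ne_iff.1 hz0
  obtain ⟨e₁, h1, h2, h3⟩ := other hz he (Or.inl rfl)
  obtain ⟨e₂, h4, h5, h6⟩ := other hz he (Or.inr rfl)
  have h7 : e₁ ≠ e₂ := by
    rintro rfl
    apply h1
    have ha := e.2
    have hb := e₁.2
    apply Subtype.ext
    apply Prod.ext
    · rcases h3 with h3 | h3
      · exact h3
      · rcases h6 with h6 | h6
        · rw [h3, h6] at hb
          exact absurd (ha.trans hb) (lt_irrefl _)
        · rw [h6] at h3
          rw [h3] at ha
          exact absurd ha (lt_irrefl _)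
    · rcases h6 with h6 | h6
      · rcases h3 with h3 | h3
        · rw [h3] at h6
          rw [h6] at ha
          exact absurd ha (lt_irrefl _)
        · rw [h3, h6] at hb
          exact absurd (ha.trans hb) (lt_irrefl _)
      · exact h6
  have h8 : ({e, e₁, e₂} : Set Pr).ncard = 3 := by
    rw [Set.ncard_eq_three]
    exact ⟨e, e₁, e₂, h1.symm, h4.symm, h7, rfl⟩
  rw [← h8]
  apply Set.ncard_le_ncard _ (Set.toFinite _)
  rintro x (rfl | rfl | rfl)
  · exact he
  · exact h2
  · exact h5

theorem not_TS_K5 : ¬ TS (cyc (fun p : {p : Fin 5 × Fin 5 // p.1 < p.2} => p.1.1)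
    (fun p : {p : Fin 5 × Fin 5 // p.1 < p.2} => p.1.2)) := by
  intro h
  have h1 := TS_strong h (k := 3) (fun z hz hz0 => three_le hz hz0)
    (le_trans (by norm_num) six_le)
  have h2 : Nat.card {p : Fin 5 × Fin 5 // p.1 < p.2} = 10 := by
    rw [Nat.card_eq_fintype_card]
    decide
  rw [h2] at h1
  have h3 : 3 * (6 + 1) ≤ 2 * 10 :=
    le_trans (Nat.mul_le_mul_left 3 (Nat.add_le_add_right six_le 1)) h1
  omega

end Pool.Agent.AC5
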