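import Pool.Agent.AC5.CB

set_option autoImplicit false

/-!
# AC5/LemR: a claw or a triangle rooted at three vertices (MP_289c47_co, helper88)

PROOF. Let `W = T \ {x1, x2, x3}` and for `a ∈ W` let `D a = comp Γ W a`. If for some `a ∈ W` the set `D a` contains
neighbours of `x1`, of `x2` and of `x3`: first alternative with `D a` (`comp_conn`). Otherwise (H): no `D a` has this
property. Say that `x_i` and `x_j` are linked if `x_i ~ x_j` or some `D a`, `a ∈ W`, contains a neighbour of `x_i` and a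
neighbour of `x_j`.
(1) `x1`, `x2` are linked (using `c3 : Conn Γ (T \ {x3})`): let
`A = {x1} ∪ {b ∈ W | D b contains a neighbour of x1}` `⊆ T \ {x3}`. If they are not linked, `A` is closed inside
`T \ {x3}`: let `x ∈ A`, `y ∈ T \ {x3}`, `x ~ y`. `x = x1`: `y ≠ x2` (not linked), so `y = x1` or `y ∈ W`, and `D y`
contains the neighbour `y` of `x1`. `x ∈ W` with `D x` containing a neighbour `w` of `x1`: `y = x1` is in `A`; `y = x2`
would mean that `D x` contains a neighbour of `x1` and the neighbour `x` of `x2`, linked; `y ∈ W`: `y ∈ D x`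
(`comp_closed`), and `D y ⊇ D x` (`conn_sub_comp`: `D x` is connected, in `W`, and meets `D y` in `y`), so `D y`
contains `w`. So `A = T \ {x3}`, but `x2 ∈ T \ {x3}`, `x2 ∉ A` (`x2 ∉ W`, `x2 ≠ x1`), a contradiction. In the same way
`x1, x3` and `x2, x3` are linked (state the argument as an auxiliary lemma for three distinct vertices).
(2) For the pair `1, 2` let `E12 = ∅` if `x1 ~ x2`, else `E12 = D a` for an `a` as in the definition of linked;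
similarly `E23`, `E31`. Each is empty or a component containing neighbours of both vertices of the pair; by (H)
nonempty ones for different pairs are different, hence disjoint (`comp_disj`). Let `Y1 = {x1} ∪ E12`,
`Y2 = {x2} ∪ E23`, `Y3 = {x3} ∪ E31`. They are connected (`Conn.singleton`, `Conn.union`), pairwise disjoint, and
pairwise touching: `Y1`, `Y2`: if `E12 = ∅`, `x1 ~ x2`; otherwise `E12 ⊆ Y1` contains a neighbour of `x2 ∈ Y2`;
`Y2, Y3` by `E23 ⊆ Y2`, `Y3, Y1` by `E31 ⊆ Y3`.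
-/

namespace Pool.Agent.AC5

/-- `x` and `y` are linked by the set `E`, empty or a component of `W`. -/
private def LK {B : Type} (Γ : SimpleGraph B) (W : Set B) (x y : B) (E : Set B) : Prop :=
  (E = ∅ ∧ Γ.Adj x y) ∨ ∃ a ∈ W, E = comp Γ W a ∧ nb Γ E x ∧ nb Γ E y

private lemma lk_exists {B : Type} {Γ : SimpleGraph B} {T W : Set B} {x y z : B}
    (hW : ∀ v, v ∈ W ↔ v ∈ T ∧ v ≠ x ∧ v ≠ y ∧ v ≠ z) (hx : x ∈ T) (hy : y ∈ T)
    (hxy : x ≠ y) (hxz : x ≠ z) (hyz : y ≠ z) (c : Conn Γ (T \ {z})) : ∃ E, LK Γ W x y E := by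
  by_contra hno
  have hadj : ¬ Γ.Adj x y := fun h => hno ⟨∅, Or.inl ⟨rfl, h⟩⟩
  have hcomp : ∀ a ∈ W, nb Γ (comp Γ W a) x → ¬ nb Γ (comp Γ W a) y := fun a ha h1 h2 =>
    hno ⟨comp Γ W a, Or.inr ⟨a, ha, rfl, h1, h2⟩⟩
  have hA := c.2 ({x} ∪ {b | b ∈ W ∧ nb Γ (comp Γ W b) x}) (by
    rintro v (rfl | hv)
    · exact ⟨hx, fun h => hxz (Set.mem_singleton_iff.1 h)⟩
    · have h1 := (hW v).1 hv.1
      exact ⟨h1.1, fun h => h1.2.2.2 (Set.mem_singleton_iff.1 h)⟩) ⟨x, Or.inl rfl⟩ (by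
    rintro u hu v ⟨hv, hvz⟩ huv
    by_cases hvx : v = x
    · exact Or.inl hvx
    rcases hu with hu | hu
    · have hu' : u = x := hu
      rw [hu'] at huv
      have hvy : v ≠ y := fun h => hadj (h ▸ huv)
      have hvW : v ∈ W := (hW v).2 ⟨hv, hvx, hvy, hvz⟩
      exact Or.inr ⟨hvW, v, mem_comp_self hvW, huv.symm⟩
    · obtain ⟨huW, w, hw, hwx⟩ := hu
      by_cases hvy : v = y
      · exact absurd ⟨u, mem_comp_self huW, hvy ▸ huv⟩ (hcomp u huW ⟨w, hw, hwx⟩)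
      · have hvW : v ∈ W := (hW v).2 ⟨hv, hvx, hvy, hvz⟩
        have h1 : v ∈ comp Γ W u := comp_closed (mem_comp_self huW) hvW huv
        have h2 := conn_sub_comp (comp_conn (Γ := Γ) huW) (comp_sub W u) h1 (mem_comp_self hvW)
        exact Or.inr ⟨hvW, w, h2 hw, hwx⟩)
  have h1 : y ∈ T \ {z} := ⟨hy, fun h => hyz (Set.mem_singleton_iff.1 h)⟩
  rw [← hA] at h1
  rcases h1 with h1 | h1
  · exact hxy (Set.mem_singleton_iff.1 h1).symm
  · exact ((hW y).1 h1.1).2.2.1 rfl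

private lemma lk_sub {B : Type} {Γ : SimpleGraph B} {W : Set B} {x y : B} {E : Set B}
    (h : LK Γ W x y E) : E ⊆ W := by
  rcases h with ⟨rfl, -⟩ | ⟨a, ha, rfl, -, -⟩
  · exact Set.empty_subset _
  · exact comp_sub W a

private lemma lk_conn {B : Type} {Γ : SimpleGraph B} {W : Set B} {x y : B} {E : Set B}
    (h : LK Γ W x y E) : Conn Γ ({x} ∪ E) := by
  rcases h with ⟨rfl, -⟩ | ⟨a, ha, rfl, ⟨w, hw, hwx⟩, -⟩
  · rw [Set.union_empty]
    exact Conn.singleton x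
  · exact Conn.union (Conn.singleton x) (comp_conn ha) ⟨x, rfl, w, hw, hwx.symm⟩

private lemma lk_tch {B : Type} {Γ : SimpleGraph B} {W : Set B} {x y : B} {E Y : Set B}
    (h : LK Γ W x y E) (hy : y ∈ Y) : Tch Γ ({x} ∪ E) Y := by
  rcases h with ⟨rfl, h⟩ | ⟨a, ha, rfl, -, ⟨w, hw, hwy⟩⟩
  · exact ⟨x, Or.inl rfl, y, hy, h⟩
  · exact ⟨w, Or.inr hw, y, hy, hwy⟩

private lemma lk_disj {B : Type} {Γ : SimpleGraph B} {W : Set B} {x y x' y' : B} {E E' : Set B}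
    (h : LK Γ W x y E) (h' : LK Γ W x' y' E')
    (H : ∀ a ∈ W, nb Γ (comp Γ W a) x → nb Γ (comp Γ W a) y → nb Γ (comp Γ W a) x' →
      nb Γ (comp Γ W a) y' → False) : Disjoint E E' := by
  rcases h with ⟨rfl, -⟩ | ⟨a, ha, rfl, ⟨w, hw, hwx⟩, ⟨v, hv, hvy⟩⟩
  · exact Set.empty_disjoint _
  rcases h' with ⟨rfl, -⟩ | ⟨b, hb, rfl, h1, h2⟩
  · exact Set.disjoint_empty _
  by_cases hba : b ∈ comp Γ W a
  · exfalso
    have h3 := conn_sub_comp (comp_conn (Γ := Γ) ha) (comp_sub W a) hba (mem_comp_self hb)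
    exact H b hb ⟨w, h3 hw, hwx⟩ ⟨v, h3 hv, hvy⟩ h1 h2
  · exact comp_disj hb hba

private lemma lk_disj2 {B : Type} {W E E' : Set B} {x x' : B} (hx : x ∉ W) (hx' : x' ∉ W)
    (hxx : x ≠ x') (hE : E ⊆ W) (hE' : E' ⊆ W) (h : Disjoint E E') :
    Disjoint ({x} ∪ E) ({x'} ∪ E') := by
  rw [Set.disjoint_union_left, Set.disjoint_union_right, Set.disjoint_union_right]
  refine ⟨⟨?_, ?_⟩, ?_, h⟩
  · exact Set.disjoint_singleton.2 hxx
  · exact Set.disjoint_singleton_left.2 fun h => hx (hE' h)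
  · exact Set.disjoint_singleton_right.2 fun h => hx' (hE h)

theorem lemR {B : Type} {Γ : SimpleGraph B} {T : Set B} {x1 x2 x3 : B} (h1 : x1 ∈ T)
    (h2 : x2 ∈ T) (h3 : x3 ∈ T) (h12 : x1 ≠ x2) (h13 : x1 ≠ x3) (h23 : x2 ≠ x3)
    (c1 : Conn Γ (T \ {x1})) (c2 : Conn Γ (T \ {x2})) (c3 : Conn Γ (T \ {x3})) :
    (∃ D ⊆ T \ {x1, x2, x3}, Conn Γ D ∧ nb Γ D x1 ∧ nb Γ D x2 ∧ nb Γ D x3) ∨
    ∃ Y1 Y2 Y3 : Set B, Y1 ⊆ T ∧ Y2 ⊆ T ∧ Y3 ⊆ T ∧ x1 ∈ Y1 ∧ x2 ∈ Y2 ∧ x3 ∈ Y3 ∧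
      Conn Γ Y1 ∧ Conn Γ Y2 ∧ Conn Γ Y3 ∧ Disjoint Y1 Y2 ∧ Disjoint Y1 Y3 ∧ Disjoint Y2 Y3 ∧
      Tch Γ Y1 Y2 ∧ Tch Γ Y1 Y3 ∧ Tch Γ Y2 Y3 := by
  set W : Set B := T \ {x1, x2, x3} with hWd
  have hW : ∀ v, v ∈ W ↔ v ∈ T ∧ v ≠ x1 ∧ v ≠ x2 ∧ v ≠ x3 := by
    intro v
    rw [hWd, Set.mem_sdiff]
    simp only [Set.mem_insert_iff, Set.mem_singleton_iff, not_or]
  by_cases H : ∃ a ∈ W, nb Γ (comp Γ W a) x1 ∧ nb Γ (comp Γ W a) x2 ∧ nb Γ (comp Γ W a) x3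
  · obtain ⟨a, ha, n1, n2, n3⟩ := H
    exact Or.inl ⟨comp Γ W a, comp_sub W a, comp_conn ha, n1, n2, n3⟩
  right
  have H' : ∀ a ∈ W, nb Γ (comp Γ W a) x1 → nb Γ (comp Γ W a) x2 → nb Γ (comp Γ W a) x3 → False :=
    fun a ha n1 n2 n3 => H ⟨a, ha, n1, n2, n3⟩
  obtain ⟨E12, l12⟩ := lk_exists (W := W) hW h1 h2 h12 h13 h23 c3
  obtain ⟨E23, l23⟩ := lk_exists (W := W) (x := x2) (y := x3) (z := x1)
    (fun v => by rw [hW]; tauto) h2 h3 h23 h12.symm h13.symm c1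
  obtain ⟨E31, l31⟩ := lk_exists (W := W) (x := x3) (y := x1) (z := x2)
    (fun v => by rw [hW]; tauto) h3 h1 h13.symm h23.symm h12 c2
  have hx1 : x1 ∉ W := fun h => ((hW x1).1 h).2.1 rfl
  have hx2 : x2 ∉ W := fun h => ((hW x2).1 h).2.2.1 rfl
  have hx3 : x3 ∉ W := fun h => ((hW x3).1 h).2.2.2 rfl
  have hWT : W ⊆ T := fun v hv => ((hW v).1 hv).1
  have s12 := lk_sub l12
  have s23 := lk_sub l23
  have s31 := lk_sub l31
  refine ⟨{x1} ∪ E12, {x2} ∪ E23, {x3} ∪ E31, ?_, ?_, ?_, Or.inl rfl, Or.inl rfl, Or.inl rfl,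
    lk_conn l12, lk_conn l23, lk_conn l31, ?_, ?_, ?_, lk_tch l12 (Or.inl rfl),
    (lk_tch l31 (Or.inl rfl)).symm, lk_tch l23 (Or.inl rfl)⟩
  · exact Set.union_subset (Set.singleton_subset_iff.2 h1) (s12.trans hWT)
  · exact Set.union_subset (Set.singleton_subset_iff.2 h2) (s23.trans hWT)
  · exact Set.union_subset (Set.singleton_subset_iff.2 h3) (s31.trans hWT)
  · exact lk_disj2 hx1 hx2 h12 s12 s23
      (lk_disj l12 l23 fun a ha n1 n2 _ n3 => H' a ha n1 n2 n3)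
  · exact lk_disj2 hx1 hx3 h13 s12 s31
      (lk_disj l12 l31 fun a ha n1 n2 n3 _ => H' a ha n1 n2 n3)
  · exact lk_disj2 hx2 hx3 h23 s23 s31
      (lk_disj l23 l31 fun a ha n2 n3 _ n1 => H' a ha n1 n2 n3)

end Pool.Agent.AC5
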