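import Pool.Agent.AC5.Defs

set_option autoImplicit false

/-!
# AC5/Lift: a connected set solves the boundary equation (MP_289c47_co, helper88)

PROOF. Call `h : B → F` good if it has the property of the conclusion (there is `z` supported on the edges with both
ends in `A` with `∑ e, z e * (f (s e) + f (t e)) = ∑ b, h b * f b` for all `f`). Good functions are closed under
addition, and `0` is good. Fix `x ∈ A` (`hA.1`). Let
`D = {y ∈ A | the function Pi.single x 1 + Pi.single y 1 is good}`. Then `x ∈ D` (the function is `0`), and `D` is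
closed under adjacency inside `A`: if `y ∈ D`, `y' ∈ A`, `Γ.Adj y y'`, take the edge `e` of `hΓ` with ends `y`, `y'`;
`Pi.single y 1 + Pi.single y' 1` is good with `z = Pi.single e 1`, and
`(single x 1 + single y 1) + (single y 1 + single y' 1) = single x 1 + single y' 1`. So `D = A` (`hA.2`). Finally
`h = ∑_{y : h y = 1} (single x 1 + single y 1)`: the number of `y` with `h y = 1` is even since `∑ b, h b = 0`, so the
multiples of `single x 1` cancel; more precisely `h = ∑ y, h y • (single x 1 + single y 1)` because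
`∑ y, h y • single x 1 = (∑ y, h y) • single x 1 = 0` and `∑ y, h y • single y 1 = h`; the terms with `y ∉ A` are
zero, those with `y ∈ A` are good.
-/

namespace Pool.Agent.AC5

/-- The boundary equation is solvable for `h` by edges inside `A`. -/
private def Gd {B E : Type} [Fintype B] [Fintype E] (s t : E → B) (A : Set B) (h : B → F) : Prop :=
  ∃ z : E → F, (∀ e, ¬ (s e ∈ A ∧ t e ∈ A) → z e = 0) ∧
    ∀ f : B → F, ∑ e, z e * (f (s e) + f (t e)) = ∑ b, h b * f b

private theorem Gd.zero {B E : Type} [Fintype B] [Fintype E] {s t : E → B} {A : Set B} :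
    Gd s t A 0 := ⟨0, fun _ _ => rfl, fun f => by simp⟩

private theorem Gd.add {B E : Type} [Fintype B] [Fintype E] {s t : E → B} {A : Set B} {h h' : B → F}
    (h1 : Gd s t A h) (h2 : Gd s t A h') : Gd s t A (h + h') := by
  obtain ⟨z, hz, hz'⟩ := h1
  obtain ⟨w, hw, hw'⟩ := h2
  refine ⟨z + w, fun e he => by simp [hz e he, hw e he], fun f => ?_⟩
  simp only [Pi.add_apply, add_mul, Finset.sum_add_distrib]
  rw [hz', hw']

private theorem Gd.smul {B E : Type} [Fintype B] [Fintype E] {s t : E → B} {A : Set B} {h : B → F}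
    (c : F) (h1 : Gd s t A h) : Gd s t A (c • h) := by
  obtain ⟨z, hz, hz'⟩ := h1
  refine ⟨c • z, fun e he => by simp [hz e he], fun f => ?_⟩
  simp only [Pi.smul_apply, smul_eq_mul, mul_assoc]
  rw [← Finset.mul_sum, ← Finset.mul_sum, hz']

private theorem two_F (a : F) : a + a = 0 := by
  rw [← two_mul]
  have h : (2 : F) = 0 := by decide
  rw [h, zero_mul]

open Classical in
theorem lift_conn {B E : Type} [Fintype B] [Fintype E] {s t : E → B} {Γ : SimpleGraph B}
    (hΓ : ∀ u v, Γ.Adj u v → ∃ e, (s e = u ∧ t e = v) ∨ (s e = v ∧ t e = u)) {A : Set B}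
    (hA : Conn Γ A) {h : B → F} (h1 : ∀ b, b ∉ A → h b = 0) (h2 : ∑ b, h b = 0) :
    ∃ z : E → F, (∀ e, ¬ (s e ∈ A ∧ t e ∈ A) → z e = 0) ∧
      ∀ f : B → F, ∑ e, z e * (f (s e) + f (t e)) = ∑ b, h b * f b := by
  have hedge : ∀ e, s e ∈ A → t e ∈ A → Gd s t A (Pi.single (s e) 1 + Pi.single (t e) 1) := by
    intro e hs ht
    refine ⟨Pi.single e 1, ?_, ?_⟩
    · intro e' he'
      by_cases hee : e' = e
      · subst hee
        exact absurd ⟨hs, ht⟩ he'
      · rw [Pi.single_eq_of_ne hee]
    · intro f
      simp only [Pi.add_apply, add_mul, Finset.sum_add_distrib, Pi.single_apply, ite_mul, one_mul,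
        zero_mul, Finset.sum_ite_eq', Finset.mem_univ, if_true]
  obtain ⟨⟨x, hx⟩, hcl⟩ := hA
  have hD : {y | y ∈ A ∧ Gd s t A (Pi.single x 1 + Pi.single y 1)} = A := by
    refine hcl _ (fun y hy => hy.1) ⟨x, hx, ?_⟩ ?_
    · have e : (Pi.single x 1 + Pi.single x 1 : B → F) = 0 := by
        funext b
        exact two_F _
      rw [e]
      exact Gd.zero
    · rintro y ⟨hy, hgy⟩ y' hy' hadj
      refine ⟨hy', ?_⟩
      have hyy : Gd s t A (Pi.single y 1 + Pi.single y' 1) := by
        obtain ⟨e, ⟨e1, e2⟩ | ⟨e1, e2⟩⟩ := hΓ y y' hadj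
        · have h3 := hedge e (by rw [e1]; exact hy) (by rw [e2]; exact hy')
          rw [e1, e2] at h3
          exact h3
        · have h3 := hedge e (by rw [e1]; exact hy') (by rw [e2]; exact hy)
          rw [e1, e2, add_comm] at h3
          exact h3
      have h4 := hgy.add hyy
      have e : (Pi.single x 1 + Pi.single y 1 : B → F) + (Pi.single y 1 + Pi.single y' 1) =
          Pi.single x 1 + Pi.single y' 1 := by
        funext b
        simp only [Pi.add_apply]
        have h5 := two_F ((Pi.single y 1 : B → F) b)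
        linear_combination h5
      rw [e] at h4
      exact h4
  have hsum : h = ∑ y, h y • (Pi.single x 1 + Pi.single y 1 : B → F) := by
    funext b
    rw [Finset.sum_apply]
    simp only [Pi.smul_apply, Pi.add_apply, smul_eq_mul, mul_add, Finset.sum_add_distrib]
    rw [← Finset.sum_mul, h2, zero_mul, zero_add]
    simp only [Pi.single_apply, mul_ite, mul_one, mul_zero, Finset.sum_ite_eq, Finset.mem_univ,
      if_true]
  have hgood : Gd s t A h := by
    rw [hsum]
    refine Finset.sum_induction _ (Gd s t A) (fun _ _ => Gd.add) Gd.zero fun y _ => ?_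
    by_cases hy : y ∈ A
    · have h3 : y ∈ {y | y ∈ A ∧ Gd s t A (Pi.single x 1 + Pi.single y 1)} := by
        rw [hD]; exact hy
      exact h3.2.smul _
    · rw [h1 y hy, zero_smul]
      exact Gd.zero
  exact hgood

end Pool.Agent.AC5
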