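import Pool.Agent.AC5.TS1
import Pool.Agent.AC5.Lift

set_option autoImplicit false

/-!
# AC5/Minor: the property `TS` of the cycle space passes to minors (MP_289c47_co, helper88)

PROOF. For every `j` choose by `ht j` and `hΓ` an edge `ε j : E` having one end in `A (a j)` and the other in
`A (b j)` (i.e. `(s (ε j) ∈ A (a j) ∧ t (ε j) ∈ A (b j)) ∨ (s (ε j) ∈ A (b j) ∧ t (ε j) ∈ A (a j))`). `ε` is injective:
if `ε j = ε j'` then by disjointness of the sets `A i` the unordered pairs `s(a j, b j)`, `s(a j', b j')` agree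
(`hinj`). Let `A' = {e | ∃ i, s e ∈ A i ∧ t e ∈ A i} ∪ Set.range ε`; no `ε j` has both ends in one `A i` (`hab`,
disjointness). `W = cyc s t ⊓ sup A'` has `TS` (`TS_sup`) and so has its image under
`L = LinearMap.funLeft F F ε : (E → F) →ₗ (J → F)`, `L z j = z (ε j)` (`TS_map`, first alternative with `e = ε j`).
Claim: the image is `cyc a b`.
`≤`: let `z ∈ W`, `f : I → F`. Put `f' b' = f i` if `b' ∈ A i` (the `i` is unique), `0` if `b'` is in no `A i`. Then
`0 = ∑ e, z e * (f' (s e) + f' (t e))`; the terms with `e ∉ A'` vanish, those with both ends in one `A i` vanish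
(`f i + f i = 0`), and the others are the `ε j`, with `f' (s (ε j)) + f' (t (ε j)) = f (a j) + f (b j)`; the sum over
`Set.range ε` is a sum over `j` by injectivity. So `∑ j, z (ε j) * (f (a j) + f (b j)) = 0`.
`≥`: let `x ∈ cyc a b`. For `i : I` let `h i b' = ∑ j, x j * ([s (ε j) = b'] + [t (ε j) = b'])` for `b' ∈ A i` and `0`
for `b' ∉ A i`. `∑ b', h i b' = ∑ j, x j * ([s (ε j) ∈ A i] + [t (ε j) ∈ A i]) = ∑ j, x j * ([a j = i] + [b j = i]) = 0`
(the condition of `cyc a b` for the indicator function of `i`). Let `ζ i` be the vector of `lift_conn` for `A i`,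
`h i`. Put `z = ∑ j, x j • Pi.single (ε j) 1 + ∑ i, ζ i`. It is supported on `A'`. For `f : B → F`:
`∑ e, z e * (f (s e) + f (t e)) = ∑ j, x j * (f (s (ε j)) + f (t (ε j))) + ∑ i, ∑ b', h i b' * f b'`, and
`∑ i, h i b' = ∑ j, x j * ([s (ε j) = b'] + [t (ε j) = b'])` for every `b'` in the union of the `A i` (exactly one `i`),
in particular for all ends of the `ε j` (for `b'` outside the union both sides are `0`), so the second sum equals the
first, and the total is `0` (characteristic two). Finally `z (ε j) = x j`: `ε` is injective and `ζ i (ε j) = 0`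
because `ε j` does not have both ends in `A i`.
-/

namespace Pool.Agent.AC5

private lemma minor_sum_delta {B J : Type} [Fintype B] [Fintype J] [DecidableEq B] (x : J → F)
    (σ τ : J → B) (q : B → F) :
    ∑ v, (∑ j, x j * ((if σ j = v then 1 else 0) + (if τ j = v then 1 else 0))) * q v =
      ∑ j, x j * (q (σ j) + q (τ j)) := by
  simp_rw [Finset.sum_mul]
  rw [Finset.sum_comm]
  refine Finset.sum_congr rfl fun j _ => ?_
  simp_rw [mul_assoc, add_mul, ite_mul, one_mul, zero_mul]
  rw [← Finset.mul_sum, Finset.sum_add_distrib]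
  simp

theorem minor_TS {B E I J : Type} [Fintype B] [Fintype E] [Fintype I] [Fintype J] {s t : E → B}
    {Γ : SimpleGraph B}
    (hΓ : ∀ u v, Γ.Adj u v → ∃ e, (s e = u ∧ t e = v) ∨ (s e = v ∧ t e = u))
    (hTS : TS (cyc s t)) (A : I → Set B) (hc : ∀ i, Conn Γ (A i))
    (hd : ∀ i i', i ≠ i' → Disjoint (A i) (A i')) (a b : J → I) (hab : ∀ j, a j ≠ b j)
    (hinj : ∀ j j', s(a j, b j) = s(a j', b j') → j = j')
    (ht : ∀ j, Tch Γ (A (a j)) (A (b j))) : TS (cyc a b) := by
  classical
  have huniq : ∀ v i i', v ∈ A i → v ∈ A i' → i = i' := by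
    intro v i i' h h'
    by_contra hne
    exact Set.disjoint_left.mp (hd i i' hne) h h'
  have hex : ∀ j, ∃ e, (s e ∈ A (a j) ∧ t e ∈ A (b j)) ∨ (s e ∈ A (b j) ∧ t e ∈ A (a j)) := by
    intro j
    obtain ⟨u, hu, v, hv, huv⟩ := ht j
    obtain ⟨e, he⟩ := hΓ u v huv
    refine ⟨e, ?_⟩
    rcases he with ⟨h1, h2⟩ | ⟨h1, h2⟩
    · exact Or.inl ⟨h1 ▸ hu, h2 ▸ hv⟩
    · exact Or.inr ⟨h1 ▸ hv, h2 ▸ hu⟩
  choose ε hε using hex
  have hεinj : Function.Injective ε := by
    intro j j' hjj
    apply hinj
    have h1 := hε j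
    have h2 := hε j'
    rw [← hjj] at h2
    rcases h1 with ⟨h1, h1'⟩ | ⟨h1, h1'⟩ <;> rcases h2 with ⟨h2, h2'⟩ | ⟨h2, h2'⟩
    · rw [huniq _ _ _ h1 h2, huniq _ _ _ h1' h2']
    · rw [huniq _ _ _ h1 h2, huniq _ _ _ h1' h2', Sym2.eq_swap]
    · rw [huniq _ _ _ h1 h2, huniq _ _ _ h1' h2', Sym2.eq_swap]
    · rw [huniq _ _ _ h1 h2, huniq _ _ _ h1' h2']
  have hεin : ∀ j i, ¬ (s (ε j) ∈ A i ∧ t (ε j) ∈ A i) := by
    rintro j i ⟨h1, h2⟩
    rcases hε j with ⟨h3, h4⟩ | ⟨h3, h4⟩
    · exact hab j ((huniq _ _ _ h3 h1).trans (huniq _ _ _ h2 h4))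
    · exact hab j ((huniq _ _ _ h4 h2).trans (huniq _ _ _ h1 h3))
  set A' : Set E := {e | (∃ i, s e ∈ A i ∧ t e ∈ A i) ∨ ∃ j, ε j = e} with hA'
  have hTS2 : TS (cyc s t ⊓ sup A') := TS_sup hTS A'
  have hTS3 := TS_map hTS2 (LinearMap.funLeft F F ε)
    (fun j => Or.inl ⟨ε j, fun z hz => by rw [LinearMap.funLeft_apply]; exact hz⟩)
  have key : (cyc s t ⊓ sup A').map (LinearMap.funLeft F F ε) = cyc a b := by
    apply le_antisymm
    · rintro _ ⟨z, ⟨hz1, hz2⟩, rfl⟩
      rw [mem_cyc]
      intro f
      set f' : B → F := fun v => if h : ∃ i, v ∈ A i then f h.choose else 0 with hf'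
      have hf'v : ∀ v i, v ∈ A i → f' v = f i := by
        intro v i hv
        have h : ∃ i, v ∈ A i := ⟨i, hv⟩
        rw [hf']
        simp only [h, dif_pos]
        rw [huniq v _ _ h.choose_spec hv]
      have h1 := (mem_cyc.mp hz1) f'
      rw [← h1]
      refine Fintype.sum_of_injective ε hεinj _ _ ?_ ?_
      · intro e he
        by_cases heA : ∃ i, s e ∈ A i ∧ t e ∈ A i
        · obtain ⟨i, h2, h3⟩ := heA
          rw [hf'v _ _ h2, hf'v _ _ h3, CharTwo.add_self_eq_zero, mul_zero]
        · have : z e = 0 := by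
            apply (mem_sup.mp hz2) e
            rw [hA']
            rintro (h | ⟨j, hj⟩)
            · exact heA h
            · exact he ⟨j, hj⟩
          rw [this, zero_mul]
      · intro j
        rw [LinearMap.funLeft_apply]
        rcases hε j with ⟨h3, h4⟩ | ⟨h3, h4⟩
        · rw [hf'v _ _ h3, hf'v _ _ h4]
        · rw [hf'v _ _ h3, hf'v _ _ h4, add_comm (f (a j))]
    · intro x hx
      rw [mem_cyc] at hx
      set H : B → F := fun v => ∑ j, x j * ((if s (ε j) = v then 1 else 0) +
        (if t (ε j) = v then 1 else 0)) with hH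
      have hsum : ∀ q : B → F, ∑ v, H v * q v = ∑ j, x j * (q (s (ε j)) + q (t (ε j))) :=
        fun q => minor_sum_delta x (fun j => s (ε j)) (fun j => t (ε j)) q
      set χ : I → B → F := fun i v => if v ∈ A i then 1 else 0 with hχ
      have hχv : ∀ v i k, v ∈ A k → χ i v = if k = i then 1 else 0 := by
        intro v i k hv
        rw [hχ]
        by_cases hki : k = i
        · subst hki; simp [hv]
        · have : v ∉ A i := fun h => hki (huniq v _ _ hv h)
          simp [this, hki]
      set h : I → B → F := fun i v => H v * χ i v with hh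
      have h1 : ∀ i v, v ∉ A i → h i v = 0 := by
        intro i v hv
        rw [hh, hχ]
        simp [hv]
      have h2 : ∀ i, ∑ v, h i v = 0 := by
        intro i
        have := hsum (χ i)
        rw [hh]
        simp only
        rw [this, ← hx (fun k => if k = i then 1 else 0)]
        refine Finset.sum_congr rfl fun j _ => ?_
        rcases hε j with ⟨h3, h4⟩ | ⟨h3, h4⟩
        · rw [hχv _ i _ h3, hχv _ i _ h4]
        · rw [hχv _ i _ h3, hχv _ i _ h4]
          rw [add_comm]
      have hζ := fun i => lift_conn hΓ (hc i) (h := h i) (h1 i) (h2 i)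
      choose ζ hζ1 hζ2 using hζ
      set z : E → F := fun e => (∑ j, if ε j = e then x j else 0) + ∑ i, ζ i e with hz
      refine ⟨z, ⟨?_, ?_⟩, ?_⟩
      · show z ∈ cyc s t
        rw [mem_cyc]
        intro f
        have e1 : ∑ e, z e * (f (s e) + f (t e)) =
            ∑ j, x j * (f (s (ε j)) + f (t (ε j))) + ∑ i, ∑ v, h i v * f v := by
          simp_rw [hz, add_mul, Finset.sum_add_distrib]
          congr 1
          · simp_rw [Finset.sum_mul]
            rw [Finset.sum_comm]
            refine Finset.sum_congr rfl fun j _ => ?_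
            simp
          · simp_rw [Finset.sum_mul]
            rw [Finset.sum_comm]
            refine Finset.sum_congr rfl fun i _ => ?_
            exact hζ2 i f
        have e2 : ∑ i, ∑ v, h i v * f v = ∑ j, x j * (f (s (ε j)) + f (t (ε j))) := by
          rw [Finset.sum_comm]
          have e3 : ∀ v, ∑ i, h i v * f v = H v * ((∑ i, χ i v) * f v) := by
            intro v
            have e5 : ∀ i, h i v * f v = H v * (χ i v * f v) := fun i => mul_assoc _ _ _
            calc ∑ i, h i v * f v = ∑ i, H v * (χ i v * f v) := Finset.sum_congr rfl fun i _ => e5 i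
              _ = H v * ∑ i, χ i v * f v := (Finset.mul_sum _ _ _).symm
              _ = H v * ((∑ i, χ i v) * f v) := congrArg (H v * ·) (Finset.sum_mul _ _ _).symm
          simp_rw [e3]
          rw [hsum (fun v => (∑ i, χ i v) * f v)]
          have e4 : ∀ v k, v ∈ A k → ∑ i, χ i v = 1 := by
            intro v k hv
            rw [Finset.sum_congr rfl fun i _ => hχv v i k hv]
            simp
          refine Finset.sum_congr rfl fun j _ => ?_
          rcases hε j with ⟨h3, h4⟩ | ⟨h3, h4⟩
          · simp only [e4 _ _ h3, e4 _ _ h4, one_mul]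
          · simp only [e4 _ _ h3, e4 _ _ h4, one_mul]
        rw [e1, e2, CharTwo.add_self_eq_zero]
      · show z ∈ sup A'
        rw [mem_sup]
        intro e he
        rw [hA'] at he
        simp only [Set.mem_ofPred_eq, not_or, not_exists] at he
        rw [hz]
        simp only
        rw [Finset.sum_eq_zero, Finset.sum_eq_zero, add_zero]
        · intro i _
          exact hζ1 i e (he.1 i)
        · intro j _
          rw [if_neg (he.2 j)]
      · funext j
        rw [LinearMap.funLeft_apply, hz]
        simp only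
        rw [Finset.sum_eq_single j, if_pos rfl, Finset.sum_eq_zero, add_zero]
        · intro i _
          exact hζ1 i _ (hεin j i)
        · intro j' _ hj'
          rw [if_neg]
          exact fun h => hj' (hεinj h)
        · intro h
          exact absurd (Finset.mem_univ _) h
  rw [← key]
  exact hTS3

end Pool.Agent.AC5
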