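import Pool.Agent.AC5.SphCB
import Pool.Agent.AC5.Minor
import Pool.Agent.AC5.K5
import Pool.Agent.AC5.K33

set_option autoImplicit false

/-!
# AC5/NoMod: no model of `K5` or `K33` on the sphere (MP_289c47_co, helper88)
-/

namespace Pool.Agent.AC5

variable {B E Φ : Type} [Fintype B] [Fintype E] [Fintype Φ]

theorem Sph.noK5 (S : Sph B E Φ) {Γ : SimpleGraph B}
    (hΓ : ∀ u v, Γ.Adj u v → ∃ e, (S.s e = u ∧ S.t e = v) ∨ (S.s e = v ∧ S.t e = u)) :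
    ¬ HasK5 Γ := by
  rintro ⟨A, h1, h2, h3⟩
  refine not_TS_K5 (minor_TS hΓ S.ts A h1 h2 _ _ (fun j => j.2.ne) ?_ (fun j => h3 _ _ j.2.ne))
  rintro ⟨⟨a, b⟩, h⟩ ⟨⟨a', b'⟩, h'⟩ e
  simp only [Sym2.eq_iff] at e
  rcases e with ⟨rfl, rfl⟩ | ⟨rfl, rfl⟩
  · rfl
  · exact absurd (lt_trans h h') (lt_irrefl _)

theorem Sph.noK33 (S : Sph B E Φ) {Γ : SimpleGraph B}
    (hΓ : ∀ u v, Γ.Adj u v → ∃ e, (S.s e = u ∧ S.t e = v) ∨ (S.s e = v ∧ S.t e = u)) :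
    ¬ HasK33 Γ := by
  rintro ⟨A, h1, h2, h3⟩
  refine not_TS_K33 (minor_TS hΓ S.ts A h1 h2 _ _ (fun j => by simp) ?_ (fun j => h3 _ _))
  rintro ⟨a, b⟩ ⟨a', b'⟩ e
  simp only [Sym2.eq_iff, Prod.mk.injEq] at e
  rcases e with ⟨⟨_, rfl⟩, ⟨_, rfl⟩⟩ | ⟨⟨h, _⟩, _⟩
  · rfl
  · exact absurd h (by decide)

end Pool.Agent.AC5
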