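import Pool.Agent.AC5.Defs

set_option autoImplicit false

/-!
# AC5/PDefs: definitions for the choice of the colours of `S` (MP_289c47_co, helper88)
-/

namespace Pool.Agent.AC5

/-- The coefficient vectors `a` supported on the indices `i ∈ X` having `κ0` as an option, whose combination of
the vectors `n i` is in the span of the `g e` with `κ e = κ0`. -/
def Mk {V ι EK Kap : Type} [Fintype ι] (n : ι → V → F) (k : ι → Bool → Kap) (g : EK → V → F)
    (κ : EK → Kap) (X : Finset ι) (κ0 : Kap) : Submodule F (ι → F) :=
  sup {i | i ∈ X ∧ ∃ b, k i b = κ0} ⊓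
    (Submodule.span F (g '' {e | κ e = κ0})).comap (Fintype.linearCombination F n)

open Classical in
/-- Restriction of functions to `T` (zero outside `T`). -/
noncomputable def res {V : Type} (T : Set V) : (V → F) →ₗ[F] (V → F) where
  toFun f v := if v ∈ T then f v else 0
  map_add' f g := by
    funext v
    by_cases h : v ∈ T <;> simp [h]
  map_smul' a f := by
    funext v
    by_cases h : v ∈ T <;> simp [h]

/-- The situation: a graph `K` with a proper colouring `c`; no edges between `T` and its complement, the edges
inside `T` have linearly independent vectors, and outside `T` adjacency is transitive; pairs `N i` of vertices of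
equal colour `col i` with linearly independent vectors; two options `op i b` for every `i`, different from each
other and from `col i`. The type `Kap` is a finite set of pairs of colours (injection `kp`) containing the pair of
colours `κ e` of every edge and the pairs `k i b = {col i, op i b}`. -/
structure Pick {V ι Kap : Type} [Fintype V] [Fintype ι] [Fintype Kap] (K : SimpleGraph V)
    (c : V → ℕ) (T : Set V) (N : ι → Sym2 V) (col : ι → ℕ) (op : ι → Bool → ℕ) (kp : Kap → Sym2 ℕ)
    (k : ι → Bool → Kap) (κ : K.edgeSet → Kap) : Prop where
  cK : ∀ u v, K.Adj u v → c u ≠ c v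
  KT : ∀ u v, K.Adj u v → (u ∈ T ↔ v ∈ T)
  iT : LinearIndependent F (fun e : {e : K.edgeSet // ∀ x ∈ (e : Sym2 V), x ∈ T} => vec (e : Sym2 V))
  tC : ∀ u v w, u ∉ T → K.Adj u v → K.Adj v w → u ≠ w → K.Adj u w
  iN : LinearIndependent F (fun i => vec (N i))
  cN : ∀ i, ∀ x ∈ N i, c x = col i
  ne : ∀ i b, op i b ≠ col i
  ne2 : ∀ i, op i true ≠ op i false
  inj : Function.Injective kp
  hk : ∀ i b, kp (k i b) = s(col i, op i b)
  hκ : ∀ e, kp (κ e) = (e : Sym2 V).map c

end Pool.Agent.AC5
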