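import Pool.Agent.AC5.PDefs

set_option autoImplicit false

/-!
# AC5/PickB: basic facts for the choice of colours (MP_289c47_co, helper88)

PROOF. `match_unique`: if `w ≠ w'`, then `w ∉ T` (`KT`) and `K.Adj w v`, `K.Adj v w'`, so `K.Adj w w'` (`tC`), so
`c w ≠ c w'` (`cK`).
`map_ne`: the ends of an edge have different colours.
`comb_C`: let `h = ∑_{e ∈ s} x e • vec e` be an element of the span of the vectors of the edges with `κ e = κ0`. For a
vertex `v ∉ T` and an edge `e = s(v, w)` with `κ e = κ0`, `h v = x e`: an edge `e' ≠ e` with `κ e' = κ0` has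
`vec e' v = 0`: otherwise `e' = s(v, w')` and `{c v, c w'} = {c v, c w}` (`hκ`), so `c w = c w'`, `w = w'`
(`match_unique`).
`zero_of_class`: let `h` be in the span of the `vec e`, `κ e = κ0`, vanish on `T` and on the colour class `α`, where
`α ∈ kp κ0`. Then `h = 0`. Write `h = ∑ x e • vec e` over the edges with `κ e = κ0`
(`Submodule.mem_span_image_iff_exists_fun` or a sum over the finite type). Restricting to `T`: the edges not in `T` have
no vertex in `T` (`KT`), so `∑_{e in T} x e • vec e = 0` (its values outside `T` are `0` as well), so `x e = 0` for the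
edges in `T` (`iT`). An edge `e` not in `T` with `κ e = κ0` has an end `v` with `c v = α` (`hκ`, `α ∈ kp κ0`), `v ∉ T`,
and `0 = h v = x e` by `comb_C`.
`indep_class`: a dependency `∑ x e • vec e = 0` over the edges with `κ e = κ0`: as before (the same proof with `h = 0`;
if there is an edge `e` outside `T` then take `α` one of the colours of its ends) all `x e` are `0`.
-/

namespace Pool.Agent.AC5

variable {V ι Kap : Type} [Fintype V] [Fintype ι] [Fintype Kap] {K : SimpleGraph V} {c : V → ℕ}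
  {T : Set V} {N : ι → Sym2 V} {col : ι → ℕ} {op : ι → Bool → ℕ} {kp : Kap → Sym2 ℕ}
  {k : ι → Bool → Kap} {κ : K.edgeSet → Kap}

lemma match_unique (h : Pick K c T N col op kp k κ) {v w w' : V} (hv : v ∉ T) (h1 : K.Adj v w)
    (h2 : K.Adj v w') (hc : c w = c w') : w = w' := by
  by_contra hne
  have hw : w ∉ T := fun hw => hv ((h.KT v w h1).2 hw)
  exact h.cK w w' (h.tC w v w' hw h1.symm h2 hne) hc

omit [Fintype V] in
private lemma PickB_vec_notMem {v : V} {e : Sym2 V} (hv : v ∉ e) : vec e v = 0 := by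
  induction e using Sym2.ind with
  | _ a b =>
    rw [Sym2.mem_iff, not_or] at hv
    rw [vec_mk]
    unfold pv
    rw [if_neg hv.1, if_neg hv.2, add_zero]

omit [Fintype V] in
private lemma PickB_vec_mem {v : V} {e : Sym2 V} (hd : ¬ e.IsDiag) (hv : v ∈ e) : vec e v = 1 := by
  induction e using Sym2.ind with
  | _ a b =>
    rw [Sym2.mk_isDiag_iff] at hd
    rw [Sym2.mem_iff] at hv
    rw [vec_mk]
    unfold pv
    rcases hv with rfl | rfl
    · rw [if_pos rfl, if_neg hd, add_zero]
    · rw [if_neg (Ne.symm hd), if_pos rfl, zero_add]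

omit [Fintype V] in
private lemma PickB_not_diag (e : K.edgeSet) : ¬ (e : Sym2 V).IsDiag :=
  K.not_isDiag_of_mem_edgeSet e.2

private lemma PickB_eq (h : Pick K c T N col op kp k κ) {v : V} (hv : v ∉ T) {e e' : K.edgeSet}
    (hk : κ e = κ e') (h1 : v ∈ (e : Sym2 V)) (h2 : v ∈ (e' : Sym2 V)) : e = e' := by
  obtain ⟨w, hw⟩ := Sym2.mem_iff_exists.1 h1
  obtain ⟨w', hw'⟩ := Sym2.mem_iff_exists.1 h2
  have h3 := h.hκ e
  have h4 := h.hκ e'
  rw [hk] at h3
  rw [h3] at h4
  rw [hw, hw', Sym2.map_mk, Sym2.map_mk] at h4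
  have h5 : c w = c w' := Sym2.congr_right.1 h4
  have a1 : K.Adj v w := by
    have := e.2
    rw [hw] at this
    exact this
  have a2 : K.Adj v w' := by
    have := e'.2
    rw [hw'] at this
    exact this
  have h6 := match_unique h hv a1 a2 h5
  apply Subtype.ext
  rw [hw, hw', h6]

private lemma PickB_comb (h : Pick K c T N col op kp k κ) {κ0 : Kap} {J : Type} (s : Finset J)
    (φ : J → K.edgeSet) (hφ : ∀ i ∈ s, ∀ j ∈ s, φ i = φ j → i = j) (hs : ∀ i ∈ s, κ (φ i) = κ0)
    (x : J → F) {v : V} (hv : v ∉ T) {j : J} (hj : j ∈ s) (hvj : v ∈ (φ j : Sym2 V)) :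
    (∑ i ∈ s, x i • vec (φ i : Sym2 V)) v = x j := by
  rw [Finset.sum_apply, Finset.sum_eq_single j]
  · rw [Pi.smul_apply, PickB_vec_mem (PickB_not_diag _) hvj, smul_eq_mul, mul_one]
  · intro i hi hij
    rw [Pi.smul_apply, PickB_vec_notMem, smul_zero]
    intro hvi
    apply hij
    exact hφ i hi j hj (PickB_eq h hv ((hs i hi).trans (hs j hj).symm) hvi hvj)
  · intro hj'
    exact (hj' hj).elim

private lemma PickB_side (h : Pick K c T N col op kp k κ) (e : K.edgeSet) :
    (∀ x ∈ (e : Sym2 V), x ∈ T) ∨ (∀ x ∈ (e : Sym2 V), x ∉ T) := by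
  obtain ⟨e, he⟩ := e
  induction e using Sym2.ind with
  | _ a b =>
    have hab : K.Adj a b := he
    by_cases ha : a ∈ T
    · left
      intro x hx
      rcases Sym2.mem_iff.1 hx with rfl | rfl
      · exact ha
      · exact (h.KT _ _ hab).1 ha
    · right
      intro x hx
      rcases Sym2.mem_iff.1 hx with rfl | rfl
      · exact ha
      · exact fun hb => ha ((h.KT _ _ hab).2 hb)

theorem zero_of_class (h : Pick K c T N col op kp k κ) {κ0 : Kap} {α : ℕ} (hα : α ∈ kp κ0)
    {f : V → F} (hf : f ∈ Submodule.span F ((fun e : K.edgeSet => vec (e : Sym2 V)) '' {e | κ e = κ0}))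
    (h1 : ∀ v ∈ T, f v = 0) (h2 : ∀ v, c v = α → f v = 0) : f = 0 := by
  classical
  obtain ⟨l, hl, rfl⟩ := (Finsupp.mem_span_image_iff_linearCombination F).1 hf
  rw [Finsupp.mem_supported] at hl
  have hsum : Finsupp.linearCombination F (fun e : K.edgeSet => vec (e : Sym2 V)) l =
      ∑ e ∈ l.support, l e • vec (e : Sym2 V) := rfl
  rw [hsum] at h1 h2 ⊢
  have hT : ∀ e ∈ l.support, ∀ x ∈ (e : Sym2 V), x ∈ T := by
    intro e he
    rcases PickB_side h e with h3 | h3
    · exact h3
    · exfalso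
      have hκe : κ e = κ0 := hl he
      have h4 := h.hκ e
      rw [hκe] at h4
      rw [h4, Sym2.mem_map] at hα
      obtain ⟨v, hv, hvα⟩ := hα
      have h5 := PickB_comb h l.support (fun e => e) (fun i _ j _ hij => hij)
        (fun i hi => hl hi) (fun e => l e) (h3 v hv) he hv
      rw [h2 v hvα] at h5
      exact (Finsupp.mem_support_iff.1 he) h5.symm
  funext v
  by_cases hv : v ∈ T
  · rw [h1 v hv]
    rfl
  · rw [Finset.sum_apply]
    refine Finset.sum_eq_zero fun e he => ?_
    rw [Pi.smul_apply, PickB_vec_notMem (fun hve => hv (hT e he v hve)), smul_zero]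

theorem indep_class (h : Pick K c T N col op kp k κ) (κ0 : Kap) :
    LinearIndependent F (fun e : {e : K.edgeSet // κ e = κ0} => vec (e : Sym2 V)) := by
  classical
  rw [linearIndependent_iff']
  intro s g hg
  have h1 : ∀ i ∈ s, (∀ x ∈ ((i : K.edgeSet) : Sym2 V), x ∉ T) → g i = 0 := by
    intro i hi hT
    obtain ⟨v, hv⟩ : ∃ v, v ∈ ((i : K.edgeSet) : Sym2 V) :=
      ⟨_, Sym2.out_fst_mem _⟩
    have h2 := PickB_comb h s (fun i : {e : K.edgeSet // κ e = κ0} => (i : K.edgeSet))
      (fun i _ j _ hij => Subtype.ext hij) (fun i _ => i.2) g (hT v hv) hi hv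
    rw [hg] at h2
    exact h2.symm
  intro i hi
  rcases PickB_side h (i : K.edgeSet) with hT | hT
  swap
  · exact h1 i hi hT
  let s' : Finset {e : K.edgeSet // κ e = κ0} :=
    Finset.filter (fun j => ∀ x ∈ ((j : K.edgeSet) : Sym2 V), x ∈ T) s
  have h3 : ∑ j ∈ s', g j • vec ((j : K.edgeSet) : Sym2 V) = 0 := by
    rw [← hg]
    refine Finset.sum_subset (Finset.filter_subset _ _) ?_
    intro j hj hj'
    rcases PickB_side h (j : K.edgeSet) with hT' | hT'
    · exact (hj' (Finset.mem_filter.2 ⟨hj, hT'⟩)).elim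
    · rw [h1 j hj hT', zero_smul]
  let φ : {j : {e : K.edgeSet // κ e = κ0} // j ∈ s'} → {e : K.edgeSet // ∀ x ∈ (e : Sym2 V), x ∈ T} := fun j =>
    ⟨(j : {e : K.edgeSet // κ e = κ0}), (Finset.mem_filter.1 j.2).2⟩
  have hφ : Function.Injective φ := by
    intro a b hab
    have h4 : ((a : {e : K.edgeSet // κ e = κ0}) : K.edgeSet) =
        ((b : {e : K.edgeSet // κ e = κ0}) : K.edgeSet) := congrArg
          (fun z : {e : K.edgeSet // ∀ x ∈ (e : Sym2 V), x ∈ T} => (z : K.edgeSet)) hab
    exact Subtype.ext (Subtype.ext h4)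
  have h5 := h.iT.comp φ hφ
  rw [Fintype.linearIndependent_iff] at h5
  have h6 := h5 (fun j => g j) (by
    rw [← h3, ← Finset.sum_coe_sort s']
    rfl)
  exact h6 ⟨i, Finset.mem_filter.2 ⟨hi, hT⟩⟩

end Pool.Agent.AC5
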