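import Pool.Agent.H18Thick.Euler

set_option autoImplicit false

/-!
# AC5/PlanarDef: planarity by rotation systems (MP_289c47_co, helper88)

`Rotation G`, `faceStep`, `face` and `faces` are defined in `Pool.Agent.H18Thick.Defs`.
-/

namespace Pool.Agent.AC5

open Pool.Agent.H18Thick (Rotation)

/-- A graph having a rotation system with Euler characteristic `2`. The number of faces is `max 1 _`
because a graph without edges on one vertex has one face. -/
def Spherical {V : Type} (G : SimpleGraph V) : Prop :=
  ∃ R : Rotation G, Nat.card V + max 1 R.faces.ncard = G.edgeSet.ncard + 2

/-- Planarity of finite simple graphs: every connected component has a rotation system with Euler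
characteristic `2`. -/
def Planar {V : Type} (G : SimpleGraph V) : Prop :=
  ∀ c : G.ConnectedComponent, Spherical (G.induce c.supp)

end Pool.Agent.AC5
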