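import Pool.Agent.AC5.Rot
import Pool.Agent.AC5.RDefs

set_option autoImplicit false

/-!
# AC5/RC0: the class of a neighbour, and sizes (MP_289c47_co, helper88)

PROOF. `exists_QC`: `C = {b | ∀ f ∈ Uq R Q, f b = f b0}`. `opp`: for `s ∈ Q`, `b ~ s`, `b ∈ C`, `f ∈ Uq R Q`:
`f (opp s b) = f b = f b0`. `dis`: let `s ∈ Q`; the function `Pi.single s 1` is in `Uq R Q`: for `t ∈ Q`, `b ~ t` we
have `b ≠ s` and `opp t b ≠ s` (both are neighbours of `t ∈ Q`, and `s ∈ Q` is not adjacent to `t`), so both values are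
`0`; and `b0 ≠ s` for the same reason (`b0 ~ s0 ∈ Q`). So its values at `b0` and `s` are `0` and `1`, hence `s ∉ C`.
`mixed`: `s ∈ Q1 ∖ Qs` has a neighbour `q ∉ C`. By `deg4` the neighbours are `q, nxt q, opp q, nxt (opp q)`;
`opp q ∉ C` (otherwise `opp (opp q) = q ∈ C`). Some neighbour is in `C`; it is `nxt q` or
`nxt (opp q) = opp (nxt q)`; so both are in `C` (`opp_opp`).
`Th_ncard_s`, `Th_ncard_m`: the map `(s, b) ↦ s(s, b)` is injective on `{(s, b) | s ∈ X, b ∈ C, s ~ b}` for `X ⊆ Q`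
because `s(s, b) = s(s', b')` with `s = b'`, `b = s'` would give `s ∈ Q ∩ C`. The number of pairs is the sum over
`s ∈ X` of the number of neighbours of `s` in `C`: `4` for `s ∈ Qs` (all neighbours, degree four) and `2` for
`s ∈ Q1 ∖ Qs` (`mixed` and `deg4`: exactly `nxt q` and `nxt (opp q)`).
(`Set.ncard_image_of_injOn`, then a disjoint union over `s`; or `Finset.card_sigma`.)
-/

namespace Pool.Agent.AC5

open Pool.Agent.H18Thick (Rotation)

variable {V : Type} [Fintype V] {G : SimpleGraph V}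

theorem exists_QC (R : Rotation G) {Q : Set V} (h1 : ∀ s ∈ Q, ∀ t ∈ Q, ¬ G.Adj s t)
    (h2 : ∀ s ∈ Q, (G.neighborSet s).ncard = 4) {s0 b0 : V} (hs : s0 ∈ Q) (hb : G.Adj s0 b0) :
    ∃ C : Set V, QC R Q C ∧ b0 ∈ C ∧ ∀ f ∈ Uq R Q, ∀ b ∈ C, f b = f b0 := by
  classical
  refine ⟨{b | ∀ f ∈ Uq R Q, f b = f b0}, ⟨h1, h2, ?_, ?_⟩, fun f _ => rfl,
    fun f hf b hb => hb f hf⟩
  · intro s hsQ hsC
    have hmem : (Pi.single s 1 : V → F) ∈ Uq R Q := by
      rw [mem_Uq]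
      intro t ht b hb
      have hb1 : b ≠ s := by
        rintro rfl
        exact h1 t ht _ hsQ hb
      have hb2 : opp R t b ≠ s := by
        intro he
        have h3 := opp_adj R hb
        rw [he] at h3
        exact h1 t ht _ hsQ h3
      rw [Pi.single_eq_of_ne hb1, Pi.single_eq_of_ne hb2]
    have h3 := hsC _ hmem
    have hb0 : b0 ≠ s := by
      rintro rfl
      exact h1 s0 hs _ hsQ hb
    rw [Pi.single_eq_same, Pi.single_eq_of_ne hb0] at h3
    exact one_ne_zero h3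
  · intro s hsQ b hsb hbC f hf
    rw [← (mem_Uq.1 hf) s hsQ b hsb]
    exact hbC f hf

lemma mixed {R : Rotation G} {Q C : Set V} (h : QC R Q C) {s : V} (hs : s ∈ Q1 G Q C) {q : V}
    (hq : G.Adj s q) (hqC : q ∉ C) :
    opp R s q ∉ C ∧ R.nxt s q ∈ C ∧ R.nxt s (opp R s q) ∈ C := by
  obtain ⟨hsQ, b, hsb, hbC⟩ := hs
  have h4 := h.four s hsQ
  have hopp : opp R s q ∉ C := by
    intro hc
    have h5 := h.opp s hsQ _ (opp_adj R hq) hc
    rw [opp_opp R h4 hq] at h5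
    exact hqC h5
  obtain ⟨hall, -, -, -, -, -, -, hlast⟩ := deg4 R h4 hq
  have e1 : opp R s (R.nxt s q) = R.nxt s (opp R s q) := rfl
  have e2 : opp R s (R.nxt s (opp R s q)) = R.nxt s q := by
    change R.nxt s (R.nxt s (R.nxt s (opp R s q))) = R.nxt s q
    rw [hlast]
  have hn1 : G.Adj s (R.nxt s q) := R.adj_nxt _ _ hq
  have hn2 : G.Adj s (R.nxt s (opp R s q)) := R.adj_nxt _ _ (opp_adj R hq)
  rcases (hall b).1 hsb with rfl | rfl | rfl | rfl
  · exact absurd hbC hqC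
  · exact ⟨hopp, hbC, e1 ▸ h.opp s hsQ _ hn1 hbC⟩
  · exact absurd hbC hopp
  · exact ⟨hopp, e2 ▸ h.opp s hsQ _ hn2 hbC, hbC⟩

private lemma Th_ncard_const {R : Rotation G} {Q C X : Set V} (h : QC R Q C) (hX : X ⊆ Q) {k : ℕ}
    (hk : ∀ s ∈ X, {b | G.Adj s b ∧ b ∈ C}.ncard = k) : (Th G X C).ncard = k * X.ncard := by
  classical
  set X' : Finset V := Finset.univ.filter (fun s => s ∈ X) with hX'
  set N' : V → Finset V := fun s => Finset.univ.filter (fun b => G.Adj s b ∧ b ∈ C) with hN'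
  set f : (Σ _ : V, V) → Sym2 V := fun p => s(p.1, p.2) with hf
  have himg : Th G X C = ((X'.sigma N').image f : Finset (Sym2 V)) := by
    ext e
    simp only [Th, Set.mem_setOf_eq, Finset.coe_image, Set.mem_image, Finset.mem_coe,
      Finset.mem_sigma, hX', hN', Finset.mem_filter, Finset.mem_univ, true_and, hf]
    constructor
    · rintro ⟨s, hs, b, hb, hsb, rfl⟩
      exact ⟨⟨s, b⟩, ⟨hs, hsb, hb⟩, rfl⟩
    · rintro ⟨⟨s, b⟩, ⟨hs, hsb, hb⟩, rfl⟩
      exact ⟨s, hs, b, hb, hsb, rfl⟩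
  have hinj : Set.InjOn f (X'.sigma N' : Finset (Σ _ : V, V)) := by
    rintro ⟨s, b⟩ hp ⟨s', b'⟩ hp' he
    simp only [Finset.mem_coe, Finset.mem_sigma, hX', hN', Finset.mem_filter, Finset.mem_univ,
      true_and] at hp hp'
    have he' : s(s, b) = s(s', b') := he
    rw [Sym2.eq_iff] at he'
    rcases he' with ⟨rfl, rfl⟩ | ⟨h1, h2⟩
    · rfl
    · exfalso
      apply h.dis s (hX hp.1)
      rw [h1]
      exact hp'.2.2
  rw [himg, Set.ncard_coe_finset, Finset.card_image_of_injOn hinj, Finset.card_sigma]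
  have hcard : ∀ s ∈ X', (N' s).card = k := by
    intro s hs
    rw [hX', Finset.mem_filter] at hs
    rw [← hk s hs.2, ← Set.ncard_coe_finset]
    congr 1
    ext b
    simp [hN']
  rw [Finset.sum_congr rfl hcard, Finset.sum_const, smul_eq_mul, mul_comm]
  congr 1
  rw [← Set.ncard_coe_finset]
  congr 1
  ext b
  simp [hX']

private lemma Qs_count {R : Rotation G} {Q C : Set V} (h : QC R Q C) :
    ∀ s ∈ Qs G Q C, {b | G.Adj s b ∧ b ∈ C}.ncard = 4 := by
  intro s hs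
  rw [← h.four s hs.1.1]
  congr 1
  ext b
  simp only [Set.mem_setOf_eq, SimpleGraph.mem_neighborSet]
  exact ⟨fun hb => hb.1, fun hb => ⟨hb, hs.2 b hb⟩⟩

private lemma Qm_count {R : Rotation G} {Q C : Set V} (h : QC R Q C) :
    ∀ s ∈ Q1 G Q C \ Qs G Q C, {b | G.Adj s b ∧ b ∈ C}.ncard = 2 := by
  rintro s ⟨hs1, hs2⟩
  have hex : ∃ q, G.Adj s q ∧ q ∉ C := by
    by_contra hcon
    push Not at hcon
    exact hs2 ⟨hs1, hcon⟩
  obtain ⟨q, hq, hqC⟩ := hex
  obtain ⟨hopp, hn1, hn2⟩ := mixed h hs1 hq hqC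
  obtain ⟨hall, -, -, -, -, hne, -, -⟩ := deg4 R (h.four s hs1.1) hq
  have he : {b | G.Adj s b ∧ b ∈ C} = {R.nxt s q, R.nxt s (opp R s q)} := by
    ext b
    simp only [Set.mem_setOf_eq, Set.mem_insert_iff, Set.mem_singleton_iff]
    constructor
    · rintro ⟨hsb, hbC⟩
      rcases (hall b).1 hsb with rfl | h1 | rfl | h1
      · exact absurd hbC hqC
      · exact Or.inl h1
      · exact absurd hbC hopp
      · exact Or.inr h1
    · rintro (rfl | rfl)
      · exact ⟨R.adj_nxt _ _ hq, hn1⟩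
      · exact ⟨R.adj_nxt _ _ (opp_adj R hq), hn2⟩
  rw [he, Set.ncard_pair hne]

theorem Th_ncard_s {R : Rotation G} {Q C : Set V} (h : QC R Q C) :
    (Th G (Qs G Q C) C).ncard = 4 * (Qs G Q C).ncard :=
  Th_ncard_const h (fun _ hs => hs.1.1) (Qs_count h)

theorem Th_ncard_m {R : Rotation G} {Q C : Set V} (h : QC R Q C) :
    (Th G (Q1 G Q C) C).ncard = 4 * (Qs G Q C).ncard + 2 * (Q1 G Q C \ Qs G Q C).ncard := by
  classical
  have hunion : Th G (Q1 G Q C) C = Th G (Qs G Q C) C ∪ Th G (Q1 G Q C \ Qs G Q C) C := by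
    ext e
    constructor
    · rintro ⟨s, hs, b, hb, hsb, rfl⟩
      by_cases hs' : s ∈ Qs G Q C
      · exact Or.inl ⟨s, hs', b, hb, hsb, rfl⟩
      · exact Or.inr ⟨s, ⟨hs, hs'⟩, b, hb, hsb, rfl⟩
    · rintro (⟨s, hs, b, hb, hsb, rfl⟩ | ⟨s, hs, b, hb, hsb, rfl⟩)
      · exact ⟨s, hs.1, b, hb, hsb, rfl⟩
      · exact ⟨s, hs.1, b, hb, hsb, rfl⟩
  have hdisj : Disjoint (Th G (Qs G Q C) C) (Th G (Q1 G Q C \ Qs G Q C) C) := by
    rw [Set.disjoint_left]
    rintro e ⟨s, hs, b, hb, hsb, rfl⟩ ⟨s', hs', b', hb', hsb', he⟩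
    rw [Sym2.eq_iff] at he
    rcases he with ⟨rfl, rfl⟩ | ⟨h1, h2⟩
    · exact hs'.2 hs
    · apply h.dis s hs.1.1
      rw [h1]
      exact hb'
  rw [hunion, Set.ncard_union_eq hdisj (Set.toFinite _) (Set.toFinite _),
    Th_ncard_const h (fun _ hs => hs.1.1) (Qs_count h),
    Th_ncard_const h (fun _ hs => hs.1.1) (Qm_count h)]

end Pool.Agent.AC5
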