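import Pool.Agent.AC5.CycG
import Pool.Agent.AC5.RC0

set_option autoImplicit false

/-!
# AC5/RC1: the function of a cycle (MP_289c47_co, helper88)

PROOF. `Th G (Q1 G Q C) C ⊆ G.edgeSet`, so `z ∈ Cyc G.edgeSet`; let `y` be as in `Cyc_cb`. If `s(u, v)` is not in
`Th G (Q1 G Q C) C` and `u ~ v`, then `z s(u, v) = 0`, so `y u v = y v u` (characteristic two). Put
`f v = 0` if `v ∈ C` or `v ∈ Q1 G Q C` or `v` has no neighbour, and `f v = y v (a chosen neighbour)` otherwise.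
(*) Let `v ∉ C`, `v ∉ Q1`. No edge `s(v, w)` is in `Th` (it would be `s(s, b)` with `s ∈ Q1`, `b ∈ C`). So for `w ~ v`:
`y v w = y w v = y v (nxt v w)`; by `const_nxt` `y v w` does not depend on the neighbour `w`, so `f v = y v w` for all
`w ~ v`.
(2) Let `s ∈ Q`, `s ∉ Q1`, `b ~ s`. `s ∉ C` (`h.dis`), `b ∉ C` (otherwise `s ∈ Q1`), `b ∉ Q1` (`h.ind`). So
`f b = y b s = y s b = f s` by (*) twice; the same for `opp s b`, which is also a neighbour of `s`.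
(3) Let `s ∈ Q1`, `b ~ s`, `b ∉ C`; `b' = opp s b ∉ C` (`mixed`), `p = nxt s b`, `nxt s p = b'`. `b, b' ∉ Q1` by
`h.ind`. `f b = y b s = y s b` ((*), and `s(s, b) ∉ Th`: `b ∉ C` and `b ∉ Q`), `f b' = y b' s = y s b'`. The face steps:
`y b s = y s (nxt s b) = y s p` and `y p s = y s (nxt s p) = y s b'`. So
`z s(s, p) = y s p + y p s = y b s + y s b' = f b + f b'`.
-/

namespace Pool.Agent.AC5

open Pool.Agent.H18Thick (Rotation)

variable {V : Type} [Fintype V] {G : SimpleGraph V}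

private lemma eq_of_add' {x y : F} (h : x + y = 0) : x = y := by
  revert x y
  decide

theorem cyc_fun (hc : G.Connected) (R : Rotation G)
    (he : Nat.card V + R.faces.ncard = G.edgeSet.ncard + 2) {Q C : Set V} (h : QC R Q C)
    {z : Sym2 V → F} (hz : z ∈ Cyc (Th G (Q1 G Q C) C)) :
    ∃ f : V → F, (∀ v ∈ C, f v = 0) ∧
      (∀ s ∈ Q, s ∉ Q1 G Q C → ∀ b, G.Adj s b → f b = f (opp R s b)) ∧
      ∀ s ∈ Q1 G Q C, ∀ b, G.Adj s b → b ∉ C → f b + f (opp R s b) = z s(s, R.nxt s b) := by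
  classical
  have hsub : Th G (Q1 G Q C) C ⊆ G.edgeSet := by
    rintro e ⟨s, _, b, _, hsb, rfl⟩
    exact (SimpleGraph.mem_edgeSet G).2 hsb
  have hz0 := hz.1
  have hz' : z ∈ Cyc G.edgeSet := ⟨fun e he => hz0 e fun hT => he (hsub hT), hz.2⟩
  obtain ⟨y, hy1, hy2⟩ := Cyc_cb hc R he hz'
  have hnT : ∀ v, v ∉ C → v ∉ Q1 G Q C → ∀ w, s(v, w) ∉ Th G (Q1 G Q C) C := by
    rintro v hvC hvQ w ⟨s, hs, b, hb, -, heq⟩
    rcases Sym2.eq_iff.1 heq with ⟨h1, _⟩ | ⟨h1, _⟩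
    · exact hvQ (h1 ▸ hs)
    · exact hvC (h1 ▸ hb)
  have hsym : ∀ v, v ∉ C → v ∉ Q1 G Q C → ∀ w, G.Adj v w → y v w = y w v := by
    intro v hvC hvQ w hvw
    have h1 := hy2 v w hvw
    rw [hz0 _ (hnT v hvC hvQ w)] at h1
    exact eq_of_add' h1.symm
  have hconst : ∀ v, v ∉ C → v ∉ Q1 G Q C → ∀ w w', G.Adj v w → G.Adj v w' →
      y v w = y v w' := by
    intro v hvC hvQ w w' hw hw'
    refine const_nxt R v (fun x => y v x) (fun b hb => ?_) hw hw'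
    show y v (R.nxt v b) = y v b
    rw [hsym v hvC hvQ b hb, hy1 b v hb.symm]
  let f : V → F := fun v => if v ∈ C ∨ v ∈ Q1 G Q C then 0 else
    if hv : ∃ w, G.Adj v w then y v hv.choose else 0
  have hf1 : ∀ v ∈ C, f v = 0 := fun v hv => if_pos (Or.inl hv)
  have hf2 : ∀ v, v ∉ C → v ∉ Q1 G Q C → ∀ w, G.Adj v w → f v = y v w := by
    intro v hvC hvQ w hw
    have hv : ∃ w, G.Adj v w := ⟨w, hw⟩
    have h1 : f v = y v hv.choose := by
      show (if v ∈ C ∨ v ∈ Q1 G Q C then 0 else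
        if hv : ∃ w, G.Adj v w then y v hv.choose else 0) = _
      rw [if_neg (by rintro (h | h); exacts [hvC h, hvQ h]), dif_pos hv]
    rw [h1]
    exact hconst v hvC hvQ _ _ hv.choose_spec hw
  have hnQ : ∀ s ∈ Q, ∀ b, G.Adj s b → b ∉ Q1 G Q C := fun s hs b hsb hb =>
    h.ind s hs b hb.1 hsb
  refine ⟨f, hf1, ?_, ?_⟩
  · intro s hs hsQ b hsb
    have hsC : s ∉ C := h.dis s hs
    have key : ∀ b, G.Adj s b → f b = f s := by
      intro b hsb
      have hbC : b ∉ C := fun hb => hsQ ⟨hs, b, hsb, hb⟩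
      have hbQ := hnQ s hs b hsb
      rw [hf2 b hbC hbQ s hsb.symm, hf2 s hsC hsQ b hsb, hsym b hbC hbQ s hsb.symm]
    rw [key b hsb, key _ (opp_adj R hsb)]
  · intro s hs b hsb hbC
    obtain ⟨hb', -, -⟩ := mixed h hs hsb hbC
    have hsb' := opp_adj R hsb
    have hbQ := hnQ s hs.1 b hsb
    have hbQ' := hnQ s hs.1 _ hsb'
    have hsp : G.Adj s (R.nxt s b) := R.adj_nxt _ _ hsb
    rw [hy2 s _ hsp, hy1 _ s hsp.symm, ← hy1 b s hsb.symm, hf2 b hbC hbQ s hsb.symm,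
      hf2 _ hb' hbQ' s hsb'.symm, hsym _ hb' hbQ' s hsb'.symm]
    rfl

end Pool.Agent.AC5
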