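import Pool.Agent.AC5.Defs

set_option autoImplicit false

/-!
# AC5/TS2: weights in spaces with the property `TS` (MP_289c47_co, helper88)

PROOF. `TS_basis`: take `n, w` as in the definition of `TS`; `exists_linearIndependent` (or
`Submodule.exists_fun_fin_finrank_span_eq`, or `exists_linearIndependent'`) gives a subfamily, indexed by an
injective map `a : κ → Fin n`, with the same span and linearly independent; reindex `κ` by
`Fin (finrank F W)` (`κ` is finite with `Fintype.card κ = finrank F W`, `finrank_span_eq_card`). For a coordinate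
`e` the set of `j` with `w (a j) e ≠ 0` is mapped injectively by `a` into `{j | w j e ≠ 0}`.
`TS_weak`: with the basis `w` of `TS_basis`, `d = finrank F W`:
`k * d ≤ ∑ j, {e | w j e ≠ 0}.ncard` (each `w j` is nonzero and in `W`)
`= ∑_{e ∈ A} {j | w j e ≠ 0}.ncard ≤ 2 * A.ncard` (double counting, `Finset.sum_card_bipartiteAbove_eq...` or
`Finset.sum_comm` for indicator functions; `w j e ≠ 0` implies `e ∈ A` because `W ≤ sup A`).
`TS_strong`: add the vector `w0 = ∑ j, w j`, which is in `W` and nonzero (linear independence, `d ≥ 1`).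
For every coordinate `e`: `{j | w j e ≠ 0}.ncard + (if w0 e ≠ 0 then 1 else 0) ≤ 2`: if the first number is `2`,
then `w0 e = 1 + 1 = 0` (the nonzero values are `1` in `ZMod 2`: `w0 e` is the number of `j` with `w j e ≠ 0`
modulo two). So `k * (d + 1) ≤ ∑ j, {e | w j e ≠ 0}.ncard + {e | w0 e ≠ 0}.ncard ≤ 2 * Nat.card E`.
-/

namespace Pool.Agent.AC5

private lemma ts2_card {α : Type} [Fintype α] (x : α → F) :
    {a | x a ≠ 0}.ncard = ∑ a, if x a ≠ 0 then 1 else 0 := by
  classical
  rw [← Finset.card_filter, ← Set.ncard_coe_finset]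
  congr 1
  ext a
  simp

private lemma ts2_dc {E : Type} [Fintype E] {d : ℕ} (w : Fin d → E → F) :
    ∑ j, {e | w j e ≠ 0}.ncard = ∑ e, {j | w j e ≠ 0}.ncard := by
  simp_rw [ts2_card]
  exact Finset.sum_comm

private lemma ts2_val (x : F) : x = if x ≠ 0 then 1 else 0 := by
  revert x
  decide

private lemma ts2_sum {α : Type} [Fintype α] (x : α → F) :
    ∑ a, x a = (({a | x a ≠ 0}.ncard : ℕ) : F) := by
  rw [ts2_card, Nat.cast_sum]
  refine Finset.sum_congr rfl fun a _ => ?_
  rw [Nat.cast_ite, Nat.cast_one, Nat.cast_zero]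
  exact ts2_val (x a)

lemma TS_basis {E : Type} [Finite E] {W : Submodule F (E → F)} (h : TS W) :
    ∃ w : Fin (Module.finrank F W) → E → F, Submodule.span F (Set.range w) = W ∧
      LinearIndependent F w ∧ ∀ e, {j | w j e ≠ 0}.ncard ≤ 2 := by
  obtain ⟨n, w, hW, hc⟩ := h
  subst hW
  obtain ⟨f, hf, hspan, hind⟩ := Submodule.exists_fun_fin_finrank_span_eq F (Set.range w)
  refine ⟨f, hspan, hind, fun e => ?_⟩
  choose a ha using hf
  have hinj : Function.Injective a := by
    intro i j hij
    apply hind.injective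
    rw [← ha i, ← ha j, hij]
  refine le_trans ?_ (hc e)
  refine Set.ncard_le_ncard_of_injOn a ?_ hinj.injOn (Set.toFinite _)
  intro j hj
  change w (a j) e ≠ 0
  rw [ha j]
  exact hj

theorem TS_weak {E : Type} [Finite E] {W : Submodule F (E → F)} (h : TS W) {A : Set E}
    (hA : W ≤ sup A) {k : ℕ} (hk : ∀ z ∈ W, z ≠ 0 → k ≤ {e | z e ≠ 0}.ncard) :
    k * Module.finrank F W ≤ 2 * A.ncard := by
  classical
  have := Fintype.ofFinite E
  obtain ⟨w, hW, hind, hc⟩ := TS_basis h
  have hmem : ∀ j, w j ∈ W := fun j => hW.le (Submodule.subset_span (Set.mem_range_self j))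
  have h1 : k * Module.finrank F W ≤ ∑ j, {e | w j e ≠ 0}.ncard := by
    have h2 : ∑ _j : Fin (Module.finrank F W), k ≤ ∑ j, {e | w j e ≠ 0}.ncard :=
      Finset.sum_le_sum fun j _ => hk _ (hmem j) (hind.ne_zero j)
    simpa [mul_comm] using h2
  refine h1.trans ?_
  rw [ts2_dc]
  have h3 : ∀ e, {j | w j e ≠ 0}.ncard ≤ if e ∈ A then 2 else 0 := by
    intro e
    by_cases he : e ∈ A
    · rw [if_pos he]
      exact hc e
    · rw [if_neg he]
      have h4 : {j | w j e ≠ 0} = ∅ := by
        ext j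
        simp only [Set.mem_ofPred_eq, Set.mem_empty_iff_false, iff_false, not_not]
        exact hA (hmem j) e he
      rw [h4, Set.ncard_empty]
  refine (Finset.sum_le_sum fun e _ => h3 e).trans ?_
  rw [← Finset.sum_filter, Finset.sum_const, smul_eq_mul, mul_comm]
  refine Nat.mul_le_mul_left 2 ?_
  rw [← Set.ncard_coe_finset]
  refine Set.ncard_le_ncard ?_ (Set.toFinite _)
  intro e he
  simpa using he

theorem TS_strong {E : Type} [Finite E] {W : Submodule F (E → F)} (h : TS W) {k : ℕ}
    (hk : ∀ z ∈ W, z ≠ 0 → k ≤ {e | z e ≠ 0}.ncard) (h1 : 1 ≤ Module.finrank F W) :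
    k * (Module.finrank F W + 1) ≤ 2 * Nat.card E := by
  classical
  have := Fintype.ofFinite E
  obtain ⟨w, hW, hind, hc⟩ := TS_basis h
  have hmem : ∀ j, w j ∈ W := fun j => hW.le (Submodule.subset_span (Set.mem_range_self j))
  have hmem0 : ∑ j, w j ∈ W := W.sum_mem fun j _ => hmem j
  have hne0 : ∑ j, w j ≠ 0 := by
    intro h0
    have h2 := Fintype.linearIndependent_iff.1 hind (fun _ => 1) (by simpa using h0) ⟨0, h1⟩
    exact one_ne_zero h2
  have h2 : k * Module.finrank F W ≤ ∑ j, {e | w j e ≠ 0}.ncard := by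
    have h2 : ∑ _j : Fin (Module.finrank F W), k ≤ ∑ j, {e | w j e ≠ 0}.ncard :=
      Finset.sum_le_sum fun j _ => hk _ (hmem j) (hind.ne_zero j)
    simpa [mul_comm] using h2
  have h3 := hk _ hmem0 hne0
  rw [mul_add, mul_one]
  refine (add_le_add h2 h3).trans ?_
  rw [ts2_dc, ts2_card, ← Finset.sum_add_distrib, Nat.card_eq_fintype_card]
  have h4 : ∀ e, {j | w j e ≠ 0}.ncard + (if (∑ j, w j) e ≠ 0 then 1 else 0) ≤ 2 := by
    intro e
    have h5 : (∑ j, w j) e = (({j | w j e ≠ 0}.ncard : ℕ) : F) := by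
      rw [Finset.sum_apply]
      exact ts2_sum fun j => w j e
    have h6 := hc e
    rcases Nat.lt_or_ge {j | w j e ≠ 0}.ncard 2 with h7 | h7
    · split_ifs <;> omega
    · have h8 : {j | w j e ≠ 0}.ncard = 2 := le_antisymm h6 h7
      have h9 : (∑ j, w j) e = 0 := by
        rw [h5, h8]
        decide
      rw [if_neg (not_not.2 h9), h8]
  refine (Finset.sum_le_sum fun e _ => h4 e).trans ?_
  simp [mul_comm]

end Pool.Agent.AC5
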