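import Pool.Agent.AC5.RC1
import Pool.Agent.AC5.TS2
import Pool.Agent.AC5.CycDim

set_option autoImplicit false

/-!
# AC5/RC2: two dimension inequalities (MP_289c47_co, helper88)

PROOF. `Cyc_self`: let `A = Th G (Qs G Q C) C ⊆ G.edgeSet`. `TS_weak` with `W = Cyc A`, `k = 4` gives
`4 * finrank ≤ 2 * A.ncard = 8 * (Qs G Q C).ncard` (`Th_ncard_s`). The condition on the weight: let `z ∈ Cyc A`,
`z s(s, b) ≠ 0` with `s ∈ Qs`, `b ∈ C`. The sum `∑ w, z s(s, w) = 0` gives `b' ≠ b` with `z s(s, b') ≠ 0`; the sum at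
`b` gives `s1 ≠ s` with `z s(b, s1) ≠ 0` and the sum at `b'` gives `s2 ≠ s` with `z s(b', s2) ≠ 0`. Since the support
is in `A` and `Q ∩ C = ∅` (`h.dis`), `b, b' ∈ C` and `s, s1, s2 ∈ Q`; so the four pairs `s(s, b)`, `s(s, b')`,
`s(s1, b)`, `s(s2, b')` are distinct. (A sum in `ZMod 2` which is zero with one nonzero term has another nonzero term.)
`rank_ineq`: let `Uo = Uq R (Q \ Q1 G Q C) ⊓ sup Cᶜ`, `Qm = Q1 \ Qs`. For `s ∈ Qm` choose a neighbour `q s ∉ C`
(it exists because `s ∉ Qs`). Let `λ : Uo → (Qm → F)`, `λ f s = f (q s) + f (opp s (q s))` and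
`μ : Cyc (Th G (Q1 G Q C) C) → (Qm → F)`, `μ z s = z s(s, nxt s (q s))`. By `cyc_fun`, `range μ ≤ range λ` (the
function `f` of `cyc_fun` is in `Uo`).
`ker μ` is contained in (the copy of) `Cyc (Th G (Qs G Q C) C)`: let `μ z = 0`, `s ∈ Qm`. By `mixed` and `deg4` the
neighbours of `s` are `q, nxt q, opp q, nxt (opp q)`, those in `C` are `p = nxt q` and `p' = nxt (opp q)`, `p ≠ p'`;
`0 = ∑ w, z s(s, w) = z s(s, p) + z s(s, p')`, `z s(s, p) = 0`, so both vanish. Hence `z` vanishes on the elements of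
`Th G (Q1 G Q C) C` which are not in `Th G (Qs G Q C) C`.
`Uq R Q ⊓ sup Cᶜ` is contained in (the copy in `V → F` of) `ker λ`: a function `f ∈ Uq R Q` vanishing on `C` is in
`Uo`, and `λ f s = f (q s) + f (opp s (q s)) = 0` because the two values are equal.
`finrank (Uq R Q) ≤ 1 + finrank (Uq R Q ⊓ sup Cᶜ)`: the kernel of `f ↦ f b0` on `Uq R Q` is in `sup Cᶜ` by `hC`.
Together: `finrank (Uq R Q) ≤ 1 + finrank (ker λ) = 1 + finrank Uo - finrank (range λ)` (rank-nullity for `λ`),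
`finrank (range λ) ≥ finrank (range μ) = finrank (Cyc (Th G Q1 C)) - finrank (ker μ)
≥ finrank (Cyc (Th G Q1 C)) - finrank (Cyc (Th G Qs C))`.
-/

namespace Pool.Agent.AC5

open Pool.Agent.H18Thick (Rotation)
open Set

variable {V : Type} [Fintype V] {G : SimpleGraph V}

omit [Fintype V] in
private lemma th_sub (X C : Set V) : Th G X C ⊆ G.edgeSet := by
  rintro _ ⟨s, -, b, -, h, rfl⟩
  exact h

private lemma other {α : Type} [Fintype α] {g : α → F} (h : ∑ w, g w = 0) {w0 : α}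
    (h0 : g w0 ≠ 0) : ∃ w1, w1 ≠ w0 ∧ g w1 ≠ 0 := by
  by_contra hcon
  push Not at hcon
  apply h0
  rw [← h]
  exact (Finset.sum_eq_single w0 (fun w _ hw => hcon w hw) (fun hw => absurd (Finset.mem_univ _) hw)).symm

omit [Fintype V] in
private lemma mem_th {R : Rotation G} {Q C : Set V} (h : QC R Q C) {X : Set V} (hX : X ⊆ Q)
    {s b : V} (hs : s ∈ Q) (he : s(s, b) ∈ Th G X C) : s ∈ X ∧ b ∈ C ∧ G.Adj s b := by
  obtain ⟨s', hs', b', hb', hadj, e⟩ := he
  rcases Sym2.eq_iff.1 e with ⟨rfl, rfl⟩ | ⟨rfl, rfl⟩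
  · exact ⟨hs', hb', hadj⟩
  · exact absurd hb' (h.dis _ hs)

omit [Fintype V] in
private lemma mem_th' {R : Rotation G} {Q C : Set V} (h : QC R Q C) {X : Set V} (hX : X ⊆ Q)
    {s b : V} (hb : b ∈ C) (he : s(b, s) ∈ Th G X C) : s ∈ X := by
  obtain ⟨s', hs', b', hb', hadj, e⟩ := he
  rcases Sym2.eq_iff.1 e with ⟨rfl, rfl⟩ | ⟨rfl, rfl⟩
  · exact absurd hb (h.dis _ (hX hs'))
  · exact hs'

omit [Fintype V] in
private lemma pair_ne {R : Rotation G} {Q C : Set V} (h : QC R Q C) {s s' b b' : V} (hs : s ∈ Q)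
    (hb' : b' ∈ C) (hne : ¬ (s = s' ∧ b = b')) : s(s, b) ≠ s(s', b') := by
  intro e
  rcases Sym2.eq_iff.1 e with ⟨h1, h2⟩ | ⟨h1, h2⟩
  · exact hne ⟨h1, h2⟩
  · rw [h1] at hs
    exact h.dis _ hs hb'

omit [Fintype V] in
private lemma qs_sub (Q C : Set V) : Qs G Q C ⊆ Q := fun _ hs => hs.1.1

theorem Cyc_self (hc : G.Connected) (R : Rotation G)
    (he : Nat.card V + R.faces.ncard = G.edgeSet.ncard + 2) {Q C : Set V} (h : QC R Q C) :
    Module.finrank F (Cyc (Th G (Qs G Q C) C)) ≤ 2 * (Qs G Q C).ncard := by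
  classical
  have h1 : TS (Cyc (Th G (Qs G Q C) C)) := TS_Cyc hc R he (th_sub _ _)
  have h2 : Cyc (Th G (Qs G Q C) C) ≤ sup (Th G (Qs G Q C) C) := fun z hz => hz.1
  have h3 := TS_weak h1 h2 (k := 4) ?_
  · rw [Th_ncard_s h] at h3
    omega
  intro z hz hz0
  have h4 : ∃ e, z e ≠ 0 := by
    by_contra hcon
    push Not at hcon
    exact hz0 (funext hcon)
  obtain ⟨e, he0⟩ := h4
  have h5 : ∀ e, z e ≠ 0 → e ∈ Th G (Qs G Q C) C := fun e he => by
    by_contra hcon
    exact he (hz.1 e hcon)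
  obtain ⟨s, hs, b, hb, hadj, rfl⟩ := h5 e he0
  have hsQ : s ∈ Q := qs_sub Q C hs
  obtain ⟨b', hb'b, hzb'⟩ := other (g := fun w => z s(s, w)) (hz.2 s) he0
  obtain ⟨-, hb'C, -⟩ := mem_th h (qs_sub Q C) hsQ (h5 _ hzb')
  have hzb : z s(b, s) ≠ 0 := by
    rw [Sym2.eq_swap]
    exact he0
  obtain ⟨s1, hs1, hzs1⟩ := other (g := fun w => z s(b, w)) (hz.2 b) hzb
  have hzb1 : z s(b', s) ≠ 0 := by
    rw [Sym2.eq_swap]
    exact hzb'
  obtain ⟨s2, hs2, hzs2⟩ := other (g := fun w => z s(b', w)) (hz.2 b') hzb1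
  have hs1Q : s1 ∈ Q := qs_sub Q C (mem_th' h (qs_sub Q C) hb (h5 _ hzs1))
  have hs2Q : s2 ∈ Q := qs_sub Q C (mem_th' h (qs_sub Q C) hb'C (h5 _ hzs2))
  have hsub : (({s(s, b), s(s, b'), s(s1, b), s(s2, b')} : Finset (Sym2 V)) : Set (Sym2 V)) ⊆
      {e | z e ≠ 0} := by
    intro e he
    simp only [Finset.coe_insert, Finset.coe_singleton, mem_insert_iff, mem_singleton_iff] at he
    rcases he with rfl | rfl | rfl | rfl
    · exact he0
    · exact hzb'
    · show z s(s1, b) ≠ 0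
      rw [Sym2.eq_swap]
      exact hzs1
    · show z s(s2, b') ≠ 0
      rw [Sym2.eq_swap]
      exact hzs2
  have n1 : s(s, b) ≠ s(s, b') := pair_ne h hsQ hb'C (fun hh => hb'b hh.2.symm)
  have n2 : s(s, b) ≠ s(s1, b) := pair_ne h hsQ hb (fun hh => hs1 hh.1.symm)
  have n3 : s(s, b) ≠ s(s2, b') := pair_ne h hsQ hb'C (fun hh => hb'b hh.2.symm)
  have n4 : s(s, b') ≠ s(s1, b) := pair_ne h hsQ hb (fun hh => hb'b hh.2)
  have n5 : s(s, b') ≠ s(s2, b') := pair_ne h hsQ hb'C (fun hh => hs2 hh.1.symm)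
  have n6 : s(s1, b) ≠ s(s2, b') := pair_ne h hs1Q hb'C (fun hh => hb'b hh.2.symm)
  have hcard : ({s(s, b), s(s, b'), s(s1, b), s(s2, b')} : Finset (Sym2 V)).card = 4 := by
    rw [Finset.card_insert_of_notMem, Finset.card_insert_of_notMem, Finset.card_insert_of_notMem,
      Finset.card_singleton]
    · simpa using n6
    · simp only [Finset.mem_insert, Finset.mem_singleton, not_or]
      exact ⟨n4, n5⟩
    · simp only [Finset.mem_insert, Finset.mem_singleton, not_or]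
      exact ⟨n1, n2, n3⟩
  have h6 := Set.ncard_le_ncard hsub (Set.toFinite _)
  rw [Set.ncard_coe_finset, hcard] at h6
  exact h6

theorem rank_ineq (hc : G.Connected) (R : Rotation G)
    (he : Nat.card V + R.faces.ncard = G.edgeSet.ncard + 2) {Q C : Set V} (h : QC R Q C)
    {b0 : V} (hb : b0 ∈ C) (hC : ∀ f ∈ Uq R Q, ∀ b ∈ C, f b = f b0) :
    Module.finrank F (Cyc (Th G (Q1 G Q C) C)) + Module.finrank F (Uq R Q) ≤
      Module.finrank F (Cyc (Th G (Qs G Q C) C)) + 1 +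
        Module.finrank F (Uq R (Q \ Q1 G Q C) ⊓ sup Cᶜ : Submodule F (V → F)) := by
  classical
  have hq : ∀ s : V, ∃ b, s ∈ Q1 G Q C \ Qs G Q C → G.Adj s b ∧ b ∉ C := by
    intro s
    by_cases hs : s ∈ Q1 G Q C \ Qs G Q C
    · have h1 : ¬ ∀ b, G.Adj s b → b ∈ C := fun h2 => hs.2 ⟨hs.1, h2⟩
      push Not at h1
      obtain ⟨b, hb1, hb2⟩ := h1
      exact ⟨b, fun _ => ⟨hb1, hb2⟩⟩
    · exact ⟨s, fun h => absurd h hs⟩
  choose q hq using hq
  set Qm : Set V := Q1 G Q C \ Qs G Q C with hQm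
  set Uo : Submodule F (V → F) := Uq R (Q \ Q1 G Q C) ⊓ sup Cᶜ with hUo
  let lam : (V → F) →ₗ[F] (Qm → F) :=
    { toFun := fun f s => f (q s) + f (opp R s (q s))
      map_add' := fun f g => by funext s; simp only [Pi.add_apply]; ring
      map_smul' := fun a f => by
        funext s; simp only [Pi.smul_apply, smul_eq_mul, RingHom.id_apply]; ring }
  let mu : (Sym2 V → F) →ₗ[F] (Qm → F) :=
    { toFun := fun z s => z s(s, R.nxt s (q s))
      map_add' := fun f g => by funext s; simp only [Pi.add_apply]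
      map_smul' := fun a f => by
        funext s; simp only [Pi.smul_apply, smul_eq_mul, RingHom.id_apply] }
  have hlam : ∀ f s, lam f s = f (q s) + f (opp R s (q s)) := fun _ _ => rfl
  have hmu : ∀ z s, mu z s = z s(s, R.nxt s (q s)) := fun _ _ => rfl
  have hX : Q1 G Q C ⊆ Q := fun s hs => hs.1
  -- the ranges
  have r1 : LinearMap.range (mu.domRestrict (Cyc (Th G (Q1 G Q C) C))) ≤
      LinearMap.range (lam.domRestrict Uo) := by
    rintro _ ⟨⟨z, hz⟩, rfl⟩
    obtain ⟨f, hf1, hf2, hf3⟩ := cyc_fun hc R he h hz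
    have hfU : f ∈ Uo := by
      rw [hUo]
      refine Submodule.mem_inf.2 ⟨?_, ?_⟩
      · rintro s hs b hsb
        exact hf2 s hs.1 hs.2 b hsb
      · intro v hv
        exact hf1 v (not_not.1 hv)
    refine ⟨⟨f, hfU⟩, ?_⟩
    funext s
    show lam f s = mu z s
    rw [hlam, hmu]
    obtain ⟨h1, h2⟩ := hq s s.2
    exact hf3 s s.2.1 (q s) h1 h2
  have r2 := Submodule.finrank_mono r1
  -- the kernel of mu
  have k1 : (LinearMap.ker (mu.domRestrict (Cyc (Th G (Q1 G Q C) C)))).map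
      (Cyc (Th G (Q1 G Q C) C)).subtype ≤ Cyc (Th G (Qs G Q C) C) := by
    rintro _ ⟨⟨z, hz⟩, hz', rfl⟩
    have hz0 : mu z = 0 := hz'
    refine mem_Cyc.2 ⟨?_, hz.2⟩
    intro e he'
    show z e = 0
    by_cases h1 : e ∈ Th G (Q1 G Q C) C
    · obtain ⟨s, hs, b, hbC, hadj, rfl⟩ := h1
      have hsm : s ∈ Qm := by
        refine ⟨hs, fun hs' => he' ⟨s, hs', b, hbC, hadj, rfl⟩⟩
      obtain ⟨hq1, hq2⟩ := hq s hsm
      obtain ⟨m1, m2, m3⟩ := mixed h hs hq1 hq2
      have hd := (deg4 R (h.four s (hX hs)) hq1).1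
      have z1 : z s(s, R.nxt s (q s)) = 0 := by
        have := congrFun hz0 ⟨s, hsm⟩
        rw [hmu] at this
        exact this
      have z2 : z s(s, R.nxt s (opp R s (q s))) = 0 := by
        by_contra hne
        obtain ⟨w, hw1, hw2⟩ := other (g := fun w => z s(s, w)) (hz.2 s) hne
        have hw3 : s(s, w) ∈ Th G (Q1 G Q C) C := by
          by_contra hcon
          exact hw2 (hz.1 _ hcon)
        obtain ⟨-, hwC, hwadj⟩ := mem_th h hX (hX hs) hw3
        rcases (hd w).1 hwadj with rfl | rfl | rfl | rfl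
        · exact hq2 hwC
        · exact hw2 z1
        · exact m1 hwC
        · exact hw1 rfl
      rcases (hd b).1 hadj with hh | hh | hh | hh
      · rw [hh] at hbC
        exact absurd hbC hq2
      · rw [hh]
        exact z1
      · rw [hh] at hbC
        exact absurd hbC m1
      · rw [hh]
        exact z2
    · exact hz.1 e h1
  have k2 := Submodule.finrank_mono k1
  rw [Submodule.finrank_map_subtype_eq] at k2
  have n1 := LinearMap.finrank_range_add_finrank_ker (mu.domRestrict (Cyc (Th G (Q1 G Q C) C)))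
  have n2 := LinearMap.finrank_range_add_finrank_ker (lam.domRestrict Uo)
  -- the kernel of lam
  have l1 : (Uq R Q ⊓ sup Cᶜ : Submodule F (V → F)) ≤
      (LinearMap.ker (lam.domRestrict Uo)).map Uo.subtype := by
    rintro f hf
    obtain ⟨hf1, hf2⟩ := Submodule.mem_inf.1 hf
    have hfU : f ∈ Uo := by
      rw [hUo]
      exact Submodule.mem_inf.2 ⟨fun s hs b hsb => hf1 s hs.1 b hsb, hf2⟩
    refine ⟨⟨f, hfU⟩, ?_, rfl⟩
    show lam f = 0
    funext s
    rw [hlam]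
    obtain ⟨h1, h2⟩ := hq s s.2
    rw [hf1 s (hX s.2.1) (q s) h1]
    exact CharTwo.add_self_eq_zero _
  have l2 := Submodule.finrank_mono l1
  rw [Submodule.finrank_map_subtype_eq] at l2
  -- evaluation at b0
  let ev : (Uq R Q) →ₗ[F] F := (LinearMap.proj b0).comp (Uq R Q).subtype
  have n3 := LinearMap.finrank_range_add_finrank_ker ev
  have e1 : (LinearMap.ker ev).map (Uq R Q).subtype ≤ Uq R Q ⊓ sup Cᶜ := by
    rintro _ ⟨⟨f, hf⟩, hf', rfl⟩
    have hf0 : f b0 = 0 := hf'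
    refine Submodule.mem_inf.2 ⟨hf, ?_⟩
    intro v hv
    show f v = 0
    rw [hC f hf v (not_not.1 hv), hf0]
  have e2 := Submodule.finrank_mono e1
  rw [Submodule.finrank_map_subtype_eq] at e2
  have e3 : Module.finrank F (LinearMap.range ev) ≤ 1 := by
    have := Submodule.finrank_le (LinearMap.range ev)
    rwa [Module.finrank_self] at this
  omega

end Pool.Agent.AC5
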