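import Pool.Agent.AC5.Rado
import Pool.Agent.AC5.PDefs

set_option autoImplicit false

/-!
# AC5/RPick: Rado's theorem with two options (MP_289c47_co, helper88)

PROOF. Apply `rado` to the index type `ι ⊕ EK` and the sets `A (inl i) = {single (k i b) (n i) | b : Bool}`,
`A (inr e) = {single (κ e) (g e)}` in `Kap → V → F`. A transversal gives `f i` with
`x (inl i) = single (k i (f i)) (n i)`, and `x (inr e) = single (κ e) (g e)`; this is the conclusion. The condition:
let `T : Finset (ι ⊕ EK)`, `X`, `Y` its parts. It suffices to show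
(i) `finrank (Sp X univ) ≥ X.card + card EK`, where `Sp X Y` is the span of the union of the `A (inl i)`, `i ∈ X`, and
`A (inr e)`, `e ∈ Y`; because `Sp X univ` is spanned by `Sp X Y` and the `card EK - Y.card` vectors of `A (inr e)`,
`e ∉ Y`, so `finrank (Sp X univ) ≤ finrank (Sp X Y) + (card EK - Y.card)`.
Proof of (i): for `κ0 : Kap` put `E κ0 = span {n i | i ∈ X, ∃ b, k i b = κ0}`, `K κ0 = span {g e | κ e = κ0}`.
`Sp X univ ⊇ Submodule.pi Set.univ (fun κ0 => E κ0 ⊔ K κ0)`: an element `v` of the latter is `∑ κ0, single κ0 (v κ0)`, and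
`single κ0` maps `E κ0` and `K κ0` into `Sp X univ`. The dimension of `Submodule.pi` is
`∑ κ0, finrank (E κ0 ⊔ K κ0)` (it is isomorphic to the product of the submodules; `Module.finrank_pi_fintype`), and
`finrank (E ⊔ K) + finrank (E ⊓ K) = finrank E + finrank K` (`Submodule.finrank_sup_add_finrank_inf_eq`).
`finrank (E κ0)` is the number of `i ∈ X` with `∃ b, k i b = κ0` (`hn`, `finrank_span_eq_card`), the sum over `κ0` is
`2 * X.card` by `hk`; `finrank (K κ0)` is the number of `e` with `κ e = κ0` (`hg`), the sum is `card EK`.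
`finrank (E κ0 ⊓ K κ0) ≤ finrank (Mk n k g κ X κ0)`: every element of `E κ0 ⊓ K κ0` is
`Fintype.linearCombination F n a` with `a` in `Mk` (so `E κ0 ⊓ K κ0` is contained in the image of `Mk`). By `hineq` the
sum of these is at most `X.card`. Total: `2 * X.card + card EK - X.card`.
-/

namespace Pool.Agent.AC5

private theorem mem_span_of_single {V Kap : Type} [Fintype Kap] [DecidableEq Kap]
    (S : Submodule F (Kap → V → F)) (p : Kap → Submodule F (V → F))
    (h : ∀ κ0, ∀ w ∈ p κ0, (Pi.single κ0 w : Kap → V → F) ∈ S) (v : Kap → V → F)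
    (hv : ∀ κ0, v κ0 ∈ p κ0) : v ∈ S := by
  have h1 : v = ∑ κ0, Pi.single κ0 (v κ0) := (Finset.univ_sum_single v).symm
  rw [h1]
  exact Submodule.sum_mem _ fun κ0 _ => h κ0 _ (hv κ0)

private theorem sum_finrank_le {V Kap : Type} [Fintype V] [Fintype Kap] [DecidableEq Kap]
    (S : Submodule F (Kap → V → F)) (p : Kap → Submodule F (V → F))
    (h : ∀ κ0, ∀ w ∈ p κ0, (Pi.single κ0 w : Kap → V → F) ∈ S) :
    ∑ κ0, Module.finrank F (p κ0) ≤ Module.finrank F S := by
  have h1 : Module.finrank F ((κ0 : Kap) → p κ0) = ∑ κ0, Module.finrank F (p κ0) :=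
    Module.finrank_pi_fintype F
  rw [← h1]
  let φ : ((κ0 : Kap) → p κ0) →ₗ[F] (Kap → V → F) :=
    LinearMap.pi fun κ0 => (p κ0).subtype ∘ₗ LinearMap.proj κ0
  have hφ : ∀ v, φ v ∈ S := fun v =>
    mem_span_of_single S p h (φ v) fun κ0 => (v κ0).2
  refine LinearMap.finrank_le_finrank_of_injective (f := LinearMap.codRestrict S φ hφ) ?_
  intro v w hvw
  have h2 : φ v = φ w := congrArg Subtype.val hvw
  funext κ0
  exact Subtype.ext (congrFun h2 κ0)

private theorem card_two {ι Kap : Type} [Fintype Kap] [DecidableEq Kap]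
    (k : ι → Bool → Kap) (hk : ∀ i, k i true ≠ k i false) (X : Finset ι)
    (s : Kap → Finset ι) (hs : ∀ κ0 i, i ∈ s κ0 ↔ i ∈ X ∧ ∃ b, k i b = κ0) :
    ∑ κ0, (s κ0).card = 2 * X.card := by
  classical
  have h1 : ∀ κ0, (s κ0).card = ∑ i ∈ X, if ∃ b, k i b = κ0 then 1 else 0 := by
    intro κ0
    rw [Finset.sum_boole]
    have h2 : s κ0 = X.filter (fun i => ∃ b, k i b = κ0) := by
      ext i
      rw [hs, Finset.mem_filter]
    rw [h2]
    simp
  simp_rw [h1]
  rw [Finset.sum_comm]
  have h3 : ∀ i ∈ X, (∑ κ0 : Kap, if ∃ b, k i b = κ0 then 1 else 0) = 2 := by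
    intro i _
    rw [Finset.sum_boole]
    have h4 : (Finset.univ.filter fun κ0 => ∃ b, k i b = κ0) = {k i true, k i false} := by
      ext κ0
      simp only [Finset.mem_filter, Finset.mem_univ, true_and, Finset.mem_insert,
        Finset.mem_singleton]
      constructor
      · rintro ⟨b, rfl⟩
        cases b
        · exact Or.inr rfl
        · exact Or.inl rfl
      · rintro (h | h)
        · exact ⟨true, h.symm⟩
        · exact ⟨false, h.symm⟩
    rw [h4, Finset.card_pair (hk i)]
    rfl
  rw [Finset.sum_congr rfl h3, Finset.sum_const, smul_eq_mul, mul_comm]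

private theorem card_fib {EK Kap : Type} [Fintype EK] [Fintype Kap] [DecidableEq Kap]
    (κ : EK → Kap) : ∑ κ0, Fintype.card {e : EK // κ e = κ0} = Fintype.card EK := by
  rw [← Fintype.card_sigma]
  exact Fintype.card_congr (Equiv.sigmaFiberEquiv κ)

theorem rado_pick {V ι EK Kap : Type} [Fintype V] [Fintype ι] [Fintype EK] [Fintype Kap]
    [DecidableEq Kap] (n : ι → V → F) (hn : LinearIndependent F n) (k : ι → Bool → Kap)
    (hk : ∀ i, k i true ≠ k i false) (g : EK → V → F) (κ : EK → Kap)
    (hg : ∀ κ0, LinearIndependent F (fun e : {e : EK // κ e = κ0} => g e))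
    (hineq : ∀ X : Finset ι, ∑ κ0, Module.finrank F (Mk n k g κ X κ0) ≤ X.card) :
    ∃ f : ι → Bool, LinearIndependent F (Sum.elim (fun i => Pi.single (k i (f i)) (n i))
      (fun e => Pi.single (κ e) (g e)) : ι ⊕ EK → Kap → V → F) := by
  have : DecidableEq (Kap → V → F) := Classical.decEq _
  have : DecidableEq ι := Classical.decEq _
  have : DecidableEq EK := Classical.decEq _
  let A : ι ⊕ EK → Finset (Kap → V → F) := Sum.elim
    (fun i => Finset.univ.image fun b => Pi.single (k i b) (n i))
    (fun e => {Pi.single (κ e) (g e)})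
  have hA1 : ∀ i b, (Pi.single (k i b) (n i) : Kap → V → F) ∈ A (Sum.inl i) := by
    intro i b
    exact Finset.mem_image.2 ⟨b, Finset.mem_univ _, rfl⟩
  have hA2 : ∀ e, (Pi.single (κ e) (g e) : Kap → V → F) ∈ A (Sum.inr e) := by
    intro e
    exact Finset.mem_singleton_self _
  have hA1' : ∀ i w, w ∈ A (Sum.inl i) → ∃ b, (Pi.single (k i b) (n i) : Kap → V → F) = w := by
    intro i w hw
    obtain ⟨b, _, hb⟩ := Finset.mem_image.1 hw
    exact ⟨b, hb⟩
  have hA2' : ∀ e w, w ∈ A (Sum.inr e) → w = (Pi.single (κ e) (g e) : Kap → V → F) := by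
    intro e w hw
    exact Finset.mem_singleton.1 hw
  have hcond : ∀ T : Finset (ι ⊕ EK), T.card ≤
      Module.finrank F (Submodule.span F (⋃ i ∈ T, (A i : Set (Kap → V → F)))) := by
    intro T
    classical
    set X := T.toLeft with hX
    set Y := T.toRight with hY
    have hcard : X.card + Y.card = T.card := T.card_toLeft_add_card_toRight
    set ST := Submodule.span F (⋃ i ∈ T, (A i : Set (Kap → V → F))) with hST
    set B := Submodule.span F ((fun e : EK => (Pi.single (κ e) (g e) : Kap → V → F)) ''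
      ((Finset.univ \ Y : Finset EK) : Set EK)) with hB
    -- dimension of `B`
    have hBle : Module.finrank F B ≤ Fintype.card EK - Y.card := by
      have h1 : ((fun e : EK => (Pi.single (κ e) (g e) : Kap → V → F)) ''
          ((Finset.univ \ Y : Finset EK) : Set EK)) =
          (((Finset.univ \ Y).image fun e : EK => (Pi.single (κ e) (g e) : Kap → V → F) :
            Finset (Kap → V → F)) : Set (Kap → V → F)) := by
        rw [Finset.coe_image]
      rw [hB, h1]
      refine (finrank_span_finset_le_card _).trans (Finset.card_image_le.trans ?_)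
      rw [Finset.card_sdiff_of_subset (Finset.subset_univ _), Finset.card_univ]
    have hsup := Submodule.finrank_add_le_finrank_add_finrank ST B
    -- the members of the union
    have m1 : ∀ i ∈ X, ∀ b, (Pi.single (k i b) (n i) : Kap → V → F) ∈ ST ⊔ B := by
      intro i hi b
      refine Submodule.mem_sup_left (Submodule.subset_span ?_)
      exact Set.mem_biUnion (Finset.mem_toLeft.1 hi) (hA1 i b)
    have m2 : ∀ e, (Pi.single (κ e) (g e) : Kap → V → F) ∈ ST ⊔ B := by
      intro e
      by_cases he : e ∈ Y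
      · refine Submodule.mem_sup_left (Submodule.subset_span ?_)
        exact Set.mem_biUnion (Finset.mem_toRight.1 he) (hA2 e)
      · refine Submodule.mem_sup_right (Submodule.subset_span ⟨e, ?_, rfl⟩)
        simpa using he
    let s : Kap → Finset ι := fun κ0 => X.filter fun i => ∃ b, k i b = κ0
    have hs : ∀ κ0 i, i ∈ s κ0 ↔ i ∈ X ∧ ∃ b, k i b = κ0 := fun κ0 i => Finset.mem_filter
    let E : Kap → Submodule F (V → F) := fun κ0 =>
      Submodule.span F (Set.range fun i : {i // i ∈ s κ0} => n i)
    let K : Kap → Submodule F (V → F) := fun κ0 =>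
      Submodule.span F (g '' {e | κ e = κ0})
    have hmem : ∀ κ0, ∀ w ∈ E κ0 ⊔ K κ0, (Pi.single κ0 w : Kap → V → F) ∈ ST ⊔ B := by
      intro κ0 w hw
      have hle : E κ0 ⊔ K κ0 ≤ (ST ⊔ B).comap (LinearMap.single F (fun _ : Kap => V → F) κ0) := by
        refine _root_.sup_le ?_ ?_
        · rw [Submodule.span_le]
          rintro _ ⟨⟨i, hi⟩, rfl⟩
          obtain ⟨hi1, b, hb⟩ := (hs κ0 i).1 hi
          change (Pi.single κ0 (n i) : Kap → V → F) ∈ ST ⊔ B
          rw [← hb]
          exact m1 i hi1 b
        · rw [Submodule.span_le]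
          rintro _ ⟨e, he, rfl⟩
          change (Pi.single κ0 (g e) : Kap → V → F) ∈ ST ⊔ B
          have he' : κ e = κ0 := he
          rw [← he']
          exact m2 e
      exact hle hw
    have hdim := sum_finrank_le (ST ⊔ B) (fun κ0 => E κ0 ⊔ K κ0) hmem
    have hE : ∀ κ0, Module.finrank F (E κ0) = (s κ0).card := by
      intro κ0
      have hli : LinearIndependent F fun i : {i // i ∈ s κ0} => n i :=
        hn.comp _ Subtype.val_injective
      have := finrank_span_eq_card hli
      rw [Fintype.card_coe] at this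
      exact this
    have hK : ∀ κ0, Module.finrank F (K κ0) = Fintype.card {e : EK // κ e = κ0} := by
      intro κ0
      have hKeq : K κ0 = Submodule.span F (Set.range fun e : {e : EK // κ e = κ0} => g e) := by
        refine congrArg (Submodule.span F) (Set.ext fun w => ⟨?_, ?_⟩)
        · rintro ⟨e, he, rfl⟩
          exact ⟨⟨e, he⟩, rfl⟩
        · rintro ⟨⟨e, he⟩, rfl⟩
          exact ⟨e, he, rfl⟩
      rw [hKeq]
      exact finrank_span_eq_card (hg κ0)
    have hEK : ∀ κ0, Module.finrank F ↥(E κ0 ⊓ K κ0) ≤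
        Module.finrank F (Mk n k g κ X κ0) := by
      intro κ0
      have hle : E κ0 ⊓ K κ0 ≤ (Mk n k g κ X κ0).map (Fintype.linearCombination F n) := by
        intro v hv
        obtain ⟨hv1, hv2⟩ := Submodule.mem_inf.1 hv
        have hEle : E κ0 ≤ (sup {i | i ∈ X ∧ ∃ b, k i b = κ0} : Submodule F (ι → F)).map
            (Fintype.linearCombination F n) := by
          rw [Submodule.span_le]
          rintro _ ⟨⟨i, hi⟩, rfl⟩
          refine ⟨Pi.single i 1, ?_, ?_⟩
          · intro j hj
            by_cases hij : j = i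
            · subst hij
              exact absurd ((hs κ0 j).1 hi) hj
            · exact Pi.single_eq_of_ne hij _
          · rw [Fintype.linearCombination_apply_single, one_smul]
        obtain ⟨a, ha, hav⟩ := hEle hv1
        refine ⟨a, ?_, hav⟩
        refine Submodule.mem_inf.2 ⟨ha, ?_⟩
        rw [Submodule.mem_comap, hav]
        exact hv2
      exact (Submodule.finrank_mono hle).trans (Submodule.finrank_map_le _ _)
    have h2 := card_two k hk X s hs
    have h3 := card_fib κ
    have h4 : ∑ κ0, Module.finrank F ↥(E κ0 ⊔ K κ0) + ∑ κ0, Module.finrank F ↥(E κ0 ⊓ K κ0) =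
        2 * X.card + Fintype.card EK := by
      rw [← h2, ← h3, ← Finset.sum_add_distrib, ← Finset.sum_add_distrib]
      refine Finset.sum_congr rfl fun κ0 _ => ?_
      rw [Submodule.finrank_sup_add_finrank_inf_eq, hE, hK]
    have h5 : ∑ κ0, Module.finrank F ↥(E κ0 ⊓ K κ0) ≤ X.card :=
      (Finset.sum_le_sum fun κ0 _ => hEK κ0).trans (hineq X)
    have h6 : Y.card ≤ Fintype.card EK := Finset.card_le_univ Y
    omega
  obtain ⟨x, hx, hli⟩ := rado A hcond
  choose f hf using fun i => hA1' i (x (Sum.inl i)) (hx (Sum.inl i))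
  refine ⟨f, ?_⟩
  have hxe : x = Sum.elim (fun i => Pi.single (k i (f i)) (n i))
      (fun e => Pi.single (κ e) (g e)) := by
    funext j
    rcases j with i | e
    · exact (hf i).symm
    · exact hA2' e _ (hx (Sum.inr e))
  rw [← hxe]
  exact hli

end Pool.Agent.AC5
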