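import Pool.Agent.AC5.Defs

set_option autoImplicit false

/-!
# AC5/Rado: Rado's theorem on independent transversals (MP_289c47_co, helper88)

PROOF. Write `r T A` for the dimension of the span of `⋃ i ∈ T, A i`. Induction on `∑ i, (A i).card` (strong, over all
`A` with the property). The condition for `T = {i}` shows that `A i` is nonempty (otherwise the span is `⊥`).
Case 1: all `(A i).card ≤ 1`. Then `A i = {x i}` and the condition for `T = univ` says
`card ι ≤ finrank (span (range x))`, which gives linear independence
(`linearIndependent_iff_card_le_finrank_span`).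
Case 2: some `A j` contains two elements `x ≠ y`. Let `A^x` be `A` with `A j` replaced by `(A j).erase x`, similarly
`A^y`. If one of them satisfies the condition, the induction hypothesis gives the conclusion. Otherwise there are
`T1`, `T2` violating the condition for `A^x`, `A^y`. `j ∈ T1` (else the condition is that of `A`), `j ∈ T2`; put
`T1' = T1.erase j`, `T2' = T2.erase j`; `S1 = span (⋃ i ∈ T1', A i ∪ (A j).erase x)`,
`S2 = span (⋃ i ∈ T2', A i ∪ (A j).erase y)`: `finrank S1 ≤ T1'.card`, `finrank S2 ≤ T2'.card`
(`T1.card = T1'.card + 1 > finrank S1`). `S1 ⊔ S2` contains `A i` for `i ∈ T1' ∪ T2' ∪ {j}`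
(`(A j).erase x ∪ (A j).erase y = A j` as `x ≠ y`), so `finrank (S1 ⊔ S2) ≥ (T1' ∪ T2').card + 1`; `S1 ⊓ S2`
contains `A i` for `i ∈ T1' ∩ T2'`, so `finrank (S1 ⊓ S2) ≥ (T1' ∩ T2').card`. With
`Submodule.finrank_sup_add_finrank_inf_eq` (the spans of finite sets are finite-dimensional) and
`Finset.card_union_add_card_inter`: `T1'.card + T2'.card ≥ T1'.card + T2'.card + 1`, a contradiction.
-/

namespace Pool.Agent.AC5

private noncomputable def rr {ι W : Type} [AddCommGroup W] [Module F W] (A : ι → Finset W)
    (T : Finset ι) : ℕ := Module.finrank F (Submodule.span F (⋃ i ∈ T, (A i : Set W)))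

private lemma fd_span {ι W : Type} [AddCommGroup W] [Module F W] (A : ι → Finset W)
    (T : Finset ι) : FiniteDimensional F (Submodule.span F (⋃ i ∈ T, (A i : Set W))) :=
  FiniteDimensional.span_of_finite F (T.finite_toSet.biUnion fun i _ => (A i).finite_toSet)

private lemma rado_aux {ι W : Type} [Fintype ι] [AddCommGroup W] [Module F W] (N : ℕ) :
    ∀ A : ι → Finset W, ∑ i, (A i).card = N → (∀ T : Finset ι, T.card ≤ rr A T) →
    ∃ x : ι → W, (∀ i, x i ∈ A i) ∧ LinearIndependent F x := by
  classical
  induction N using Nat.strong_induction_on with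
  | _ N ih =>
  intro A hN h
  by_cases hcard : ∀ i, (A i).card ≤ 1
  · have hne : ∀ i, (A i).Nonempty := by
      intro i
      by_contra hempty
      rw [Finset.not_nonempty_iff_eq_empty] at hempty
      have h1 := h {i}
      unfold rr at h1
      have h0 : (⋃ k ∈ ({i} : Finset ι), (A k : Set W)) = ∅ := by
        ext w
        simp only [Finset.mem_singleton, Set.iUnion_iUnion_eq_left, Finset.mem_coe, hempty]
        simp
      rw [h0, Submodule.span_empty, finrank_bot, Finset.card_singleton] at h1
      omega
    choose x hx using hne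
    have hA : ∀ i, (A i : Set W) = {x i} := by
      intro i
      ext z
      constructor
      · intro hz
        exact Finset.card_le_one.1 (hcard i) z hz (x i) (hx i)
      · rintro rfl
        exact hx i
    refine ⟨x, hx, ?_⟩
    rw [linearIndependent_iff_card_le_finrank_span]
    have h1 := h Finset.univ
    unfold rr at h1
    have h0 : (⋃ k ∈ (Finset.univ : Finset ι), (A k : Set W)) = Set.range x := by
      ext w
      simp only [Finset.mem_univ, Set.iUnion_true, Set.mem_iUnion, Set.mem_range]
      constructor
      · rintro ⟨k, hk⟩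
        rw [hA k] at hk
        exact ⟨k, hk.symm⟩
      · rintro ⟨k, rfl⟩
        exact ⟨k, hx k⟩
    rw [h0, Finset.card_univ] at h1
    exact h1
  · push Not at hcard
    obtain ⟨j, hj⟩ := hcard
    obtain ⟨x, hx, y, hy, hxy⟩ := Finset.one_lt_card.1 hj
    have hlt : ∀ z ∈ A j, ∑ i, (Function.update A j ((A j).erase z) i).card < N := by
      intro z hz
      rw [← hN]
      refine Finset.sum_lt_sum (fun i _ => ?_) ⟨j, Finset.mem_univ _, ?_⟩
      · by_cases hij : i = j
        · subst hij
          rw [Function.update_self]
          exact Finset.card_le_card (Finset.erase_subset _ _)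
        · rw [Function.update_of_ne hij]
      · rw [Function.update_self]
        exact Finset.card_erase_lt_of_mem hz
    have hsub : ∀ z i, (Function.update A j ((A j).erase z) i) ⊆ A i := by
      intro z i
      by_cases hij : i = j
      · subst hij
        rw [Function.update_self]
        exact Finset.erase_subset _ _
      · rw [Function.update_of_ne hij]
    by_cases hxc : ∀ T : Finset ι, T.card ≤ rr (Function.update A j ((A j).erase x)) T
    · obtain ⟨z, hz, hli⟩ := ih _ (hlt x hx) _ rfl hxc
      exact ⟨z, fun i => hsub x i (hz i), hli⟩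
    by_cases hyc : ∀ T : Finset ι, T.card ≤ rr (Function.update A j ((A j).erase y)) T
    · obtain ⟨z, hz, hli⟩ := ih _ (hlt y hy) _ rfl hyc
      exact ⟨z, fun i => hsub y i (hz i), hli⟩
    exfalso
    push Not at hxc hyc
    obtain ⟨T1, hT1⟩ := hxc
    obtain ⟨T2, hT2⟩ := hyc
    have hmem : ∀ z T, rr (Function.update A j ((A j).erase z)) T < T.card → j ∈ T := by
      intro z T hT
      by_contra hjT
      have h1 : (⋃ i ∈ T, (Function.update A j ((A j).erase z) i : Set W)) =
          ⋃ i ∈ T, (A i : Set W) := by
        refine Set.iUnion₂_congr fun i hi => ?_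
        have hij : i ≠ j := by
          rintro rfl
          exact hjT hi
        rw [Function.update_of_ne hij]
      have h2 := h T
      unfold rr at h2 hT
      rw [h1] at hT
      omega
    have hj1 := hmem x T1 hT1
    have hj2 := hmem y T2 hT2
    set B1 := Function.update A j ((A j).erase x) with hB1
    set B2 := Function.update A j ((A j).erase y) with hB2
    set S1 := Submodule.span F (⋃ i ∈ T1, (B1 i : Set W)) with hS1
    set S2 := Submodule.span F (⋃ i ∈ T2, (B2 i : Set W)) with hS2
    have : FiniteDimensional F S1 := fd_span B1 T1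
    have : FiniteDimensional F S2 := fd_span B2 T2
    have c1 : Module.finrank F S1 < T1.card := hT1
    have c2 : Module.finrank F S2 < T2.card := hT2
    have e1 : (T1.erase j).card + 1 = T1.card := Finset.card_erase_add_one hj1
    have e2 : (T2.erase j).card + 1 = T2.card := Finset.card_erase_add_one hj2
    have m1 : ∀ i ∈ T1.erase j, ∀ w ∈ A i, w ∈ S1 := by
      intro i hi w hw
      have hij := Finset.ne_of_mem_erase hi
      apply Submodule.subset_span
      refine Set.mem_biUnion (Finset.mem_of_mem_erase hi) ?_
      rw [hB1, Function.update_of_ne hij]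
      exact hw
    have m2 : ∀ i ∈ T2.erase j, ∀ w ∈ A i, w ∈ S2 := by
      intro i hi w hw
      have hij := Finset.ne_of_mem_erase hi
      apply Submodule.subset_span
      refine Set.mem_biUnion (Finset.mem_of_mem_erase hi) ?_
      rw [hB2, Function.update_of_ne hij]
      exact hw
    have n1 : ∀ w ∈ A j, w ≠ x → w ∈ S1 := by
      intro w hw hwx
      apply Submodule.subset_span
      refine Set.mem_biUnion hj1 ?_
      rw [hB1, Function.update_self]
      exact Finset.mem_erase.2 ⟨hwx, hw⟩
    have n2 : ∀ w ∈ A j, w ≠ y → w ∈ S2 := by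
      intro w hw hwy
      apply Submodule.subset_span
      refine Set.mem_biUnion hj2 ?_
      rw [hB2, Function.update_self]
      exact Finset.mem_erase.2 ⟨hwy, hw⟩
    have hsup : (insert j (T1.erase j ∪ T2.erase j)).card ≤ Module.finrank F ↑(S1 ⊔ S2) := by
      refine (h _).trans ?_
      unfold rr
      apply Submodule.finrank_mono
      rw [Submodule.span_le]
      intro w hw
      rw [Set.mem_iUnion₂] at hw
      obtain ⟨i, hi, hw⟩ := hw
      rw [Finset.mem_insert, Finset.mem_union] at hi
      rcases hi with rfl | hi | hi
      · by_cases hwx : w = x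
        · refine Submodule.mem_sup_right (n2 w hw ?_)
          rw [hwx]
          exact hxy
        · exact Submodule.mem_sup_left (n1 w hw hwx)
      · exact Submodule.mem_sup_left (m1 i hi w hw)
      · exact Submodule.mem_sup_right (m2 i hi w hw)
    have hinf : (T1.erase j ∩ T2.erase j).card ≤ Module.finrank F ↑(S1 ⊓ S2) := by
      refine (h _).trans ?_
      unfold rr
      have : FiniteDimensional F ↑(S1 ⊓ S2) := Submodule.finiteDimensional_inf_left _ _
      apply Submodule.finrank_mono
      rw [Submodule.span_le]
      intro w hw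
      rw [Set.mem_iUnion₂] at hw
      obtain ⟨i, hi, hw⟩ := hw
      rw [Finset.mem_inter] at hi
      exact ⟨m1 i hi.1 w hw, m2 i hi.2 w hw⟩
    have hjn : j ∉ T1.erase j ∪ T2.erase j := by
      simp
    rw [Finset.card_insert_of_notMem hjn] at hsup
    have h3 := Submodule.finrank_sup_add_finrank_inf_eq S1 S2
    have h4 := Finset.card_union_add_card_inter (T1.erase j) (T2.erase j)
    omega

theorem rado {ι W : Type} [Fintype ι] [AddCommGroup W] [Module F W] (A : ι → Finset W)
    (h : ∀ T : Finset ι, T.card ≤ Module.finrank F (Submodule.span F (⋃ i ∈ T, (A i : Set W)))) :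
    ∃ x : ι → W, (∀ i, x i ∈ A i) ∧ LinearIndependent F x :=
  rado_aux _ A rfl h

end Pool.Agent.AC5
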