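import Pool.Agent.AC5.Defs

set_option autoImplicit false

/-!
# AC5/Rot: rotations (MP_289c47_co, helper88)

PROOF. `nxt_bij`: `R.nxt v` maps neighbours to neighbours (`R.adj_nxt`), is injective on neighbours
(`R.nxt_inj`), the set of neighbours is finite; so it is a bijection (`Set.Finite.injOn_iff_bijOn_of_mapsTo` or
`Set.Finite.surjOn_of_injOn...`).
`sum_nxt`: the sum over the neighbours is reindexed by this bijection (`Finset.sum_filter`, `Finset.sum_bij`).
`const_nxt`: `R.cyclic v b b'` gives `k` with `(R.nxt v)^[k] b = b'`; induction on `k`.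
`deg4`: let `a = b`, `b1 = nxt b`, `b2 = nxt b1 = opp b`, `b3 = nxt b2`. The orbit of `b` under `nxt s` is the whole
neighbour set (`R.cyclic`), which has four elements; so the minimal period of `b` is four (the map
`k ↦ (nxt s)^[k] b` from `Fin m`, `m` the minimal period, to the neighbours is bijective), hence `b, b1, b2, b3` are
distinct, are all the neighbours, and `nxt b3 = b`. (Elementary way: if two of `b, b1, b2, b3` coincide then, `nxt`
being injective, `nxt^[m] b = b` for some `m` in `{1, 2, 3}`, and then all iterates of `b` are among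
`b, b1, b2`, so there would be at most three neighbours. So they are distinct and since there are four neighbours
they are all of them; `nxt b3` is a neighbour, different from `b1, b2, b3` by injectivity (`nxt b3 = nxt b` would give
`b3 = b` etc.), so it is `b`.)
`opp_adj`: from `R.adj_nxt`.
`opp_opp`, `nxt_opp`: from `deg4`: `opp (opp b) = nxt (nxt b2) = nxt b3 = b`; `nxt (opp b) = opp (nxt b)` holds by
definition.
`sum_darts_step`: `R.faceStep` is injective on the darts (`Rotation.injOn_faceStep`) and maps darts to darts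
(`Rotation.mapsTo_faceStep`), so it is a bijection of the finite set of darts. (Or: exchange the sums,
`∑ u, ∑ v, [Adj u v] φ v (nxt v u) = ∑ v, ∑ u, [Adj v u] φ v (nxt v u) = ∑ v, ∑ w, [Adj v w] φ v w` by `sum_nxt`.)
`sum_darts_edge`: every dart `(u, v)` is `(s e, t e)` or `(t e, s e)` for exactly one edge `e`, and these two darts
are different. (For example `Finset.sum_fiberwise`/`Finset.sum_bij` with the map from the darts to
`G.edgeSet × Bool`; or induction is not needed.)
-/

namespace Pool.Agent.AC5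

open Pool.Agent.H18Thick (Rotation)

variable {V : Type} [Fintype V] {G : SimpleGraph V}

lemma nxt_bij (R : Rotation G) (v : V) :
    Set.BijOn (R.nxt v) (G.neighborSet v) (G.neighborSet v) := by
  have hm : Set.MapsTo (R.nxt v) (G.neighborSet v) (G.neighborSet v) :=
    fun w hw => R.adj_nxt v w hw
  have hi : Set.InjOn (R.nxt v) (G.neighborSet v) := fun w hw w' hw' e => R.nxt_inj hw hw' e
  exact ((Set.toFinite _).injOn_iff_bijOn_of_mapsTo hm).1 hi

open Classical in
lemma sum_nxt (R : Rotation G) (v : V) (φ : V → F) :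
    (∑ w, if G.Adj v w then φ (R.nxt v w) else 0) = ∑ w, if G.Adj v w then φ w else 0 := by
  rw [← Finset.sum_filter, ← Finset.sum_filter]
  have hb := nxt_bij R v
  refine Finset.sum_bij (fun w _ => R.nxt v w) ?_ ?_ ?_ ?_
  · intro w hw
    rw [Finset.mem_filter] at hw ⊢
    exact ⟨Finset.mem_univ _, hb.mapsTo hw.2⟩
  · intro w hw w' hw' e
    rw [Finset.mem_filter] at hw hw'
    exact hb.injOn hw.2 hw'.2 e
  · intro w hw
    rw [Finset.mem_filter] at hw
    obtain ⟨w', hw', e⟩ := hb.surjOn hw.2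
    exact ⟨w', Finset.mem_filter.2 ⟨Finset.mem_univ _, hw'⟩, e⟩
  · intro w _
    rfl

omit [Fintype V] in
lemma const_nxt {α : Type} (R : Rotation G) (v : V) (φ : V → α)
    (h : ∀ b, G.Adj v b → φ (R.nxt v b) = φ b) {b b' : V} (hb : G.Adj v b) (hb' : G.Adj v b') :
    φ b = φ b' := by
  obtain ⟨k, rfl⟩ := R.cyclic v b b' hb hb'
  have key : ∀ k : ℕ, G.Adj v ((R.nxt v)^[k] b) ∧ φ b = φ ((R.nxt v)^[k] b) := by
    intro k
    induction k with
    | zero => exact ⟨hb, rfl⟩
    | succ k ih =>
      rw [Function.iterate_succ_apply']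
      exact ⟨R.adj_nxt _ _ ih.1, by rw [h _ ih.1]; exact ih.2⟩
  exact (key k).2

omit [Fintype V] in
lemma opp_adj (R : Rotation G) {s b : V} (h : G.Adj s b) : G.Adj s (opp R s b) :=
  R.adj_nxt _ _ (R.adj_nxt _ _ h)

lemma deg4 (R : Rotation G) {s b : V} (h4 : (G.neighborSet s).ncard = 4) (h : G.Adj s b) :
    (∀ w, G.Adj s w ↔ w = b ∨ w = R.nxt s b ∨ w = opp R s b ∨ w = R.nxt s (opp R s b)) ∧
    b ≠ R.nxt s b ∧ b ≠ opp R s b ∧ b ≠ R.nxt s (opp R s b) ∧ R.nxt s b ≠ opp R s b ∧
    R.nxt s b ≠ R.nxt s (opp R s b) ∧ opp R s b ≠ R.nxt s (opp R s b) ∧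
    R.nxt s (R.nxt s (opp R s b)) = b := by
  unfold opp
  have a1 : G.Adj s (R.nxt s b) := R.adj_nxt _ _ h
  have a2 : G.Adj s (R.nxt s (R.nxt s b)) := R.adj_nxt _ _ a1
  have a3 : G.Adj s (R.nxt s (R.nxt s (R.nxt s b))) := R.adj_nxt _ _ a2
  have hn : R.nxt s (R.nxt s (R.nxt s b)) ∉ ({b, R.nxt s b, R.nxt s (R.nxt s b)} : Set V) := by
    intro hc
    have key : ∀ k : ℕ, (R.nxt s)^[k] b ∈ ({b, R.nxt s b, R.nxt s (R.nxt s b)} : Set V) := by
      intro k
      induction k with
      | zero => simp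
      | succ k ih =>
        rw [Function.iterate_succ_apply']
        rcases ih with h1 | h1 | h1
        · rw [h1]; simp
        · rw [h1]; simp
        · rw [Set.mem_singleton_iff.1 h1]; exact hc
    have hsub : G.neighborSet s ⊆ ({b, R.nxt s b, R.nxt s (R.nxt s b)} : Set V) := by
      intro w hw
      obtain ⟨k, hk⟩ := R.cyclic s b w h hw
      rw [← hk]
      exact key k
    have h1 := Set.ncard_le_ncard hsub (Set.toFinite _)
    have h2 : ({b, R.nxt s b, R.nxt s (R.nxt s b)} : Set V).ncard ≤ 3 := by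
      refine (Set.ncard_insert_le _ _).trans ?_
      have := Set.ncard_insert_le (R.nxt s b) {R.nxt s (R.nxt s b)}
      rw [Set.ncard_singleton] at this
      omega
    omega
  simp only [Set.mem_insert_iff, Set.mem_singleton_iff, not_or] at hn
  obtain ⟨n1, n2, n3⟩ := hn
  replace n1 : R.nxt s (R.nxt s (R.nxt s b)) ≠ b := n1
  replace n2 : R.nxt s (R.nxt s (R.nxt s b)) ≠ R.nxt s b := n2
  replace n3 : R.nxt s (R.nxt s (R.nxt s b)) ≠ R.nxt s (R.nxt s b) := n3
  have m1 : b ≠ R.nxt s b := fun e => n3 (congrArg (fun z => R.nxt s (R.nxt s z)) e.symm)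
  have m2 : b ≠ R.nxt s (R.nxt s b) := fun e => n2 (congrArg (R.nxt s) e.symm)
  have m3 : R.nxt s b ≠ R.nxt s (R.nxt s b) := fun e => n3 (congrArg (R.nxt s) e.symm)
  have hset : ({b, R.nxt s b, R.nxt s (R.nxt s b), R.nxt s (R.nxt s (R.nxt s b))} : Set V) =
      G.neighborSet s := by
    refine Set.eq_of_subset_of_ncard_le ?_ ?_ (Set.toFinite _)
    · intro w hw
      rcases hw with rfl | rfl | rfl | hw
      · exact h
      · exact a1
      · exact a2
      · rw [Set.mem_singleton_iff.1 hw]; exact a3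
    · rw [h4, Set.ncard_insert_of_notMem, Set.ncard_insert_of_notMem, Set.ncard_pair n3.symm]
      · simp only [Set.mem_insert_iff, Set.mem_singleton_iff, not_or]
        exact ⟨m3, n2.symm⟩
      · simp only [Set.mem_insert_iff, Set.mem_singleton_iff, not_or]
        exact ⟨m1, m2, n1.symm⟩
  have hmem : ∀ w, G.Adj s w ↔ w = b ∨ w = R.nxt s b ∨ w = R.nxt s (R.nxt s b) ∨
      w = R.nxt s (R.nxt s (R.nxt s b)) := by
    intro w
    rw [← SimpleGraph.mem_neighborSet, ← hset]
    simp
  refine ⟨hmem, m1, m2, n1.symm, m3, n2.symm, n3.symm, ?_⟩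
  rcases (hmem _).1 (R.adj_nxt _ _ a3) with e | e | e | e
  · exact e
  · exact absurd (R.nxt_inj a3 h e) n1
  · exact absurd (R.nxt_inj a3 a1 e) n2
  · exact absurd (R.nxt_inj a3 a2 e) n3

lemma opp_opp (R : Rotation G) {s b : V} (h4 : (G.neighborSet s).ncard = 4) (h : G.Adj s b) :
    opp R s (opp R s b) = b :=
  (deg4 R h4 h).2.2.2.2.2.2.2

open Classical in
lemma sum_darts_step (R : Rotation G) (φ : V → V → F) :
    (∑ u, ∑ v, if G.Adj u v then φ v (R.nxt v u) else 0) =
      ∑ u, ∑ v, if G.Adj u v then φ u v else 0 := by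
  rw [Finset.sum_comm]
  refine Finset.sum_congr rfl fun v _ => ?_
  rw [← sum_nxt R v (φ v)]
  refine Finset.sum_congr rfl fun u _ => ?_
  simp only [G.adj_comm u v]

open Classical in
lemma sum_darts_edge [Fintype G.edgeSet] (o : G.edgeSet → V × V)
    (ho : ∀ e, s((o e).1, (o e).2) = (e : Sym2 V)) (φ : V → V → F) :
    (∑ u, ∑ v, if G.Adj u v then φ u v else 0) =
      ∑ e, (φ (o e).1 (o e).2 + φ (o e).2 (o e).1) := by
  have h1 : ∀ u v : V, (if G.Adj u v then φ u v else 0) =
      ∑ e : G.edgeSet, if s(u, v) = (e : Sym2 V) then φ u v else 0 := by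
    intro u v
    split_ifs with h
    · rw [Finset.sum_eq_single (⟨s(u, v), h⟩ : G.edgeSet)]
      · simp
      · intro e _ he
        rw [if_neg]
        intro hc
        exact he (Subtype.ext hc.symm)
      · intro hc
        exact absurd (Finset.mem_univ _) hc
    · symm
      refine Finset.sum_eq_zero fun e _ => ?_
      rw [if_neg]
      intro hc
      apply h
      rw [← SimpleGraph.mem_edgeSet, hc]
      exact e.2
  simp only [h1]
  have h2 : (∑ u : V, ∑ v : V, ∑ e : G.edgeSet, if s(u, v) = (e : Sym2 V) then φ u v else 0) =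
      ∑ e : G.edgeSet, ∑ u : V, ∑ v : V, if s(u, v) = (e : Sym2 V) then φ u v else 0 := by
    rw [Finset.sum_congr rfl fun u _ => Finset.sum_comm, Finset.sum_comm]
  rw [h2]
  refine Finset.sum_congr rfl fun e _ => ?_
  have hab : (o e).1 ≠ (o e).2 := by
    have h3 : s((o e).1, (o e).2) ∈ G.edgeSet := by
      rw [ho e]
      exact e.2
    exact ((SimpleGraph.mem_edgeSet G).1 h3).ne
  rw [← ho e]
  have h4 : ∀ u v : V, (if s(u, v) = s((o e).1, (o e).2) then φ u v else 0) =
      (if u = (o e).1 then (if v = (o e).2 then φ (o e).1 (o e).2 else 0) else 0) +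
      (if u = (o e).2 then (if v = (o e).1 then φ (o e).2 (o e).1 else 0) else 0) := by
    intro u v
    simp only [Sym2.eq_iff]
    by_cases h5 : u = (o e).1
    · subst h5
      rw [if_neg hab, if_pos rfl, add_zero]
      by_cases h6 : v = (o e).2
      · rw [if_pos (Or.inl ⟨rfl, h6⟩), if_pos h6, h6]
      · rw [if_neg, if_neg h6]
        rintro (⟨_, h7⟩ | ⟨h7, _⟩)
        · exact h6 h7
        · exact hab h7
    · rw [if_neg h5, zero_add]
      by_cases h6 : u = (o e).2
      · rw [if_pos h6]
        by_cases h7 : v = (o e).1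
        · rw [if_pos (Or.inr ⟨h6, h7⟩), if_pos h7, h6, h7]
        · rw [if_neg, if_neg h7]
          rintro (⟨h8, _⟩ | ⟨_, h8⟩)
          · exact h5 h8
          · exact h7 h8
      · rw [if_neg h6, if_neg]
        rintro (⟨h8, _⟩ | ⟨h8, _⟩)
        · exact h5 h8
        · exact h6 h8
  simp only [h4, Finset.sum_add_distrib]
  congr 1
  · rw [Finset.sum_eq_single (o e).1 (fun u _ hu => by simp [hu])
      (fun hc => absurd (Finset.mem_univ _) hc)]
    simp
  · rw [Finset.sum_eq_single (o e).2 (fun u _ hu => by simp [hu])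
      (fun hc => absurd (Finset.mem_univ _) hc)]
    simp

end Pool.Agent.AC5
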