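import Pool.Agent.AC5.Defs

set_option autoImplicit false

/-!
# AC5/SphCB: on the sphere every cycle is a sum of face boundaries (MP_289c47_co, helper88)

PROOF. Let `d : (B → F) →ₗ (E → F)`, `d f e = f (s e) + f (t e)` and `δ : (Φ → F) →ₗ (E → F)`,
`δ g e = g (l e) + g (r e)`. `S.even` says `range δ ≤ cyc s t` (write the product as
`(δ g) e * (f (s e) + f (t e))`). Dimensions:
(1) `finrank (ker δ) ≤ 1`: `g ∈ ker δ` means `g (l e) + g (r e) = 0`, so `g (l e) = g (r e)` (characteristic two),
so `g` is constant (`S.dual`); a space of constant functions has dimension at most one (it is contained in the span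
of the function `1`). So `finrank (range δ) + 1 ≥ card Φ`.
(2) `finrank (ker d) ≤ 1` in the same way, so `finrank (range d) + 1 ≥ card B`.
(3) `finrank (cyc s t) + finrank (range d) = card E`: `cyc s t` is the orthogonal complement of `range d` for the dot
product on `E → F`. (For example: the map `E → F` to the dual of `range d` given by `z ↦ (w ↦ ∑ e, z e * w e)` has
kernel `cyc s t` and is surjective because every functional on a subspace extends and every functional on `E → F` is
a dot product; or use `Matrix.rank_transpose` for the matrix `M b e = [s e = b] + [t e = b]`, or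
`LinearMap.BilinForm.finrank_orthogonal` for the nondegenerate form `dotProduct`. Only `≤` is needed:
`finrank (cyc s t) + finrank (range d) ≤ card E`.)
So `finrank (cyc s t) ≤ card E - card B + 1 = card Φ - 1 ≤ finrank (range δ)` (`S.euler`), hence
`range δ = cyc s t` (`Submodule.eq_of_le_of_finrank_le`). This is `cb`.
`ts`: the family `δ (Pi.single φ 1)`, `φ : Φ`, indexed by `Fin (card Φ)` via `Fintype.equivFin`, spans
`range δ = cyc s t` (`Pi.basisFun`, `LinearMap.range_eq_map`, `Submodule.map_span`, `Basis.span_eq`); its value at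
`e` is nonzero only for `φ = l e` or `φ = r e`: at most two (`Set.ncard_le_ncard` into `{l e, r e}`,
`Set.ncard_insert_le`).
-/

namespace Pool.Agent.AC5

variable {B E Φ : Type} [Fintype B] [Fintype E] [Fintype Φ]

/-- the coboundary of the faces -/
private noncomputable def dl (S : Sph B E Φ) : (Φ → F) →ₗ[F] (E → F) where
  toFun g := fun e => g (S.l e) + g (S.r e)
  map_add' x y := by funext e; simp only [Pi.add_apply]; ring
  map_smul' a x := by funext e; simp only [Pi.smul_apply, smul_eq_mul, RingHom.id_apply]; ring

/-- the coboundary of the vertices -/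
private noncomputable def dv (S : Sph B E Φ) : (B → F) →ₗ[F] (E → F) where
  toFun g := fun e => g (S.s e) + g (S.t e)
  map_add' x y := by funext e; simp only [Pi.add_apply]; ring
  map_smul' a x := by funext e; simp only [Pi.smul_apply, smul_eq_mul, RingHom.id_apply]; ring

private lemma F_eq {a b : F} (h : a + b = 0) : a = b := by
  revert a b
  decide

private lemma ker_le_one {A : Type} [Fintype A] (W : Submodule F (A → F))
    (h : ∀ g ∈ W, ∀ x y, g x = g y) : Module.finrank F W ≤ 1 := by
  have hW : W ≤ Submodule.span F {(fun _ => 1 : A → F)} := by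
    intro g hg
    rw [Submodule.mem_span_singleton]
    by_cases hA : Nonempty A
    · obtain ⟨a⟩ := hA
      refine ⟨g a, ?_⟩
      funext x
      simp only [Pi.smul_apply, smul_eq_mul, mul_one]
      exact h g hg a x
    · refine ⟨0, ?_⟩
      funext x
      exact absurd ⟨x⟩ hA
  refine (Submodule.finrank_mono hW).trans ?_
  refine (finrank_span_le_card _).trans ?_
  simp

private lemma range_eq (S : Sph B E Φ) : LinearMap.range (dl S) = cyc S.s S.t := by
  have hle : LinearMap.range (dl S) ≤ cyc S.s S.t := by
    rintro _ ⟨g, rfl⟩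
    exact fun f => S.even g f
  refine Submodule.eq_of_le_of_finrank_le hle ?_
  have h1 : Module.finrank F (LinearMap.ker (dl S)) ≤ 1 := by
    apply ker_le_one
    intro g hg
    apply S.dual
    intro e
    exact F_eq (congrFun (LinearMap.mem_ker.1 hg) e)
  have h2 : Module.finrank F (LinearMap.ker (dv S)) ≤ 1 := by
    apply ker_le_one
    intro g hg
    apply S.conn
    intro e
    exact F_eq (congrFun (LinearMap.mem_ker.1 hg) e)
  have h3 := LinearMap.finrank_range_add_finrank_ker (dl S)
  have h4 := LinearMap.finrank_range_add_finrank_ker (dv S)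
  have h5 := Subspace.finrank_add_finrank_dualAnnihilator_eq (LinearMap.range (dv S))
  rw [Module.finrank_fintype_fun_eq_card] at h3 h4 h5
  have h6 : Module.finrank F (cyc S.s S.t) ≤
      Module.finrank F (LinearMap.range (dv S)).dualAnnihilator := by
    classical
    have hmap : (cyc S.s S.t).map (dotProductEquiv F E).toLinearMap ≤
        (LinearMap.range (dv S)).dualAnnihilator := by
      rintro _ ⟨z, hz, rfl⟩
      rw [Submodule.mem_dualAnnihilator]
      rintro _ ⟨f, rfl⟩
      exact hz f
    have h7 := LinearEquiv.finrank_map_eq (dotProductEquiv F E) (cyc S.s S.t)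
    rw [← h7]
    exact Submodule.finrank_mono hmap
  have h8 := S.euler
  omega

theorem Sph.cb (S : Sph B E Φ) {z : E → F} (hz : z ∈ cyc S.s S.t) :
    ∃ g : Φ → F, ∀ e, z e = g (S.l e) + g (S.r e) := by
  rw [← range_eq] at hz
  obtain ⟨g, hg⟩ := hz
  exact ⟨g, fun e => (congrFun hg e).symm⟩

theorem Sph.ts (S : Sph B E Φ) : TS (cyc S.s S.t) := by
  classical
  refine ⟨Fintype.card Φ, fun j => dl S (Pi.single ((Fintype.equivFin Φ).symm j) 1), ?_, ?_⟩
  · rw [← range_eq, LinearMap.range_eq_map, ← (Pi.basisFun F Φ).span_eq, Submodule.map_span]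
    congr 1
    ext z
    constructor
    · rintro ⟨j, rfl⟩
      exact ⟨_, ⟨(Fintype.equivFin Φ).symm j, rfl⟩, by simp [Pi.basisFun_apply]⟩
    · rintro ⟨_, ⟨φ, rfl⟩, rfl⟩
      exact ⟨Fintype.equivFin Φ φ, by simp [Pi.basisFun_apply]⟩
  · intro e
    have hsub : {j | dl S (Pi.single ((Fintype.equivFin Φ).symm j) 1) e ≠ 0} ⊆
        {Fintype.equivFin Φ (S.l e), Fintype.equivFin Φ (S.r e)} := by
      intro j hj
      by_contra hcon
      apply hj
      simp only [Set.mem_insert_iff, Set.mem_singleton_iff, not_or] at hcon
      have e1 : (Fintype.equivFin Φ).symm j ≠ S.l e := fun h => hcon.1 (by rw [← h]; simp)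
      have e2 : (Fintype.equivFin Φ).symm j ≠ S.r e := fun h => hcon.2 (by rw [← h]; simp)
      show (Pi.single ((Fintype.equivFin Φ).symm j) 1 : Φ → F) (S.l e) +
        (Pi.single ((Fintype.equivFin Φ).symm j) 1 : Φ → F) (S.r e) = 0
      rw [Pi.single_eq_of_ne e1.symm, Pi.single_eq_of_ne e2.symm, add_zero]
    refine (Set.ncard_le_ncard hsub (Set.toFinite _)).trans ?_
    exact (Set.ncard_insert_le _ _).trans (by simp)

end Pool.Agent.AC5
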