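import Pool.Agent.AC5.Rot
import Pool.Agent.AC5.SphCB

set_option autoImplicit false

/-!
# AC5/SphG: a connected graph with a rotation system of Euler characteristic two (MP_289c47_co, helper88)

PROOF. `connF`: let `x y : V`; `hc.preconnected x y` gives a walk; induction along the walk.
`dualF`: for every `v` and neighbours `w`, `w'`: `y v w = y v w'` (`const_nxt` for `fun w => y v w`, since
`y v w = y w v = y v (R.nxt v w)` by `h2` and `h1` applied to the dart `(w, v)`). So there is a function `f : V → F`
with `y v w = f v` for `Adj v w` (`f v = y v (chosen neighbour)`), and `f v = y v w = y w v = f w` for adjacent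
`v, w`; by `connF` it is constant.
`sphG`: the structure with `s e = (o e).1`, `t e = (o e).2`, `l e = ⟨R.face (o e), _⟩`,
`r e = ⟨R.face ((o e).2, (o e).1), _⟩` (both are faces because `G.Adj (o e).1 (o e).2`: the pair is the edge `e`).
`even`: put `ψ u v = g (face of (u, v))` (extended by `0` when `(u, v)` is not a dart) and
`φ u v = ψ u v * (f u + f v)`. The sum is `∑ e, (φ (o e).1 (o e).2 + φ (o e).2 (o e).1)`, which is the sum of `φ` over
the darts (`sum_darts_edge`) `= ∑_{darts} ψ u v * f u + ∑_{darts} ψ u v * f v`. By `sum_darts_step` for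
`fun u v => ψ u v * f u`: the first sum equals `∑_{darts} ψ v (nxt v u) * f v`, and
`ψ v (nxt v u) = ψ u v` because the face of `(v, nxt v u) = R.faceStep (u, v)` is the face of `(u, v)`
(`Rotation.face_step`). So the total is `2 * _ = 0`.
`conn`: adjacent vertices `u, v` are the ends of the edge `s(u, v)`, so `connF` applies.
`dual`: put `y u v = g (face of (u, v))` for darts; `dualF` gives that it is constant on darts; every face is the face
of a dart.
`euler`: `Nat.card V = Fintype.card V`, `Set.ncard` of `R.faces` and `G.edgeSet` are the cardinalities of the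
subtypes (`Nat.card_coe_set_eq`, `Nat.card_eq_fintype_card`).
-/

namespace Pool.Agent.AC5

open Pool.Agent.H18Thick (Rotation)

variable {V : Type} {G : SimpleGraph V}

lemma connF {α : Type} (hc : G.Connected) (f : V → α) (h : ∀ u v, G.Adj u v → f u = f v) (x y : V) :
    f x = f y := by
  obtain ⟨p⟩ := hc.preconnected x y
  induction p with
  | nil => rfl
  | cons h' _ ih => exact (h _ _ h').trans ih

lemma dualF (hc : G.Connected) (R : Rotation G) (y : V → V → F)
    (h1 : ∀ u v, G.Adj u v → y u v = y v (R.nxt v u)) (h2 : ∀ u v, G.Adj u v → y u v = y v u)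
    {u v u' v' : V} (h : G.Adj u v) (h' : G.Adj u' v') : y u v = y u' v' := by
  classical
  have key : ∀ v w w', G.Adj v w → G.Adj v w' → y v w = y v w' := by
    intro v w w' hw hw'
    refine const_nxt R v (fun w => y v w) (fun b hb => ?_) hw hw'
    show y v (R.nxt v b) = y v b
    rw [← h1 b v hb.symm, h2 b v hb.symm]
  let f : V → F := fun v => if h : ∃ w, G.Adj v w then y v h.choose else 0
  have hf : ∀ v w, G.Adj v w → y v w = f v := by
    intro v w hvw
    have hex : ∃ w, G.Adj v w := ⟨w, hvw⟩
    have e : f v = y v hex.choose := dif_pos hex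
    rw [e]
    exact key v w _ hvw hex.choose_spec
  rw [hf u v h, hf u' v' h']
  refine connF hc f (fun a b hab => ?_) u u'
  rw [← hf a b hab, ← hf b a hab.symm]
  exact h2 a b hab

theorem sphG [Fintype V] [Fintype G.edgeSet] (hc : G.Connected) (R : Rotation G) [Fintype R.faces]
    (he : Nat.card V + R.faces.ncard = G.edgeSet.ncard + 2) (o : G.edgeSet → V × V)
    (ho : ∀ e, s((o e).1, (o e).2) = (e : Sym2 V)) :
    ∃ S : Sph V G.edgeSet R.faces, (∀ e, S.s e = (o e).1) ∧ (∀ e, S.t e = (o e).2) ∧
      (∀ e, (S.l e : Set (V × V)) = R.face ((o e).1, (o e).2)) ∧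
      ∀ e, (S.r e : Set (V × V)) = R.face ((o e).2, (o e).1) := by
  classical
  have hadj : ∀ e, G.Adj (o e).1 (o e).2 := by
    intro e
    rw [← SimpleGraph.mem_edgeSet, ho e]
    exact e.2
  let fc : ∀ u v, G.Adj u v → R.faces := fun u v h => ⟨R.face (u, v), u, v, h, rfl⟩
  have hfc : ∀ u v (h : G.Adj u v), fc v (R.nxt v u) (R.adj_nxt v u h.symm) = fc u v h := by
    intro u v h
    apply Subtype.ext
    exact R.face_step (d := (u, v)) h
  -- a function on the faces, as a function on the pairs
  have edge_of : ∀ u v, G.Adj u v → ∃ e : G.edgeSet, (o e = (u, v)) ∨ (o e = (v, u)) := by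
    intro u v h
    refine ⟨⟨s(u, v), h⟩, ?_⟩
    have h1 := ho ⟨s(u, v), h⟩
    rcases Sym2.eq_iff.1 h1 with ⟨h2, h3⟩ | ⟨h2, h3⟩
    · left
      exact Prod.ext h2 h3
    · right
      exact Prod.ext h2 h3
  refine ⟨{ s := fun e => (o e).1, t := fun e => (o e).2,
            l := fun e => fc (o e).1 (o e).2 (hadj e),
            r := fun e => fc (o e).2 (o e).1 (hadj e).symm,
            even := ?_, conn := ?_, dual := ?_, euler := ?_ },
    fun _ => rfl, fun _ => rfl, fun _ => rfl, fun _ => rfl⟩
  · intro g f
    let ψ : V → V → F := fun u v => if h : G.Adj u v then g (fc u v h) else 0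
    have hψ : ∀ u v (h : G.Adj u v), ψ u v = g (fc u v h) := fun u v h => dif_pos h
    have e1 : (∑ e, (g (fc (o e).1 (o e).2 (hadj e)) + g (fc (o e).2 (o e).1 (hadj e).symm)) *
        (f (o e).1 + f (o e).2)) =
        ∑ e, ((fun u v => ψ u v * (f u + f v)) (o e).1 (o e).2 +
          (fun u v => ψ u v * (f u + f v)) (o e).2 (o e).1) := by
      refine Finset.sum_congr rfl fun e _ => ?_
      show _ = ψ (o e).1 (o e).2 * (f (o e).1 + f (o e).2) +
        ψ (o e).2 (o e).1 * (f (o e).2 + f (o e).1)
      rw [hψ _ _ (hadj e), hψ _ _ (hadj e).symm]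
      ring
    refine (e1.trans (sum_darts_edge o ho (fun u v => ψ u v * (f u + f v))).symm).trans ?_
    have e2 : (∑ u, ∑ v, if G.Adj u v then ψ u v * (f u + f v) else 0) =
        (∑ u, ∑ v, if G.Adj u v then ψ u v * f u else 0) +
          ∑ u, ∑ v, if G.Adj u v then ψ u v * f v else 0 := by
      rw [← Finset.sum_add_distrib]
      refine Finset.sum_congr rfl fun u _ => ?_
      rw [← Finset.sum_add_distrib]
      refine Finset.sum_congr rfl fun v _ => ?_
      split_ifs
      · ring
      · ring
    have e3 : (∑ u, ∑ v, if G.Adj u v then ψ u v * f v else 0) =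
        ∑ u, ∑ v, if G.Adj u v then ψ u v * f u else 0 := by
      rw [← sum_darts_step R (fun u v => ψ u v * f u)]
      refine Finset.sum_congr rfl fun u _ => Finset.sum_congr rfl fun v _ => ?_
      by_cases h : G.Adj u v
      · rw [if_pos h, if_pos h, hψ _ _ h, hψ _ _ (R.adj_nxt v u h.symm), hfc u v h]
      · rw [if_neg h, if_neg h]
    show (∑ u, ∑ v, if G.Adj u v then ψ u v * (f u + f v) else 0) = 0
    rw [e2, e3]
    exact CharTwo.add_self_eq_zero _
  · intro f hf x y
    refine connF hc f (fun u v h => ?_) x y
    obtain ⟨e, h1 | h1⟩ := edge_of u v h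
    · have := hf e
      rw [h1] at this
      exact this
    · have := hf e
      rw [h1] at this
      exact this.symm
  · intro g hg x y
    let ψ : V → V → F := fun u v => if h : G.Adj u v then g (fc u v h) else 0
    have hψ : ∀ u v (h : G.Adj u v), ψ u v = g (fc u v h) := fun u v h => dif_pos h
    have h2 : ∀ u v, G.Adj u v → ψ u v = ψ v u := by
      intro u v h
      rw [hψ _ _ h, hψ _ _ h.symm]
      obtain ⟨e, h1 | h1⟩ := edge_of u v h
      · have h3 := hg e
        have h4 : ∀ (a b : V) (hab : G.Adj a b), o e = (a, b) →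
            fc (o e).1 (o e).2 (hadj e) = fc a b hab ∧
            fc (o e).2 (o e).1 (hadj e).symm = fc b a hab.symm := by
          intro a b hab hoe
          constructor
          · apply Subtype.ext
            show R.face ((o e).1, (o e).2) = R.face (a, b)
            rw [hoe]
          · apply Subtype.ext
            show R.face ((o e).2, (o e).1) = R.face (b, a)
            rw [hoe]
        obtain ⟨h5, h6⟩ := h4 u v h h1
        rw [← h5, ← h6]
        exact h3
      · have h3 := hg e
        have h4 : ∀ (a b : V) (hab : G.Adj a b), o e = (a, b) →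
            fc (o e).1 (o e).2 (hadj e) = fc a b hab ∧
            fc (o e).2 (o e).1 (hadj e).symm = fc b a hab.symm := by
          intro a b hab hoe
          constructor
          · apply Subtype.ext
            show R.face ((o e).1, (o e).2) = R.face (a, b)
            rw [hoe]
          · apply Subtype.ext
            show R.face ((o e).2, (o e).1) = R.face (b, a)
            rw [hoe]
        obtain ⟨h5, h6⟩ := h4 v u h.symm h1
        rw [← h5, ← h6]
        exact h3.symm
    have h1 : ∀ u v, G.Adj u v → ψ u v = ψ v (R.nxt v u) := by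
      intro u v h
      rw [hψ _ _ h, hψ _ _ (R.adj_nxt v u h.symm), hfc u v h]
    obtain ⟨x, u, v, h, rfl⟩ := x
    obtain ⟨y, u', v', h', rfl⟩ := y
    have h5 := dualF hc R ψ h1 h2 h h'
    rw [hψ _ _ h, hψ _ _ h'] at h5
    exact h5
  · rw [← Nat.card_eq_fintype_card, ← Nat.card_eq_fintype_card, ← Nat.card_eq_fintype_card,
      Nat.card_coe_set_eq, Nat.card_coe_set_eq]
    exact he

end Pool.Agent.AC5
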