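import Pool.Agent.AC5.CB

set_option autoImplicit false

/-!
# AC5/St1: steps of the induction: gluing (MP_289c47_co, helper88)

All sets are finite (`[Finite B]`), so `Set.ncard_lt_ncard` gives the inequalities for `IH`.

PROOF. `step_iso` (no vertex of `U` is adjacent to `Z`; then `P = ∅` by `PX`, `PU`): if `U = ∅` take `c = c0`.
Otherwise take `u ∈ U` and a colour `α ∈ L u` (the list has five elements by `l5`). Instance `Z' = {u}`,
`U' = U \ {u}`, `P' = ∅`, `L' v = (L v).erase α` if `Γ.Adj u v` and `L v` otherwise: the lists of the neighbours of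
`u` have at least four elements, those of the others five. `IH` gives `c`; the result is `c` changed at `u` to `α`
(`Function.update`); it is proper: for `v ∈ U'` adjacent to `u`, `c v ∈ (L v).erase α`.
`step_disc`: let `D ⊆ U` be nonempty, `≠ U`, closed in `U` with closed complement (`not_conn_split`). `P` is a clique, so
`P ⊆ D` or `P ∩ D = ∅` (if `p ∈ P ∩ D`, `q ∈ P`, `q ≠ p`, then `p ~ q`, so `q ∈ D`). Replacing `D` by `U \ D` we may
assume `P ∩ D = ∅`. Instances `(Z, U \ D, P)` and `(Z, D, ∅)` with the same lists; combine: `c v = c2 v` for `v ∈ D`,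
`c1 v` otherwise; there are no edges between `D` and `U \ D`.
`step_free`: `D ⊆ U \ {u}` nonempty, closed in `U \ {u}`, no vertex of `D` adjacent to `Z` (so `P ∩ D = ∅`).
`(Z, U \ D, P)` is an instance; let `c1` be its colouring, `α = c1 u` (`u ∈ U \ D`). Second instance: `Z' = {u}`,
`U' = D`, `P' = ∅`, `L' v = (L v).erase α` for `v ~ u`, `L v` otherwise (lists of size five before, at least four
after). Combine: `c v = c2 v` for `v ∈ D`, `c1 v` otherwise. An edge between `x ∈ D` and `y ∈ U \ D` has `y = u`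
(closedness), and `c2 x ∈ (L x).erase α`.
-/

namespace Pool.Agent.AC5

variable {B : Type} [Finite B] {Γ : SimpleGraph B} {Z U P : Set B} {L : B → Finset ℕ} {c0 : B → ℕ}

private lemma erase_inst {U P : Set B} {L : B → Finset ℕ} {c : B → ℕ} {u : B} {α : ℕ}
    (hu : u ∉ U) (h5 : ∀ v ∈ U, 5 ≤ (L v).card) :
    Inst Γ {u} U ∅ (fun v => by classical exact if Γ.Adj u v then (L v).erase α else L v) c where
  cZ := Conn.singleton u
  dis := Set.disjoint_singleton_left.2 hu
  PU := Set.empty_subset _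
  PX := fun p hp => hp.elim
  Pc := by simp
  clq := fun p hp => hp.elim
  pro := fun p hp => hp.elim
  l3 := by
    intro v hv _
    have h1 := h5 v hv
    split_ifs
    · have h2 := Finset.pred_card_le_card_erase (s := L v) (a := α)
      omega
    · omega
  l5 := by
    intro v hv hn
    have h1 := h5 v hv
    rw [if_neg]
    · exact h1
    · exact fun h => hn ⟨u, rfl, h⟩

theorem step_iso (ih : IH Γ U) (h : Inst Γ Z U P L c0) (hX : ∀ v ∈ U, ¬ nb Γ Z v) :
    Ext Γ U P L c0 := by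
  classical
  have hP : ∀ p, p ∉ P := fun p hp => hX p (h.PU hp) (h.PX p hp)
  by_cases hne : U.Nonempty
  · obtain ⟨u, hu⟩ := hne
    have h5 : ∀ v ∈ U, 5 ≤ (L v).card := fun v hv => h.l5 v hv (hX v hv)
    have hpos : 0 < (L u).card := by
      have := h5 u hu
      omega
    obtain ⟨α, hα⟩ := Finset.card_pos.1 hpos
    have hlt : (U \ {u}).ncard < U.ncard := Set.ncard_sdiff_singleton_lt_of_mem hu
    obtain ⟨c, -, hc1, hc2⟩ := ih {u} (U \ {u}) ∅ _ c0 hlt
      (erase_inst (Γ := Γ) (L := L) (c := c0) (α := α) (u := u) (P := ∅)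
        (fun hh => hh.2 rfl) (fun v hv => h5 v hv.1))
    have hmem : ∀ v ∈ U, v ≠ u → c v ∈ L v ∧ (Γ.Adj u v → c v ≠ α) := by
      intro v hv hvu
      have h1 := hc1 v ⟨hv, hvu⟩ (Set.notMem_empty v)
      dsimp only at h1
      by_cases ha : Γ.Adj u v
      · rw [if_pos ha, Finset.mem_erase] at h1
        exact ⟨h1.2, fun _ => h1.1⟩
      · rw [if_neg ha] at h1
        exact ⟨h1, fun hh => absurd hh ha⟩
    refine ⟨Function.update c u α, fun p hp => absurd hp (hP p), ?_, ?_⟩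
    · intro v hv _
      by_cases hvu : v = u
      · rw [hvu, Function.update_self]
        exact hα
      · rw [Function.update_of_ne hvu]
        exact (hmem v hv hvu).1
    · intro x hx y hy hxy
      by_cases hxu : x = u
      · have hyu : y ≠ u := by
          rintro rfl
          exact hxy.ne hxu
        rw [hxu, Function.update_self, Function.update_of_ne hyu]
        rw [hxu] at hxy
        exact ((hmem y hy hyu).2 hxy).symm
      · by_cases hyu : y = u
        · rw [hyu, Function.update_self, Function.update_of_ne hxu]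
          rw [hyu] at hxy
          exact (hmem x hx hxu).2 hxy.symm
        · rw [Function.update_of_ne hxu, Function.update_of_ne hyu]
          exact hc2 x ⟨hx, hxu⟩ y ⟨hy, hyu⟩ hxy
  · rw [Set.not_nonempty_iff_eq_empty] at hne
    refine ⟨c0, fun p _ => rfl, ?_, ?_⟩
    · intro v hv
      rw [hne] at hv
      exact hv.elim
    · intro v hv
      rw [hne] at hv
      exact hv.elim

private lemma glue_aux (ih : IH Γ U) (h : Inst Γ Z U P L c0) {D : Set B} (hD : D ⊆ U)
    (h0 : D.Nonempty) (h1 : (U \ D).Nonempty) (hcl : ∀ x ∈ D, ∀ y ∈ U, Γ.Adj x y → y ∈ D)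
    (hPD : ∀ p ∈ P, p ∉ D) : Ext Γ U P L c0 := by
  classical
  have hi1 : Inst Γ Z (U \ D) P L c0 :=
    { cZ := h.cZ
      dis := h.dis.mono_right Set.sdiff_subset
      PU := fun p hp => ⟨h.PU hp, hPD p hp⟩
      PX := h.PX
      Pc := h.Pc
      clq := h.clq
      pro := h.pro
      l3 := fun v hv hvP => h.l3 v hv.1 hvP
      l5 := fun v hv hn => h.l5 v hv.1 hn }
  have hi2 : Inst Γ Z D ∅ L c0 :=
    { cZ := h.cZ
      dis := h.dis.mono_right hD
      PU := Set.empty_subset _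
      PX := fun p hp => hp.elim
      Pc := by simp
      clq := fun p hp => hp.elim
      pro := fun p hp => hp.elim
      l3 := fun v hv _ => h.l3 v (hD hv) (fun hh => hPD v hh hv)
      l5 := fun v hv hn => h.l5 v (hD hv) hn }
  have hlt1 : (U \ D).ncard < U.ncard := by
    apply Set.ncard_lt_ncard _ (Set.toFinite U)
    obtain ⟨d, hd⟩ := h0
    exact ⟨Set.sdiff_subset, fun hh => (hh (hD hd)).2 hd⟩
  have hlt2 : D.ncard < U.ncard := by
    apply Set.ncard_lt_ncard _ (Set.toFinite U)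
    obtain ⟨d, hd⟩ := h1
    exact ⟨hD, fun hh => hd.2 (hh hd.1)⟩
  obtain ⟨c1, a1, a2, a3⟩ := ih Z (U \ D) P L c0 hlt1 hi1
  obtain ⟨c2, -, b2, b3⟩ := ih Z D ∅ L c0 hlt2 hi2
  refine ⟨fun v => if v ∈ D then c2 v else c1 v, ?_, ?_, ?_⟩
  · intro p hp
    show (if p ∈ D then c2 p else c1 p) = c0 p
    rw [if_neg (hPD p hp)]
    exact a1 p hp
  · intro v hv hvP
    show (if v ∈ D then c2 v else c1 v) ∈ L v
    by_cases hvD : v ∈ D
    · rw [if_pos hvD]
      exact b2 v hvD (Set.notMem_empty v)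
    · rw [if_neg hvD]
      exact a2 v ⟨hv, hvD⟩ hvP
  · intro x hx y hy hxy
    show (if x ∈ D then c2 x else c1 x) ≠ (if y ∈ D then c2 y else c1 y)
    by_cases hxD : x ∈ D
    · have hyD := hcl x hxD y hy hxy
      rw [if_pos hxD, if_pos hyD]
      exact b3 x hxD y hyD hxy
    · have hyD : y ∉ D := fun hh => hxD (hcl y hh x hx hxy.symm)
      rw [if_neg hxD, if_neg hyD]
      exact a3 x ⟨hx, hxD⟩ y ⟨hy, hyD⟩ hxy

theorem step_disc (ih : IH Γ U) (h : Inst Γ Z U P L c0) (h0 : U.Nonempty) (hU : ¬ Conn Γ U) :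
    Ext Γ U P L c0 := by
  classical
  obtain ⟨D, hD, hD0, hDU, hcl, hcl'⟩ := not_conn_split h0 hU
  have hD1 : (U \ D).Nonempty := by
    by_contra hh
    rw [Set.not_nonempty_iff_eq_empty, Set.sdiff_eq_empty] at hh
    exact hDU (Set.Subset.antisymm hD hh)
  by_cases hP : ∀ p ∈ P, p ∉ D
  · exact glue_aux ih h hD hD0 hD1 hcl hP
  · push Not at hP
    obtain ⟨p, hp, hpD⟩ := hP
    refine glue_aux ih h (D := U \ D) Set.sdiff_subset hD1 ?_ ?_ ?_
    · obtain ⟨d, hd⟩ := hD0
      exact ⟨d, hD hd, fun hh => hh.2 hd⟩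
    · intro x hx y hy hxy
      exact ⟨hy, hcl' x hx.1 hx.2 y hy hxy⟩
    · intro q hq hh
      by_cases hqp : q = p
      · rw [hqp] at hh
        exact hh.2 hpD
      · exact hh.2 (hcl p hpD q (h.PU hq) (h.clq p hp q hq (fun h' => hqp h'.symm)))

theorem step_free (ih : IH Γ U) (h : Inst Γ Z U P L c0) {u : B} (hu : u ∈ U) {D : Set B}
    (hD : D ⊆ U \ {u}) (h0 : D.Nonempty) (hcl : ∀ x ∈ D, ∀ y ∈ U \ {u}, Γ.Adj x y → y ∈ D)
    (hX : ∀ v ∈ D, ¬ nb Γ Z v) : Ext Γ U P L c0 := by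
  classical
  have hDU : D ⊆ U := fun x hx => (hD hx).1
  have huD : u ∉ D := fun hh => (hD hh).2 rfl
  have hPD : ∀ p ∈ P, p ∉ D := fun p hp hh => hX p hh (h.PX p hp)
  have hi1 : Inst Γ Z (U \ D) P L c0 :=
    { cZ := h.cZ
      dis := h.dis.mono_right Set.sdiff_subset
      PU := fun p hp => ⟨h.PU hp, hPD p hp⟩
      PX := h.PX
      Pc := h.Pc
      clq := h.clq
      pro := h.pro
      l3 := fun v hv hvP => h.l3 v hv.1 hvP
      l5 := fun v hv hn => h.l5 v hv.1 hn }
  have hlt1 : (U \ D).ncard < U.ncard := by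
    apply Set.ncard_lt_ncard _ (Set.toFinite U)
    obtain ⟨d, hd⟩ := h0
    exact ⟨Set.sdiff_subset, fun hh => (hh (hDU hd)).2 hd⟩
  have hlt2 : D.ncard < U.ncard := by
    apply Set.ncard_lt_ncard _ (Set.toFinite U)
    exact ⟨hDU, fun hh => huD (hh hu)⟩
  obtain ⟨c1, a1, a2, a3⟩ := ih Z (U \ D) P L c0 hlt1 hi1
  obtain ⟨c2, -, b2, b3⟩ := ih {u} D ∅ _ c0 hlt2
    (erase_inst (Γ := Γ) (L := L) (c := c0) (α := c1 u) (u := u) (P := ∅) huD
      (fun v hv => h.l5 v (hDU hv) (hX v hv)))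
  have hmem : ∀ v ∈ D, c2 v ∈ L v ∧ (Γ.Adj u v → c2 v ≠ c1 u) := by
    intro v hv
    have h1 := b2 v hv (Set.notMem_empty v)
    dsimp only at h1
    by_cases ha : Γ.Adj u v
    · rw [if_pos ha, Finset.mem_erase] at h1
      exact ⟨h1.2, fun _ => h1.1⟩
    · rw [if_neg ha] at h1
      exact ⟨h1, fun hh => absurd hh ha⟩
  have hmix : ∀ x ∈ D, ∀ y ∈ U, y ∉ D → Γ.Adj x y → c2 x ≠ c1 y := by
    intro x hx y hy hyD hxy
    by_cases hyu : y = u
    · rw [hyu] at hxy ⊢
      exact (hmem x hx).2 hxy.symm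
    · exact absurd (hcl x hx y ⟨hy, hyu⟩ hxy) hyD
  refine ⟨fun v => if v ∈ D then c2 v else c1 v, ?_, ?_, ?_⟩
  · intro p hp
    show (if p ∈ D then c2 p else c1 p) = c0 p
    rw [if_neg (hPD p hp)]
    exact a1 p hp
  · intro v hv hvP
    show (if v ∈ D then c2 v else c1 v) ∈ L v
    by_cases hvD : v ∈ D
    · rw [if_pos hvD]
      exact (hmem v hvD).1
    · rw [if_neg hvD]
      exact a2 v ⟨hv, hvD⟩ hvP
  · intro x hx y hy hxy
    show (if x ∈ D then c2 x else c1 x) ≠ (if y ∈ D then c2 y else c1 y)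
    by_cases hxD : x ∈ D
    · by_cases hyD : y ∈ D
      · rw [if_pos hxD, if_pos hyD]
        exact b3 x hxD y hyD hxy
      · rw [if_pos hxD, if_neg hyD]
        exact hmix x hxD y hy hyD hxy
    · by_cases hyD : y ∈ D
      · rw [if_neg hxD, if_pos hyD]
        exact (hmix y hyD x hx hxD hxy.symm).symm
      · rw [if_neg hxD, if_neg hyD]
        exact a3 x ⟨hx, hxD⟩ y ⟨hy, hyD⟩ hxy

end Pool.Agent.AC5
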