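import Pool.Agent.AC5.St1

set_option autoImplicit false

/-!
# AC5/St2: steps of the induction: cut vertices and separating edges (MP_289c47_co, helper88)

PROOF. `step_cut`: let `W = U \ {u}`. If some nonempty `D ⊆ W` closed in `W` contains no vertex adjacent to `Z`:
`step_free`. So assume that every nonempty closed `D ⊆ W` contains a vertex adjacent to `Z` (**).
By `not_conn_split` there is `D0 ⊆ W` nonempty, closed, `≠ W`, with closed complement `W \ D0`. `P \ {u}` is a clique, so it is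
contained in one of `D0`, `W \ D0`; let `D` be the other one: `D ∩ P = ∅` (`u ∉ D`), and let
`M = W \ D`, nonempty and closed in `W`. Let `D'' = comp Γ W a` for some `a ∈ M`; `D'' ⊆ M` (`M` is closed in `W`, so it
contains the smallest closed set containing `a`). `D''` is connected (`comp_conn`), closed in `W` (`comp_closed`), so by
(**) it contains a vertex adjacent to `Z`: `Z ∪ D''` is connected (`Conn.union`). Also `u` is adjacent to an element of
`D''`: `exists_nb_of_closed` with `Y = {u}`.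
First instance `(Z, U \ D, P)` (smaller since `D ≠ ∅`), colouring `c1`. Second instance: `Z' = Z ∪ D''`,
`U' = D ∪ {u}`, `P' = {u}`, lists `L`, precolouring `c1`: `Z'` and `U'` are disjoint (`D''  ⊆ M`, `D`, `{u}` are
disjoint, `Z` is disjoint from `U`); `nb Γ Z' u`; for `v ∈ D`: `v ∉ P`, so `l3`; there are no edges between `D` and
`D''` (`D` is closed in `W` and `D'' ∩ D = ∅`), so `nb Γ Z' v` iff `nb Γ Z v`, giving `l5`; `u` is adjacent to `Z'`, so
`l5` says nothing for it, and `u ∈ P'` so `l3` says nothing. `U'.ncard < U.ncard` because `D''` is nonempty. Let `c2` be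
the colouring, `c2 u = c1 u`. Combine: `c v = c2 v` for `v ∈ D`, `c1 v` otherwise. An edge between `x ∈ D` and
`y ∈ U \ D` has `y = u` and `c2 x ≠ c2 u = c1 u`.
`step_sep`: `W = U \ {u, w}` nonempty, not connected: `D0` as above (closed with closed complement in `W`),
`P \ {u, w}` is a clique contained in `D0` or in `W \ D0`; let `D` be the other one, `D ∩ P = ∅`, `W \ D ≠ ∅`.
`(Z, U \ D, P)` gives `c1`; then `(Z, D ∪ {u, w}, {u, w})` with the precolouring `c1` (proper on `{u, w}` because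
`u ~ w`), smaller since `W \ D ≠ ∅`; gives `c2`. Combine: `c v = c2 v` for `v ∈ D`, `c1 v` otherwise; an edge between
`x ∈ D` and `y ∈ U \ D` has `y ∈ {u, w}`, where `c1 = c2`.
-/

namespace Pool.Agent.AC5

variable {B : Type} [Finite B] {Γ : SimpleGraph B} {Z U P : Set B} {L : B → Finset ℕ} {c0 : B → ℕ}

omit [Finite B] in
/-- If `D` is closed in `W` with closed complement, then the part of the clique `P` in `W` is in `D` or
avoids `D`; the closed part avoiding `P`. -/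
private lemma st2_split {W P : Set B} (hP : ∀ p ∈ P, ∀ q ∈ P, p ≠ q → Γ.Adj p q)
    (h0 : W.Nonempty) (h : ¬ Conn Γ W) :
    ∃ D ⊆ W, D.Nonempty ∧ (W \ D).Nonempty ∧ (∀ x ∈ D, ∀ y ∈ W, Γ.Adj x y → y ∈ D) ∧
      (∀ x ∈ W, x ∉ D → ∀ y ∈ W, Γ.Adj x y → y ∉ D) ∧ ∀ p ∈ P, p ∉ D := by
  obtain ⟨D, hD, h1, h2, h3, h4⟩ := not_conn_split h0 h
  have h5 : (W \ D).Nonempty := by
    rw [Set.sdiff_nonempty]
    exact fun h => h2 (Set.Subset.antisymm hD h)
  by_cases h6 : ∃ p ∈ P, p ∈ D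
  · obtain ⟨p, hp, hpD⟩ := h6
    refine ⟨W \ D, Set.sdiff_subset, h5, ?_, ?_, ?_, ?_⟩
    · obtain ⟨d, hd⟩ := h1
      exact ⟨d, hD hd, fun h => h.2 hd⟩
    · intro x hx y hy hxy
      exact ⟨hy, h4 x hx.1 hx.2 y hy hxy⟩
    · intro x hx hxD y hy hxy hyD
      have hx' : x ∈ D := by
        by_contra h
        exact hxD ⟨hx, h⟩
      exact hyD.2 (h3 x hx' y hy hxy)
    · intro q hq hqD
      have hqp : p ≠ q := fun h => hqD.2 (h ▸ hpD)
      exact hqD.2 (h3 p hpD q hqD.1 (hP p hp q hq hqp))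
  · exact ⟨D, hD, h1, h5, h3, h4, fun p hp hpD => h6 ⟨p, hp, hpD⟩⟩

omit [Finite B] in
/-- Restriction of an instance. -/
private lemma st2_restrict {U' : Set B} (h : Inst Γ Z U P L c0) (hU : U' ⊆ U) (hP : P ⊆ U') :
    Inst Γ Z U' P L c0 where
  cZ := h.cZ
  dis := h.dis.mono_right hU
  PU := hP
  PX := h.PX
  Pc := h.Pc
  clq := h.clq
  pro := h.pro
  l3 := fun v hv => h.l3 v (hU hv)
  l5 := fun v hv => h.l5 v (hU hv)

omit [Finite B] in
/-- Combination of two colourings. -/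
private lemma st2_combine {D P' : Set B} {c1 c2 : B → ℕ} (hD : ∀ p ∈ P, p ∉ D)
    (e1 : ∀ p ∈ P, c1 p = c0 p) (f1 : ∀ v ∈ U \ D, v ∉ P → c1 v ∈ L v)
    (g1 : ∀ u ∈ U \ D, ∀ v ∈ U \ D, Γ.Adj u v → c1 u ≠ c1 v)
    (e2 : ∀ p ∈ P', c2 p = c1 p) (f2 : ∀ v ∈ D, c2 v ∈ L v)
    (g2 : ∀ u ∈ D ∪ P', ∀ v ∈ D ∪ P', Γ.Adj u v → c2 u ≠ c2 v)
    (hcl : ∀ x ∈ D, ∀ y ∈ U, y ∉ D → Γ.Adj x y → y ∈ P') : Ext Γ U P L c0 := by
  classical
  refine ⟨fun v => if v ∈ D then c2 v else c1 v, ?_, ?_, ?_⟩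
  · intro p hp
    change (if p ∈ D then c2 p else c1 p) = c0 p
    rw [if_neg (hD p hp)]
    exact e1 p hp
  · intro v hv hvP
    change (if v ∈ D then c2 v else c1 v) ∈ L v
    split_ifs with h
    · exact f2 v h
    · exact f1 v ⟨hv, h⟩ hvP
  · intro u hu v hv huv
    change (if u ∈ D then c2 u else c1 u) ≠ (if v ∈ D then c2 v else c1 v)
    split_ifs with hu' hv' hv'
    · exact g2 u (Or.inl hu') v (Or.inl hv') huv
    · have h1 := hcl u hu' v hv hv' huv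
      rw [← e2 v h1]
      exact g2 u (Or.inl hu') v (Or.inr h1) huv
    · have h1 := hcl v hv' u hu hu' huv.symm
      rw [← e2 u h1]
      exact g2 u (Or.inr h1) v (Or.inl hv') huv
    · exact g1 u ⟨hu, hu'⟩ v ⟨hv, hv'⟩ huv

theorem step_cut (ih : IH Γ U) (h : Inst Γ Z U P L c0) (hU : Conn Γ U) {u : B} (hu : u ∈ U)
    (h0 : (U \ {u}).Nonempty) (hc : ¬ Conn Γ (U \ {u})) : Ext Γ U P L c0 := by
  by_cases hfree : ∃ D ⊆ U \ {u}, D.Nonempty ∧ (∀ x ∈ D, ∀ y ∈ U \ {u}, Γ.Adj x y → y ∈ D) ∧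
      ∀ v ∈ D, ¬ nb Γ Z v
  · obtain ⟨D, hD, h1, h2, h3⟩ := hfree
    exact step_free ih h hu hD h1 h2 h3
  have hss : ∀ D ⊆ U \ {u}, D.Nonempty → (∀ x ∈ D, ∀ y ∈ U \ {u}, Γ.Adj x y → y ∈ D) →
      ∃ v ∈ D, nb Γ Z v := by
    intro D hD h1 h2
    by_contra h3
    push Not at h3
    exact hfree ⟨D, hD, h1, h2, h3⟩
  obtain ⟨D, hD, hDne, hM, hcl, hcl', hPD⟩ := st2_split h.clq h0 hc
  have huD : u ∉ D := fun h' => (hD h').2 rfl
  have hDU : D ⊆ U := hD.trans Set.sdiff_subset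
  -- first instance
  have hlt1 : (U \ D).ncard < U.ncard := by
    apply Set.ncard_lt_ncard _ (Set.toFinite U)
    refine ⟨Set.sdiff_subset, fun h' => ?_⟩
    obtain ⟨d, hd⟩ := hDne
    exact (h' (hDU hd)).2 hd
  obtain ⟨c1, e1, f1, g1⟩ := ih _ _ _ _ _ hlt1
    (st2_restrict h Set.sdiff_subset (fun p hp => ⟨h.PU hp, hPD p hp⟩))
  -- the component
  obtain ⟨a, haW, haD⟩ := hM
  set W : Set B := U \ {u} with hWd
  set D2 : Set B := comp Γ W a with hD2
  have hD2W : D2 ⊆ W := comp_sub W a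
  have hD2M : ∀ v ∈ D2, v ∉ D := by
    intro v hv
    have := hv.2 (W \ D) Set.sdiff_subset ⟨haW, haD⟩ (fun x hx y hy hxy =>
      ⟨hy, hcl' x hx.1 hx.2 y hy hxy⟩)
    exact this.2
  have hD2cl : ∀ x ∈ D2, ∀ y ∈ W, Γ.Adj x y → y ∈ D2 := fun x hx y hy hxy =>
    comp_closed hx hy hxy
  obtain ⟨v0, hv0, z0, hz0, hz0v⟩ := hss D2 hD2W ⟨a, mem_comp_self haW⟩ hD2cl
  have hconn : Conn Γ (Z ∪ D2) := Conn.union h.cZ (comp_conn haW) ⟨z0, hz0, v0, hv0, hz0v⟩
  obtain ⟨x0, hx0, y0, hy0, hxy0⟩ := exists_nb_of_closed (Y := {u}) hU hD2W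
    ⟨a, mem_comp_self haW⟩ hD2cl ⟨u, rfl, hu⟩
  have hy0u : y0 = u := hy0.1
  rw [hy0u] at hxy0
  have hlt2 : (D ∪ {u}).ncard < U.ncard := by
    apply Set.ncard_lt_ncard _ (Set.toFinite U)
    refine ⟨Set.union_subset hDU (Set.singleton_subset_iff.2 hu), fun h' => ?_⟩
    rcases h' haW.1 with h'' | h''
    · exact haD h''
    · exact haW.2 h''
  have hnbD : ∀ v ∈ D, nb Γ (Z ∪ D2) v → nb Γ Z v := by
    rintro v hv ⟨b, hb | hb, hbv⟩
    · exact ⟨b, hb, hbv⟩
    · exact absurd (hcl v hv b (hD2W hb) hbv.symm) (hD2M b hb)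
  have inst2 : Inst Γ (Z ∪ D2) (D ∪ {u}) {u} L c1 := by
    refine ⟨hconn, ?_, Set.subset_union_right, ?_, ?_, ?_, ?_, ?_, ?_⟩
    · rw [Set.disjoint_left]
      rintro x (hx | hx) (hx' | hx')
      · exact Set.disjoint_left.1 h.dis hx (hDU hx')
      · exact Set.disjoint_left.1 h.dis hx (by rw [Set.mem_singleton_iff.1 hx']; exact hu)
      · exact hD2M x hx hx'
      · exact (hD2W hx).2 hx'
    · intro p hp
      rw [Set.mem_singleton_iff.1 hp]
      exact ⟨x0, Or.inr hx0, hxy0⟩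
    · rw [Set.ncard_singleton]
      norm_num
    · intro p hp q hq hpq
      exact absurd (by rw [Set.mem_singleton_iff.1 hp, Set.mem_singleton_iff.1 hq]) hpq
    · intro p hp q hq hpq
      exact absurd (by rw [Set.mem_singleton_iff.1 hp, Set.mem_singleton_iff.1 hq]) hpq
    · rintro v (hv | hv) hvu
      · exact h.l3 v (hDU hv) (fun hp => hPD v hp hv)
      · exact absurd hv hvu
    · rintro v (hv | hv) hnv
      · refine h.l5 v (hDU hv) fun ⟨b, hb, hbv⟩ => hnv ⟨b, Or.inl hb, hbv⟩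
      · rw [Set.mem_singleton_iff.1 hv] at hnv
        exact absurd ⟨x0, Or.inr hx0, hxy0⟩ hnv
  obtain ⟨c2, e2, f2, g2⟩ := ih _ _ _ _ _ hlt2 inst2
  refine st2_combine (D := D) (P' := {u}) hPD e1 f1 g1 e2 (fun v hv => f2 v (Or.inl hv) (fun hvu => by
    rw [Set.mem_singleton_iff.1 hvu] at hv; exact huD hv)) g2 ?_
  intro x hx y hy hyD hxy
  by_contra hyu
  exact hyD (hcl x hx y ⟨hy, hyu⟩ hxy)

theorem step_sep (ih : IH Γ U) (h : Inst Γ Z U P L c0) {u w : B} (hu : u ∈ U) (hw : w ∈ U)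
    (huZ : nb Γ Z u) (hwZ : nb Γ Z w) (huw : Γ.Adj u w) (h0 : (U \ {u, w}).Nonempty)
    (hc : ¬ Conn Γ (U \ {u, w})) : Ext Γ U P L c0 := by
  obtain ⟨D, hD, hDne, hM, hcl, hcl', hPD⟩ := st2_split h.clq h0 hc
  have huD : u ∉ D := fun h' => (hD h').2 (Or.inl rfl)
  have hwD : w ∉ D := fun h' => (hD h').2 (Or.inr rfl)
  have hDU : D ⊆ U := hD.trans Set.sdiff_subset
  have hlt1 : (U \ D).ncard < U.ncard := by
    apply Set.ncard_lt_ncard _ (Set.toFinite U)
    refine ⟨Set.sdiff_subset, fun h' => ?_⟩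
    obtain ⟨d, hd⟩ := hDne
    exact (h' (hDU hd)).2 hd
  obtain ⟨c1, e1, f1, g1⟩ := ih _ _ _ _ _ hlt1
    (st2_restrict h Set.sdiff_subset (fun p hp => ⟨h.PU hp, hPD p hp⟩))
  obtain ⟨a, haW, haD⟩ := hM
  have hPU : ({u, w} : Set B) ⊆ U := by
    rintro p (hp | hp)
    · rw [hp]; exact hu
    · rw [Set.mem_singleton_iff.1 hp]; exact hw
  have hlt2 : (D ∪ {u, w}).ncard < U.ncard := by
    apply Set.ncard_lt_ncard _ (Set.toFinite U)
    refine ⟨Set.union_subset hDU hPU, fun h' => ?_⟩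
    rcases h' haW.1 with h'' | h''
    · exact haD h''
    · exact haW.2 h''
  have hPDu : ∀ p ∈ ({u, w} : Set B), p ∉ D := by
    rintro p (hp | hp)
    · rw [hp]; exact huD
    · rw [Set.mem_singleton_iff.1 hp]; exact hwD
  have inst2 : Inst Γ Z (D ∪ {u, w}) {u, w} L c1 := by
    refine ⟨h.cZ, h.dis.mono_right (Set.union_subset hDU hPU), Set.subset_union_right, ?_, ?_, ?_, ?_,
      ?_, ?_⟩
    · rintro p (hp | hp)
      · rw [hp]; exact huZ
      · rw [Set.mem_singleton_iff.1 hp]; exact hwZ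
    · refine (Set.ncard_insert_le u {w}).trans ?_
      rw [Set.ncard_singleton]
    · rintro p (hp | hp) q (hq | hq) hpq
      · exact absurd (hp.trans hq.symm) hpq
      · rw [hp, Set.mem_singleton_iff.1 hq]; exact huw
      · rw [hq, Set.mem_singleton_iff.1 hp]; exact huw.symm
      · exact absurd (Set.mem_singleton_iff.1 hp |>.trans (Set.mem_singleton_iff.1 hq).symm) hpq
    · rintro p (hp | hp) q (hq | hq) hpq
      · exact absurd (hp.trans hq.symm) hpq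
      · rw [hp, Set.mem_singleton_iff.1 hq]
        exact g1 u ⟨hu, huD⟩ w ⟨hw, hwD⟩ huw
      · rw [hq, Set.mem_singleton_iff.1 hp]
        exact g1 w ⟨hw, hwD⟩ u ⟨hu, huD⟩ huw.symm
      · exact absurd (Set.mem_singleton_iff.1 hp |>.trans (Set.mem_singleton_iff.1 hq).symm) hpq
    · rintro v (hv | hv) hvu
      · exact h.l3 v (hDU hv) (fun hp => hPD v hp hv)
      · exact absurd hv hvu
    · rintro v (hv | hv) hnv
      · exact h.l5 v (hDU hv) hnv
      · exact h.l5 v (hPU hv) hnv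
  obtain ⟨c2, e2, f2, g2⟩ := ih _ _ _ _ _ hlt2 inst2
  refine st2_combine (D := D) (P' := {u, w}) hPD e1 f1 g1 e2
    (fun v hv => f2 v (Or.inl hv) (fun hvu => hPDu v hvu hv)) g2 ?_
  intro x hx y hy hyD hxy
  by_contra hyu
  exact hyD (hcl x hx y ⟨hy, hyu⟩ hxy)

end Pool.Agent.AC5
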