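import Pool.Agent.AC5.CB

set_option autoImplicit false

/-!
# AC5/TwoReg: removing two vertices from a cycle (MP_289c47_co, helper88)

`C` is a finite connected set in which every vertex has exactly two neighbours; `y, y' ∈ C` are different and not
adjacent. Then `C \ {y, y'}` contains two disjoint connected sets, each touching `y` and `y'`.

PROOF. Let `W = C \ {y, y'}`. (1) Let `a ∈ W` be a neighbour of `y` and `A = comp Γ W a`. Claim: `A` contains exactly
one neighbour of `y` and exactly one neighbour of `y'`. The number of pairs `(x, w)` with `x ∈ A`, `w ∈ C`, `x ~ w` is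
`2 * A.ncard` (each `x` has exactly two neighbours in `C`). Such a `w` is in `A` or in `{y, y'}` (`comp_closed`). The
number of pairs with `w ∈ A` is `2 * e`, `e` the number of edges inside `A`, and `e + 1 ≥ A.ncard` because `A` is
connected (`SimpleGraph.Connected.card_vert_le_card_edgeSet_add_one` for `Γ.induce A`; the connectedness of
`Γ.induce A` follows from `Conn Γ A`: the set of elements reachable from `a` is closed;
`SimpleGraph.sum_degrees_eq_twice_card_edges`). So the number `k` of pairs with `w ∈ {y, y'}` satisfies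
`k + 2 e = 2 * A.ncard ≤ 2 e + 2`, hence `k ≤ 2` and `k` is even; `k ≥ 1` because of `(a, y)`; so `k = 2`. It is
impossible that both pairs have `w = y` (or that both have `w = y'`): if no element of `A` is adjacent to `y'` then
`A ∪ {y}` is closed in `C`? (The neighbours of `y` in `C` are exactly two and both are in `A` in this case; neighbours
of elements of `A` are in `A ∪ {y}`.) So `A ∪ {y} = C` (`hC.2`), but `y' ∉ A ∪ {y}`. The case that both have `w = y'`
does not occur because `(a, y)` is one of the pairs. So there is exactly one with `w = y` and one with `w = y'`.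
(2) `y` has two neighbours `a ≠ b` in `C`, both in `W` (`y ≁ y'`, `y ≁ y`). `A = comp Γ W a`, `A' = comp Γ W b`. By (1)
`b ∉ A` (`A` contains only one neighbour of `y`), so they are disjoint (`comp_disj`). Both are connected
(`comp_conn`) and both contain a neighbour of `y` and a neighbour of `y'` by (1).
-/

namespace Pool.Agent.AC5

private lemma tr_conn {B : Type} {Γ : SimpleGraph B} {A : Set B} (hA : Conn Γ A) :
    (Γ.induce A).Connected := by
  obtain ⟨a, ha⟩ := hA.1
  have h : ∀ x (hx : x ∈ A), (Γ.induce A).Reachable ⟨a, ha⟩ ⟨x, hx⟩ := by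
    have hD := hA.2 {x | ∃ hx : x ∈ A, (Γ.induce A).Reachable ⟨a, ha⟩ ⟨x, hx⟩}
      (fun x hx => hx.1) ⟨a, ha, SimpleGraph.Reachable.refl _⟩ ?_
    · intro x hx
      have : x ∈ {x | ∃ hx : x ∈ A, (Γ.induce A).Reachable ⟨a, ha⟩ ⟨x, hx⟩} := by
        rw [hD]; exact hx
      exact this.2
    · rintro x ⟨hx, hr⟩ z hz hxz
      refine ⟨hz, hr.trans ?_⟩
      apply SimpleGraph.Adj.reachable
      exact hxz
  have : Nonempty A := ⟨⟨a, ha⟩⟩
  exact ⟨fun u v => (h u.1 u.2).symm.trans (h v.1 v.2)⟩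

private lemma tr_count {B : Type} [Finite B] {Γ : SimpleGraph B} {C : Set B}
    (h2 : ∀ x ∈ C, {w | w ∈ C ∧ Γ.Adj x w}.ncard = 2) {y y' : B} (hy : y ∈ C) (hy' : y' ∈ C)
    (hne : y ≠ y') {A : Set B} (hA : Conn Γ A) (hAW : A ⊆ C \ {y, y'})
    (hcl : ∀ x ∈ A, ∀ w ∈ C \ {y, y'}, Γ.Adj x w → w ∈ A) :
    ∃ e : ℕ, {x | x ∈ A ∧ Γ.Adj x y}.ncard + {x | x ∈ A ∧ Γ.Adj x y'}.ncard + 2 * e =
      2 * A.ncard ∧ A.ncard ≤ e + 1 := by
  classical
  have := Fintype.ofFinite B
  have hc := tr_conn hA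
  have he := hc.card_vert_le_card_edgeSet_add_one
  have hs := (Γ.induce A).sum_degrees_eq_twice_card_edges
  refine ⟨Nat.card (Γ.induce A).edgeSet, ?_, ?_⟩
  · have hdeg : ∀ x : A, (Γ.induce A).degree x + (if Γ.Adj x.1 y then 1 else 0) +
        (if Γ.Adj x.1 y' then 1 else 0) = 2 := by
      intro x
      have hx := hAW x.2
      have h3 := h2 x.1 hx.1
      have e1 : {w | w ∈ C ∧ Γ.Adj x.1 w} =
          ({w | w ∈ A ∧ Γ.Adj x.1 w} ∪ {w | w = y ∧ Γ.Adj x.1 y}) ∪ {w | w = y' ∧ Γ.Adj x.1 y'} := by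
        ext w
        simp only [Set.mem_ofPred_eq, Set.mem_union]
        constructor
        · rintro ⟨hw, hxw⟩
          by_cases h4 : w = y
          · left; right; exact ⟨h4, h4 ▸ hxw⟩
          · by_cases h5 : w = y'
            · right; exact ⟨h5, h5 ▸ hxw⟩
            · left; left
              exact ⟨hcl x.1 x.2 w ⟨hw, by simp [h4, h5]⟩ hxw, hxw⟩
        · rintro ((⟨hw, hxw⟩ | ⟨rfl, hxw⟩) | ⟨rfl, hxw⟩)
          · exact ⟨(hAW hw).1, hxw⟩
          · exact ⟨hy, hxw⟩
          · exact ⟨hy', hxw⟩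
      rw [e1, Set.ncard_union_eq, Set.ncard_union_eq] at h3
      · have e2 : {w | w ∈ A ∧ Γ.Adj x.1 w}.ncard = (Γ.induce A).degree x := by
          rw [← SimpleGraph.card_neighborSet_eq_degree, ← Nat.card_eq_fintype_card,
            Nat.card_coe_set_eq]
          symm
          refine Set.ncard_congr (fun w _ => w.1) ?_ ?_ ?_
          · intro w hw
            exact ⟨w.2, hw⟩
          · intro u v _ _ h
            exact Subtype.ext h
          · rintro w ⟨hw, hxw⟩
            exact ⟨⟨w, hw⟩, hxw, rfl⟩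
        have e3 : ∀ z, {w | w = z ∧ Γ.Adj x.1 z}.ncard = if Γ.Adj x.1 z then 1 else 0 := by
          intro z
          by_cases h : Γ.Adj x.1 z
          · simp [h]
          · simp [h]
        rw [e2, e3, e3] at h3
        exact h3
      · rw [Set.disjoint_left]
        rintro w ⟨hw, _⟩ ⟨rfl, _⟩
        exact (hAW hw).2 (by simp)
      · rw [Set.disjoint_left]
        rintro w (⟨hw, _⟩ | ⟨rfl, _⟩) ⟨h, _⟩
        · subst h
          exact (hAW hw).2 (by simp)
        · exact hne h
    have hsum : ∑ x : A, ((Γ.induce A).degree x + (if Γ.Adj x.1 y then 1 else 0) +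
        (if Γ.Adj x.1 y' then 1 else 0)) = ∑ _x : A, 2 := Finset.sum_congr rfl fun x _ => hdeg x
    rw [Finset.sum_add_distrib, Finset.sum_add_distrib, hs] at hsum
    have e4 : ∀ z, ∑ x : A, (if Γ.Adj x.1 z then 1 else 0) = {x | x ∈ A ∧ Γ.Adj x z}.ncard := by
      intro z
      rw [Finset.sum_boole, Nat.cast_id]
      rw [← Set.ncard_coe_finset]
      refine Set.ncard_congr (fun w _ => w.1) ?_ ?_ ?_
      · intro w hw
        exact ⟨w.2, by simpa using hw⟩
      · intro u v _ _ h
        exact Subtype.ext h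
      · rintro w ⟨hw, hxw⟩
        exact ⟨⟨w, hw⟩, by simpa using hxw, rfl⟩
    rw [e4, e4] at hsum
    have e5 : ∑ _x : A, 2 = 2 * A.ncard := by
      rw [Finset.sum_const, Finset.card_univ, ← Nat.card_eq_fintype_card, Nat.card_coe_set_eq,
        smul_eq_mul, mul_comm]
    rw [e5] at hsum
    have e6 : (Γ.induce A).edgeFinset.card = Nat.card (Γ.induce A).edgeSet := by
      rw [SimpleGraph.edgeFinset_card, Nat.card_eq_fintype_card]
    rw [e6] at hsum
    omega
  · rw [Nat.card_coe_set_eq] at he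
    exact he

theorem two_arcs {B : Type} [Finite B] {Γ : SimpleGraph B} {C : Set B} (hC : Conn Γ C)
    (h2 : ∀ x ∈ C, {w | w ∈ C ∧ Γ.Adj x w}.ncard = 2) {y y' : B} (hy : y ∈ C) (hy' : y' ∈ C)
    (hne : y ≠ y') (hna : ¬ Γ.Adj y y') :
    ∃ A1 A2 : Set B, A1 ⊆ C \ {y, y'} ∧ A2 ⊆ C \ {y, y'} ∧ Conn Γ A1 ∧ Conn Γ A2 ∧
      Disjoint A1 A2 ∧ nb Γ A1 y ∧ nb Γ A1 y' ∧ nb Γ A2 y ∧ nb Γ A2 y' := by
  classical
  obtain ⟨a, b, hab, hset⟩ := Set.ncard_eq_two.1 (h2 y hy)
  have haC : a ∈ C ∧ Γ.Adj y a := by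
    have : a ∈ {w | w ∈ C ∧ Γ.Adj y w} := by rw [hset]; simp
    exact this
  have hbC : b ∈ C ∧ Γ.Adj y b := by
    have : b ∈ {w | w ∈ C ∧ Γ.Adj y w} := by rw [hset]; simp
    exact this
  have hyset : ∀ w ∈ C, Γ.Adj y w → w = a ∨ w = b := by
    intro w hw hyw
    have : w ∈ {w | w ∈ C ∧ Γ.Adj y w} := ⟨hw, hyw⟩
    rw [hset] at this
    simpa using this
  -- the claim for a component
  have key : ∀ u, u ∈ C → Γ.Adj y u →
      u ∈ C \ {y, y'} ∧ {x | x ∈ comp Γ (C \ {y, y'}) u ∧ Γ.Adj x y}.ncard = 1 ∧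
        nb Γ (comp Γ (C \ {y, y'}) u) y' := by
    intro u hu hyu
    have huW : u ∈ C \ {y, y'} := by
      refine ⟨hu, ?_⟩
      simp only [Set.mem_insert_iff, Set.mem_singleton_iff, not_or]
      refine ⟨?_, ?_⟩
      · rintro rfl; exact hyu.ne rfl
      · rintro rfl; exact hna hyu
    refine ⟨huW, ?_⟩
    set A := comp Γ (C \ {y, y'}) u with hAdef
    have hAc : Conn Γ A := comp_conn huW
    have hAW : A ⊆ C \ {y, y'} := comp_sub _ _
    have hcl : ∀ x ∈ A, ∀ w ∈ C \ {y, y'}, Γ.Adj x w → w ∈ A := fun x hx w hw h =>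
      comp_closed hx hw h
    obtain ⟨e, h3, h4⟩ := tr_count h2 hy hy' hne hAc hAW hcl
    have huA : u ∈ A := mem_comp_self huW
    have hpos : 1 ≤ {x | x ∈ A ∧ Γ.Adj x y}.ncard := by
      rw [Nat.one_le_iff_ne_zero, Ne, Set.ncard_eq_zero]
      intro h
      have : u ∈ ({x | x ∈ A ∧ Γ.Adj x y} : Set B) := ⟨huA, hyu.symm⟩
      rw [h] at this
      exact this
    -- the number of neighbours of y' is positive
    have hpos' : {x | x ∈ A ∧ Γ.Adj x y'}.ncard ≠ 0 := by
      intro h
      rw [Set.ncard_eq_zero] at h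
      have hno : ∀ x ∈ A, ¬ Γ.Adj x y' := by
        intro x hx hxy
        have : x ∈ ({x | x ∈ A ∧ Γ.Adj x y'} : Set B) := ⟨hx, hxy⟩
        rw [h] at this
        exact this
      have hny : {x | x ∈ A ∧ Γ.Adj x y}.ncard = 2 := by
        rw [h, Set.ncard_empty] at h3
        omega
      have hsub : {x | x ∈ A ∧ Γ.Adj x y} ⊆ {w | w ∈ C ∧ Γ.Adj y w} := by
        rintro x ⟨hx, hxy⟩
        exact ⟨(hAW hx).1, hxy.symm⟩
      have heq : {x | x ∈ A ∧ Γ.Adj x y} = {w | w ∈ C ∧ Γ.Adj y w} :=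
        Set.eq_of_subset_of_ncard_le hsub (by rw [hny, h2 y hy]) (Set.toFinite _)
      have hD := hC.2 (insert y A) (Set.insert_subset hy (hAW.trans Set.sdiff_subset))
        (Set.insert_nonempty _ _) ?_
      · have : y' ∈ insert y A := by rw [hD]; exact hy'
        rcases this with h | h
        · exact hne h.symm
        · exact (hAW h).2 (by simp)
      · intro x hx w hw hxw
        rcases hx with rfl | hx
        · right
          have : w ∈ {x_1 | x_1 ∈ A ∧ Γ.Adj x_1 x} := by rw [heq]; exact ⟨hw, hxw⟩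
          exact this.1
        · by_cases h5 : w = y
          · left; exact h5
          · right
            refine hcl x hx w ⟨hw, ?_⟩ hxw
            simp only [Set.mem_insert_iff, Set.mem_singleton_iff, not_or]
            refine ⟨h5, ?_⟩
            rintro rfl
            exact hno x hx hxw
    constructor
    · omega
    · obtain ⟨x, hx⟩ := Set.nonempty_of_ncard_ne_zero hpos'
      exact ⟨x, hx.1, hx.2⟩
  obtain ⟨haW, ha1, ha2⟩ := key a haC.1 haC.2
  obtain ⟨hbW, hb1, hb2⟩ := key b hbC.1 hbC.2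
  have hbn : b ∉ comp Γ (C \ {y, y'}) a := by
    intro h
    have hsub : ({a, b} : Set B) ⊆ {x | x ∈ comp Γ (C \ {y, y'}) a ∧ Γ.Adj x y} := by
      rintro x (rfl | rfl)
      · exact ⟨mem_comp_self haW, haC.2.symm⟩
      · exact ⟨h, hbC.2.symm⟩
    have := Set.ncard_le_ncard hsub (Set.toFinite _)
    rw [ha1, Set.ncard_pair hab] at this
    omega
  exact ⟨_, _, comp_sub _ _, comp_sub _ _, comp_conn haW, comp_conn hbW, comp_disj hbW hbn,
    ⟨a, mem_comp_self haW, haC.2.symm⟩, ha2, ⟨b, mem_comp_self hbW, hbC.2.symm⟩, hb2⟩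

end Pool.Agent.AC5
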